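import Pool.Agent.BCX6.PointGeo
import Pool.Agent.BCX.SpecialAux
import Mathlib.RingTheory.Henselian
import Mathlib.RingTheory.AdicCompletion.Completeness
import Mathlib.FieldTheory.IsAlgClosed.AlgebraicClosure

/-!
# Points on absolutely irreducible curves over finite fields
-/

set_option autoImplicit false

namespace Pool.Agent.BCX6

open Polynomial Pool.Agent.BCX

/-- no nonzero polynomial vanishes at a power series `x1 + X` -/
theorem aeval_shift_ne {F : Type} [Field F] (x1 : F) (s : F[X]) (hs : s ≠ 0) :
    aeval (PowerSeries.C x1 + PowerSeries.X : PowerSeries F) s ≠ 0 := by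
  intro h
  apply hs
  have hX : ∀ g : F[X], aeval (PowerSeries.X : PowerSeries F) g = (g : PowerSeries F) := by
    intro g
    have h0 : (aeval (PowerSeries.X : PowerSeries F) : F[X] →ₐ[F] PowerSeries F) =
        coeToPowerSeries.algHom F := by
      apply Polynomial.algHom_ext
      simp
    rw [h0]
    simp
  have h1 : aeval (PowerSeries.X : PowerSeries F) (s.comp (X + C x1)) = 0 := by
    rw [aeval_comp]
    have h2 : aeval (PowerSeries.X : PowerSeries F) (X + C x1 : F[X]) =
        PowerSeries.C x1 + PowerSeries.X := by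
      rw [map_add, aeval_X, aeval_C, add_comm]
      rfl
    rw [h2, h]
  rw [hX, ← Polynomial.coe_zero, Polynomial.coe_inj] at h1
  have h3 : (s.comp (X + C x1)).comp (X - C x1) = s := by
    rw [comp_assoc]
    simp
  rw [← h3, h1, zero_comp]

/-- Hensel: a simple point of the curve extends to a branch -/
theorem exists_branch {F : Type} [Field F] (f : F[X][X]) (hf : f.Monic) (r : F[X]) (a b : F[X][X])
    (hsep : a * f + b * derivative f = C r) (x1 y1 : F) (h1 : ev2 x1 y1 f = 0)
    (hr : aeval x1 r ≠ 0) :
    ∃ θ : PowerSeries F, ev2 (PowerSeries.C x1 + PowerSeries.X) θ f = 0 := by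
  set ξ : PowerSeries F := PowerSeries.C x1 + PowerSeries.X with hξ
  set φ : F[X] →+* PowerSeries F := ((aeval ξ : F[X] →ₐ[F] PowerSeries F) : F[X] →+* PowerSeries F)
    with hφ
  have hev : ∀ (y : PowerSeries F) (g : F[X][X]), (g.map φ).eval y = ev2 ξ y g := by
    intro y g
    rw [eval_map, ev2, coe_eval₂RingHom]
  -- the reduction
  have hred : ∀ (g : F[X][X]), PowerSeries.constantCoeff (ev2 ξ (PowerSeries.C y1) g) =
      ev2 x1 y1 g := by
    intro g
    have h2 : (PowerSeries.constantCoeff (R := F)).comp (ev2 (F := F) ξ (PowerSeries.C y1)) =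
        ev2 x1 y1 := by
      refine Polynomial.ringHom_ext (fun Q => ?_) ?_
      · simp only [RingHom.comp_apply, Spec.ev2_C]
        have h3 : (PowerSeries.constantCoeff (R := F)).comp
            ((aeval ξ : F[X] →ₐ[F] PowerSeries F) : F[X] →+* PowerSeries F) =
            ((aeval x1 : F[X] →ₐ[F] F) : F[X] →+* F) := by
          refine Polynomial.ringHom_ext (fun c => ?_) ?_
          · simp
          · simp [hξ]
        exact RingHom.congr_fun h3 Q
      · simp [ev2]
    exact RingHom.congr_fun h2 g
  have hI : ∀ s : PowerSeries F, s ∈ Ideal.span {(PowerSeries.X : PowerSeries F)} ↔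
      PowerSeries.constantCoeff s = 0 := by
    intro s
    rw [Ideal.mem_span_singleton, PowerSeries.X_dvd_iff]
  have hens : HenselianRing (PowerSeries F) (Ideal.span {(PowerSeries.X : PowerSeries F)}) :=
    inferInstance
  obtain ⟨θ, hθ, -⟩ := hens.is_henselian (f.map φ) (hf.map φ) (PowerSeries.C y1) (by
      rw [hI, hev, hred, h1]) (by
      refine IsUnit.map _ ?_
      rw [derivative_map, hev, PowerSeries.isUnit_iff_constantCoeff, hred, isUnit_iff_ne_zero]
      intro h2
      apply hr
      have h3 := congrArg (ev2 x1 y1) hsep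
      rw [map_add, map_mul, map_mul, h1, h2, mul_zero, mul_zero, add_zero, Spec.ev2_C] at h3
      exact h3.symm)
  exact ⟨θ, by rw [← hev]; exact hθ⟩

/-- the branch of an irreducible curve: the monomials are linearly independent -/
theorem linearIndependent_branch {F : Type} [Field F] (f : F[X][X]) (hf : f.Monic)
    (hirr : Irreducible f) (x1 : F) (θ : PowerSeries F)
    (hθ : ev2 (PowerSeries.C x1 + PowerSeries.X) θ f = 0) :
    LinearIndependent F (fun ij : ℕ × Fin f.natDegree =>
      (PowerSeries.C x1 + PowerSeries.X : PowerSeries F) ^ ij.1 * θ ^ (ij.2 : ℕ)) := by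
  classical
  set ξ : PowerSeries F := PowerSeries.C x1 + PowerSeries.X with hξ
  -- polynomials of small degree do not vanish
  have key : ∀ g : F[X][X], g.natDegree < f.natDegree → ev2 ξ θ g = 0 → g = 0 := by
    intro g hg h0
    by_contra hne
    have hinj : Function.Injective (algebraMap F[X] (RatFunc F)) :=
      IsFractionRing.injective F[X] (RatFunc F)
    have hirr' : Irreducible (f.map (algebraMap F[X] (RatFunc F))) :=
      (hf.irreducible_iff_irreducible_map_fraction_map).1 hirr
    have hcop : IsCoprime (f.map (algebraMap F[X] (RatFunc F)))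
        (g.map (algebraMap F[X] (RatFunc F))) := by
      rw [hirr'.coprime_iff_not_dvd]
      intro hdvd
      have h1 : g.map (algebraMap F[X] (RatFunc F)) ≠ 0 := by
        rwa [Ne, Polynomial.map_eq_zero_iff hinj]
      have h2 := natDegree_le_of_dvd hdvd h1
      rw [natDegree_map_eq_of_injective hinj, natDegree_map_eq_of_injective hinj] at h2
      omega
    obtain ⟨a', b', h⟩ := hcop
    obtain ⟨ra, hra, ha⟩ := IsLocalization.integerNormalization_spec (nonZeroDivisors F[X]) a'
    obtain ⟨rb, hrb, hb⟩ := IsLocalization.integerNormalization_spec (nonZeroDivisors F[X]) b'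
    set A := IsLocalization.integerNormalization (nonZeroDivisors F[X]) a'
    set B := IsLocalization.integerNormalization (nonZeroDivisors F[X]) b'
    have hAB : C rb * A * f + C ra * B * g = C (ra * rb) := by
      apply map_injective (algebraMap F[X] (RatFunc F)) hinj
      have ha' : A.map (algebraMap F[X] (RatFunc F)) = C (algebraMap F[X] (RatFunc F) ra) * a' := by
        rw [ha, ← algebraMap_smul (RatFunc F) ra a', smul_eq_C_mul]
      have hb' : B.map (algebraMap F[X] (RatFunc F)) = C (algebraMap F[X] (RatFunc F) rb) * b' := by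
        rw [hb, ← algebraMap_smul (RatFunc F) rb b', smul_eq_C_mul]
      rw [Polynomial.map_add, Polynomial.map_mul, Polynomial.map_mul, Polynomial.map_mul,
        Polynomial.map_mul, map_C, map_C, map_C, ha', hb', map_mul, C_mul]
      linear_combination (C (algebraMap F[X] (RatFunc F) ra) * C (algebraMap F[X] (RatFunc F) rb)) * h
    have h4 := congrArg (ev2 ξ θ) hAB
    rw [map_add, map_mul _ (C rb * A) f, map_mul _ (C ra * B) g, hθ, h0, mul_zero, mul_zero,
      add_zero, Spec.ev2_C] at h4
    exact aeval_shift_ne x1 (ra * rb)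
      (mul_ne_zero (nonZeroDivisors.ne_zero hra) (nonZeroDivisors.ne_zero hrb)) h4.symm
  rw [linearIndependent_iff]
  intro l hl
  -- the polynomial of the relation
  let g : F[X][X] := ∑ ij ∈ l.support, C (monomial ij.1 (l ij)) * X ^ (ij.2 : ℕ)
  have hg0 : ev2 ξ θ g = 0 := by
    rw [map_sum]
    rw [Finsupp.linearCombination_apply, Finsupp.sum] at hl
    rw [← hl]
    refine Finset.sum_congr rfl fun ij _ => ?_
    rw [map_mul, Spec.ev2_C, map_pow, aeval_monomial, Algebra.smul_def]
    simp only [ev2, coe_eval₂RingHom, eval₂_X]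
    rw [mul_assoc]
  have hD : ∀ ij ∈ l.support, 1 ≤ f.natDegree := fun ij _ => by
    have := ij.2.2
    omega
  have hdeg : l = 0 ∨ g.natDegree < f.natDegree := by
    rcases eq_or_ne l 0 with h | h
    · exact Or.inl h
    · right
      obtain ⟨ij0, h0⟩ := Finsupp.support_nonempty_iff.2 h
      have hf1 := hD ij0 h0
      have : g.natDegree ≤ f.natDegree - 1 := by
        refine natDegree_sum_le_of_forall_le _ _ fun ij _ => ?_
        refine (natDegree_C_mul_X_pow_le _ _).trans ?_
        have := ij.2.2
        omega
      omega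
  rcases hdeg with h | h
  · exact h
  have hg := key g h hg0
  ext ij
  have h5 := congrArg (fun q : F[X][X] => (q.coeff (ij.2 : ℕ)).coeff ij.1) hg
  simp only [coeff_zero] at h5
  rw [finsetSum_coeff, finsetSum_coeff] at h5
  rw [Finsupp.zero_apply, ← h5]
  symm
  by_cases hmem : ij ∈ l.support
  · rw [Finset.sum_eq_single_of_mem ij hmem]
    · simp
    · intro uv _ hne
      rw [coeff_C_mul_X_pow]
      split_ifs with h6
      · rw [coeff_monomial, if_neg]
        intro h7
        exact hne (Prod.ext h7 (Fin.ext h6.symm))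
      · simp
  · rw [Finset.sum_eq_zero]
    · exact (Finsupp.notMem_support_iff.1 hmem).symm
    · intro uv huv
      rw [coeff_C_mul_X_pow]
      split_ifs with h6
      · rw [coeff_monomial, if_neg]
        intro h7
        have : uv = ij := Prod.ext h7 (Fin.ext h6.symm)
        exact hmem (this ▸ huv)
      · simp

/-- a monic separable polynomial over `k[X]`, irreducible over the algebraic closure of the finite
field `k`, has points over all large finite extensions of `k`, away from a given nonzero polynomial -/
theorem exists_point_abs (p : ℕ) [Fact p.Prime] {k : Type} [Field k] [Finite k] [CharP k p]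
    (kb : Type) [Field kb] [IsAlgClosed kb] [Algebra k kb] [Algebra.IsAlgebraic k kb]
    (f : k[X][X]) (hf : f.Monic) (hirr : Irreducible (f.map (mapRingHom (algebraMap k kb))))
    (r : k[X]) (hr : r ≠ 0) (a b : k[X][X]) (hsep : a * f + b * derivative f = C r) :
    ∃ Q0 : ℕ, ∀ (L : Type) [Field L] [Finite L] [Algebra k L], Q0 ≤ Nat.card L →
      ∃ x0 y0 : L, ev2 x0 y0 f = 0 ∧ aeval x0 r ≠ 0 := by
  have hinj : Function.Injective (algebraMap k kb) := (algebraMap k kb).injective
  -- the degree is positive
  have hD : 1 ≤ f.natDegree := by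
    rw [Nat.one_le_iff_ne_zero]
    intro h0
    have h1 := eq_one_of_monic_natDegree_zero hf h0
    apply hirr.not_isUnit
    rw [h1, Polynomial.map_one]
    exact isUnit_one
  -- a point over the algebraic closure
  obtain ⟨x1, hx1⟩ : ∃ x1 : kb, aeval x1 r ≠ 0 := by
    by_contra hcon
    push Not at hcon
    have h1 : r.map (algebraMap k kb) = 0 := by
      apply Polynomial.funext
      intro x
      rw [eval_zero, ← hcon x, aeval_def, eval_map]
    rw [Polynomial.map_eq_zero_iff hinj] at h1
    exact hr h1
  have hmon1 : (f.map ((aeval x1 : k[X] →ₐ[k] kb) : k[X] →+* kb)).Monic := hf.map _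
  obtain ⟨y1, hy1⟩ := IsAlgClosed.exists_root (f.map ((aeval x1 : k[X] →ₐ[k] kb) : k[X] →+* kb)) (by
    rw [degree_eq_natDegree hmon1.ne_zero, hf.natDegree_map]
    intro h
    have : f.natDegree = 0 := by exact_mod_cast h
    omega)
  have hy1' : ev2 x1 y1 f = 0 := by
    rw [ev2, coe_eval₂RingHom, ← eval_map]
    exact hy1
  -- the field of definition of the point
  let F' := IntermediateField.adjoin k ({x1, y1} : Set kb)
  have hfd : FiniteDimensional k F' := IntermediateField.finiteDimensional_adjoin
    (fun s _ => (Algebra.IsAlgebraic.isAlgebraic s).isIntegral)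
  have hfin : Finite F' := Module.finite_of_finite k
  have hx1m : x1 ∈ F' := IntermediateField.subset_adjoin _ _ (by simp)
  have hy1m : y1 ∈ F' := IntermediateField.subset_adjoin _ _ (by simp)
  have hval : ∀ (g : k[X][X]), algebraMap F' kb (ev2 (⟨x1, hx1m⟩ : F') ⟨y1, hy1m⟩ g) =
      ev2 x1 y1 g := by
    intro g
    exact Spec.ev2_map F'.val (⟨x1, hx1m⟩ : F') ⟨y1, hy1m⟩ g
  set f' : F'[X][X] := f.map (mapRingHom (algebraMap k F')) with hf'
  have hcomp : (mapRingHom (algebraMap F' kb)).comp (mapRingHom (algebraMap k F')) =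
      mapRingHom (algebraMap k kb) := by
    rw [mapRingHom_comp, ← IsScalarTower.algebraMap_eq]
  have hf'm : f'.Monic := hf.map _
  have hirr' : Irreducible f' := by
    refine hf'm.irreducible_of_irreducible_map (mapRingHom (algebraMap F' kb)) _ ?_
    rw [hf', Polynomial.map_map, hcomp]
    exact hirr
  have hev' : ∀ (x y : F') (g : k[X][X]), ev2 x y (g.map (mapRingHom (algebraMap k F'))) =
      ev2 x y g := by
    intro x y g
    have h1 : (ev2 (F := F') x y).comp (mapRingHom (mapRingHom (algebraMap k F'))) = ev2 x y := by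
      refine Polynomial.ringHom_ext (fun Q => ?_) ?_
      · simp [ev2]
      · simp [ev2]
    exact RingHom.congr_fun h1 g
  obtain ⟨θ, hθ⟩ := exists_branch f' hf'm (r.map (algebraMap k F'))
    (a.map (mapRingHom (algebraMap k F'))) (b.map (mapRingHom (algebraMap k F'))) (by
      rw [hf', derivative_map, ← Polynomial.map_mul, ← Polynomial.map_mul, ← Polynomial.map_add,
        hsep, map_C]
      rfl) ⟨x1, hx1m⟩ ⟨y1, hy1m⟩ (by
      apply (algebraMap F' kb).injective
      rw [hf', hev', hval, hy1', map_zero]) (by
      intro h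
      apply hx1
      rw [aeval_map_algebraMap] at h
      have h2 := congrArg (algebraMap F' kb) h
      rw [map_zero, ← aeval_algebraMap_apply] at h2
      exact h2)
  have hnd : f'.natDegree = f.natDegree := by rw [hf', hf.natDegree_map]
  have hli := linearIndependent_branch f' hf'm hirr' _ θ hθ
  rw [hnd] at hli
  exact exists_point_geo p f hf hD _ θ hθ hli r hr a b hsep

end Pool.Agent.BCX6
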