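import Pool.Agent.BCX6.Near

/-!
# One-parameter families of polynomials: automorphisms
-/

set_option linter.unusedSectionVars false

namespace BCX6

open Polynomial Equiv

namespace Auto

section irr

variable {k : Type} [Field k]

lemma fK_eq_swap (A B : k[X]) : fK A B = Bivariate.swap (C B * X + C A : k[X][X]) := by
  rw [fK, Bivariate.swap_apply, aevalAeval, aevalAevalEquiv]
  simp only [Equiv.coe_fn_mk, AlgHom.coe_comp, AlgHom.coe_restrictScalars', coe_aeval_eq_eval,
    Function.comp_apply, map_add, map_mul, aeval_C, aeval_X, algebraMap_def, coe_mapRingHom,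
    eval_map_algebraMap, eval_C]
  rw [add_comm, mul_comm]
  rfl

lemma fK_irreducible {A B : k[X]} (hAB : IsCoprime A B) (hB : B ≠ 0) : Irreducible (fK A B) := by
  rw [fK_eq_swap, MulEquiv.irreducible_iff]
  exact irreducible_C_mul_X_add_C hB hAB.symm.isRelPrime

lemma fK_monic {A B : k[X]} (hA : A.Monic) (hdeg : B.degree < A.degree) : (fK A B).Monic := by
  apply (hA.map _).add_of_left
  calc (C X * B.map C : k[X][X]).degree = (B.map C).degree := by
        rw [degree_C_mul X_ne_zero]
    _ ≤ B.degree := degree_map_le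
    _ < A.degree := hdeg
    _ = (A.map C).degree := (degree_map_eq_of_injective C_injective A).symm

/-- `A + z B` over `k(z)` -/
noncomputable def fR (A B : k[X]) : (RatFunc k)[X] := (fK A B).map (algebraMap k[X] (RatFunc k))

lemma fR_monic {A B : k[X]} (hA : A.Monic) (hdeg : B.degree < A.degree) : (fR A B).Monic :=
  (fK_monic hA hdeg).map _

lemma fR_irreducible {A B : k[X]} (hAB : IsCoprime A B) (hA : A.Monic)
    (hdeg : B.degree < A.degree) (hB : B ≠ 0) : Irreducible (fR A B) :=
  (fK_monic hA hdeg).irreducible_iff_irreducible_map_fraction_map.1 (fK_irreducible hAB hB)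

variable {E : Type} [Field E] [Algebra (RatFunc k) E]

lemma fR_map (A B : k[X]) : (fR A B).map (algebraMap (RatFunc k) E) = fE E A B := by
  rw [fR, fK, fE, Polynomial.map_map, Polynomial.map_add, Polynomial.map_mul, map_C,
    Polynomial.map_map, Polynomial.map_map]
  have h1 : ((algebraMap (RatFunc k) E).comp (algebraMap k[X] (RatFunc k))).comp C = cst k E := by
    ext c
    rfl
  have h2 : ((algebraMap (RatFunc k) E).comp (algebraMap k[X] (RatFunc k))) X = zz k E := by
    change algebraMap (RatFunc k) E (algebraMap k[X] (RatFunc k) X) = _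
    rw [RatFunc.algebraMap_X]
    rfl
  rw [h1, h2]

lemma aeval_fR (A B : k[X]) (x : E) : aeval x (fR A B) = (fE E A B).eval x := by
  rw [← fR_map, eval_map, aeval_def]

/-- an automorphism over `k(z)` -/
lemma algEquiv_mem (σ : E ≃ₐ[RatFunc k] E) : (σ : E ≃+* E) ∈ G1 k E :=
  ⟨σ.commutes _, fun _ => σ.commutes _⟩

/-- elements of `G1` are automorphisms over `k(z)` -/
lemma map_algebraMap {σ : E ≃+* E} (hσ : σ ∈ G1 k E) (r : RatFunc k) :
    σ (algebraMap (RatFunc k) E r) = algebraMap (RatFunc k) E r := by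
  have h1 : ∀ P : k[X], σ (algebraMap (RatFunc k) E (algebraMap k[X] (RatFunc k) P)) =
      algebraMap (RatFunc k) E (algebraMap k[X] (RatFunc k) P) := by
    intro P
    induction P using Polynomial.induction_on' with
    | add p q hp hq => rw [map_add, map_add, map_add, hp, hq]
    | monomial n a =>
      rw [← C_mul_X_pow_eq_monomial, map_mul, map_mul, map_mul, map_pow, map_pow, map_pow,
        RatFunc.algebraMap_X]
      congr 1
      · exact hσ.2 a
      · exact congrArg (· ^ n) hσ.1
  rw [← RatFunc.num_div_denom r, map_div₀, map_div₀, h1, h1]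

end irr

variable {k E : Type} [Field k] [IsAlgClosed k] [Field E] [Algebra (RatFunc k) E]
  [IsAlgClosure (RatFunc k) E]

lemma isAlgClosed (k E : Type) [Field k] [Field E] [Algebra (RatFunc k) E]
    [IsAlgClosure (RatFunc k) E] : IsAlgClosed E := IsAlgClosure.isAlgClosed (RatFunc k)

lemma isAlgebraic (k E : Type) [Field k] [Field E] [Algebra (RatFunc k) E]
    [IsAlgClosure (RatFunc k) E] : Algebra.IsAlgebraic (RatFunc k) E := IsAlgClosure.isAlgebraic

lemma exists_conj {x y : E} (h : minpoly (RatFunc k) x = minpoly (RatFunc k) y) :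
    ∃ σ ∈ G1 k E, σ x = y := by
  have := IsAlgClosure.normal (RatFunc k) E
  obtain ⟨σ, hσ⟩ := (isConjRoot_iff_exists_algEquiv (K := RatFunc k)).1 h.symm
  refine ⟨(σ : E ≃+* E), algEquiv_mem σ, ?_⟩
  exact hσ

end Auto

open Auto

section

variable {k E : Type} [Field k] [IsAlgClosed k] [Field E] [Algebra (RatFunc k) E]
  [IsAlgClosure (RatFunc k) E]

/-- ROW T: the group is transitive on the roots -/
theorem exists_G1 {A B : k[X]} (hAB : IsCoprime A B) (hA : A.Monic) (hdeg : B.degree < A.degree)
    {x y : E} (hx : (fE E A B).eval x = 0) (hy : (fE E A B).eval y = 0) :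
    ∃ σ ∈ G1 k E, σ x = y := by
  have hB : B ≠ 0 := by
    rintro rfl
    rw [isCoprime_zero_right, hA.isUnit_iff] at hAB
    rw [hAB, fE, Polynomial.map_zero, mul_zero, add_zero, Polynomial.map_one, eval_one] at hx
    exact one_ne_zero hx
  have h1 := fR_irreducible hAB hA hdeg hB
  have h2 := fR_monic hA hdeg
  apply exists_conj
  rw [← minpoly.eq_of_irreducible_of_monic h1 (by rw [aeval_fR, hx]) h2,
    ← minpoly.eq_of_irreducible_of_monic h1 (by rw [aeval_fR, hy]) h2]

/-- ROW T2 -/
theorem exists_neg (h2 : (2 : k) ≠ 0) {u : E} (hu : u ^ 2 = zz k E) : ∃ σ ∈ G1 k E, σ u = - u := by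
  have _ := h2
  have h3 : IsCoprime (X ^ 2 : k[X]) (-1) := by
    rw [IsCoprime.neg_right_iff]
    exact isCoprime_one_right
  have h4 : (-1 : k[X]).degree < (X ^ 2 : k[X]).degree := by
    rw [degree_neg, degree_one, degree_X_pow]
    norm_num
  have h5 : ∀ v : E, v ^ 2 = zz k E → (fE E (X ^ 2 : k[X]) (-1)).eval v = 0 := by
    intro v hv
    rw [fE, Polynomial.map_pow, map_X, Polynomial.map_neg, Polynomial.map_one, eval_add, eval_pow,
      eval_X, eval_mul, eval_C, eval_neg, eval_one, hv]
    ring
  exact exists_G1 h3 (monic_X_pow 2) h4 (h5 u hu) (h5 (-u) (by rw [neg_sq, hu]))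

/-- ROW N -/
theorem conj_mem {K : Type} [Field K] [Algebra K k] [Algebra.IsAlgebraic K k] :
    ∀ σ ∈ G0 k E K, ∀ τ ∈ G1 k E, σ * τ * σ⁻¹ ∈ G1 k E := by
  intro σ hσ τ hτ
  have hσ' := inv_mem hσ
  refine ⟨?_, fun c => ?_⟩
  · rw [RingAut.mul_apply, RingAut.mul_apply, hσ'.1, hτ.1, hσ.1]
  · have h1 : ∃ d : k, (σ⁻¹ : E ≃+* E) (cst k E c) = cst k E d := by
      have h2 : ((minpoly K c).map ((cst k E).comp (algebraMap K k))).eval
          ((σ⁻¹ : E ≃+* E) (cst k E c)) = 0 := by
        have h3 : ((σ⁻¹ : E ≃+* E) : E →+* E).comp ((cst k E).comp (algebraMap K k)) =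
            (cst k E).comp (algebraMap K k) := by
          ext a
          exact hσ'.2 a
        have h4 := hom_eval₂ (minpoly K c) ((cst k E).comp (algebraMap K k))
          ((σ⁻¹ : E ≃+* E) : E →+* E) (cst k E c)
        rw [h3] at h4
        rw [eval_map]
        refine h4.symm.trans ?_
        rw [← hom_eval₂]
        have h5 := minpoly.aeval K c
        rw [aeval_def] at h5
        rw [h5, map_zero, map_zero]
      have h6 : ((minpoly K c).map (algebraMap K k)).Splits := IsAlgClosed.splits _
      rw [← Polynomial.map_map] at h2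
      have h7 : ((minpoly K c).map (algebraMap K k)).Monic :=
        (minpoly.monic (Algebra.IsIntegral.isIntegral c)).map _
      rw [h6.eq_prod_roots_of_monic h7, Polynomial.map_multiset_prod, eval_multiset_prod,
        Multiset.prod_eq_zero_iff] at h2
      simp only [Multiset.mem_map, Multiset.map_map, Function.comp_apply, Polynomial.map_sub,
        map_X, map_C, eval_sub, eval_X, eval_C, sub_eq_zero] at h2
      obtain ⟨d, -, hd⟩ := h2
      exact ⟨d, hd⟩
    obtain ⟨d, hd⟩ := h1
    rw [RingAut.mul_apply, RingAut.mul_apply, hd, hτ.2, ← hd]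
    exact σ.apply_symm_apply _

/-- ROW N2 -/
theorem G1_le_G0 {K : Type} [Field K] [Algebra K k] : G1 k E ≤ G0 k E K :=
  fun _ hσ => ⟨hσ.1, fun _ => hσ.2 _⟩

/-- ROW S0: automorphisms preserve the set of roots -/
theorem IsRoots.map_mem {A B : k[X]} {R : Finset E} (hR : IsRoots R A B) {σ : E ≃+* E}
    (hσ : σ ∈ G1 k E) {x : E} (hx : x ∈ R) : σ x ∈ R := Near.map_root hR hσ hx

/-- ROW S0: the same for polynomials over `K` -/
theorem IsRoots.map_mem' {K : Type} [Field K] [Algebra K k] {A B : K[X]} {R : Finset E}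
    (hR : IsRoots R (A.map (algebraMap K k)) (B.map (algebraMap K k))) {σ : E ≃+* E}
    (hσ : σ ∈ G0 k E K) {x : E} (hx : x ∈ R) : σ x ∈ R := by
  rw [hR.mem] at hx ⊢
  have h1 : ∀ P : K[X], ((P.map (algebraMap K k)).map (cst k E)).eval (σ x) =
      σ (((P.map (algebraMap K k)).map (cst k E)).eval x) := by
    intro P
    have h2 : (σ : E →+* E).comp ((cst k E).comp (algebraMap K k)) =
        (cst k E).comp (algebraMap K k) := by
      ext c
      exact hσ.2 c
    have h3 := hom_eval₂ P ((cst k E).comp (algebraMap K k)) (σ : E →+* E) x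
    rw [h2] at h3
    rw [Polynomial.map_map, eval_map, eval_map]
    exact h3.symm
  rw [Near.eval_fE, h1, h1]
  have h4 : zz k E = σ (zz k E) := hσ.1.symm
  rw [h4, ← map_mul, ← map_add, ← Near.eval_fE, hx, map_zero]

/-- ROW S0: the roots are separable -/
theorem IsRoots.isSeparable {A B : k[X]} (hA : A.Monic) (hdeg : B.degree < A.degree) {R : Finset E}
    (hR : IsRoots R A B) {x : E} (hx : x ∈ R) : IsSeparable (RatFunc k) x := by
  have h1 : (fE E A B).Separable := by
    rw [Near.prod_eq hA hdeg hR]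
    exact separable_prod_X_sub_C_iff'.2 fun x _ y _ h => h
  rw [← fR_map, separable_map] at h1
  have h2 : minpoly (RatFunc k) x ∣ fR A B :=
    minpoly.dvd _ _ (by rw [aeval_fR, (hR.mem x).1 hx])
  exact h1.of_dvd h2

/-- ROW S0: existence of the set of roots -/
theorem exists_isRoots {A B : k[X]} (hA : A.Monic) (hdeg : B.degree < A.degree)
    (hs : (fE E A B).Separable) : ∃ R : Finset E, IsRoots R A B := by
  classical
  have := isAlgClosed k E
  refine ⟨(fE E A B).roots.toFinset, fun x => ?_, ?_⟩
  · rw [Multiset.mem_toFinset, mem_roots (Near.fE_monic hA hdeg).ne_zero]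
    rfl
  · rw [Multiset.toFinset_card_of_nodup (nodup_roots hs), ← Near.natDegree_fE (E := E) hdeg]
    exact IsAlgClosed.card_roots_eq_natDegree

/-- ROW S0: the factorisation -/
theorem IsRoots.prod_eq {A B : k[X]} (hA : A.Monic) (hdeg : B.degree < A.degree) {R : Finset E}
    (hR : IsRoots R A B) : fE E A B = ∏ x ∈ R, (X - C x) := Near.prod_eq hA hdeg hR

/-- ROW S0: the product of the roots minus a constant -/
theorem IsRoots.prod_sub {A B : k[X]} (hA : A.Monic) (hdeg : B.degree < A.degree) {R : Finset E}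
    (hR : IsRoots R A B) (c : k) : ∏ x ∈ R, (x - cst k E c) =
      (-1) ^ R.card * (cst k E (A.eval c) + zz k E * cst k E (B.eval c)) := by
  rw [← Near.prod_sub hA hdeg hR, ← Finset.prod_const, ← Finset.prod_mul_distrib]
  exact Finset.prod_congr rfl fun x _ => by ring

/-- ROW S0: separability criterion -/
theorem fE_separable {A B : k[X]} (hA : A.Monic) (hdeg : B.degree < A.degree)
    (h : ∀ x : E, (fE E A B).eval x = 0 → (derivative (fE E A B)).eval x ≠ 0) :
    (fE E A B).Separable := by
  classical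
  have := isAlgClosed k E
  rw [Polynomial.Separable]
  by_contra hc
  have h1 : ¬ IsUnit (EuclideanDomain.gcd (fE E A B) (derivative (fE E A B))) := by
    rwa [EuclideanDomain.gcd_isUnit_iff]
  have h2 : EuclideanDomain.gcd (fE E A B) (derivative (fE E A B)) ≠ 0 := by
    intro h3
    rw [EuclideanDomain.gcd_eq_zero_iff] at h3
    exact (Near.fE_monic hA hdeg).ne_zero h3.1
  obtain ⟨x, hx⟩ := IsAlgClosed.exists_root _ fun h3 => h1 (isUnit_iff_degree_eq_zero.2 h3)
  apply h x
  · exact hx.dvd (EuclideanDomain.gcd_dvd_left _ _)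
  · exact hx.dvd (EuclideanDomain.gcd_dvd_right _ _)

/-- ROW S1: fixed elements -/
theorem mem_range_of_fixed {x : E} (hx : IsSeparable (RatFunc k) x)
    (h : ∀ σ ∈ G1 k E, σ x = x) : x ∈ (algebraMap (RatFunc k) E).range := by
  have := isAlgClosed k E
  have := isAlgebraic k E
  have h1 : IsIntegral (RatFunc k) x := Algebra.IsIntegral.isIntegral x
  have h0 : (minpoly (RatFunc k) x).Monic := minpoly.monic h1
  have h2 : ∀ y ∈ ((minpoly (RatFunc k) x).map (algebraMap (RatFunc k) E)).roots, y = x := by
    intro y hy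
    have h3 : aeval y (minpoly (RatFunc k) x) = 0 := by
      rw [aeval_def, ← eval_map]
      exact isRoot_of_mem_roots hy
    have h4 : minpoly (RatFunc k) x = minpoly (RatFunc k) y :=
      minpoly.eq_of_irreducible_of_monic (minpoly.irreducible h1) h3 h0
    obtain ⟨σ, hσ, e⟩ := exists_conj h4
    rw [← e, h σ hσ]
  have h3 : ((minpoly (RatFunc k) x).map (algebraMap (RatFunc k) E)).roots.Nodup :=
    nodup_roots (Polynomial.Separable.map hx)
  have h4 : Multiset.card ((minpoly (RatFunc k) x).map (algebraMap (RatFunc k) E)).roots =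
      (minpoly (RatFunc k) x).natDegree := by
    rw [IsAlgClosed.card_roots_eq_natDegree, natDegree_map]
  have h5 : ((minpoly (RatFunc k) x).map (algebraMap (RatFunc k) E)).roots ≤ {x} := by
    rw [Multiset.le_iff_subset h3]
    intro y hy
    rw [Multiset.mem_singleton]
    exact h2 y hy
  have h6 := Multiset.card_le_card h5
  rw [h4, Multiset.card_singleton] at h6
  have h7 : (minpoly (RatFunc k) x).natDegree = 1 := le_antisymm h6 (minpoly.natDegree_pos h1)
  exact minpoly.natDegree_eq_one_iff.1 h7

end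

end BCX6
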