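import Mathlib

/-!
# BCX6 row E1: the Vandermonde determinant of a set of roots
-/

namespace BCX6

open Polynomial Equiv

/-- The square of a Vandermonde product. -/
theorem vand_sq {R : Type*} [CommRing R] {n : ℕ} (v : Fin n → R) :
    (∏ i : Fin n, ∏ j ∈ Finset.Ioi i, (v j - v i)) ^ 2 =
      (-1) ^ (n * (n - 1) / 2) * ∏ i : Fin n, ∏ j ∈ Finset.univ.erase i, (v i - v j) := by
  classical
  set V := ∏ i : Fin n, ∏ j ∈ Finset.Ioi i, (v j - v i) with hV
  have h1 : ∏ i : Fin n, ∏ j ∈ Finset.Iio i, (v i - v j) = V := by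
    rw [hV]
    refine Finset.prod_comm' fun x y => ?_
    simp [Finset.mem_Iio, Finset.mem_Ioi]
  have h2 : ∏ i : Fin n, ∏ j ∈ Finset.Ioi i, (v i - v j) = (-1) ^ (n * (n - 1) / 2) * V := by
    have e1 : ∀ i : Fin n, ∏ j ∈ Finset.Ioi i, (v i - v j) =
        (-1) ^ (Finset.Ioi i).card * ∏ j ∈ Finset.Ioi i, (v j - v i) := by
      intro i
      rw [← Finset.prod_const, ← Finset.prod_mul_distrib]
      exact Finset.prod_congr rfl fun j _ => by ring
    rw [Finset.prod_congr rfl fun i _ => e1 i, Finset.prod_mul_distrib, Finset.prod_pow_eq_pow_sum,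
      ← hV]
    congr 2
    have e2 : ∀ i : Fin n, (Finset.Ioi i).card = n - 1 - (i : ℕ) := fun i => Fin.card_Ioi i
    rw [Finset.sum_congr rfl fun i _ => e2 i, Fin.sum_univ_eq_sum_range (fun i => n - 1 - i) n,
      Finset.sum_range_reflect (fun i => i) n, Finset.sum_range_id]
  have h3 : ∏ i : Fin n, ∏ j ∈ Finset.univ.erase i, (v i - v j) =
      (∏ i : Fin n, ∏ j ∈ Finset.Ioi i, (v i - v j)) * ∏ i : Fin n, ∏ j ∈ Finset.Iio i, (v i - v j) := by
    rw [← Finset.prod_mul_distrib]
    refine Finset.prod_congr rfl fun i _ => ?_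
    rw [← Finset.prod_union]
    · congr 1
      ext j
      simp only [Finset.mem_erase, Finset.mem_univ, and_true, Finset.mem_union, Finset.mem_Ioi,
        Finset.mem_Iio]
      exact ne_iff_lt_or_gt.trans or_comm
    · rw [Finset.disjoint_left]
      intro j hj hj'
      rw [Finset.mem_Ioi] at hj
      rw [Finset.mem_Iio] at hj'
      exact absurd hj (not_lt.mpr hj'.le)
  have h4 : ((-1 : R) ^ (n * (n - 1) / 2)) * (-1) ^ (n * (n - 1) / 2) = 1 := by
    rw [← mul_pow]
    simp
  rw [h3, h2, h1]
  generalize ((-1 : R) ^ (n * (n - 1) / 2)) = s at h4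
  calc V ^ 2 = 1 * (V * V) := by ring
    _ = (s * s) * (V * V) := by rw [h4]
    _ = s * (s * V * V) := by ring

/-- The derivative at a root. -/
theorem eval_derivative_root {E : Type*} [Field E] [DecidableEq E] (R : Finset E) (f : E[X])
    (hf : f.Monic) (hR : ∀ x, x ∈ R ↔ f.eval x = 0) (hcard : R.card = f.natDegree) :
    ∀ x ∈ R, (derivative f).eval x = ∏ y ∈ R.erase x, (x - y) := by
  have hf0 : f ≠ 0 := hf.ne_zero
  have hroots : f.roots = R.val := by
    have h1 : R.val ≤ f.roots := by
      rw [Multiset.le_iff_subset R.nodup]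
      intro x hx
      rw [mem_roots hf0]
      exact (hR x).1 hx
    refine (Multiset.eq_of_le_of_card_le h1 ?_).symm
    calc f.roots.card ≤ f.natDegree := f.card_roots'
      _ = R.card := by rw [← hcard]
      _ = R.val.card := rfl
  have hprod : f = ∏ x ∈ R, (X - C x) := by
    have h1 := prod_multiset_X_sub_C_of_monic_of_roots_card_eq hf
      (by rw [hroots]; exact hcard)
    rw [hroots] at h1
    exact h1.symm
  intro x hx
  have h1 := Lagrange.eval_nodal_derivative_eval_node_eq (s := R) (v := id) hx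
  simp only [Lagrange.nodal, id] at h1
  rw [hprod, h1, eval_prod]
  exact Finset.prod_congr rfl fun y _ => by simp

/-- ROW E1 -/
theorem exists_vandermonde {E : Type} [Field E] [DecidableEq E] (R : Finset E) (f : E[X]) (hf : f.Monic)
    (hR : ∀ x, x ∈ R ↔ f.eval x = 0) (hcard : R.card = f.natDegree) :
    ∃ V : E, V ≠ 0 ∧
      V ^ 2 = (-1) ^ (R.card * (R.card - 1) / 2) * ∏ x ∈ R, (derivative f).eval x ∧
      ∀ (σ : E ≃+* E) (π : Perm {x // x ∈ R}), (∀ x : {x // x ∈ R}, σ x = π x) →
        σ V = ((Perm.sign π : ℤ) : E) * V := by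
  have hder := eval_derivative_root R f hf hR hcard
  set n := R.card with hn
  have e : Fin n ≃ {x // x ∈ R} := R.equivFin.symm
  let v : Fin n → E := fun i => (e i : E)
  have hv : Function.Injective v := Subtype.val_injective.comp e.injective
  refine ⟨(Matrix.vandermonde v).det, Matrix.det_vandermonde_ne_zero_iff.mpr hv, ?_, ?_⟩
  · rw [Matrix.det_vandermonde, vand_sq]
    congr 1
    have h1 : ∏ x ∈ R, (derivative f).eval x = ∏ x : {x // x ∈ R}, (derivative f).eval (x : E) := by
      rw [← Finset.prod_coe_sort R]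
    rw [h1, ← Equiv.prod_comp e]
    refine Finset.prod_congr rfl fun i _ => ?_
    rw [hder _ (e i).2]
    have h2 : R.erase (e i : E) = (Finset.univ.erase i).image v := by
      ext y
      simp only [Finset.mem_erase, Finset.mem_image, Finset.mem_univ, and_true]
      constructor
      · rintro ⟨h3, h4⟩
        refine ⟨e.symm ⟨y, h4⟩, ?_, by simp [v]⟩
        intro h5
        apply h3
        rw [← h5]
        simp
      · rintro ⟨j, h3, rfl⟩
        exact ⟨fun h4 => h3 (hv h4), (e j).2⟩
    rw [h2, Finset.prod_image fun a _ b _ h => hv h]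
  · intro σ π h
    have h1 : σ (Matrix.vandermonde v).det =
        ((Matrix.vandermonde v).submatrix ((e.trans π).trans e.symm) id).det := by
      have h2 : σ (Matrix.vandermonde v).det = ((σ : E →+* E).mapMatrix (Matrix.vandermonde v)).det :=
        RingHom.map_det (σ : E →+* E) _
      rw [h2]
      congr 1
      ext i j
      simp only [RingHom.mapMatrix_apply, Matrix.map_apply, Matrix.vandermonde_apply, map_pow,
        Matrix.submatrix_apply, id, v, Equiv.trans_apply, Equiv.apply_symm_apply]
      congr 1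
      exact h (e i)
    rw [h1, Matrix.det_permute, Perm.sign_trans_trans_symm]

end BCX6
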