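import Pool.Agent.BCX6.Near
import Pool.Agent.BCX6.Auto
import Pool.Agent.BCX6.Vand

/-!
# BCX6 row D: the two wild points cannot be blocks
-/

namespace BCX6.Block

open Polynomial Equiv

section prods

variable {E : Type} [Field E]

/-- the mixed product -/
noncomputable def pp (u u' : Finset E) : E := ∏ x ∈ u, ∏ y ∈ u', (x - y)

/-- the pure product -/
noncomputable def qq [DecidableEq E] (u : Finset E) : E := ∏ x ∈ u, ∏ y ∈ u.erase x, (x - y)

lemma map_pp [DecidableEq E] (σ : E ≃+* E) (u u' : Finset E) :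
    σ (pp u u') = pp (u.image σ) (u'.image σ) := by
  unfold pp
  rw [map_prod, Finset.prod_image fun a _ b _ h => σ.injective h]
  refine Finset.prod_congr rfl fun x _ => ?_
  rw [map_prod, Finset.prod_image fun a _ b _ h => σ.injective h]
  exact Finset.prod_congr rfl fun y _ => map_sub _ _ _

lemma map_qq [DecidableEq E] (σ : E ≃+* E) (u : Finset E) : σ (qq u) = qq (u.image σ) := by
  unfold qq
  rw [map_prod, Finset.prod_image fun a _ b _ h => σ.injective h]
  refine Finset.prod_congr rfl fun x _ => ?_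
  rw [map_prod, ← Finset.image_erase σ.injective, Finset.prod_image fun a _ b _ h => σ.injective h]
  exact Finset.prod_congr rfl fun y _ => map_sub _ _ _

lemma pp_comm (u u' : Finset E) : pp u' u = (-1) ^ (u.card * u'.card) * pp u u' := by
  unfold pp
  rw [Finset.prod_comm]
  have h1 : ∀ x ∈ u, ∏ y ∈ u', (y - x) = (-1) ^ u'.card * ∏ y ∈ u', (x - y) := by
    intro x _
    rw [← Finset.prod_const, ← Finset.prod_mul_distrib]
    exact Finset.prod_congr rfl fun y _ => by ring
  rw [Finset.prod_congr rfl h1, Finset.prod_mul_distrib, Finset.prod_const, ← pow_mul, mul_comm u.card]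

lemma prod_erase_union_aux [DecidableEq E] {v v' R : Finset E} (hv : Disjoint v v')
    (hRv : R = v ∪ v') : ∀ x ∈ v,
      ∏ y ∈ R.erase x, (x - y) = (∏ y ∈ v.erase x, (x - y)) * ∏ y ∈ v', (x - y) := by
  intro x hx
  have h1 : R.erase x = v.erase x ∪ v' := by
    rw [hRv, Finset.erase_union_distrib, Finset.erase_eq_of_notMem (Finset.disjoint_left.mp hv hx)]
  rw [h1, Finset.prod_union]
  exact hv.mono_left (Finset.erase_subset _ _)

/-- The product of the derivative values splits. -/
lemma prod_erase_union [DecidableEq E] {u u' R : Finset E} (hd : Disjoint u u')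
    (hR : R = u ∪ u') :
    ∏ x ∈ R, ∏ y ∈ R.erase x, (x - y) = (qq u * pp u u') * (qq u' * pp u' u) := by
  have hR' : R = u' ∪ u := by rw [hR, Finset.union_comm]
  have h2 : ∏ x ∈ R, ∏ y ∈ R.erase x, (x - y) = (∏ x ∈ u, ∏ y ∈ R.erase x, (x - y)) *
      ∏ x ∈ u', ∏ y ∈ R.erase x, (x - y) := by
    conv_lhs => rw [hR, Finset.prod_union hd]
    rw [← hR]
  rw [h2, Finset.prod_congr rfl (prod_erase_union_aux hd hR),
    Finset.prod_congr rfl (prod_erase_union_aux hd.symm hR'), Finset.prod_mul_distrib,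
    Finset.prod_mul_distrib]
  rfl

end prods

section fE

variable {k E : Type} [Field k] [Field E] [Algebra (RatFunc k) E]

lemma fE_monic {A B : k[X]} (hA : A.Monic) (hdeg : B.degree < A.degree) : (fE E A B).Monic := by
  unfold fE
  apply (hA.map _).add_of_left
  calc (C (zz k E) * B.map (cst k E)).degree ≤ (C (zz k E)).degree + (B.map (cst k E)).degree :=
        degree_mul_le _ _
    _ ≤ 0 + B.degree := add_le_add degree_C_le degree_map_le
    _ = B.degree := zero_add _
    _ < A.degree := hdeg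
    _ = (A.map (cst k E)).degree := (degree_map _ _).symm

lemma fE_natDegree {A B : k[X]} (hdeg : B.degree < A.degree) :
    (fE E A B).natDegree = A.natDegree := by
  have h1 : (C (zz k E) * B.map (cst k E)).degree < (A.map (cst k E)).degree := by
    calc (C (zz k E) * B.map (cst k E)).degree ≤ (C (zz k E)).degree + (B.map (cst k E)).degree :=
          degree_mul_le _ _
      _ ≤ 0 + B.degree := add_le_add degree_C_le degree_map_le
      _ = B.degree := zero_add _
      _ < A.degree := hdeg
      _ = (A.map (cst k E)).degree := (degree_map _ _).symm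
  unfold fE
  rw [natDegree_add_eq_left_of_degree_lt h1, natDegree_map]

lemma alg_X : ((algebraMap (RatFunc k) E).comp (algebraMap k[X] (RatFunc k))) X = zz k E := by
  rw [RingHom.comp_apply, RatFunc.algebraMap_X]
  rfl

lemma alg_C (c : k) :
    ((algebraMap (RatFunc k) E).comp (algebraMap k[X] (RatFunc k))) (C c) = cst k E c := by
  rw [RingHom.comp_apply, cst, RingHom.comp_apply, RatFunc.algebraMap_C, RatFunc.algebraMap_eq_C]

/-- The roots are integral over `k[z]`. -/
lemma isIntegralElem_root {A B : k[X]} (hA : A.Monic) (hdeg : B.degree < A.degree) {x : E}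
    (hx : (fE E A B).eval x = 0) :
    ((algebraMap (RatFunc k) E).comp (algebraMap k[X] (RatFunc k))).IsIntegralElem x := by
  refine ⟨A.map C + C X * B.map C, ?_, ?_⟩
  · apply (hA.map _).add_of_left
    calc (C X * B.map C : k[X][X]).degree ≤ (C X : k[X][X]).degree + (B.map C).degree :=
          degree_mul_le _ _
      _ ≤ 0 + B.degree := add_le_add degree_C_le degree_map_le
      _ = B.degree := zero_add _
      _ < A.degree := hdeg
      _ = (A.map C).degree := (degree_map_eq_of_injective C_injective _).symm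
  · have h1 : ((algebraMap (RatFunc k) E).comp (algebraMap k[X] (RatFunc k))).comp C = cst k E :=
      RingHom.ext fun c => alg_C c
    rw [eval₂_add, eval₂_mul, eval₂_map, eval₂_map, eval₂_C, alg_X, h1, ← hx, fE, eval_add, eval_mul,
      eval_C, eval_map, eval_map]

/-- A fixed integral element is a polynomial in `z`. -/
lemma exists_pol {u : E} (hu : u ∈ (algebraMap (RatFunc k) E).range)
    (hi : ((algebraMap (RatFunc k) E).comp (algebraMap k[X] (RatFunc k))).IsIntegralElem u) :
    ∃ U : k[X], ((algebraMap (RatFunc k) E).comp (algebraMap k[X] (RatFunc k))) U = u := by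
  obtain ⟨q, rfl⟩ := hu
  have h1 : IsIntegral k[X] q := by
    obtain ⟨f, hf, h2⟩ := hi
    refine ⟨f, hf, ?_⟩
    apply (algebraMap (RatFunc k) E).injective
    rw [map_zero, ← h2, hom_eval₂]
  obtain ⟨U, hU⟩ := IsIntegrallyClosed.isIntegral_iff.mp h1
  exact ⟨U, by rw [RingHom.comp_apply, hU]⟩

lemma alg_inj : Function.Injective
    ((algebraMap (RatFunc k) E).comp (algebraMap k[X] (RatFunc k))) := by
  intro a b h
  rw [RingHom.comp_apply, RingHom.comp_apply] at h
  exact RatFunc.algebraMap_injective k ((algebraMap (RatFunc k) E).injective h)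

end fE

end BCX6.Block

namespace BCX6

open Polynomial Equiv Block

section norm

variable {k E : Type} [Field k] [Field E] [Algebra (RatFunc k) E] {N : E → ℝ}
  {D : Subgroup (E ≃+* E)}

lemma IsLocal.blk_one (h : IsLocal k N D) : N 1 = 1 := by
  have h1 := h.const 1 one_ne_zero
  rwa [map_one] at h1

lemma IsLocal.blk_neg (h : IsLocal k N D) (x : E) : N (-x) = N x := by
  have h1 : -x = cst k E (-1) * x := by simp
  rw [h1, h.mul, h.const (-1) (by simp), one_mul]

lemma IsLocal.blk_sub (h : IsLocal k N D) (x y : E) : N (x - y) ≤ max (N x) (N y) := by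
  rw [sub_eq_add_neg, ← h.blk_neg y]
  exact h.add _ _

lemma IsLocal.blk_prod (h : IsLocal k N D) {ι : Type*} (s : Finset ι) (f : ι → E)
    (hf : ∀ i ∈ s, N (f i) = 1) : N (∏ i ∈ s, f i) = 1 := by
  classical
  induction s using Finset.induction_on with
  | empty => rw [Finset.prod_empty, h.blk_one]
  | insert a s ha ih =>
    rw [Finset.prod_insert ha, h.mul, hf a (Finset.mem_insert_self _ _),
      ih fun i hi => hf i (Finset.mem_insert_of_mem hi), one_mul]

lemma IsLocal.blk_pow (h : IsLocal k N D) (x : E) (m : ℕ) : N (x ^ m) = N x ^ m := by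
  induction m with
  | zero => rw [pow_zero, pow_zero, h.blk_one]
  | succ m ih => rw [pow_succ, pow_succ, h.mul, ih]

lemma Block.mem_near {R : Finset E} {w x : E} : x ∈ near N R w ↔ x ∈ R ∧ N (x - w) < 1 := by
  unfold near
  rw [Finset.mem_filter]

/-- Elements near different constants have distance 1. -/
lemma IsLocal.blk_dist (h : IsLocal k N D) {R : Finset E} {w w' : k} (hw : w ≠ w') {x x' : E}
    (hx : x ∈ near N R (cst k E w)) (hx' : x' ∈ near N R (cst k E w')) : N (x - x') = 1 := by
  have h1 := (mem_near.mp hx).2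
  have h2 := (mem_near.mp hx').2
  have h3 : N (cst k E w - cst k E w') = 1 := by
    rw [← map_sub]
    exact h.const _ (sub_ne_zero.mpr hw)
  set b := (x - cst k E w) - (x' - cst k E w') with hb
  have h4 : N b < 1 := lt_of_le_of_lt (h.blk_sub _ _) (max_lt h1 h2)
  have h5 : x - x' = (cst k E w - cst k E w') + b := by rw [hb]; ring
  have h6 : cst k E w - cst k E w' = (x - x') - b := by rw [hb]; ring
  apply le_antisymm
  · rw [h5]
    refine (h.add _ _).trans ?_
    rw [h3]
    exact max_le le_rfl h4.le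
  · by_contra h7
    rw [not_le] at h7
    have h8 : N (cst k E w - cst k E w') < 1 := by
      rw [h6]
      exact lt_of_le_of_lt (h.blk_sub _ _) (max_lt h7 h4)
    rw [h3] at h8
    exact lt_irrefl _ h8

end norm

section main

variable {k E : Type} [Field k] [IsAlgClosed k] [Field E] [Algebra (RatFunc k) E]
  [IsAlgClosure (RatFunc k) E] {N : E → ℝ} {D : Subgroup (E ≃+* E)} {p : ℕ} [Fact p.Prime]
  [CharP k p]

/-- ROW D -/
theorem IsLocal.not_block [DecidableEq k] (hp3 : 3 ≤ p) (h : IsLocal k N D) {w w' : k} (hww : w ≠ w') {A B : k[X]}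
    (hf : Fam p 0 {w, w'} A B) {R : Finset E} (hR : IsRoots R A B)
    (hdisc : ∃ (c : k) (m : ℕ), c ≠ 0 ∧
      ∏ x ∈ R, (derivative (fE E A B)).eval x = cst k E c * zz k E ^ m) :
    ¬ ∀ σ ∈ G1 k E, (∀ x ∈ near N R (cst k E w), σ x ∈ near N R (cst k E w)) ∨
      (∀ x ∈ near N R (cst k E w), σ x ∈ near N R (cst k E w')) := by
  classical
  intro hall
  have hwm : w ∈ ({w, w'} : Finset k) := by simp
  have hwm' : w' ∈ ({w, w'} : Finset k) := by simp
  have hA : A.Monic := by
    rw [hf.eqA, pow_zero, one_mul]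
    exact (monic_prod_of_monic _ _ fun w _ => monic_X_sub_C w).pow p
  have hpp := (Fact.out : p.Prime)
  have hdeg := hf.deg
  set Γ := near N R (cst k E w) with hΓ
  set Γ' := near N R (cst k E w') with hΓ'
  have cΓ : Γ.card = p := h.card_near hf hR hwm
  have cΓ' : Γ'.card = p := h.card_near hf hR hwm'
  have hd : Disjoint Γ Γ' := h.disjoint_near hww
  have sΓ : Γ ⊆ R := fun x hx => (mem_near.mp hx).1
  have sΓ' : Γ' ⊆ R := fun x hx => (mem_near.mp hx).1
  have hU : R = Γ ∪ Γ' := by
    apply Finset.Subset.antisymm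
    · intro x hx
      rcases h.near_or hf hR hx with h1 | ⟨v, hv, h1⟩
      · exact absurd rfl h1.2
      · rw [Finset.mem_insert, Finset.mem_singleton] at hv
        rcases hv with rfl | rfl
        · exact Finset.mem_union_left _ h1
        · exact Finset.mem_union_right _ h1
    · exact Finset.union_subset sΓ sΓ'
  -- the two types
  have htype : ∀ σ ∈ G1 k E, (Γ.image σ = Γ ∧ Γ'.image σ = Γ') ∨ (Γ.image σ = Γ' ∧ Γ'.image σ = Γ) := by
    intro σ hσ
    have key : ∀ {u u' : Finset E}, Disjoint u u' → R = u ∪ u' → u.card = p → u'.card = p →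
        (∀ x ∈ Γ, σ x ∈ u) → Γ.image σ = u ∧ Γ'.image σ = u' := by
      intro u u' hu hRu cu cu' hm
      have h1 : Γ.image σ = u := by
        apply Finset.eq_of_subset_of_card_le
        · intro y hy
          obtain ⟨x, hx, rfl⟩ := Finset.mem_image.mp hy
          exact hm x hx
        · rw [cu, Finset.card_image_of_injective _ σ.injective, cΓ]
      refine ⟨h1, ?_⟩
      apply Finset.eq_of_subset_of_card_le
      · intro y hy
        obtain ⟨x, hx, rfl⟩ := Finset.mem_image.mp hy
        have h2 : σ x ∈ R := hR.map_mem hσ (sΓ' hx)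
        rw [hRu, Finset.mem_union] at h2
        rcases h2 with h2 | h2
        · exfalso
          rw [← h1] at h2
          obtain ⟨x', hx', h3⟩ := Finset.mem_image.mp h2
          have h4 : x' = x := σ.injective h3
          subst h4
          exact (Finset.disjoint_left.mp hd hx') hx
        · exact h2
      · rw [cu', Finset.card_image_of_injective _ σ.injective, cΓ']
    rcases hall σ hσ with h1 | h1
    · exact Or.inl (key hd hU cΓ cΓ' h1)
    · exact Or.inr (key hd.symm (by rw [hU, Finset.union_comm]) cΓ' cΓ h1)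
  have hodd : Odd (p * p) := by
    have h1 : Odd p := hpp.odd_of_ne_two (by omega)
    exact h1.mul h1
  set ρ := pp Γ Γ' with hρ
  have hρ' : pp Γ' Γ = -ρ := by
    rw [pp_comm, cΓ, cΓ', hodd.neg_one_pow, neg_one_mul]
  have hmapρ : ∀ σ ∈ G1 k E, σ ρ = ρ ∨ σ ρ = -ρ := by
    intro σ hσ
    rw [hρ, map_pp]
    rcases htype σ hσ with ⟨h1, h2⟩ | ⟨h1, h2⟩
    · left; rw [h1, h2]
    · right; rw [h1, h2, hρ', hρ]
  have hNρ : N ρ = 1 := by
    rw [hρ]
    unfold pp
    apply h.blk_prod
    intro x hx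
    apply h.blk_prod
    intro y hy
    exact h.blk_dist hww hx hy
  have hρ0 : ρ ≠ 0 := by
    intro h0
    rw [h0, (h.eq_zero 0).mpr rfl] at hNρ
    exact zero_ne_one hNρ
  set t := qq Γ * qq Γ' with ht
  have hmapt : ∀ σ ∈ G1 k E, σ t = t := by
    intro σ hσ
    rw [ht, map_mul, map_qq, map_qq]
    rcases htype σ hσ with ⟨h1, h2⟩ | ⟨h1, h2⟩
    · rw [h1, h2]
    · rw [h1, h2, mul_comm]
  -- integrality and separability
  set φ := (algebraMap (RatFunc k) E).comp (algebraMap k[X] (RatFunc k)) with hφ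
  have hint : ∀ x ∈ R, φ.IsIntegralElem x := fun x hx => isIntegralElem_root hA hdeg ((hR.mem x).1 hx)
  have hprodi : ∀ (s : Finset E) (f : E → E), (∀ x ∈ s, φ.IsIntegralElem (f x)) →
      φ.IsIntegralElem (∏ x ∈ s, f x) := by
    intro s f
    induction s using Finset.induction_on with
    | empty => intro _; rw [Finset.prod_empty]; exact φ.isIntegralElem_one
    | insert a s ha ih =>
      intro hs
      rw [Finset.prod_insert ha]
      exact (hs a (Finset.mem_insert_self _ _)).mul φ (ih fun i hi => hs i (Finset.mem_insert_of_mem hi))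
  have hpi : ∀ {u u' : Finset E}, u ⊆ R → u' ⊆ R → φ.IsIntegralElem (pp u u') := by
    intro u u' hu hu'
    exact hprodi _ _ fun x hx => hprodi _ _ fun y hy => (hint x (hu hx)).sub φ (hint y (hu' hy))
  have hqi : ∀ {u : Finset E}, u ⊆ R → φ.IsIntegralElem (qq u) := by
    intro u hu
    exact hprodi _ _ fun x hx => hprodi _ _ fun y hy =>
      (hint x (hu hx)).sub φ (hint y (hu (Finset.mem_of_mem_erase hy)))
  have hsep : ∀ x ∈ R, x ∈ separableClosure (RatFunc k) E := fun x hx =>
    mem_separableClosure_iff.mpr (hR.isSeparable hA hdeg hx)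
  have hps : ∀ {u u' : Finset E}, u ⊆ R → u' ⊆ R → pp u u' ∈ separableClosure (RatFunc k) E := by
    intro u u' hu hu'
    exact prod_mem fun x hx => prod_mem fun y hy => sub_mem (hsep x (hu hx)) (hsep y (hu' hy))
  have hqs : ∀ {u : Finset E}, u ⊆ R → qq u ∈ separableClosure (RatFunc k) E := by
    intro u hu
    exact prod_mem fun x hx => prod_mem fun y hy =>
      sub_mem (hsep x (hu hx)) (hsep y (hu (Finset.mem_of_mem_erase hy)))
  have hu_range : ρ ^ 2 ∈ (algebraMap (RatFunc k) E).range := by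
    apply mem_range_of_fixed
    · exact mem_separableClosure_iff.mp (pow_mem (hps sΓ sΓ') 2)
    · intro σ hσ
      rw [map_pow]
      rcases hmapρ σ hσ with h1 | h1 <;> rw [h1]
      ring
  have ht_range : t ∈ (algebraMap (RatFunc k) E).range := by
    apply mem_range_of_fixed
    · exact mem_separableClosure_iff.mp (mul_mem (hqs sΓ) (hqs sΓ'))
    · exact hmapt
  have hui : φ.IsIntegralElem (ρ ^ 2) := by
    rw [sq]
    exact (hpi sΓ sΓ').mul φ (hpi sΓ sΓ')
  have hti : φ.IsIntegralElem t := (hqi sΓ).mul φ (hqi sΓ')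
  obtain ⟨U, hU'⟩ := exists_pol hu_range hui
  obtain ⟨T, hT⟩ := exists_pol ht_range hti
  -- the discriminant
  obtain ⟨c, m, hc, hdisc⟩ := hdisc
  have hder := eval_derivative_root R (fE E A B) (fE_monic hA hdeg) hR.mem
    (by rw [fE_natDegree hdeg, hR.card])
  rw [Finset.prod_congr rfl hder, prod_erase_union hd hU, hρ', ← hρ] at hdisc
  have hdisc' : ρ ^ 2 * t = cst k E (-c) * zz k E ^ m := by
    rw [map_neg, neg_mul, ← hdisc, ht]
    ring
  have hpol : U * T = C (-c) * X ^ m := by
    apply alg_inj (E := E)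
    rw [map_mul, map_mul, map_pow, alg_X, alg_C, ← hdisc', ← hU', ← hT]
  have hdvd : U ∣ X ^ m := by
    have h1 : U ∣ C (-c) * X ^ m := ⟨T, hpol.symm⟩
    have h2 : IsUnit (C (-c) : k[X]) := isUnit_C.mpr (isUnit_iff_ne_zero.mpr (neg_ne_zero.mpr hc))
    exact (h2.dvd_mul_left).mp h1
  obtain ⟨i, -, hi⟩ := (dvd_prime_pow prime_X m).mp hdvd
  obtain ⟨v, hv⟩ := hi.symm
  obtain ⟨d, hd1, hd2⟩ := Polynomial.isUnit_iff.mp v.isUnit
  have hd0 : d ≠ 0 := hd1.ne_zero
  have hρd : ρ ^ 2 = zz k E ^ i * cst k E d := by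
    rw [← hU', ← hv, ← hd2, map_mul, map_pow, alg_X, alg_C]
  have hi0 : i = 0 := by
    by_contra h0
    have h1 : N (ρ ^ 2) = 1 := by rw [h.blk_pow, hNρ, one_pow]
    rw [hρd, h.mul, h.const d hd0, mul_one, h.blk_pow] at h1
    have h2 : N (zz k E) ^ i < 1 := pow_lt_one₀ (h.nonneg _) h.lt h0
    rw [h1] at h2
    exact lt_irrefl _ h2
  rw [hi0, pow_zero, one_mul] at hρd
  obtain ⟨e, he⟩ := IsAlgClosed.exists_pow_nat_eq d (n := 2) (by norm_num)
  have hρe : ρ = cst k E e ∨ ρ = cst k E (-e) := by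
    have h1 : ρ ^ 2 = (cst k E e) ^ 2 := by rw [hρd, ← map_pow, he]
    rcases sq_eq_sq_iff_eq_or_eq_neg.mp h1 with h2 | h2
    · exact Or.inl h2
    · exact Or.inr (by rw [h2, map_neg])
  have hfix : ∀ σ ∈ G1 k E, σ ρ = ρ := by
    intro σ hσ
    rcases hρe with h1 | h1 <;> rw [h1] <;> exact hσ.2 _
  -- a transposing automorphism
  have hco : IsCoprime A B := by
    rw [hf.eqA, pow_zero, one_mul]
    apply IsCoprime.pow_left
    apply IsCoprime.prod_left
    intro u hu
    rw [(irreducible_X_sub_C u).coprime_iff_not_dvd, dvd_iff_isRoot]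
    exact hf.ne u hu
  obtain ⟨x, hx⟩ : Γ.Nonempty := Finset.card_pos.mp (by rw [cΓ]; exact hpp.pos)
  obtain ⟨x', hx'⟩ : Γ'.Nonempty := Finset.card_pos.mp (by rw [cΓ']; exact hpp.pos)
  obtain ⟨σ, hσ, hσx⟩ := exists_G1 hco hA hdeg ((hR.mem x).1 (sΓ hx)) ((hR.mem x').1 (sΓ' hx'))
  have hsw : σ ρ = -ρ := by
    rw [hρ, map_pp]
    rcases htype σ hσ with ⟨h1, h2⟩ | ⟨h1, h2⟩
    · exfalso
      have h3 : σ x ∈ Γ := by rw [← h1]; exact Finset.mem_image_of_mem _ hx
      rw [hσx] at h3
      exact (Finset.disjoint_left.mp hd h3) hx'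
    · rw [h1, h2, hρ', hρ]
  have h2k : (2 : k) ≠ 0 := by
    intro h0
    have h1 : ((2 : ℕ) : k) = 0 := by exact_mod_cast h0
    rw [CharP.cast_eq_zero_iff k p] at h1
    have := Nat.le_of_dvd (by norm_num) h1
    omega
  have h2E : (2 : E) ≠ 0 := by
    intro h0
    apply h2k
    apply (cst k E).injective
    rw [map_zero, map_ofNat, h0]
  rw [hfix σ hσ] at hsw
  have h3 : (2 : E) * ρ = 0 := by
    have : ρ + ρ = 0 := by
      nth_rewrite 1 [hsw]
      ring
    rw [two_mul]
    exact this
  rcases mul_eq_zero.mp h3 with h4 | h4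
  · exact h2E h4
  · exact hρ0 h4

end main

end BCX6
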