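import Mathlib.GroupTheory.GroupAction.Primitive
import Mathlib.GroupTheory.Perm.Cycle.Basic
import Mathlib.Data.Nat.Prime.Basic

/-!
# A primitivity criterion: a cycle of prime length and a subgroup stabilising its support and
transitive on the complement
-/

set_option autoImplicit false
set_option linter.unusedSimpArgs false

namespace BCX6

open Equiv Equiv.Perm MulAction
open scoped Pointwise

variable {α : Type*} [Fintype α] [DecidableEq α]

omit [Fintype α] [DecidableEq α] in
/-- the stabiliser of a block that meets a set `A`, on which a prime cycle `t` acts, contains `t`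
as soon as the block has two points in common with `A` -/
theorem block_aux {G : Subgroup (Perm α)} {B : Set α} (hB : IsBlock G B) {g : Perm α} (hg : g ∈ G)
    {x : α} (hx : x ∈ B) (hgx : g x ∈ B) : ∀ y, y ∈ B → g y ∈ B := by
  intro y hy
  have h1 : ((⟨g, hg⟩ : G) • B ∩ (1 : G) • B).Nonempty :=
    ⟨g x, ⟨x, hx, rfl⟩, by simpa using hgx⟩
  have h2 := hB.smul_eq_smul_of_nonempty h1
  have h3 : g y ∈ (⟨g, hg⟩ : G) • B := ⟨y, hy, rfl⟩
  rw [h2, one_smul] at h3
  exact h3

/-- a transitive group with a cycle `g` of prime length `p` not dividing the degree, and with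
elements that stabilise the support of `g` and move any point of the complement to any other
point of the complement, is primitive -/
theorem isPreprimitive_of_isCycle_mem {G : Subgroup (Perm α)} (hG : MulAction.IsPretransitive G α)
    {g : Perm α} (hp : g.support.card.Prime) (hn : ¬ g.support.card ∣ Fintype.card α)
    (hgc : g.IsCycle) (hg : g ∈ G)
    (hI : ∀ x y, x ∉ g.support → y ∉ g.support →
      ∃ s ∈ G, (∀ z, z ∈ g.support → s z ∈ g.support) ∧ s x = y) :
    MulAction.IsPreprimitive G α := by
  obtain ⟨a, ha, hcyc⟩ := id hgc
  have haS : a ∈ g.support := by simpa [Perm.mem_support] using ha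
  refine IsPreprimitive.of_isTrivialBlock_base a ?_
  intro B haB hB
  by_cases h1 : g a ∈ B
  · right
    -- the support is contained in `B`
    have hsub : ∀ z ∈ g.support, z ∈ B := by
      intro z hz
      obtain ⟨i, hi⟩ := hgc.exists_pow_eq ha (by simpa [Perm.mem_support] using hz)
      rw [← hi]
      clear hi hz
      induction i with
      | zero => simpa using haB
      | succ n ih =>
        rw [pow_succ', Perm.mul_apply]
        exact block_aux hB hg haB h1 _ ih
    by_cases h2 : ∃ y ∈ B, y ∉ g.support
    · obtain ⟨y, hyB, hyS⟩ := h2
      ext z
      refine ⟨fun _ => Set.mem_univ _, fun _ => ?_⟩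
      by_cases hz : z ∈ g.support
      · exact hsub z hz
      · obtain ⟨s, hsG, hs1, hs2⟩ := hI y z hyS hz
        rw [← hs2]
        exact block_aux hB hsG haB (hsub _ (hs1 a haS)) y hyB
    · exfalso
      push Not at h2
      have hBS : B = (g.support : Set α) := by
        ext z
        exact ⟨fun hz => h2 z hz, fun hz => hsub z hz⟩
      have h3 := hB.ncard_dvd_card ⟨a, haB⟩
      rw [hBS, Set.ncard_coe_finset, Nat.card_eq_fintype_card] at h3
      exact hn h3
  · left
    -- `B` is contained in the support and is a point
    intro x hx y hy
    -- every point of `B` is equal to `a`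
    have key : ∀ z ∈ B, z = a := by
      intro z hz
      by_contra hne
      by_cases hzS : z ∈ g.support
      · obtain ⟨i, hi⟩ := hgc.exists_pow_eq ha (by simpa [Perm.mem_support] using hzS)
        -- `g ^ i` moves `a` to `z`, so it stabilises `B`; `g` is a power of `g ^ i`
        have hgi : g ^ i ∈ G := G.pow_mem hg i
        have hst : ∀ y, y ∈ B → (g ^ i) y ∈ B :=
          block_aux hB hgi haB (by rw [hi]; exact hz)
        have hord : orderOf g = g.support.card := hgc.orderOf
        have hcop : Nat.Coprime (orderOf g) i := by
          rw [hord]
          refine (Nat.Prime.coprime_iff_not_dvd hp).2 fun hdvd => hne ?_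
          rw [← hi]
          rw [← hord] at hdvd
          rw [orderOf_dvd_iff_pow_eq_one.1 hdvd]
          rfl
        obtain ⟨m, hm⟩ := exists_pow_eq_self_of_coprime hcop.symm
        apply h1
        rw [← hm]
        clear hm
        have : ∀ m : ℕ, ((g ^ i) ^ m) a ∈ B := by
          intro m
          induction m with
          | zero => simpa using haB
          | succ n ih =>
            rw [pow_succ', Perm.mul_apply]
            exact hst _ ih
        exact this m
      · -- `z` is fixed by `g`
        have hgz : g z = z := by simpa [Perm.mem_support] using hzS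
        exact h1 (block_aux hB hg hz (by rw [hgz]; exact hz) a haB)
    rw [key x hx, key y hy]

end BCX6
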