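import Pool.Agent.BCX6.Defs
import Pool.Agent.BCX6.Prim

/-!
# Isolated prime cycles in subgroups acting on two orbits of prime size, and primitivity criteria
-/

set_option linter.unusedVariables false

namespace BCX6

open Equiv Equiv.Perm MulAction

variable {α : Type} [Fintype α] [DecidableEq α]

/-- an element of prime order `p` whose support is contained in a set with `p` elements -/
theorem Cycles.isCycle_of_orderOf {g : Perm α} {p : ℕ} (hp : p.Prime) (ho : orderOf g = p)
    {Γ : Finset α} (hΓ : Γ.card = p) (h : ∀ x, x ∉ Γ → g x = x) : g.IsCycle ∧ g.support = Γ := by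
  have hsub : g.support ⊆ Γ := by
    intro x hx
    by_contra hcon
    exact (mem_support.1 hx) (h x hcon)
  have hle : g.support.card ≤ p := hΓ ▸ Finset.card_le_card hsub
  have hc : g.IsCycle := isCycle_of_prime_order (by rw [ho]; exact hp) (by
    rw [ho]
    have := hp.pos
    omega)
  refine ⟨hc, Finset.eq_of_subset_of_card_le hsub ?_⟩
  rw [hΓ, ← ho, hc.orderOf]

/-- ROW B4a -/
theorem exists_cycle_one (Q : Subgroup (Perm α)) {p a : ℕ} (hp : p.Prime) (hpa : ¬ p ∣ a)
    (Γ : Finset α) (hΓ : Γ.card = p) (hQ : ∀ σ ∈ Q, ∀ x ∈ Γ, σ x ∈ Γ)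
    (hΔ : ∀ σ ∈ Q, ∀ x, x ∉ Γ → (σ ^ a) x = x) (hcard : p ∣ Nat.card Q) :
    ∃ g ∈ Q, g.IsCycle ∧ g.support = Γ := by
  have := Fact.mk hp
  obtain ⟨g, hg⟩ := exists_prime_orderOf_dvd_card' p hcard
  have ho : orderOf (g : Perm α) = p := by rw [← hg]; exact Subgroup.orderOf_coe g
  refine ⟨g, g.2, Cycles.isCycle_of_orderOf hp ho hΓ fun x hx => ?_⟩
  have h1 : Function.IsPeriodicPt (g : Perm α) a x := by
    have := hΔ g g.2 x hx
    rwa [← Perm.iterate_eq_pow] at this
  have h2 : Function.IsPeriodicPt (g : Perm α) p x := by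
    have : ((g : Perm α) ^ p) x = x := by rw [← ho, pow_orderOf_eq_one]; rfl
    rwa [← Perm.iterate_eq_pow] at this
  have h3 := h1.gcd h2
  rw [Nat.Coprime.gcd_eq_one ((Nat.Prime.coprime_iff_not_dvd hp).2 hpa).symm] at h3
  exact h3

/-- restriction to an invariant set -/
noncomputable def Cycles.res (Q : Subgroup (Perm α)) (Γ : Finset α)
    (hQ : ∀ σ ∈ Q, ∀ x ∈ Γ, σ x ∈ Γ) : Q →* Perm {x // x ∈ Γ} where
  toFun σ := (σ : Perm α).subtypePerm (fun x => ⟨fun h => by
    have := hQ _ (Q.inv_mem σ.2) _ h
    simpa using this, hQ σ σ.2 x⟩)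
  map_one' := rfl
  map_mul' _ _ := rfl

/-- ROW B4b -/
theorem exists_cycle_two (Q : Subgroup (Perm α)) {p a : ℕ} (hp : p.Prime) (hpa : ¬ p ∣ a)
    (Γ Γ' : Finset α) (hΓ : Γ.card = p) (hΓ' : Γ'.card = p) (hd : Disjoint Γ Γ')
    (hQ : ∀ σ ∈ Q, ∀ x ∈ Γ, σ x ∈ Γ) (hQ' : ∀ σ ∈ Q, ∀ x ∈ Γ', σ x ∈ Γ')
    (hΔ : ∀ σ ∈ Q, ∀ x, x ∉ Γ → x ∉ Γ' → (σ ^ a) x = x) (hcard : p ^ 2 ∣ Nat.card Q) :
    ∃ g ∈ Q, g.IsCycle ∧ g.support = Γ := by
  have hker : p ∣ Nat.card (Cycles.res Q Γ' hQ').ker := by
    by_contra hcon
    have h1 := Subgroup.card_mul_index (Cycles.res Q Γ' hQ').ker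
    rw [Subgroup.index_ker] at h1
    rw [← h1] at hcard
    have h2 : p ^ 2 ∣ Nat.card (Cycles.res Q Γ' hQ').range :=
      (Nat.Coprime.pow_left 2 ((Nat.Prime.coprime_iff_not_dvd hp).2 hcon)).dvd_of_dvd_mul_left hcard
    have h3 := h2.trans (Subgroup.card_subgroup_dvd_card (Cycles.res Q Γ' hQ').range)
    rw [Nat.card_eq_fintype_card, Fintype.card_perm, Fintype.card_coe, hΓ'] at h3
    obtain ⟨m, rfl⟩ : ∃ m, p = m + 1 := ⟨p - 1, (Nat.succ_pred_prime hp).symm⟩
    rw [Nat.factorial_succ, pow_two] at h3
    have h4 := Nat.dvd_of_mul_dvd_mul_left hp.pos h3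
    rw [hp.dvd_factorial] at h4
    omega
  obtain ⟨g, hg, h1, h2⟩ := exists_cycle_one ((Cycles.res Q Γ' hQ').ker.map Q.subtype) hp hpa Γ hΓ
    (by
      rintro σ ⟨τ, hτ, rfl⟩ x hx
      exact hQ τ τ.2 x hx)
    (by
      rintro σ ⟨τ, hτ, rfl⟩ x hx
      by_cases hx' : x ∈ Γ'
      · have h5 : ((τ : Perm α)) x = x := by
          have h6 : Cycles.res Q Γ' hQ' τ = 1 := hτ
          have h7 := congrArg (fun f : Perm {x // x ∈ Γ'} => ((f ⟨x, hx'⟩ : {x // x ∈ Γ'}) : α)) h6
          exact h7
        have h8 : Function.IsFixedPt (τ : Perm α) x := h5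
        have h9 := h8.iterate a
        rw [Perm.iterate_eq_pow] at h9
        exact h9
      · exact hΔ τ τ.2 x hx hx')
    (by
      rw [Nat.card_congr (Subgroup.equivMapOfInjective _ _ Q.subtype_injective).toEquiv.symm]
      exact hker)
  obtain ⟨τ, hτ, rfl⟩ := hg
  exact ⟨τ, τ.2, h1, h2⟩

/-- a block that contains a point of the support of a cycle of prime length is this point or contains
the support -/
theorem Cycles.block_or {G : Subgroup (Perm α)} {g : Perm α} (hp : g.support.card.Prime)
    (hgc : g.IsCycle) (hg : g ∈ G) {B : Set α} (hB : IsBlock G B) {a : α} (ha : a ∈ g.support)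
    (haB : a ∈ B) : (∀ z ∈ B, z = a) ∨ ∀ z ∈ g.support, z ∈ B := by
  have ha' : g a ≠ a := mem_support.1 ha
  by_cases h1 : g a ∈ B
  · right
    intro z hz
    obtain ⟨i, hi⟩ := hgc.exists_pow_eq ha' (mem_support.1 hz)
    rw [← hi]
    clear hi hz
    induction i with
    | zero => simpa using haB
    | succ n ih =>
      rw [pow_succ', Perm.mul_apply]
      exact block_aux hB hg haB h1 _ ih
  · left
    intro z hz
    by_contra hne
    by_cases hzS : z ∈ g.support
    · obtain ⟨i, hi⟩ := hgc.exists_pow_eq ha' (mem_support.1 hzS)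
      have hgi : g ^ i ∈ G := G.pow_mem hg i
      have hst : ∀ y, y ∈ B → (g ^ i) y ∈ B :=
        block_aux hB hgi haB (by rw [hi]; exact hz)
      have hord : orderOf g = g.support.card := hgc.orderOf
      have hcop : Nat.Coprime (orderOf g) i := by
        rw [hord]
        refine (Nat.Prime.coprime_iff_not_dvd hp).2 fun hdvd => hne ?_
        rw [← hi]
        rw [← hord] at hdvd
        rw [orderOf_dvd_iff_pow_eq_one.1 hdvd]
        rfl
      obtain ⟨m, hm⟩ := exists_pow_eq_self_of_coprime hcop.symm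
      apply h1
      rw [← hm]
      clear hm
      induction m with
      | zero => simpa using haB
      | succ n ih =>
        rw [pow_succ', Perm.mul_apply]
        exact hst _ ih
    · have hgz : g z = z := by simpa [Perm.mem_support] using hzS
      exact h1 (block_aux hB hg hz (by rw [hgz]; exact hz) a haB)

/-- a block that contains a fixed point of a cycle and a point of its support contains the support -/
theorem Cycles.block_sub {G : Subgroup (Perm α)} {g : Perm α} (hgc : g.IsCycle) (hg : g ∈ G)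
    {B : Set α} (hB : IsBlock G B) {a y : α} (ha : a ∉ g.support) (haB : a ∈ B)
    (hy : y ∈ g.support) (hyB : y ∈ B) : ∀ z ∈ g.support, z ∈ B := by
  intro z hz
  have hga : g a = a := by simpa [Perm.mem_support] using ha
  obtain ⟨i, hi⟩ := hgc.exists_pow_eq (mem_support.1 hy) (mem_support.1 hz)
  rw [← hi]
  clear hi hz
  induction i with
  | zero => simpa using hyB
  | succ n ih =>
    rw [pow_succ', Perm.mul_apply]
    exact block_aux hB hg haB (by rw [hga]; exact haB) _ ih

/-- ROW B2b -/
theorem isPreprimitive_two {G : Subgroup (Perm α)} (hG : IsPretransitive G α) {p : ℕ}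
    (hp : p.Prime) (hn : ¬ p ∣ Fintype.card α) {g g' : Perm α} (hgc : g.IsCycle) (hg : g ∈ G)
    (hgc' : g'.IsCycle) (hg' : g' ∈ G) (hc : g.support.card = p) (hc' : g'.support.card = p)
    (hd : Disjoint g.support g'.support)
    (hI : ∀ x y, x ∉ g.support → x ∉ g'.support → y ∉ g.support → y ∉ g'.support →
      ∃ s ∈ G, (∀ z ∈ g.support, s z ∈ g.support) ∧ s x = y) : IsPreprimitive G α := by
  classical
  obtain ⟨a, ha, -⟩ := id hgc
  have haS : a ∈ g.support := mem_support.2 ha
  have haS' : a ∉ g'.support := fun h => (Finset.disjoint_left.1 hd haS) h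
  refine IsPreprimitive.of_isTrivialBlock_base a ?_
  intro B haB hB
  rcases Cycles.block_or (by rw [hc]; exact hp) hgc hg hB haS haB with h1 | h1
  · left
    intro x hx y hy
    rw [h1 x hx, h1 y hy]
  · right
    have hdvd := hB.ncard_dvd_card ⟨a, haB⟩
    rw [Nat.card_eq_fintype_card] at hdvd
    -- the complement
    have hΔ : (∃ y ∈ B, y ∉ g.support ∧ y ∉ g'.support) →
        ∀ z, z ∉ g.support → z ∉ g'.support → z ∈ B := by
      rintro ⟨y, hyB, hy, hy'⟩ z hz hz'
      obtain ⟨s, hsG, hs1, hs2⟩ := hI y z hy hy' hz hz'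
      rw [← hs2]
      exact block_aux hB hsG haB (h1 _ (hs1 a haS)) y hyB
    have hΓ' : (∃ y ∈ B, y ∈ g'.support) → ∀ z ∈ g'.support, z ∈ B := by
      rintro ⟨y, hyB, hy⟩
      exact Cycles.block_sub hgc' hg' hB haS' haB hy hyB
    by_cases h2 : ∃ y ∈ B, y ∈ g'.support
    · have h2' := hΓ' h2
      by_cases h3 : ∃ y ∈ B, y ∉ g.support ∧ y ∉ g'.support
      · ext z
        refine ⟨fun _ => Set.mem_univ _, fun _ => ?_⟩
        by_cases hz : z ∈ g.support
        · exact h1 z hz
        · by_cases hz' : z ∈ g'.support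
          · exact h2' z hz'
          · exact hΔ h3 z hz hz'
      · exfalso
        push Not at h3
        have hBS : B = ((g.support ∪ g'.support : Finset α) : Set α) := by
          ext z
          rw [Finset.mem_coe, Finset.mem_union]
          refine ⟨fun hz => ?_, fun hz => hz.elim (h1 z) (h2' z)⟩
          by_cases hz1 : z ∈ g.support
          · exact Or.inl hz1
          · exact Or.inr (h3 z hz hz1)
        rw [hBS, Set.ncard_coe_finset, Finset.card_union_of_disjoint hd, hc, hc', ← two_mul] at hdvd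
        exact hn ((Dvd.intro_left 2 rfl).trans hdvd)
    · exfalso
      push Not at h2
      by_cases h3 : ∃ y ∈ B, y ∉ g.support ∧ y ∉ g'.support
      · -- `B` is the complement of the second support
        have hBS : B = ((Finset.univ \ g'.support : Finset α) : Set α) := by
          ext z
          rw [Finset.mem_coe, Finset.mem_sdiff]
          refine ⟨fun hz => ⟨Finset.mem_univ _, h2 z hz⟩, fun hz => ?_⟩
          by_cases hz1 : z ∈ g.support
          · exact h1 z hz1
          · exact hΔ h3 z hz1 hz.2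
        have hcardB : (Finset.univ \ g'.support : Finset α).card = Fintype.card α - p := by
          rw [Finset.card_sdiff_of_subset (Finset.subset_univ _), Finset.card_univ, hc']
        obtain ⟨y, hyB, hy, hy'⟩ := h3
        have hlt : p + p + 1 ≤ Fintype.card α := by
          have h5 : (insert y (g.support ∪ g'.support)).card ≤ Fintype.card α := Finset.card_le_univ _
          rw [Finset.card_insert_of_notMem (by
            rw [Finset.mem_union]
            exact fun h => h.elim hy hy'), Finset.card_union_of_disjoint hd, hc, hc'] at h5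
          exact h5
        rw [hBS, Set.ncard_coe_finset, hcardB] at hdvd
        have h6 : Fintype.card α - p ∣ p := by
          have h7 := Nat.dvd_sub hdvd (dvd_refl (Fintype.card α - p))
          have h8 : Fintype.card α - (Fintype.card α - p) = p := by omega
          rwa [h8] at h7
        have := Nat.le_of_dvd hp.pos h6
        omega
      · push Not at h3
        have hBS : B = (g.support : Set α) := by
          ext z
          refine ⟨fun hz => ?_, fun hz => h1 z hz⟩
          by_contra hz1
          exact h2 z hz (h3 z hz hz1)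
        rw [hBS, Set.ncard_coe_finset, hc] at hdvd
        exact hn hdvd

/-- ROW B2c -/
theorem isPreprimitive_or {G : Subgroup (Perm α)} (hG : IsPretransitive G α) {p : ℕ}
    (hp : p.Prime) {g g' : Perm α} (hgc : g.IsCycle) (hg : g ∈ G)
    (hgc' : g'.IsCycle) (hg' : g' ∈ G) (hc : g.support.card = p) (hc' : g'.support.card = p)
    (hd : Disjoint g.support g'.support) (hu : ∀ x, x ∈ g.support ∨ x ∈ g'.support) :
    IsPreprimitive G α ∨ ∀ s ∈ G, (∀ x ∈ g.support, s x ∈ g.support) ∨
      (∀ x ∈ g.support, s x ∈ g'.support) := by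
  classical
  obtain ⟨a, ha, -⟩ := id hgc
  have haS : a ∈ g.support := mem_support.2 ha
  have haS' : a ∉ g'.support := fun h => (Finset.disjoint_left.1 hd haS) h
  by_cases hb : IsBlock G (g.support : Set α)
  · right
    intro s hs
    by_cases h1 : ∃ x ∈ g.support, s x ∈ g.support
    · left
      obtain ⟨x, hx, hsx⟩ := h1
      exact fun y hy => block_aux hb hs hx hsx y hy
    · right
      push Not at h1
      exact fun x hx => (hu (s x)).resolve_left (h1 x hx)
  · left
    refine IsPreprimitive.of_isTrivialBlock_base a ?_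
    intro B haB hB
    rcases Cycles.block_or (by rw [hc]; exact hp) hgc hg hB haS haB with h1 | h1
    · left
      intro x hx y hy
      rw [h1 x hx, h1 y hy]
    · right
      by_cases h2 : ∃ y ∈ B, y ∈ g'.support
      · obtain ⟨y, hyB, hy⟩ := h2
        have h2' := Cycles.block_sub hgc' hg' hB haS' haB hy hyB
        ext z
        exact ⟨fun _ => Set.mem_univ _, fun _ => (hu z).elim (h1 z) (h2' z)⟩
      · exfalso
        push Not at h2
        apply hb
        have hBS : B = (g.support : Set α) := by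
          ext z
          exact ⟨fun hz => (hu z).resolve_right (h2 z hz), fun hz => h1 z hz⟩
        rwa [← hBS]

end BCX6
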