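import Mathlib

/-!
# One-parameter families of polynomials with large monodromy groups: definitions
-/

namespace BCX6

open Polynomial Equiv

variable (k E : Type) [Field k] [Field E] [Algebra (RatFunc k) E]

/-- the constants -/
noncomputable def cst : k →+* E := (algebraMap (RatFunc k) E).comp (algebraMap k (RatFunc k))

/-- the variable `z` -/
noncomputable def zz : E := algebraMap (RatFunc k) E RatFunc.X

/-- the automorphisms of `E` over `k(z)` -/
def G1 : Subgroup (E ≃+* E) where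
  carrier := {σ | σ (zz k E) = zz k E ∧ ∀ c : k, σ (cst k E c) = cst k E c}
  mul_mem' := by
    rintro σ τ ⟨h1, h2⟩ ⟨h3, h4⟩
    exact ⟨by rw [RingAut.mul_apply, h3, h1], fun c => by rw [RingAut.mul_apply, h4, h2]⟩
  one_mem' := ⟨rfl, fun c => rfl⟩
  inv_mem' := by
    rintro σ ⟨h1, h2⟩
    refine ⟨?_, fun c => ?_⟩
    · change σ.symm _ = _
      rw [RingEquiv.symm_apply_eq, h1]
    · change σ.symm _ = _
      rw [RingEquiv.symm_apply_eq, h2]

/-- the automorphisms of `E` over `K(z)` -/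
def G0 (K : Type) [Field K] [Algebra K k] : Subgroup (E ≃+* E) where
  carrier := {σ | σ (zz k E) = zz k E ∧
    ∀ c : K, σ (cst k E (algebraMap K k c)) = cst k E (algebraMap K k c)}
  mul_mem' := by
    rintro σ τ ⟨h1, h2⟩ ⟨h3, h4⟩
    exact ⟨by rw [RingAut.mul_apply, h3, h1], fun c => by rw [RingAut.mul_apply, h4, h2]⟩
  one_mem' := ⟨rfl, fun c => rfl⟩
  inv_mem' := by
    rintro σ ⟨h1, h2⟩
    refine ⟨?_, fun c => ?_⟩
    · change σ.symm _ = _
      rw [RingEquiv.symm_apply_eq, h1]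
    · change σ.symm _ = _
      rw [RingEquiv.symm_apply_eq, h2]

variable {k E}

/-- the permutations of `R` that are induced by elements of a group of automorphisms -/
def img (𝔤 : Subgroup (E ≃+* E)) (R : Finset E) : Subgroup (Perm {x // x ∈ R}) where
  carrier := {π | ∃ σ ∈ 𝔤, ∀ x : {x // x ∈ R}, σ x = π x}
  mul_mem' := by
    rintro π ρ ⟨σ, hσ, h1⟩ ⟨τ, hτ, h2⟩
    exact ⟨σ * τ, mul_mem hσ hτ, fun x => by rw [RingAut.mul_apply, h2, h1, Perm.mul_apply]⟩
  one_mem' := ⟨1, one_mem _, fun x => rfl⟩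
  inv_mem' := by
    rintro π ⟨σ, hσ, h1⟩
    refine ⟨σ⁻¹, inv_mem hσ, fun x => ?_⟩
    change σ.symm _ = _
    rw [RingEquiv.symm_apply_eq, h1]
    exact congrArg Subtype.val (π.apply_symm_apply x).symm

/-- the same for a family of finite sets -/
def imgs {ι : Type} (𝔤 : Subgroup (E ≃+* E)) (R : ι → Finset E) :
    Subgroup (∀ i, Perm {x // x ∈ R i}) where
  carrier := {π | ∃ σ ∈ 𝔤, ∀ i, ∀ x : {x // x ∈ R i}, σ x = π i x}
  mul_mem' := by
    rintro π ρ ⟨σ, hσ, h1⟩ ⟨τ, hτ, h2⟩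
    exact ⟨σ * τ, mul_mem hσ hτ, fun i x => by
      rw [RingAut.mul_apply, h2, h1, Pi.mul_apply, Perm.mul_apply]⟩
  one_mem' := ⟨1, one_mem _, fun i x => rfl⟩
  inv_mem' := by
    rintro π ⟨σ, hσ, h1⟩
    refine ⟨σ⁻¹, inv_mem hσ, fun i x => ?_⟩
    change σ.symm _ = _
    rw [RingEquiv.symm_apply_eq, h1]
    exact congrArg Subtype.val ((π i).apply_symm_apply x).symm

variable (E) in
/-- the polynomial `A + z B` -/
noncomputable def fE (A B : k[X]) : E[X] := A.map (cst k E) + C (zz k E) * B.map (cst k E)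

/-- A multiplicative non-archimedean norm `N` on `E` trivial on `k` and with `N z < 1`, and a
group `D` of automorphisms over `k(z)` preserving `N`, with all orbits large. -/
structure IsLocal (k : Type) {E : Type} [Field k] [Field E] [Algebra (RatFunc k) E] (N : E → ℝ)
    (D : Subgroup (E ≃+* E)) : Prop where
  le : D ≤ G1 k E
  mul : ∀ x y, N (x * y) = N x * N y
  add : ∀ x y, N (x + y) ≤ max (N x) (N y)
  nonneg : ∀ x, 0 ≤ N x
  eq_zero : ∀ x, N x = 0 ↔ x = 0
  const : ∀ c : k, c ≠ 0 → N (cst k E c) = 1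
  lt : N (zz k E) < 1
  inv : ∀ σ ∈ D, ∀ x, N (σ x) = N x
  orb : ∀ x : E, x ≠ 0 → IsSeparable (RatFunc k) x → ∃ (O : Finset E) (m : ℤ),
    (∀ y, y ∈ O ↔ ∃ σ ∈ D, σ x = y) ∧ N x ^ O.card = N (zz k E) ^ m

/-- the elements of `R` near `w` -/
noncomputable def near (N : E → ℝ) (R : Finset E) (w : E) : Finset E := by
  classical exact R.filter fun x => N (x - w) < 1

/-- `A = X ^ a * (∏ (X - w)) ^ p` and `B` is prime to `A`, of smaller degree -/
structure Fam {k : Type} [Field k] (p a : ℕ) (W : Finset k) (A B : k[X]) : Prop where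
  eqA : A = X ^ a * (∏ w ∈ W, (X - C w)) ^ p
  zero_notMem : (0 : k) ∉ W
  deg : B.degree < A.degree
  zero : a ≠ 0 → B.eval 0 ≠ 0
  ne : ∀ w ∈ W, B.eval w ≠ 0

/-- `R` is the set of roots of `A + z B`, and they are simple -/
structure IsRoots {k E : Type} [Field k] [Field E] [Algebra (RatFunc k) E] (R : Finset E)
    (A B : k[X]) : Prop where
  mem : ∀ x, x ∈ R ↔ (fE E A B).eval x = 0
  card : R.card = A.natDegree

/-- the homomorphism `K[X] → E`, `X ↦ z` -/
noncomputable def toE (k E K : Type) [Field k] [Field E] [Algebra (RatFunc k) E] [Field K]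
    [Algebra K k] : K[X] →+* E :=
  eval₂RingHom ((cst k E).comp (algebraMap K k)) (zz k E)

/-- `A + z B` with coefficients in `K[z]` -/
noncomputable def fK {K : Type} [Field K] (A B : K[X]) : K[X][X] := A.map C + C X * B.map C

/-- the parameters of the family F3: `n = a + 2 p`, `r = p * k1 - a`, `a2 = l ^ (p * k1)` -/
structure Par (p : ℕ) {K : Type} [Field K] (a k1 r : ℕ) (l a2 : K) (Y : Finset K) : Prop where
  a3 : 3 ≤ a
  odd : Odd a
  dvd : ¬ p ∣ a
  k1odd : Odd k1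
  hr : p * k1 = a + r
  hr0 : 0 < r
  hr2 : r < 2 * p
  l0 : l ≠ 0
  l1 : l ≠ 1
  lk : l ^ k1 ≠ 1
  lr : l ^ p + l ^ r ≠ 0
  lsq : IsSquare (- l)
  a2eq : a2 = l ^ (p * k1)
  Y0 : (0 : K) ∉ Y
  Y1 : (1 : K) ∉ Y
  Y2 : a2 ∉ Y
  Ysq : ∀ y ∈ Y, IsSquare ((-1) ^ ((a + 2 * p - 1) / 2) * (a : K) * ((y - 1) * (y - a2)))
  Yne : ∀ y ∈ Y, (1 - y) * l ^ (a + p) + (a2 - y) ≠ 0

end BCX6
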