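import Pool.Agent.BCX6.Defs

/-!
# One-parameter families of polynomials: divisibility of the order of the local group
-/

namespace BCX6

open Polynomial Equiv MulAction

section

variable {k E : Type} [Field k] [Field E] [Algebra (RatFunc k) E]
variable {N : E → ℝ} {D : Subgroup (E ≃+* E)}

lemma IsLocal.pos (h : IsLocal k N D) {x : E} (hx : x ≠ 0) : 0 < N x :=
  lt_of_le_of_ne (h.nonneg x) fun h0 => hx ((h.eq_zero x).1 h0.symm)

lemma zz_ne_zero (k E : Type) [Field k] [Field E] [Algebra (RatFunc k) E] : zz k E ≠ 0 := by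
  rw [zz, Ne, map_eq_zero]
  exact RatFunc.X_ne_zero

/-- powers of `N z` -/
lemma IsLocal.zpow_inj (h : IsLocal k N D) {m n : ℤ} (e : N (zz k E) ^ m = N (zz k E) ^ n) :
    m = n := by
  have h0 := h.pos (zz_ne_zero k E)
  exact zpow_right_injective₀ h0 h.lt.ne e

/-- the permutations induced by elements of `D` -/
noncomputable def toImg (D : Subgroup (E ≃+* E)) (R : Finset E) (hR : ∀ σ ∈ D, ∀ x ∈ R, σ x ∈ R) :
    D →* img D R where
  toFun σ := ⟨Perm.subtypePerm (σ : E ≃+* E).toEquiv fun x => ⟨fun hx => by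
      have h1 := hR _ (inv_mem σ.2) _ hx
      have h2 : (σ : E ≃+* E)⁻¹ ((σ : E ≃+* E) x) = x := (σ : E ≃+* E).symm_apply_apply x
      change (σ : E ≃+* E)⁻¹ ((σ : E ≃+* E) x) ∈ R at h1
      rwa [h2] at h1, fun hx => hR σ σ.2 x hx⟩, σ, σ.2, fun x => rfl⟩
  map_one' := by
    apply Subtype.ext
    ext x
    rfl
  map_mul' σ τ := by
    apply Subtype.ext
    ext x
    rfl

/-- ROW C4: a general divisibility -/
theorem IsLocal.dvd_card (h : IsLocal k N D) {R : Finset E} (hR : ∀ σ ∈ D, ∀ x ∈ R, σ x ∈ R)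
    {d : E} (hd : d ≠ 0) (hs : IsSeparable (RatFunc k) d)
    (hfix : ∀ σ ∈ D, (∀ x ∈ R, σ x = x) → σ d = d) {q m : ℕ} (hq : N d ^ q = N (zz k E) ^ m)
    (hqm : Nat.Coprime q m) : q ∣ Nat.card (img D R) := by
  classical
  obtain ⟨O, m', hO, hm'⟩ := h.orb d hd hs
  -- `q` divides the number of elements of the orbit
  have h1 : (m : ℤ) * O.card = m' * q := by
    apply h.zpow_inj
    rw [zpow_mul, zpow_natCast, zpow_natCast, ← hq, zpow_mul, zpow_natCast, ← hm', ← pow_mul,
      ← pow_mul, mul_comm]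
  have h2 : q ∣ O.card := by
    have h3 : (q : ℤ) ∣ m * O.card := ⟨m', by rw [h1, mul_comm]⟩
    have h4 : q ∣ m * O.card := by exact_mod_cast h3
    exact hqm.dvd_of_dvd_mul_left h4
  refine h2.trans ?_
  -- the orbit and the stabiliser
  let A : Subgroup D :=
    { carrier := {σ | (σ : E ≃+* E) d = d}
      mul_mem' := by
        intro σ τ hσ hτ
        change ((σ : E ≃+* E) * (τ : E ≃+* E)) d = d
        rw [RingAut.mul_apply, hτ, hσ]
      one_mem' := rfl
      inv_mem' := by
        intro σ hσ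
        change (σ : E ≃+* E).symm d = d
        rw [RingEquiv.symm_apply_eq]
        exact hσ.symm }
  have hA : A.index = O.card := by
    have e : (D ⧸ A) ≃ {y // y ∈ O} := by
      refine Equiv.ofBijective (Quotient.lift (fun σ : D => (⟨(σ : E ≃+* E) d,
        (hO _).2 ⟨σ, σ.2, rfl⟩⟩ : {y // y ∈ O})) ?_) ⟨?_, ?_⟩
      · intro σ τ hστ
        have h5 : σ⁻¹ * τ ∈ A := QuotientGroup.leftRel_apply.1 hστ
        have h6 : (σ : E ≃+* E).symm ((τ : E ≃+* E) d) = d := h5
        rw [RingEquiv.symm_apply_eq] at h6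
        exact Subtype.ext h6.symm
      · intro x y
        refine Quotient.inductionOn₂ x y fun σ τ hστ => ?_
        have h5 : (σ : E ≃+* E) d = (τ : E ≃+* E) d := congrArg Subtype.val hστ
        apply Quotient.sound
        apply QuotientGroup.leftRel_apply.2
        change (σ : E ≃+* E).symm ((τ : E ≃+* E) d) = d
        rw [RingEquiv.symm_apply_eq]
        exact h5.symm
      · rintro ⟨y, hy⟩
        obtain ⟨σ, hσ, rfl⟩ := (hO y).1 hy
        exact ⟨Quotient.mk _ ⟨σ, hσ⟩, rfl⟩
    rw [Subgroup.index, Nat.card_congr e, Nat.card_eq_fintype_card, Fintype.card_coe]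
  rw [← hA]
  let φ := toImg D R hR
  have hφs : Function.Surjective φ := by
    rintro ⟨π, σ, hσ, hπ⟩
    refine ⟨⟨σ, hσ⟩, ?_⟩
    apply Subtype.ext
    ext x
    exact hπ x
  have hker : φ.ker ≤ A := by
    intro σ hσ
    refine hfix σ σ.2 fun x hx => ?_
    have h5 : φ σ = 1 := hσ
    have h6 := congrArg (fun π : img D R => ((π : Perm {x // x ∈ R}) ⟨x, hx⟩ : E)) h5
    exact h6
  have h7 : φ.ker.index = Nat.card (img D R) := by
    rw [Subgroup.index_ker, MonoidHom.range_eq_top.2 hφs, Nat.card_congr Subgroup.topEquiv.toEquiv]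
  rw [← h7]
  exact Subgroup.index_dvd_of_le hker

end

end BCX6
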