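import Mathlib.GroupTheory.GroupAction.Jordan
import Mathlib.GroupTheory.Sylow

/-!
# Wielandt 13.9: a primitive group with a cycle of prime length and at least three fixed points
contains the alternating group
-/

set_option autoImplicit false
set_option linter.unusedSimpArgs false

namespace BCX6

open Equiv Equiv.Perm MulAction

variable {α : Type*} [Fintype α] [DecidableEq α]

omit [Fintype α] [DecidableEq α] in
/-- a permutation commuting with a cycle is a power of the cycle on its support -/
theorem pow_of_commute {g x : Perm α} (hg : g.IsCycle) (hx : x * g = g * x) :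
    ∃ j : ℤ, ∀ y, g y ≠ y → x y = (g ^ j) y := by
  obtain ⟨a, ha, h⟩ := hg
  have hxa : g (x a) ≠ x a := by
    intro h1
    apply ha
    have h2 : x (g a) = x a := by
      have h3 := congrArg (fun f : Perm α => f a) hx
      simp only [Perm.mul_apply] at h3
      rw [h3, h1]
    exact x.injective h2
  obtain ⟨j, hj⟩ := h hxa
  refine ⟨j, fun y hy => ?_⟩
  obtain ⟨i, rfl⟩ := h hy
  have h4 : x * g ^ i = g ^ i * x := (show Commute x g from hx).zpow_right i
  have h5 := congrArg (fun f : Perm α => f a) h4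
  simp only [Perm.mul_apply] at h5
  rw [h5, ← hj, ← Perm.mul_apply, ← Perm.mul_apply, ← zpow_add, ← zpow_add, add_comm]

/-- the elements of `G` fixing every point outside the support of `g` -/
def fixG (G : Subgroup (Perm α)) (g : Perm α) : Subgroup (Perm α) where
  carrier := {x | x ∈ G ∧ ∀ y, g y = y → x y = y}
  one_mem' := ⟨G.one_mem, fun _ _ => rfl⟩
  mul_mem' := by
    rintro x y ⟨hx, hx'⟩ ⟨hy, hy'⟩
    exact ⟨G.mul_mem hx hy, fun z hz => by rw [Perm.mul_apply, hy' z hz, hx' z hz]⟩
  inv_mem' := by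
    rintro x ⟨hx, hx'⟩
    exact ⟨G.inv_mem hx, fun z hz => by rw [Perm.inv_eq_iff_eq, hx' z hz]⟩

theorem card_fixG_dvd (G : Subgroup (Perm α)) (g : Perm α) :
    Nat.card (fixG G g) ∣ (g.support.card).factorial := by
  have hmap : ∀ x : fixG G g, ∀ y, y ∈ g.support ↔ x.1 y ∈ g.support := by
    intro x y
    rw [Perm.mem_support, Perm.mem_support, not_iff_not]
    constructor
    · intro h
      rw [x.2.2 y h, h]
    · intro h
      have h1 := x.2.2 _ h
      have h2 : x.1 y = y := x.1.injective h1
      rwa [h2] at h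
  let f : fixG G g →* Perm g.support :=
    { toFun := fun x => x.1.subtypePerm (fun y => (hmap x y).symm)
      map_one' := by ext; simp
      map_mul' := fun x y => by ext; simp }
  have hf : Function.Injective f := by
    intro x y h
    apply Subtype.ext
    ext z
    by_cases hz : z ∈ g.support
    · have h1 := congrArg (fun e : Perm g.support => ((e ⟨z, hz⟩ : g.support) : α)) h
      simpa [f] using h1
    · rw [Perm.notMem_support] at hz
      rw [x.2.2 z hz, y.2.2 z hz]
  have h := Subgroup.card_dvd_of_injective f hf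
  have h2 : Nat.card g.support = g.support.card := by
    rw [Nat.card_eq_fintype_card, Fintype.card_coe]
  rwa [Nat.card_perm, h2] at h

/-- a subgroup of prime order `p` of a group with order dividing `p!` is a Sylow subgroup -/
theorem factorization_eq_one {p m : ℕ} (hp : p.Prime) (h1 : p ∣ m) (h2 : m ∣ p.factorial) :
    m.factorization p = 1 := by
  have hm : m ≠ 0 := fun h => by
    rw [h, zero_dvd_iff] at h2
    exact p.factorial_ne_zero h2
  have h3 : ¬ p ^ 2 ∣ m := by
    intro h
    have h4 := h.trans h2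
    rw [← Nat.mul_factorial_pred hp.ne_zero, pow_two] at h4
    have h5 := Nat.dvd_of_mul_dvd_mul_left hp.pos h4
    rw [hp.dvd_factorial] at h5
    have := hp.pos
    omega
  have h4 := (hp.dvd_iff_one_le_factorization hm).1 h1
  have h5 : ¬ 2 ≤ m.factorization p := fun h => h3 ((hp.pow_dvd_iff_le_factorization hm).2 h)
  omega

/-- two cycles of prime length with the same support are conjugate up to powers, by an element
fixing the other points -/
theorem exists_conj (G : Subgroup (Perm α)) {g g' : Perm α} (hp : g.support.card.Prime)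
    (hg : g.IsCycle) (hg' : g'.IsCycle) (hGg : g ∈ G) (hGg' : g' ∈ G)
    (hs : ∀ y, g y = y ↔ g' y = y) :
    ∃ t ∈ G, (∀ y, g y = y → t y = y) ∧ ∃ i : ℤ, t * g' * t⁻¹ = g ^ i := by
  classical
  set p := g.support.card with hpdef
  have : Fact p.Prime := ⟨hp⟩
  have hss : g'.support = g.support := by
    ext y
    rw [Perm.mem_support, Perm.mem_support, not_iff_not, hs y]
  have hoK : ∀ x : Perm α, x ∈ fixG G g → x ∈ G := fun x h => h.1
  have hgK : g ∈ fixG G g := ⟨hGg, fun y h => h⟩
  have hgK' : g' ∈ fixG G g := ⟨hGg', fun y h => (hs y).1 h⟩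
  have ho : orderOf g = p := hg.orderOf
  have ho' : orderOf g' = p := by rw [hg'.orderOf, hss]
  have hcard : (Nat.card (fixG G g)).factorization p = 1 := by
    refine factorization_eq_one hp ?_ (card_fixG_dvd G g)
    have h1 : orderOf (⟨g, hgK⟩ : fixG G g) ∣ Nat.card (fixG G g) := orderOf_dvd_natCard _
    rwa [Subgroup.orderOf_mk, ho] at h1
  have hc1 : Nat.card (Subgroup.zpowers (⟨g, hgK⟩ : fixG G g)) =
      p ^ (Nat.card (fixG G g)).factorization p := by
    rw [hcard, pow_one, Nat.card_zpowers, Subgroup.orderOf_mk, ho]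
  have hc2 : Nat.card (Subgroup.zpowers (⟨g', hgK'⟩ : fixG G g)) =
      p ^ (Nat.card (fixG G g)).factorization p := by
    rw [hcard, pow_one, Nat.card_zpowers, Subgroup.orderOf_mk, ho']
  obtain ⟨t, ht⟩ := MulAction.exists_smul_eq (fixG G g) (Sylow.ofCard _ hc2) (Sylow.ofCard _ hc1)
  refine ⟨t.1, t.2.1, t.2.2, ?_⟩
  have h1 : t * ⟨g', hgK'⟩ * t⁻¹ ∈ (Sylow.ofCard _ hc1 : Sylow p (fixG G g)) := by
    rw [← ht, Sylow.smul_def]
    exact ⟨⟨g', hgK'⟩, Subgroup.mem_zpowers _, rfl⟩
  have h2 : t * ⟨g', hgK'⟩ * t⁻¹ ∈ Subgroup.zpowers (⟨g, hgK⟩ : fixG G g) := h1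
  obtain ⟨i, hi⟩ := Subgroup.mem_zpowers_iff.1 h2
  refine ⟨i, ?_⟩
  have h3 := congrArg Subtype.val hi
  simpa using h3.symm

/-- **Jordan, Wielandt 13.9.** A primitive group with a cycle of prime length and at least three
fixed points contains the alternating group. -/
theorem alternatingGroup_le_of_isCycle_mem {G : Subgroup (Perm α)} (hG : IsPreprimitive G α)
    {g : Perm α} (hp : g.support.card.Prime) (h3 : g.support.card + 3 ≤ Fintype.card α)
    (hgc : g.IsCycle) (hg : g ∈ G) : alternatingGroup α ≤ G := by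
  classical
  set p := g.support.card with hpdef
  obtain ⟨n, hn⟩ : ∃ n, Fintype.card α = p + n + 1 := ⟨Fintype.card α - p - 1, by omega⟩
  have hsc : Set.ncard ((g.support)ᶜ : Set α) = n + 1 := by
    apply Nat.add_left_cancel
    rw [Set.ncard_add_ncard_compl, Set.ncard_coe_finset, Nat.card_eq_fintype_card, hn, ← hpdef,
      add_assoc]
  have hmt : IsMultiplyPreprimitive G α (n + 2) := by
    apply hG.isMultiplyPreprimitive hsc
    · rw [Nat.card_eq_fintype_card, hn]
      have := hp.two_le
      omega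
    have := isPretransitive_of_isCycle_mem hgc hg
    apply IsPreprimitive.of_prime_card
    convert! hp
    rw [Nat.card_eq_fintype_card, Fintype.card_subtype, hpdef]
    congr 1
    ext x
    simp [SubMulAction.mem_ofFixingSubgroup_iff]
  have hmt2 : IsMultiplyPretransitive G α (n + 2) := hmt.isMultiplyPretransitive
  have hmt1 : IsMultiplyPretransitive G α (n + 1) :=
    isMultiplyPretransitive_of_le (n := n + 2) (by omega)
      (by rw [Nat.card_eq_fintype_card, hn]; have := hp.two_le; omega)
  -- elements of `G` acting on the fixed points by a prescribed swap and normalising `g`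
  have key : ∀ a b : α, g a = a → g b = b → ∃ u ∈ G, (∀ y, g y = y → u y = swap a b y) ∧
      ∃ i : ℤ, u * g * u⁻¹ = g ^ i := by
    intro a b ha hb
    have hcd : Fintype.card {y : α // g y = y} = n + 1 := by
      rw [← hsc, ← Nat.card_eq_fintype_card]
      rw [← Nat.card_coe_set_eq]
      apply Nat.card_congr
      apply Equiv.subtypeEquivRight
      intro y
      simp
    let e0 : Fin (n + 1) ≃ {y : α // g y = y} := (Fintype.equivFinOfCardEq hcd).symm
    let e : Fin (n + 1) ↪ α := e0.toEmbedding.trans (Function.Embedding.subtype _)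
    obtain ⟨h, hh⟩ := (isMultiplyPretransitive_iff.1 hmt1) e (e.trans (swap a b).toEmbedding)
    have hh1 : ∀ y, g y = y → h.1 y = swap a b y := by
      intro y hy
      have h1 := congrArg (fun f : Fin (n + 1) ↪ α => f (e0.symm ⟨y, hy⟩)) hh
      have h2 : h • y = swap a b y := by simpa [e] using h1
      exact h2
    have hswap : ∀ y, g y = y ↔ g (swap a b y) = swap a b y := by
      intro y
      rcases eq_or_ne y a with rfl | hya
      · rw [swap_apply_left]
        exact ⟨fun _ => hb, fun _ => ha⟩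
      rcases eq_or_ne y b with rfl | hyb
      · rw [swap_apply_right]
        exact ⟨fun _ => ha, fun _ => hb⟩
      rw [swap_apply_of_ne_of_ne hya hyb]
    have hfix : ∀ y, g y = y ↔ g (h.1 y) = h.1 y := by
      intro y
      constructor
      · intro hy
        rw [hh1 y hy]
        exact (hswap y).1 hy
      · intro hy
        have h1 : g (swap a b (h.1 y)) = swap a b (h.1 y) := (hswap _).1 hy
        have h2 := hh1 _ h1
        rw [swap_apply_self] at h2
        have h3 := h.1.injective h2
        rwa [h3] at h1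
    have hcyc : (h.1 * g * h.1⁻¹).IsCycle := hgc.conj
    have hmem : h.1 * g * h.1⁻¹ ∈ G := G.mul_mem (G.mul_mem h.2 hg) (G.inv_mem h.2)
    have hs : ∀ y, g y = y ↔ (h.1 * g * h.1⁻¹) y = y := by
      intro y
      rw [Perm.mul_apply, Perm.mul_apply]
      obtain ⟨z, rfl⟩ := h.1.surjective y
      have h1 : h.1⁻¹ (h.1 z) = z := by simp
      rw [h1, ← hfix z]
      exact ⟨fun hz => by rw [hz], fun hz => h.1.injective hz⟩
    obtain ⟨t, htG, ht1, i, hi⟩ := exists_conj G hp hgc hcyc hg hmem hs
    refine ⟨t * h.1, G.mul_mem htG h.2, ?_, i, ?_⟩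
    · intro y hy
      rw [Perm.mul_apply, hh1 y hy]
      exact ht1 _ ((hswap y).1 hy)
    · rw [← hi]
      group
  -- three fixed points
  obtain ⟨a, b, c, ha, hb, hc, hab, hac, hbc⟩ : ∃ a b c : α, g a = a ∧ g b = b ∧ g c = c ∧
      a ≠ b ∧ a ≠ c ∧ b ≠ c := by
    have h2 : 2 < (g.supportᶜ).card := by
      rw [Finset.card_compl, ← hpdef]
      omega
    obtain ⟨a, b, c, ha, hb, hc, hab, hac, hbc⟩ := Finset.two_lt_card_iff.1 h2
    rw [Finset.mem_compl, Perm.notMem_support] at ha hb hc
    exact ⟨a, b, c, ha, hb, hc, hab, hac, hbc⟩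
  obtain ⟨u, hu, hu1, i, hui⟩ := key a b ha hb
  obtain ⟨v, hv, hv1, j, hvj⟩ := key b c hb hc
  have hx : (u⁻¹ * v⁻¹ * u * v) * g = g * (u⁻¹ * v⁻¹ * u * v) := by
    have e1 : (u * v) * g * (u * v)⁻¹ = g ^ (i * j) := by
      have : (u * v) * g * (u * v)⁻¹ = u * (v * g * v⁻¹) * u⁻¹ := by group
      rw [this, hvj, ← conj_zpow, hui, ← zpow_mul]
    have e2 : (v * u) * g * (v * u)⁻¹ = g ^ (i * j) := by
      have : (v * u) * g * (v * u)⁻¹ = v * (u * g * u⁻¹) * v⁻¹ := by group
      rw [this, hui, ← conj_zpow, hvj, ← zpow_mul, mul_comm]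
    have e3 : (u * v) * g * (u * v)⁻¹ = (v * u) * g * (v * u)⁻¹ := by rw [e1, e2]
    calc (u⁻¹ * v⁻¹ * u * v) * g
        = (v * u)⁻¹ * ((u * v) * g * (u * v)⁻¹) * (u * v) := by group
      _ = (v * u)⁻¹ * ((v * u) * g * (v * u)⁻¹) * (u * v) := by rw [e3]
      _ = g * (u⁻¹ * v⁻¹ * u * v) := by group
  obtain ⟨k, hk⟩ := pow_of_commute hgc hx
  have hxfix : ∀ y, g y = y → (u⁻¹ * v⁻¹ * u * v) y = (swap a b * swap a c) y := by
    intro y hy
    have hs1 : ∀ y, g y = y → g (swap a b y) = swap a b y := by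
      intro y hy
      rcases eq_or_ne y a with rfl | hya
      · rwa [swap_apply_left]
      rcases eq_or_ne y b with rfl | hyb
      · rwa [swap_apply_right]
      rwa [swap_apply_of_ne_of_ne hya hyb]
    have hs2 : ∀ y, g y = y → g (swap b c y) = swap b c y := by
      intro y hy
      rcases eq_or_ne y b with rfl | hya
      · rwa [swap_apply_left]
      rcases eq_or_ne y c with rfl | hyb
      · rwa [swap_apply_right]
      rwa [swap_apply_of_ne_of_ne hya hyb]
    have hu2 : ∀ y, g y = y → u⁻¹ y = swap a b y := by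
      intro y hy
      rw [Perm.inv_eq_iff_eq, hu1 _ (hs1 y hy), swap_apply_self]
    have hv2 : ∀ y, g y = y → v⁻¹ y = swap b c y := by
      intro y hy
      rw [Perm.inv_eq_iff_eq, hv1 _ (hs2 y hy), swap_apply_self]
    rw [Perm.mul_apply, Perm.mul_apply, Perm.mul_apply, hv1 y hy, hu1 _ (hs2 y hy),
      hv2 _ (hs1 _ (hs2 y hy)), hu2 _ (hs2 _ (hs1 _ (hs2 y hy))), Perm.mul_apply]
    rcases eq_or_ne y a with rfl | hya
    · simp [swap_apply_of_ne_of_ne, hab, hac, hbc, hab.symm, hac.symm, hbc.symm]
    rcases eq_or_ne y b with rfl | hyb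
    · simp [swap_apply_of_ne_of_ne, hab, hac, hbc, hab.symm, hac.symm, hbc.symm]
    rcases eq_or_ne y c with rfl | hyc
    · simp [swap_apply_of_ne_of_ne, hab, hac, hbc, hab.symm, hac.symm, hbc.symm]
    simp [swap_apply_of_ne_of_ne, hya, hyb, hyc]
  have hfin : (u⁻¹ * v⁻¹ * u * v) * g ^ (-k) = swap a b * swap a c := by
    ext y
    rw [Perm.mul_apply]
    by_cases hy : g y = y
    · have h1 : (g ^ (-k)) y = y := zpow_apply_eq_self_of_apply_eq_self hy _
      rw [h1, hxfix y hy]
    · have h1 : g ((g ^ (-k)) y) ≠ (g ^ (-k)) y := by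
        intro h
        apply hy
        have h2 : (g ^ k) (g ((g ^ (-k)) y)) = (g ^ k) ((g ^ (-k)) y) := by rw [h]
        have h3 : g ^ k * g * g ^ (-k) = g := by group
        have h4 : g ^ k * g ^ (-k) = 1 := by group
        rw [← Perm.mul_apply, ← Perm.mul_apply, ← Perm.mul_apply, h3, h4] at h2
        exact h2
      rw [hk _ h1, ← Perm.mul_apply, ← zpow_add, add_neg_cancel, zpow_zero, Perm.one_apply]
      have hya : y ≠ a := fun h => hy (by rw [h, ha])
      have hyb : y ≠ b := fun h => hy (by rw [h, hb])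
      have hyc : y ≠ c := fun h => hy (by rw [h, hc])
      rw [Perm.mul_apply, swap_apply_of_ne_of_ne hya hyc, swap_apply_of_ne_of_ne hya hyb]
  have hmem : swap a b * swap a c ∈ G := by
    rw [← hfin]
    exact G.mul_mem (G.mul_mem (G.mul_mem (G.mul_mem (G.inv_mem hu) (G.inv_mem hv)) hu) hv)
      (G.zpow_mem hg _)
  exact alternatingGroup_le_of_isPreprimitive_of_isThreeCycle_mem hG
    (isThreeCycle_swap_mul_swap_same hab hac hbc) hmem

end BCX6
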