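import Pool.Agent.BCX6.Defs

/-!
# The local group at `z = 0`
-/

set_option autoImplicit false

namespace BCX6

open Polynomial

section abstract_part

variable (k E F : Type) [Field k] [Field E] [Algebra (RatFunc k) E]
  [IsAlgClosure (RatFunc k) E] [NontriviallyNormedField F] [CompleteSpace F]
  [IsUltrametricDist F]

theorem exists_isLocal_of (e : RatFunc k →+* F)
    (hc : ∀ c : k, c ≠ 0 → ‖e (algebraMap k (RatFunc k) c)‖ = 1)
    (hz : ‖e RatFunc.X‖ < 1)
    (hint : ∀ f : F, f ≠ 0 → ∃ m : ℤ, ‖f‖ = ‖e RatFunc.X‖ ^ m) :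
    ∃ (N : E → ℝ) (D : Subgroup (E ≃+* E)), IsLocal k N D := by
  classical
  let _ : Algebra (RatFunc k) F := e.toAlgebra
  have : Algebra.IsAlgebraic (RatFunc k) E := IsAlgClosure.isAlgebraic
  have : IsAlgClosed E := IsAlgClosure.isAlgClosed (RatFunc k)
  have : Normal (RatFunc k) E := IsAlgClosure.normal _ _
  let j : E →ₐ[RatFunc k] AlgebraicClosure F := IsAlgClosed.lift
  have hj : ∀ c : RatFunc k, j (algebraMap (RatFunc k) E c) =
      algebraMap F (AlgebraicClosure F) (algebraMap (RatFunc k) F c) := fun c => by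
    rw [AlgHom.commutes, ← IsScalarTower.algebraMap_apply]
  let N : E → ℝ := fun x => spectralNorm F (AlgebraicClosure F) (j x)
  have hN : ∀ c : RatFunc k, N (algebraMap (RatFunc k) E c) = ‖algebraMap (RatFunc k) F c‖ :=
    fun c => by
    change spectralNorm F (AlgebraicClosure F) (j _) = _
    rw [hj, spectralNorm_extends]
  let D : Subgroup (E ≃+* E) :=
    { carrier := {σ | ∃ τ : AlgebraicClosure F ≃ₐ[F] AlgebraicClosure F, ∀ x, j (σ x) = τ (j x)}
      mul_mem' := by
        rintro σ σ' ⟨τ, h⟩ ⟨τ', h'⟩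
        exact ⟨τ * τ', fun x => by rw [RingAut.mul_apply, h, h', AlgEquiv.mul_apply]⟩
      one_mem' := ⟨1, fun x => rfl⟩
      inv_mem' := by
        rintro σ ⟨τ, h⟩
        refine ⟨τ⁻¹, fun x => ?_⟩
        apply τ.injective
        rw [← h]
        change j (σ (σ.symm x)) = τ (τ.symm (j x))
        rw [RingEquiv.apply_symm_apply, AlgEquiv.apply_symm_apply] }
  have hD : ∀ σ, σ ∈ D ↔ ∃ τ : AlgebraicClosure F ≃ₐ[F] AlgebraicClosure F,
      ∀ x, j (σ x) = τ (j x) := fun σ => Iff.rfl
  -- automorphisms of the big field restrict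
  have hres : ∀ τ : AlgebraicClosure F ≃ₐ[F] AlgebraicClosure F, ∃ σ ∈ D, ∀ x,
      j (σ x) = τ (j x) := by
    intro τ
    let _ : Algebra E (AlgebraicClosure F) := j.toRingHom.toAlgebra
    have _ : IsScalarTower (RatFunc k) E (AlgebraicClosure F) :=
      IsScalarTower.of_algebraMap_eq fun c => (j.commutes c).symm
    let τ' : AlgebraicClosure F ≃ₐ[RatFunc k] AlgebraicClosure F :=
      τ.restrictScalars (RatFunc k)
    have h : ∀ x, j ((τ'.restrictNormal E).toRingEquiv x) = τ (j x) := fun x =>
      AlgEquiv.restrictNormal_commutes τ' E x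
    exact ⟨(τ'.restrictNormal E).toRingEquiv, ⟨τ, h⟩, h⟩
  refine ⟨N, D, ?_⟩
  constructor
  case le =>
    rintro σ ⟨τ, h⟩
    have h1 : ∀ c : RatFunc k, σ (algebraMap (RatFunc k) E c) = algebraMap (RatFunc k) E c := by
      intro c
      apply j.toRingHom.injective
      change j (σ _) = j _
      rw [h, hj, AlgEquiv.commutes]
    exact ⟨h1 _, fun c => h1 _⟩
  case mul =>
    intro x y
    change spectralNorm F (AlgebraicClosure F) (j (x * y)) = _
    rw [map_mul]
    exact spectralAlgNorm_mul (K := F) (j x) (j y)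
  case add =>
    intro x y
    change spectralNorm F (AlgebraicClosure F) (j (x + y)) ≤ _
    rw [map_add]
    exact isNonarchimedean_spectralNorm (K := F) (L := AlgebraicClosure F) (j x) (j y)
  case nonneg => exact fun x => spectralNorm_nonneg _
  case eq_zero =>
    intro x
    constructor
    · intro h
      have h1 := eq_zero_of_map_spectralNorm_eq_zero h (Algebra.IsAlgebraic.isAlgebraic _)
      exact (map_eq_zero j.toRingHom).1 h1
    · rintro rfl
      change spectralNorm F (AlgebraicClosure F) (j 0) = 0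
      rw [map_zero, spectralNorm_zero]
  case const =>
    intro c hc0
    exact (hN _).trans (hc c hc0)
  case lt => exact (hN _).trans_lt hz
  case inv =>
    rintro σ ⟨τ, h⟩ x
    change spectralNorm F (AlgebraicClosure F) (j (σ x)) = _
    rw [h]
    exact (spectralNorm_eq_of_equiv τ (j x)).symm
  case orb =>
    intro x hx hsep
    have hjx : j x ≠ 0 := fun h => hx ((map_eq_zero j.toRingHom).1 h)
    have hint' : IsIntegral F (j x) := Algebra.IsIntegral.isIntegral _
    set P := minpoly F (j x) with hP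
    have hsepP : P.Separable := by
      have h1 : IsSeparable (RatFunc k) (j x) := hsep.map j j.toRingHom.injective
      exact h1.tower_top F
    -- roots of `P` are in the image of `j`
    have hran : ∀ y : AlgebraicClosure F, aeval y P = 0 → ∃ x', j x' = y := by
      intro y hy
      obtain ⟨τ, hτ⟩ := isConjRoot_iff_exists_algEquiv.1
        ((isConjRoot_iff_aeval_eq_zero hint').2 hy)
      obtain ⟨σ, -, hσ⟩ := hres τ.symm
      refine ⟨σ x, ?_⟩
      rw [hσ, ← hτ, AlgEquiv.symm_apply_apply]
    let T : Finset (AlgebraicClosure F) := (P.aroots (AlgebraicClosure F)).toFinset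
    have hT : ∀ y, y ∈ T ↔ aeval y P = 0 := by
      intro y
      rw [Multiset.mem_toFinset, mem_aroots]
      exact ⟨fun h => h.2, fun h => ⟨minpoly.ne_zero hint', h⟩⟩
    have hTc : T.card = P.natDegree := by
      rw [Multiset.toFinset_card_of_nodup (nodup_roots hsepP.map)]
      exact (IsAlgClosed.card_aroots_eq_natDegree_of_isUnit_leadingCoeff (by
        rw [hP, (minpoly.monic hint').leadingCoeff]; exact isUnit_one))
    let O : Finset E := T.preimage j (j.toRingHom.injective.injOn)
    have hO : ∀ y, y ∈ O ↔ aeval (j y) P = 0 := by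
      intro y
      rw [Finset.mem_preimage, hT]
    have hOc : O.card = P.natDegree := by
      rw [← hTc, ← Finset.card_image_of_injective O j.toRingHom.injective]
      congr 1
      ext y
      rw [Finset.mem_image, hT]
      constructor
      · rintro ⟨x', hx', rfl⟩
        exact (hO x').1 hx'
      · intro hy
        obtain ⟨x', rfl⟩ := hran y hy
        exact ⟨x', (hO x').2 hy, rfl⟩
    have hc0 : P.coeff 0 ≠ 0 := minpoly.coeff_zero_ne_zero hint' hjx
    obtain ⟨m, hm⟩ := hint _ hc0
    refine ⟨O, m, ?_, ?_⟩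
    · intro y
      rw [hO]
      constructor
      · intro hy
        obtain ⟨τ, hτ⟩ := isConjRoot_iff_exists_algEquiv.1
          ((isConjRoot_iff_aeval_eq_zero hint').2 hy)
        obtain ⟨σ, hσD, hσ⟩ := hres τ.symm
        refine ⟨σ, hσD, ?_⟩
        apply j.toRingHom.injective
        change j (σ x) = j y
        rw [hσ, ← hτ, AlgEquiv.symm_apply_apply]
      · rintro ⟨σ, ⟨τ, hτ⟩, rfl⟩
        rw [hτ, hP]
        have := minpoly.aeval F (j x)
        rw [← AlgEquiv.coe_toAlgHom, aeval_algHom_apply, this, map_zero]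
    · have hd : P.natDegree ≠ 0 := (minpoly.natDegree_pos hint').ne'
      have h1 := spectralNorm.spectralNorm_eq_norm_coeff_zero_rpow F (AlgebraicClosure F) (j x)
      change (spectralNorm F (AlgebraicClosure F) (j x)) ^ O.card = N (zz k E) ^ m
      have h2 : N (zz k E) = ‖e RatFunc.X‖ := hN _
      rw [h1, hOc, h2, ← hm, ← hP, ← Real.rpow_natCast, ← Real.rpow_mul (norm_nonneg _), one_div,
        inv_mul_cancel₀ (by exact_mod_cast hd), Real.rpow_one]

end abstract_part

section laurent

open LaurentSeries WithZero Valuation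

variable (k : Type) [Field k]

/-- the valuation of `k((X))` has rank one -/
@[instance_reducible]
noncomputable def rankOne : (Valued.v : Valuation k⸨X⸩ (WithZero (Multiplicative ℤ))).RankOne where
  hom' := (WithZeroMulInt.toNNReal (e := 2) two_ne_zero).comp
    MonoidWithZeroHom.ValueGroup₀.embedding
  strictMono' := (WithZeroMulInt.toNNReal_strictMono one_lt_two).comp
    MonoidWithZeroHom.ValueGroup₀.embedding_strictMono
  exists_val_nontrivial := by
    refine ⟨HahnSeries.single 1 1, ?_, ?_⟩
    · rw [LaurentSeries.valuation_single_zpow]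
      exact exp_ne_zero
    · rw [LaurentSeries.valuation_single_zpow]
      simp

open scoped RatFunc in
/-- the embedding of `k(z)` in `k((X))` -/
noncomputable def emb : RatFunc k →+* k⸨X⸩ := algebraMap (RatFunc k) k⸨X⸩

theorem emb_X : emb k RatFunc.X = HahnSeries.single 1 1 := RatFunc.coe_X

open scoped RatFunc in
theorem emb_C (c : k) : emb k (algebraMap k (RatFunc k) c) = HahnSeries.single 0 c := by
  rw [IsScalarTower.algebraMap_apply k k[X] (RatFunc k)]
  change algebraMap (RatFunc k) k⸨X⸩ _ = _
  rw [← IsScalarTower.algebraMap_apply k[X] (RatFunc k) k⸨X⸩]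
  change algebraMap k[X] k⸨X⸩ (C c) = _
  simp

theorem val_C (c : k) (hc : c ≠ 0) :
    (Valued.v (HahnSeries.single 0 c : k⸨X⸩) : WithZero (Multiplicative ℤ)) = 1 := by
  have h1 : (HahnSeries.single 0 c : k⸨X⸩) * HahnSeries.single 0 c⁻¹ = 1 := by
    rw [HahnSeries.single_mul_single, mul_inv_cancel₀ hc, add_zero]
    rfl
  have h2 : ∀ d : k, (Valued.v (HahnSeries.single 0 d : k⸨X⸩) : WithZero (Multiplicative ℤ)) ≤ 1 := by
    intro d
    have h3 := (LaurentSeries.val_le_one_iff_eq_coe k (HahnSeries.single 0 d : k⸨X⸩)).2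
      ⟨PowerSeries.C d, by simp⟩
    exact h3
  apply le_antisymm (h2 c)
  have h4 := congrArg (Valued.v : Valuation k⸨X⸩ (WithZero (Multiplicative ℤ))) h1
  rw [map_mul, map_one] at h4
  rw [← h4]
  exact mul_le_of_le_one_right' (h2 _)

/-- ROW C0: the local group at `z = 0` -/
theorem exists_isLocal (k E : Type) [Field k] [IsAlgClosed k] [Field E] [Algebra (RatFunc k) E]
    [IsAlgClosure (RatFunc k) E] : ∃ (N : E → ℝ) (D : Subgroup (E ≃+* E)), IsLocal k N D := by
  let _ := rankOne k
  let _ := Valued.toNontriviallyNormedField (L := k⸨X⸩) (Γ₀ := WithZero (Multiplicative ℤ))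
  have _ : CompleteSpace k⸨X⸩ := LaurentSeries.instLaurentSeriesComplete
  have hle : ∀ f g : k⸨X⸩, Valued.v f = (Valued.v g : WithZero (Multiplicative ℤ)) →
      ‖f‖ = ‖g‖ := by
    intro f g h
    apply le_antisymm
    · rw [Valued.toNormedField.norm_le_iff, h]
    · rw [Valued.toNormedField.norm_le_iff, h]
  refine exists_isLocal_of k E k⸨X⸩ (emb k) ?_ ?_ ?_
  · intro c hc
    rw [emb_C, ← norm_one (α := k⸨X⸩)]
    apply hle
    rw [val_C k c hc, map_one]
  · rw [emb_X, Valued.toNormedField.norm_lt_one_iff, LaurentSeries.valuation_single_zpow]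
    rw [← exp_zero, exp_lt_exp]
    norm_num
  · intro f hf
    have hv : (Valued.v f : WithZero (Multiplicative ℤ)) ≠ 0 := (Valuation.ne_zero_iff _).2 hf
    refine ⟨- WithZero.log (Valued.v f), ?_⟩
    rw [emb_X, ← norm_zpow, ← RatFunc.single_zpow]
    apply hle
    rw [LaurentSeries.valuation_single_zpow, neg_neg, exp_log hv]

end laurent

end BCX6
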