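import Pool.Agent.BCX6.NormBasic

/-!
# One-parameter families of polynomials: the roots near a point
-/

set_option linter.unusedSectionVars false

namespace BCX6

open Polynomial Equiv

namespace Near

section

variable {k E : Type} [Field k] [Field E] [Algebra (RatFunc k) E]

lemma mem_near {N : E → ℝ} {R : Finset E} {w x : E} : x ∈ near N R w ↔ x ∈ R ∧ N (x - w) < 1 := by
  classical
  rw [near, Finset.mem_filter]

lemma eval_fE (A B : k[X]) (x : E) : (fE E A B).eval x =
    (A.map (cst k E)).eval x + zz k E * (B.map (cst k E)).eval x := by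
  rw [fE, eval_add, eval_mul, eval_C]

lemma eval_fE_cst (A B : k[X]) (c : k) : (fE E A B).eval (cst k E c) =
    cst k E (A.eval c) + zz k E * cst k E (B.eval c) := by
  rw [eval_fE, eval_map_apply, eval_map_apply]

lemma fam_monic {p a : ℕ} {W : Finset k} {A B : k[X]} (hf : Fam p a W A B) : A.Monic := by
  rw [hf.eqA]
  exact (monic_X_pow a).mul ((monic_prod_of_monic _ _ fun w _ => monic_X_sub_C w).pow p)

lemma fam_natDegree {p a : ℕ} {W : Finset k} {A B : k[X]} (hf : Fam p a W A B) :
    A.natDegree = a + p * W.card := by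
  rw [hf.eqA, Monic.natDegree_mul (monic_X_pow a)
    ((monic_prod_of_monic _ _ fun w _ => monic_X_sub_C w).pow p), natDegree_X_pow,
    Monic.natDegree_pow (monic_prod_of_monic _ _ fun w _ => monic_X_sub_C w),
    natDegree_prod_of_monic _ _ fun w _ => monic_X_sub_C w]
  simp

lemma eval_fam {p a : ℕ} {W : Finset k} {A B : k[X]} (hf : Fam p a W A B) (x : E) :
    (A.map (cst k E)).eval x = x ^ a * (∏ w ∈ W, (x - cst k E w)) ^ p := by
  rw [hf.eqA, Polynomial.map_mul, Polynomial.map_pow, map_X, Polynomial.map_pow,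
    Polynomial.map_prod, eval_mul, eval_pow, eval_X, eval_pow, eval_prod]
  congr 2
  refine Finset.prod_congr rfl fun w _ => ?_
  rw [Polynomial.map_sub, map_X, map_C, eval_sub, eval_X, eval_C]

lemma deg_lt {A B : k[X]} (hdeg : B.degree < A.degree) :
    (C (zz k E) * B.map (cst k E)).degree < (A.map (cst k E)).degree := by
  rwa [degree_C_mul (zz_ne_zero k E), degree_map, degree_map]

lemma fE_monic {A B : k[X]} (hA : A.Monic) (hdeg : B.degree < A.degree) : (fE E A B).Monic :=
  (hA.map _).add_of_left (deg_lt hdeg)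

lemma natDegree_fE {A B : k[X]} (hdeg : B.degree < A.degree) :
    (fE E A B).natDegree = A.natDegree := by
  rw [fE, natDegree_add_eq_left_of_degree_lt (deg_lt hdeg), natDegree_map]

lemma prod_eq {A B : k[X]} (hA : A.Monic) (hdeg : B.degree < A.degree) {R : Finset E}
    (hR : IsRoots R A B) : fE E A B = ∏ x ∈ R, (X - C x) := by
  have h0 : (fE E A B).Monic := fE_monic hA hdeg
  have h1 : R.val ≤ (fE E A B).roots := by
    rw [Multiset.le_iff_subset R.nodup]
    intro x hx
    rw [mem_roots h0.ne_zero]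
    exact (hR.mem x).1 hx
  have h2 : R.val = (fE E A B).roots := by
    apply Multiset.eq_of_le_of_card_le h1
    have := (fE E A B).card_roots'
    rw [natDegree_fE hdeg, ← hR.card] at this
    exact this
  have h3 : Multiset.card (fE E A B).roots = (fE E A B).natDegree := by
    rw [← h2, natDegree_fE hdeg, ← hR.card]
    rfl
  rw [← prod_multiset_X_sub_C_of_monic_of_roots_card_eq h0 h3, ← h2]
  rfl

lemma prod_sub {A B : k[X]} (hA : A.Monic) (hdeg : B.degree < A.degree) {R : Finset E}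
    (hR : IsRoots R A B) (c : k) : ∏ x ∈ R, (cst k E c - x) =
      cst k E (A.eval c) + zz k E * cst k E (B.eval c) := by
  rw [← eval_fE_cst, prod_eq hA hdeg hR, eval_prod]
  refine Finset.prod_congr rfl fun x _ => ?_
  rw [eval_sub, eval_X, eval_C]

lemma map_root {A B : k[X]} {R : Finset E} (hR : IsRoots R A B) {σ : E ≃+* E}
    (hσ : σ ∈ G1 k E) {x : E} (hx : x ∈ R) : σ x ∈ R := by
  rw [hR.mem] at hx ⊢
  have h1 : ∀ P : k[X], (P.map (cst k E)).eval (σ x) = σ ((P.map (cst k E)).eval x) := by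
    intro P
    have h2 : (σ : E →+* E).comp (cst k E) = cst k E := by
      ext c
      exact hσ.2 c
    have h3 := hom_eval₂ P (cst k E) (σ : E →+* E) x
    rw [h2] at h3
    rw [eval_map, eval_map]
    exact h3.symm
  rw [eval_fE, h1, h1]
  have h4 : zz k E = σ (zz k E) := hσ.1.symm
  rw [h4, ← map_mul, ← map_add, ← eval_fE, hx, map_zero]

variable {N : E → ℝ} {D : Subgroup (E ≃+* E)}

lemma norm_eval_le (h : IsLocal k N D) (P : k[X]) {x : E} (hx : 1 ≤ N x) :
    N ((P.map (cst k E)).eval x) ≤ N x ^ P.natDegree := by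
  rw [eval_map, eval₂_eq_sum_range]
  apply h.sum_le _ _ (pow_nonneg (h.nonneg x) _)
  intro i hi
  rw [h.mul, h.pow]
  calc N (cst k E (P.coeff i)) * N x ^ i ≤ 1 * N x ^ i :=
        mul_le_mul_of_nonneg_right (h.const_le _) (pow_nonneg (h.nonneg x) _)
    _ = N x ^ i := one_mul _
    _ ≤ N x ^ P.natDegree := pow_le_pow_right₀ hx (by
        have := Finset.mem_range.1 hi
        omega)

lemma norm_eqn (h : IsLocal k N D) {p a : ℕ} {W : Finset k} {A B : k[X]} (hf : Fam p a W A B)
    {R : Finset E} (hR : IsRoots R A B) {x : E} (hx : x ∈ R) :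
    N x ^ a * (∏ w ∈ W, N (x - cst k E w)) ^ p = N (zz k E) * N ((B.map (cst k E)).eval x) := by
  have h1 := (hR.mem x).1 hx
  rw [eval_fE, eval_fam hf] at h1
  rw [← h.mul, ← h.neg (zz k E * _), ← eq_neg_of_add_eq_zero_left h1, h.mul, h.pow, h.pow, h.prod]

lemma norm_le_one (h : IsLocal k N D) {p a : ℕ} {W : Finset k} {A B : k[X]} (hf : Fam p a W A B)
    {R : Finset E} (hR : IsRoots R A B) {x : E} (hx : x ∈ R) : N x ≤ 1 := by
  by_contra hc
  rw [not_le] at hc
  have h1 := norm_eqn h hf hR hx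
  have h2 : ∀ w ∈ W, N (x - cst k E w) = N x := fun w _ => h.sub_eq' ((h.const_le w).trans_lt hc)
  rw [Finset.prod_congr rfl h2, Finset.prod_const, ← pow_mul, ← pow_add, mul_comm W.card,
    ← fam_natDegree hf] at h1
  have h3 := norm_eval_le h B hc.le
  have h4 : B.natDegree ≤ A.natDegree := natDegree_le_natDegree hf.deg.le
  have h5 : N x ^ B.natDegree ≤ N x ^ A.natDegree := pow_le_pow_right₀ hc.le h4
  have h6 : 0 < N x ^ A.natDegree := pow_pos (zero_lt_one.trans hc) _
  have h7 : N (zz k E) * N ((B.map (cst k E)).eval x) ≤ N (zz k E) * N x ^ A.natDegree :=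
    mul_le_mul_of_nonneg_left (h3.trans h5) (h.nonneg _)
  have h8 : N (zz k E) * N x ^ A.natDegree < 1 * N x ^ A.natDegree :=
    mul_lt_mul_of_pos_right h.lt h6
  rw [one_mul] at h8
  linarith

lemma norm_rhs_lt (h : IsLocal k N D) (B : k[X]) {x : E} (hx : N x ≤ 1) :
    N (zz k E) * N ((B.map (cst k E)).eval x) < 1 :=
  (mul_le_of_le_one_right (h.nonneg _) (h.eval_le B hx)).trans_lt h.lt

lemma norm_eval_near (h : IsLocal k N D) (B : k[X]) {w : k} (hB : B.eval w ≠ 0) {x : E}
    (hx : N (x - cst k E w) < 1) : N ((B.map (cst k E)).eval x) = 1 := by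
  obtain ⟨e, he, h1⟩ := h.exists_expand0 B w hx.le
  rw [add_sub_cancel] at h1
  rw [h1, ← h.const _ hB]
  apply h.add_eq'
  rw [h.const _ hB, h.mul]
  calc N (x - cst k E w) * N e ≤ N (x - cst k E w) * 1 := mul_le_mul_of_nonneg_left he (h.nonneg _)
    _ < 1 := by rw [mul_one]; exact hx

lemma norm_sub_cst (h : IsLocal k N D) {w w' : k} (hw : w ≠ w') {x : E}
    (hx : N (x - cst k E w) < 1) : N (x - cst k E w') = 1 := by
  have h1 : N (cst k E (w - w')) = 1 := h.const _ (sub_ne_zero.2 hw)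
  have h2 : x - cst k E w' = (x - cst k E w) + cst k E (w - w') := by
    rw [map_sub]
    ring
  rw [h2, h.add_eq, h1]
  rw [h1]
  exact hx

lemma norm_one_of_near (h : IsLocal k N D) {w : k} (hw : w ≠ 0) {x : E}
    (hx : N (x - cst k E w) < 1) : N x = 1 := by
  have := norm_sub_cst h hw hx
  rwa [map_zero, sub_zero] at this

lemma norm_sub_of_zero (h : IsLocal k N D) {w : k} (hw : w ≠ 0) {x : E} (hx : N x < 1) :
    N (x - cst k E w) = 1 := by
  rw [← h.const w hw]
  apply h.sub_eq
  rw [h.const w hw]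
  exact hx

end

end Near

open Near

section

variable {k E : Type} [Field k] [IsAlgClosed k] [Field E] [Algebra (RatFunc k) E]
  [IsAlgClosure (RatFunc k) E]
variable {N : E → ℝ} {D : Subgroup (E ≃+* E)} {p : ℕ} [Fact p.Prime] [CharP k p]

/-- ROW C1 -/
theorem IsLocal.near_or (h : IsLocal k N D) {a : ℕ} {W : Finset k} {A B : k[X]}
    (hf : Fam p a W A B) {R : Finset E} (hR : IsRoots R A B) {x : E} (hx : x ∈ R) :
    (x ∈ near N R 0 ∧ a ≠ 0) ∨ ∃ w ∈ W, x ∈ near N R (cst k E w) := by
  by_contra hc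
  push Not at hc
  obtain ⟨h1, h2⟩ := hc
  have h3 := norm_le_one h hf hR hx
  have h4 := norm_eqn h hf hR hx
  have h5 := norm_rhs_lt h B h3
  have h6 : ∀ w ∈ W, N (x - cst k E w) = 1 := by
    intro w hw
    apply le_antisymm (h.sub_le h3 (h.const_le w))
    by_contra hc
    exact h2 w hw (mem_near.2 ⟨hx, not_le.1 hc⟩)
  have h7 : N x ^ a = 1 := by
    by_cases ha : a = 0
    · rw [ha, pow_zero]
    · have h8 : N x = 1 := by
        apply le_antisymm h3
        by_contra hc
        exact ha (h1 (mem_near.2 ⟨hx, by rw [sub_zero]; exact not_le.1 hc⟩))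
      rw [h8, one_pow]
  rw [Finset.prod_congr rfl h6, Finset.prod_const_one, one_pow, h7, one_mul] at h4
  rw [← h4] at h5
  exact lt_irrefl _ h5

/-- ROW C1 -/
theorem IsLocal.norm_zero (h : IsLocal k N D) {a : ℕ} {W : Finset k} {A B : k[X]}
    (hf : Fam p a W A B) {R : Finset E} (hR : IsRoots R A B) {x : E} (hx : x ∈ near N R 0) :
    N x ^ a = N (zz k E) := by
  obtain ⟨hxR, hx1⟩ := mem_near.1 hx
  rw [sub_zero] at hx1
  have h3 := norm_le_one h hf hR hxR
  have h4 := norm_eqn h hf hR hxR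
  have h6 : ∀ w ∈ W, N (x - cst k E w) = 1 := fun w hw =>
    norm_sub_of_zero h (fun h0 => hf.zero_notMem (h0 ▸ hw)) hx1
  rw [Finset.prod_congr rfl h6, Finset.prod_const_one, one_pow, mul_one] at h4
  by_cases ha : a = 0
  · exfalso
    have h5 := norm_rhs_lt h B h3
    rw [← h4, ha, pow_zero] at h5
    exact lt_irrefl _ h5
  · rw [h4, norm_eval_near h B (hf.zero ha) (by rw [map_zero, sub_zero]; exact hx1), mul_one]

/-- ROW C1 -/
theorem IsLocal.norm_near (h : IsLocal k N D) {a : ℕ} {W : Finset k} {A B : k[X]}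
    (hf : Fam p a W A B) {R : Finset E} (hR : IsRoots R A B) {w : k} (hw : w ∈ W) {x : E}
    (hx : x ∈ near N R (cst k E w)) : N (x - cst k E w) ^ p = N (zz k E) := by
  classical
  obtain ⟨hxR, hx1⟩ := mem_near.1 hx
  have h4 := norm_eqn h hf hR hxR
  have h5 : ∏ w' ∈ W, N (x - cst k E w') = N (x - cst k E w) := by
    rw [← Finset.mul_prod_erase W _ hw, Finset.prod_eq_one, mul_one]
    intro w' hw'
    exact norm_sub_cst h (Finset.ne_of_mem_erase hw').symm hx1
  rw [h5, norm_one_of_near h (fun h0 => hf.zero_notMem (h0 ▸ hw)) hx1, one_pow, one_mul,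
    norm_eval_near h B (hf.ne w hw) hx1, mul_one] at h4
  exact h4

/-- the count of the roots near a point -/
lemma Near.card_of (h : IsLocal k N D) {a : ℕ} {W : Finset k} {A B : k[X]}
    (hf : Fam p a W A B) {R : Finset E} (hR : IsRoots R A B) {w : k} (hA : A.eval w = 0)
    (hB : B.eval w ≠ 0) {m : ℕ}
    (hm : ∀ x ∈ near N R (cst k E w), N (x - cst k E w) ^ m = N (zz k E)) :
    (near N R (cst k E w)).card = m := by
  classical
  have h1 := congrArg N (prod_sub (fam_monic hf) hf.deg hR w)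
  rw [hA, map_zero, zero_add, h.prod, h.mul, h.const _ hB, mul_one] at h1
  have h2 : ∏ x ∈ R, N (cst k E w - x) = ∏ x ∈ near N R (cst k E w), N (x - cst k E w) := by
    symm
    rw [Finset.prod_subset_one_on_sdiff (f := fun x => N (x - cst k E w))
      (g := fun x => N (cst k E w - x)) (s₁ := near N R (cst k E w)) (s₂ := R)]
    · intro x hx
      exact (mem_near.1 hx).1
    · intro x hx
      obtain ⟨hx1, hx2⟩ := Finset.mem_sdiff.1 hx
      apply le_antisymm (h.sub_le (h.const_le w) (norm_le_one h hf hR hx1))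
      by_contra hc
      rw [not_le, ← h.neg, neg_sub] at hc
      exact hx2 (mem_near.2 ⟨hx1, hc⟩)
    · intro x _
      rw [← h.neg, neg_sub]
  rw [h2] at h1
  have h3 : (∏ x ∈ near N R (cst k E w), N (x - cst k E w)) ^ m = N (zz k E) ^ m := by rw [h1]
  rw [← Finset.prod_pow, Finset.prod_congr rfl hm, Finset.prod_const] at h3
  have h4 := h.zpow_inj (m := ((near N R (cst k E w)).card : ℤ)) (n := (m : ℤ))
    (by rw [zpow_natCast, zpow_natCast]; exact h3)
  exact_mod_cast h4

/-- ROW C1 -/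
theorem IsLocal.card_zero (h : IsLocal k N D) {a : ℕ} {W : Finset k} {A B : k[X]}
    (hf : Fam p a W A B) {R : Finset E} (hR : IsRoots R A B) : (near N R 0).card = a := by
  by_cases ha : a = 0
  · rw [ha, Finset.card_eq_zero, Finset.eq_empty_iff_forall_notMem]
    intro x hx
    have h1 := h.norm_zero hf hR hx
    rw [ha, pow_zero] at h1
    exact h.lt.ne h1.symm
  · have h0 : cst k E 0 = 0 := map_zero _
    rw [← h0]
    refine Near.card_of h hf hR ?_ (hf.zero ha) ?_
    · rw [hf.eqA, eval_mul, eval_pow, eval_X, zero_pow ha, zero_mul]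
    · intro x hx
      rw [h0] at hx ⊢
      rw [sub_zero]
      exact h.norm_zero hf hR hx

/-- ROW C1 -/
theorem IsLocal.card_near (h : IsLocal k N D) {a : ℕ} {W : Finset k} {A B : k[X]}
    (hf : Fam p a W A B) {R : Finset E} (hR : IsRoots R A B) {w : k} (hw : w ∈ W) :
    (near N R (cst k E w)).card = p := by
  refine Near.card_of h hf hR ?_ (hf.ne w hw) fun x hx => h.norm_near hf hR hw hx
  have hp : p ≠ 0 := (Fact.out : p.Prime).ne_zero
  rw [hf.eqA, eval_mul, eval_pow (n := p), eval_prod, Finset.prod_eq_zero hw, zero_pow hp, mul_zero]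
  rw [eval_sub, eval_X, eval_C, sub_self]

/-- ROW C1 -/
theorem IsLocal.disjoint_near (h : IsLocal k N D) {R : Finset E} {w w' : k} (hw : w ≠ w') :
    Disjoint (near N R (cst k E w)) (near N R (cst k E w')) := by
  rw [Finset.disjoint_left]
  intro x hx hx'
  have h1 := norm_sub_cst h hw (mem_near.1 hx).2
  exact (mem_near.1 hx').2.ne h1

/-- ROW C1 -/
theorem IsLocal.map_near (h : IsLocal k N D) {A B : k[X]} {R : Finset E} (hR : IsRoots R A B)
    {w : k} {σ : E ≃+* E} (hσ : σ ∈ D) {x : E} (hx : x ∈ near N R (cst k E w)) :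
    σ x ∈ near N R (cst k E w) := by
  obtain ⟨hxR, hx1⟩ := mem_near.1 hx
  refine mem_near.2 ⟨map_root hR (h.le hσ) hxR, ?_⟩
  have h1 : σ x - cst k E w = σ (x - cst k E w) := by
    rw [map_sub, (h.le hσ).2 w]
  rw [h1, h.inv σ hσ]
  exact hx1

end

end BCX6
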