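import Pool.Agent.BCX6.Near

/-!
# One-parameter families of polynomials: the tame roots near zero
-/

set_option autoImplicit false
set_option linter.unusedSectionVars false

namespace BCX6

open Polynomial Equiv

namespace Tame

section

variable {k E : Type} [Field k] [IsAlgClosed k] [Field E] [Algebra (RatFunc k) E]
variable {N : E → ℝ} {D : Subgroup (E ≃+* E)}

/-- a power close to a constant is the power of an element close to a constant -/
lemma exists_near (h : IsLocal k N D) {a : ℕ} (ha : a ≠ 0) {c : k} {u : E}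
    (hu : N (u ^ a - cst k E c) < 1) : ∃ η : k, η ^ a = c ∧ N (u - cst k E η) < 1 := by
  have hm : (X ^ a - C c : k[X]).Monic := monic_X_pow_sub_C c ha
  have h1 : (X ^ a - C c : k[X]) = ((X ^ a - C c : k[X]).roots.map fun r => X - C r).prod :=
    (IsAlgClosed.splits _).eq_prod_roots_of_monic hm
  have h2 : u ^ a - cst k E c =
      ((X ^ a - C c : k[X]).roots.map fun r => u - cst k E r).prod := by
    have h3 := congrArg (fun P : k[X] => (P.map (cst k E)).eval u) h1
    simp only [Polynomial.map_sub, Polynomial.map_pow, map_X, map_C, eval_sub, eval_pow, eval_X,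
      eval_C, Polynomial.map_multiset_prod, Multiset.map_map, Function.comp_def,
      eval_multiset_prod] at h3
    exact h3
  let F : E →* ℝ := { toFun := N, map_one' := h.one, map_mul' := h.mul }
  by_contra hc
  push Not at hc
  have h4 : ∀ s : Multiset k, (∀ r ∈ s, r ^ a = c) →
      1 ≤ F ((s.map fun r => u - cst k E r).prod) := by
    intro s
    induction s using Multiset.induction_on with
    | empty =>
      intro _
      rw [Multiset.map_zero, Multiset.prod_zero, map_one]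
    | cons r s ih =>
      intro hs
      rw [Multiset.map_cons, Multiset.prod_cons, map_mul]
      have h5 := hc r (hs r (Multiset.mem_cons_self r s))
      have h6 := ih fun r' hr' => hs r' (Multiset.mem_cons_of_mem hr')
      exact one_le_mul_of_one_le_of_one_le h5 h6
  have h7 := h4 (X ^ a - C c : k[X]).roots (fun r hr => by
    rw [mem_roots hm.ne_zero, IsRoot.def, eval_sub, eval_pow, eval_X, eval_C, sub_eq_zero] at hr
    exact hr)
  rw [← h2] at h7
  exact absurd hu (not_lt.2 h7)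

/-- the approximation is unique -/
lemma unique_near (h : IsLocal k N D) {ζ : E} (_ : ζ ≠ 0) {x : E} {η η' : k}
    (h1 : N (x - cst k E η * ζ) < N ζ) (h2 : N (x - cst k E η' * ζ) < N ζ) : η = η' := by
  by_contra hne
  have h3 : N (cst k E (η - η') * ζ) < N ζ := by
    have h4 : cst k E (η - η') * ζ = (x - cst k E η' * ζ) - (x - cst k E η * ζ) := by
      rw [map_sub]
      ring
    rw [h4]
    exact h.sub_lt h2 h1
  rw [h.mul, h.const _ (sub_ne_zero.2 hne), one_mul] at h3
  exact lt_irrefl _ h3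

variable [IsAlgClosure (RatFunc k) E] {p : ℕ} [Fact p.Prime] [CharP k p]

/-- an `a`-th root of `z` -/
lemma exists_root (k E : Type) [Field k] [Field E] [Algebra (RatFunc k) E]
    [IsAlgClosure (RatFunc k) E] {a : ℕ} (ha : a ≠ 0) : ∃ ζ : E, ζ ^ a = zz k E := by
  have : IsAlgClosed E := IsAlgClosure.isAlgClosed (RatFunc k)
  exact IsAlgClosed.exists_pow_nat_eq (zz k E) (Nat.pos_of_ne_zero ha)

lemma root_ne_zero {a : ℕ} {ζ : E} (ha : a ≠ 0) (hζ : ζ ^ a = zz k E) : ζ ≠ 0 := by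
  rintro rfl
  rw [zero_pow ha] at hζ
  exact zz_ne_zero k E hζ.symm

/-- `N x = N ζ` near zero -/
lemma norm_eq (h : IsLocal k N D) {a : ℕ} (ha : a ≠ 0) {W : Finset k} {A B : k[X]}
    (hf : Fam p a W A B) {R : Finset E} (hR : IsRoots R A B) {ζ : E} (hζ : ζ ^ a = zz k E) {x : E}
    (hx : x ∈ near N R 0) : N x = N ζ := by
  have h1 := h.norm_zero hf hR hx
  rw [← hζ, h.pow] at h1
  exact (pow_left_inj₀ (h.nonneg _) (h.nonneg _) ha).1 h1

/-- the leading coefficient of a root near zero -/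
lemma exists_eta (h : IsLocal k N D) {a : ℕ} (ha : a ≠ 0) {W : Finset k} {A B : k[X]}
    (hf : Fam p a W A B) {R : Finset E} (hR : IsRoots R A B) {ζ : E} (hζ : ζ ^ a = zz k E) {x : E}
    (hx : x ∈ near N R 0) : ∃ η : k, η ≠ 0 ∧ N (x - cst k E η * ζ) < N ζ := by
  obtain ⟨hxR, hx1⟩ := Near.mem_near.1 hx
  rw [sub_zero] at hx1
  have hζ0 := root_ne_zero ha hζ
  have hNζ := h.pos hζ0
  have hNx := norm_eq h ha hf hR hζ hx
  set P : k[X] := (∏ w ∈ W, (X - C w)) ^ p with hP
  have hP0 : P.eval 0 ≠ 0 := by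
    rw [hP, eval_pow, eval_prod]
    apply pow_ne_zero
    rw [Finset.prod_ne_zero_iff]
    intro w hw
    rw [eval_sub, eval_X, eval_C, zero_sub, neg_ne_zero]
    rintro rfl
    exact hf.zero_notMem hw
  have hB0 := hf.zero ha
  obtain ⟨e1, he1, h1⟩ := h.exists_expand0 P 0 hx1.le
  obtain ⟨e2, he2, h2⟩ := h.exists_expand0 B 0 hx1.le
  rw [map_zero, zero_add] at h1 h2
  set c0 : k := - B.eval 0 / P.eval 0 with hc0
  have hc0' : c0 ≠ 0 := div_ne_zero (neg_ne_zero.2 hB0) hP0
  set u : E := x / ζ with hu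
  have hu1 : N u ≤ 1 := by
    have h3 : N u * N ζ = N x := by rw [← h.mul, hu, div_mul_cancel₀ _ hζ0]
    rw [hNx] at h3
    nlinarith
  -- the equation
  have h4 : u ^ a * (P.map (cst k E)).eval x = - (B.map (cst k E)).eval x := by
    have h5 := (hR.mem x).1 hxR
    rw [Near.eval_fE, hf.eqA, ← hP, Polynomial.map_mul, Polynomial.map_pow, map_X, eval_mul,
      eval_pow, eval_X, ← hζ] at h5
    have h6 : x = u * ζ := by rw [hu, div_mul_cancel₀ _ hζ0]
    have h7 : ζ ^ a * (u ^ a * (P.map (cst k E)).eval x + (B.map (cst k E)).eval x) = 0 := by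
      have h8 : x ^ a = ζ ^ a * u ^ a := by
        conv_lhs => rw [h6]
        rw [mul_pow, mul_comm]
      rw [h8] at h5
      rw [← h5]
      ring
    have h9 := (mul_eq_zero.1 h7).resolve_left (pow_ne_zero _ hζ0)
    exact eq_neg_of_add_eq_zero_left h9
  have h5 : N (u ^ a - cst k E c0) < 1 := by
    have h6 : cst k E (P.eval 0) * (u ^ a - cst k E c0) = - (x * e2) - u ^ a * (x * e1) := by
      have h7 : cst k E (P.eval 0) * cst k E c0 = - cst k E (B.eval 0) := by
        rw [← map_mul, hc0, mul_div_cancel₀ _ hP0, map_neg]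
      rw [h1, h2] at h4
      rw [mul_sub, h7]
      linear_combination h4
    have h7 := congrArg N h6
    rw [h.mul, h.const _ hP0, one_mul] at h7
    rw [h7]
    apply h.sub_lt
    · rw [h.neg, h.mul]
      exact (mul_le_of_le_one_right (h.nonneg _) he2).trans_lt hx1
    · rw [h.mul, h.pow, h.mul]
      have h8 : N u ^ a ≤ 1 := pow_le_one₀ (h.nonneg _) hu1
      have h9 : N x * N e1 < 1 := (mul_le_of_le_one_right (h.nonneg _) he1).trans_lt hx1
      exact (mul_le_of_le_one_left (mul_nonneg (h.nonneg _) (h.nonneg _)) h8).trans_lt h9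
  obtain ⟨η, hη, h6⟩ := exists_near h ha h5
  refine ⟨η, ?_, ?_⟩
  · rintro rfl
    rw [zero_pow ha] at hη
    exact hc0' hη.symm
  · have h7 : x - cst k E η * ζ = (u - cst k E η) * ζ := by
      rw [sub_mul, hu, div_mul_cancel₀ _ hζ0]
    rw [h7, h.mul]
    exact mul_lt_of_lt_one_left hNζ h6

/-- the elements of `D` multiply the root by a constant -/
lemma exists_omega (h : IsLocal k N D) {a : ℕ} (ha : a ≠ 0) {ζ : E} (hζ : ζ ^ a = zz k E)
    {σ : E ≃+* E} (hσ : σ ∈ D) : ∃ ω : k, ω ^ a = 1 ∧ σ ζ = cst k E ω * ζ := by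
  have hζ0 := root_ne_zero ha hζ
  have h1 : (σ ζ / ζ) ^ a = 1 := by
    rw [div_pow, ← map_pow, hζ, (h.le hσ).1, div_self (zz_ne_zero k E)]
  have h2 : N ((σ ζ / ζ) ^ a - cst k E 1) < 1 := by
    rw [h1, map_one, sub_self, h.zero]
    exact zero_lt_one
  -- a root of unity is a constant
  have hm : (X ^ a - C 1 : k[X]).Monic := monic_X_pow_sub_C 1 ha
  have h3 : (X ^ a - C 1 : k[X]) = ((X ^ a - C 1 : k[X]).roots.map fun r => X - C r).prod :=
    (IsAlgClosed.splits _).eq_prod_roots_of_monic hm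
  have h4 := congrArg (fun P : k[X] => (P.map (cst k E)).eval (σ ζ / ζ)) h3
  simp only [Polynomial.map_sub, Polynomial.map_pow, map_X, map_C, eval_sub, eval_pow, eval_X,
    eval_C, Polynomial.map_multiset_prod, Multiset.map_map, Function.comp_def,
    eval_multiset_prod] at h4
  rw [h1, map_one, sub_self] at h4
  obtain ⟨r, hr, hr0⟩ := Multiset.mem_map.1 (Multiset.prod_eq_zero_iff.1 h4.symm)
  refine ⟨r, ?_, ?_⟩
  · rw [mem_roots hm.ne_zero, IsRoot.def, eval_sub, eval_pow, eval_X, eval_C, sub_eq_zero] at hr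
    exact hr
  · rw [sub_eq_zero] at hr0
    rw [← hr0, div_mul_cancel₀ _ hζ0]

/-- the approximations are moved by the elements of `D` -/
lemma map_eta (h : IsLocal k N D) {ζ : E} {σ : E ≃+* E} (hσ : σ ∈ D) {ω : k}
    (hω : σ ζ = cst k E ω * ζ) {x : E} {η : k} (hη : N (x - cst k E η * ζ) < N ζ) :
    N (σ x - cst k E (η * ω) * ζ) < N ζ := by
  have h1 : σ x - cst k E (η * ω) * ζ = σ (x - cst k E η * ζ) := by
    rw [map_sub, map_mul σ, (h.le hσ).2, hω, map_mul, mul_assoc]
  rw [h1, h.inv σ hσ]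
  exact hη

/-- the orbit of the root has at least `a` elements -/
lemma le_card_orbit (h : IsLocal k N D) {a : ℕ} (ha : a ≠ 0) (hpa : ¬ p ∣ a) {ζ : E}
    (hζ : ζ ^ a = zz k E) : ∃ O : Finset E, (∀ y, y ∈ O ↔ ∃ σ ∈ D, σ ζ = y) ∧ a ≤ O.card := by
  have hζ0 := root_ne_zero ha hζ
  have hsep : IsSeparable (RatFunc k) ζ := by
    have h1 : (X ^ a - C RatFunc.X : (RatFunc k)[X]).Separable := by
      apply separable_X_pow_sub_C
      · intro h0
        apply hpa
        have : CharP (RatFunc k) p := charP_of_injective_algebraMap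
          (algebraMap k (RatFunc k)).injective p
        exact (CharP.cast_eq_zero_iff (RatFunc k) p a).1 h0
      · exact RatFunc.X_ne_zero
    refine h1.of_dvd (minpoly.dvd _ _ ?_)
    rw [map_sub, map_pow, aeval_X, aeval_C, hζ]
    exact sub_self _
  obtain ⟨O, m, hO, hm⟩ := h.orb ζ hζ0 hsep
  refine ⟨O, hO, ?_⟩
  have h1 : ζ ∈ O := (hO ζ).2 ⟨1, one_mem _, rfl⟩
  have h2 : 0 < O.card := Finset.card_pos.2 ⟨ζ, h1⟩
  have h3 : (O.card : ℤ) = a * m := by
    apply h.zpow_inj
    rw [zpow_natCast, ← hζ, h.pow, ← pow_mul, mul_comm a, pow_mul, hm, zpow_mul, zpow_natCast,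
      ← zpow_natCast (N (zz k E) ^ m), ← zpow_mul, ← hζ, h.pow]
    rw [← zpow_natCast (N ζ) a, ← zpow_mul, ← zpow_natCast _ a, ← zpow_mul, ← zpow_mul]
    congr 1
    ring
  have h4 : 0 < m := by
    by_contra hc
    have h5 : (a : ℤ) * m ≤ 0 := mul_nonpos_of_nonneg_of_nonpos (by positivity) (not_lt.1 hc)
    omega
  have h5 : (a : ℤ) * 1 ≤ a * m := mul_le_mul_of_nonneg_left (by omega) (by positivity)
  omega

/-- the roots near zero: the group acts simply on their leading coefficients -/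
lemma key (h : IsLocal k N D) {a : ℕ} (hpa : ¬ p ∣ a) {W : Finset k} {A B : k[X]}
    (hf : Fam p a W A B) {R : Finset E} (hR : IsRoots R A B) {ζ : E} (hζ : ζ ^ a = zz k E) {x : E}
    (hx : x ∈ near N R 0) : (∀ y ∈ near N R 0, ∃ σ ∈ D, σ x = y) ∧
      ∀ y ∈ near N R 0, ∀ η : k, N (x - cst k E η * ζ) < N ζ → N (y - cst k E η * ζ) < N ζ →
        y = x := by
  classical
  have ha : a ≠ 0 := fun h0 => hpa (h0 ▸ dvd_zero p)
  have hζ0 := root_ne_zero ha hζ
  obtain ⟨O, hO, hOa⟩ := le_card_orbit h ha hpa hζ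
  obtain ⟨η0, hη0, hxη⟩ := exists_eta h ha hf hR hζ hx
  have hc0 : cst k E 0 = 0 := map_zero _
  have hmap : ∀ σ ∈ D, σ x ∈ near N R 0 := by
    intro σ hσ
    have h1 := h.map_near hR hσ (w := 0) (x := x) (by rw [hc0]; exact hx)
    rwa [hc0] at h1
  choose! s hsD hs using fun y => (hO y).1
  have hinj : Set.InjOn (fun y => s y x) O := by
    intro y hy y' hy' hyy
    obtain ⟨ω, -, hω⟩ := exists_omega h ha hζ (hsD y hy)
    obtain ⟨ω', -, hω'⟩ := exists_omega h ha hζ (hsD y' hy')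
    have h1 := map_eta h (hsD y hy) hω hxη
    have h2 := map_eta h (hsD y' hy') hω' hxη
    have hyy' : s y x = s y' x := hyy
    rw [hyy'] at h1
    have h3 := unique_near h hζ0 h1 h2
    have h4 := mul_left_cancel₀ hη0 h3
    rw [← hs y hy, ← hs y' hy', hω, hω', h4]
  have himg : O.image (fun y => s y x) = near N R 0 := by
    apply Finset.eq_of_subset_of_card_le
    · intro t ht
      obtain ⟨y, hy, rfl⟩ := Finset.mem_image.1 ht
      exact hmap _ (hsD y hy)
    · rw [h.card_zero hf hR, Finset.card_image_of_injOn hinj]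
      exact hOa
  have htr : ∀ y ∈ near N R 0, ∃ σ ∈ D, σ x = y := by
    intro y hy
    rw [← himg] at hy
    obtain ⟨y', hy', h1⟩ := Finset.mem_image.1 hy
    exact ⟨s y', hsD y' hy', h1⟩
  refine ⟨htr, ?_⟩
  intro y hy η h1 h2
  rw [← himg] at hy
  obtain ⟨y', hy', rfl⟩ := Finset.mem_image.1 hy
  obtain ⟨ω, -, hω⟩ := exists_omega h ha hζ (hsD y' hy')
  have h3 := map_eta h (hsD y' hy') hω hxη
  have h4 := unique_near h hζ0 h3 h2
  have h5 := unique_near h hζ0 hxη h1
  rw [← h5] at h4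
  have h6 : ω = 1 := mul_left_cancel₀ hη0 (by rw [h4, mul_one])
  -- the element of the orbit is `ζ` itself
  have h7 : y' = ζ := by rw [← hs y' hy', hω, h6, map_one, one_mul]
  have h8 : ζ ∈ O := h7 ▸ hy'
  obtain ⟨y'', hy'', h9⟩ := Finset.mem_image.1 (himg.symm ▸ hx)
  obtain ⟨ω', -, hω'⟩ := exists_omega h ha hζ (hsD y'' hy'')
  have h10 := map_eta h (hsD y'' hy'') hω' hxη
  have h9' : s y'' x = x := h9
  rw [h9'] at h10
  have h11 := unique_near h hζ0 h10 hxη
  have h12 : ω' = 1 := mul_left_cancel₀ hη0 (by rw [h11, mul_one])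
  have h13 : y'' = ζ := by rw [← hs y'' hy'', hω', h12, map_one, one_mul]
  change s y' x = x
  rw [h7, ← h13]
  exact h9'

end

end Tame

section

variable {k E : Type} [Field k] [IsAlgClosed k] [Field E] [Algebra (RatFunc k) E]
  [IsAlgClosure (RatFunc k) E]
variable {N : E → ℝ} {D : Subgroup (E ≃+* E)} {p : ℕ} [Fact p.Prime] [CharP k p]

/-- ROW C2: the tame part -/
theorem IsLocal.pow_fix (h : IsLocal k N D) {a : ℕ} (hpa : ¬ p ∣ a) {W : Finset k} {A B : k[X]}
    (hf : Fam p a W A B) {R : Finset E} (hR : IsRoots R A B) {σ : E ≃+* E} (hσ : σ ∈ D) {x : E}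
    (hx : x ∈ near N R 0) : (σ ^ a) x = x := by
  have ha : a ≠ 0 := fun h0 => hpa (h0 ▸ dvd_zero p)
  obtain ⟨ζ, hζ⟩ := Tame.exists_root k E ha
  obtain ⟨η, hη0, hη⟩ := Tame.exists_eta h ha hf hR hζ hx
  obtain ⟨ω, hω1, hω⟩ := Tame.exists_omega h ha hζ hσ
  have hc0 : cst k E 0 = 0 := map_zero _
  have h1 : ∀ n : ℕ, (σ ^ n) ζ = cst k E (ω ^ n) * ζ := by
    intro n
    induction n with
    | zero => rw [pow_zero, pow_zero, map_one, one_mul]; rfl
    | succ n ih =>
      rw [pow_succ', RingAut.mul_apply, ih, map_mul σ, (h.le hσ).2, hω, pow_succ, map_mul,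
        mul_assoc]
  have hσa : σ ^ a ∈ D := pow_mem hσ a
  have h2 := Tame.map_eta h hσa (h1 a) hη
  rw [hω1, mul_one] at h2
  have h3 : (σ ^ a) x ∈ near N R 0 := by
    have h4 := h.map_near hR hσa (w := 0) (x := x) (by rw [hc0]; exact hx)
    rwa [hc0] at h4
  exact (Tame.key h hpa hf hR hζ hx).2 _ h3 η hη h2

/-- ROW C2: the tame part -/
theorem IsLocal.exists_zero (h : IsLocal k N D) {a : ℕ} (hpa : ¬ p ∣ a) {W : Finset k}
    {A B : k[X]} (hf : Fam p a W A B) {R : Finset E} (hR : IsRoots R A B) {x y : E}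
    (hx : x ∈ near N R 0) (hy : y ∈ near N R 0) : ∃ σ ∈ D, σ x = y := by
  have ha : a ≠ 0 := fun h0 => hpa (h0 ▸ dvd_zero p)
  obtain ⟨ζ, hζ⟩ := Tame.exists_root k E ha
  exact (Tame.key h hpa hf hR hζ hx).1 y hy

end

end BCX6
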