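import Pool.Agent.BCX6.Near
import Pool.Agent.BCX6.Auto

/-!
# One-parameter families of polynomials: two wild points
-/

namespace BCX6.Two

open Polynomial Equiv

variable {k E : Type} [Field k] [Field E] [Algebra (RatFunc k) E]
variable {N : E → ℝ} {D : Subgroup (E ≃+* E)} {p : ℕ} [Fact p.Prime] [CharP k p]

/-- the equation of a root near `w`, to first order -/
theorem first (h : IsLocal k N D) {a : ℕ} {w w' e : k} (hw0 : w ≠ 0) (hww : w ≠ w')
    {A B : k[X]} (hA : A = X ^ a * ((X - C w) * (X - C w')) ^ p) (_hBw : B.eval w ≠ 0)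
    (hw : w * (derivative B).eval w - a * B.eval w = e * B.eval w)
    {x : E} (hx : (fE E A B).eval x = 0) (hxw : N (x - cst k E w) < 1) :
    ∃ ε : E, N ε ≤ N (zz k E) * N (x - cst k E w) ^ 2 ∧
      (x - cst k E w) ^ p = zz k E * cst k E (-(B.eval w) / (w ^ a * (w - w') ^ p)) *
        (1 + cst k E (e / w) * (x - cst k E w)) + ε := by
  have hp : p.Prime := Fact.out
  set u := x - cst k E w with hu
  have hxu : x = cst k E w + u := by rw [hu]; ring
  have hN1 : N u ≤ 1 := hxw.le
  set Q : k[X] := X ^ a * (X - C w') ^ p with hQ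
  have hq0 : Q.eval w = w ^ a * (w - w') ^ p := by
    rw [hQ]; simp
  have hq0' : Q.eval w ≠ 0 := by
    rw [hq0]
    exact mul_ne_zero (pow_ne_zero _ hw0) (pow_ne_zero _ (sub_ne_zero.2 hww))
  have hq1 : w * (derivative Q).eval w = a * Q.eval w := by
    have h1 : derivative Q = C (a : k) * X ^ (a - 1) * (X - C w') ^ p := by
      rw [hQ, derivative_mul, derivative_X_pow, derivative_X_sub_C_pow]
      simp
    rw [h1, hQ]
    simp only [eval_mul, eval_C, eval_pow, eval_X, eval_sub]
    rcases Nat.eq_zero_or_pos a with ha | ha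
    · subst ha; simp
    · have : w ^ a = w * w ^ (a - 1) := by
        rw [← pow_succ']
        congr 1
        omega
      rw [this]
      ring
  -- the equation
  have heq : u ^ p * (Q.map (cst k E)).eval x = -(zz k E * (B.map (cst k E)).eval x) := by
    have h1 : (A.map (cst k E)).eval x = u ^ p * (Q.map (cst k E)).eval x := by
      rw [hA, hQ, hu]
      simp only [Polynomial.map_mul, Polynomial.map_pow, Polynomial.map_sub, map_X, map_C, eval_mul,
        eval_pow, eval_X, eval_sub, eval_C, mul_pow]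
      ring
    rw [← h1, eq_neg_iff_add_eq_zero]
    have h2 := hx
    rw [fE, eval_add, eval_mul, eval_C] at h2
    exact h2
  obtain ⟨e1, he1, hQx⟩ := h.exists_expand Q w hN1
  obtain ⟨e2, he2, hBx⟩ := h.exists_expand B w hN1
  rw [← hxu] at hQx hBx
  -- the norm of `Q x` is `1`
  have hNQ : N ((Q.map (cst k E)).eval x) = 1 := by
    obtain ⟨e0, he0, h0⟩ := h.exists_expand0 Q w hN1
    rw [← hxu] at h0
    rw [h0, add_comm, h.add_eq, h.const _ hq0']
    rw [h.mul, h.const _ hq0']
    calc N u * N e0 ≤ N u * 1 := mul_le_mul_of_nonneg_left he0 (h.nonneg _)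
      _ < 1 := by rw [mul_one]; exact hxw
  have hQ0 : (Q.map (cst k E)).eval x ≠ 0 := by
    intro h0
    rw [h0, h.zero] at hNQ
    exact zero_ne_one hNQ
  set ψ : k := -(B.eval w) / (w ^ a * (w - w') ^ p) with hψ
  have hψ1 : B.eval w + ψ * Q.eval w = 0 := by
    rw [hψ, ← hq0, div_mul_cancel₀ _ hq0', add_neg_cancel]
  have hψ2 : (derivative B).eval w + ψ * ((derivative Q).eval w + e / w * Q.eval w) = 0 := by
    have h1 : w * ((derivative B).eval w + ψ * ((derivative Q).eval w + e / w * Q.eval w)) = 0 := by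
      have h2 : w * ((derivative B).eval w + ψ * ((derivative Q).eval w + e / w * Q.eval w)) =
          w * (derivative B).eval w + ψ * (w * (derivative Q).eval w + e * Q.eval w) := by
        field_simp
      rw [h2, hq1]
      have h3 : w * (derivative B).eval w = (a + e) * B.eval w := by
        linear_combination hw
      rw [h3]
      linear_combination (a + e) * hψ1
    exact (mul_eq_zero.1 h1).resolve_left hw0
  set ε : E := u ^ p - zz k E * cst k E ψ * (1 + cst k E (e / w) * u) with hε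
  refine ⟨ε, ?_, by rw [hε]; ring⟩
  have hψ1' : cst k E (B.eval w) + cst k E ψ * cst k E (Q.eval w) = 0 := by
    rw [← map_mul, ← map_add, hψ1, map_zero]
  have hψ2' : cst k E ((derivative B).eval w) + cst k E ψ * (cst k E ((derivative Q).eval w) +
      cst k E (e / w) * cst k E (Q.eval w)) = 0 := by
    rw [← map_mul, ← map_add, ← map_mul, ← map_add, hψ2, map_zero]
  have h1 : ε * (Q.map (cst k E)).eval x = -(zz k E * (u ^ 2 * (e2 + cst k E ψ * (cst k E (e / w) *
      cst k E ((derivative Q).eval w) + (1 + cst k E (e / w) * u) * e1)))) := by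
    rw [hε, sub_mul, heq, hQx, hBx]
    linear_combination (-zz k E) * hψ1' - zz k E * u * hψ2'
  have h2 : N (ε * (Q.map (cst k E)).eval x) ≤ N (zz k E) * N u ^ 2 := by
    rw [h1, h.neg, h.mul, h.mul, h.pow]
    refine mul_le_mul_of_nonneg_left ?_ (h.nonneg _)
    refine mul_le_of_le_one_right (pow_nonneg (h.nonneg _) _) ?_
    have m1 : ∀ {x y : E}, N x ≤ 1 → N y ≤ 1 → N (x * y) ≤ 1 := fun hx hy => by
      rw [h.mul]
      exact mul_le_one₀ hx (h.nonneg _) hy
    exact h.add_le he2 (m1 (h.const_le _) (h.add_le (m1 (h.const_le _) (h.const_le _))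
      (m1 (h.add_le h.one.le (m1 (h.const_le _) hN1)) he1)))
  rwa [h.mul, hNQ, mul_one] at h2

/-- the norm of the difference of two roots, suitably normalised -/
theorem second (h : IsLocal k N D) {w w' e ψ ψ' ρ : k} (hw0 : w ≠ 0) (hw0' : w' ≠ 0)
    (he : e ≠ 0) (hψ : ψ ≠ 0) (hψ' : ψ' ≠ 0) (hρ : ρ ^ p = ψ / ψ') (hne : ρ * w' ≠ w) {u u' ε ε' : E}
    (hu : N u ^ p = N (zz k E)) (hu' : N u' ^ p = N (zz k E))
    (hε : N ε ≤ N (zz k E) * N u ^ 2) (hε' : N ε' ≤ N (zz k E) * N u' ^ 2)
    (h1 : u ^ p = zz k E * cst k E ψ * (1 + cst k E (e / w) * u) + ε)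
    (h2 : u' ^ p = zz k E * cst k E ψ' * (1 + cst k E (e / w') * u') + ε') :
    N (u - cst k E ρ * u') ^ (p ^ 2) = N (zz k E) ^ (p + 1) := by
  have hp : p.Prime := Fact.out
  have hE : CharP E p := charP_of_injective_ringHom (cst k E).injective p
  have hex : ExpChar E p := ExpChar.prime hp
  set d := u - cst k E ρ * u' with hd
  set t := N u with ht
  have hz := h.zpos
  have hp0 : p ≠ 0 := hp.ne_zero
  have hut : N u' = t := (pow_left_inj₀ (h.nonneg _) (h.nonneg _) hp0).1 (by rw [hu', hu])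
  have ht0 : 0 < t := by
    rcases (h.nonneg u).eq_or_lt with h0 | h0
    · rw [← ht] at h0
      rw [← h0, zero_pow hp0] at hu
      exact absurd hu hz.ne
    · exact h0
  have ht1 : t < 1 := by
    by_contra hc
    have := one_le_pow₀ (n := p) (not_lt.1 hc)
    rw [hu] at this
    exact absurd this (not_le.2 h.lt)
  set κ : k := e * (ρ / w - 1 / w') with hκ
  have hκ0 : κ ≠ 0 := by
    rw [hκ]
    refine mul_ne_zero he ?_
    intro h0
    apply hne
    field_simp at h0
    linear_combination h0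
  have hdiv : (ψ / ψ') ≠ 0 := div_ne_zero hψ hψ'
  -- the `p`-th power
  have hcρ : cst k E ρ ^ p = cst k E (ψ / ψ') := by rw [← map_pow, hρ]
  have hcψ : cst k E (ψ / ψ') * cst k E ψ' = cst k E ψ := by
    rw [← map_mul, div_mul_cancel₀ _ hψ']
  have hcκ : cst k E (e / w) * cst k E ρ - cst k E (e / w') = cst k E κ := by
    rw [← map_mul, ← map_sub, hκ]
    congr 1
    field_simp
  have hdp0 : d ^ p = u ^ p - cst k E (ψ / ψ') * u' ^ p := by
    rw [hd, sub_pow_char, mul_pow, hcρ]
  have hdp1 : d ^ p = zz k E * cst k E ψ * (cst k E (e / w) * u - cst k E (e / w') * u') +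
      (ε - cst k E (ψ / ψ') * ε') := by
    rw [hdp0, h1, h2]
    linear_combination (-zz k E * (1 + cst k E (e / w') * u')) * hcψ
  have hdp2 : d ^ p = zz k E * cst k E ψ * (cst k E (e / w) * d) +
      (ε - cst k E (ψ / ψ') * ε') + zz k E * cst k E ψ * cst k E κ * u' := by
    rw [hdp1, ← hcκ, hd]
    ring
  have hε2 : N (ε - cst k E (ψ / ψ') * ε') ≤ N (zz k E) * t ^ 2 := by
    refine h.sub_le hε ?_
    rw [h.mul, h.const _ hdiv, one_mul, ← hut]
    exact hε'
  have hlt : N (zz k E) * t ^ 2 < N (zz k E) * t := by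
    apply mul_lt_mul_of_pos_left _ hz
    rw [pow_two]
    exact mul_lt_of_lt_one_left ht0 ht1
  have hcle : ∀ (c : k) {x : E} {r : ℝ}, N x ≤ r → N (cst k E c * x) ≤ r := fun c x r hx => by
    rw [h.mul]
    exact (mul_le_of_le_one_left (h.nonneg _) (h.const_le c)).trans hx
  have hdlt : N d < t := by
    have h3 : N (d ^ p) ≤ N (zz k E) * t := by
      rw [hdp1]
      refine h.add_le ?_ (hε2.trans hlt.le)
      rw [h.mul, h.mul, h.const _ hψ, mul_one]
      exact mul_le_mul_of_nonneg_left (h.sub_le (hcle _ le_rfl) (hcle _ hut.le)) hz.le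
    rw [h.pow] at h3
    have h4 : N d ^ p < t ^ p := by
      refine h3.trans_lt ?_
      rw [hu]
      exact mul_lt_of_lt_one_right hz ht1
    exact lt_of_pow_lt_pow_left₀ p ht0.le h4
  have h5 : N (d ^ p) = N (zz k E) * t := by
    have h6 : N (zz k E * cst k E ψ * cst k E κ * u') = N (zz k E) * t := by
      rw [h.mul, h.mul, h.mul, h.const _ hψ, h.const _ hκ0, mul_one, mul_one, hut]
    rw [hdp2, h.add_eq, h6]
    rw [h6]
    refine h.add_lt ?_ (hε2.trans_lt hlt)
    rw [h.mul, h.mul, h.const _ hψ, mul_one]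
    refine mul_lt_mul_of_pos_left ?_ hz
    exact (hcle _ le_rfl).trans_lt hdlt
  rw [h.pow] at h5
  rw [pow_two, pow_mul, h5, mul_pow, hu, pow_succ]

end BCX6.Two

namespace BCX6

open Polynomial Equiv

variable {k E : Type} [Field k] [IsAlgClosed k] [Field E] [Algebra (RatFunc k) E]
  [IsAlgClosure (RatFunc k) E]
variable {N : E → ℝ} {D : Subgroup (E ≃+* E)} {p : ℕ} [Fact p.Prime] [CharP k p]

omit [IsAlgClosed k] [IsAlgClosure (RatFunc k) E] in
lemma mem_near_iff {R : Finset E} {w x : E} : x ∈ near N R w ↔ x ∈ R ∧ N (x - w) < 1 := by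
  classical
  rw [near, Finset.mem_filter]

omit [IsAlgClosed k] [IsAlgClosure (RatFunc k) E] in
lemma isSeparable_cst (c : k) : IsSeparable (RatFunc k) (cst k E c) :=
  isSeparable_algebraMap _

/-- ROW C4 -/
theorem IsLocal.dvd_one (h : IsLocal k N D) {a : ℕ} {W : Finset k}
    {A B : k[X]} (hA : A.Monic) (hf : Fam p a W A B) {R : Finset E} (hR : IsRoots R A B) {w : k}
    (hw : w ∈ W) : p ∣ Nat.card (img D R) := by
  have hp : p.Prime := Fact.out
  obtain ⟨x, hx⟩ : (near N R (cst k E w)).Nonempty := by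
    rw [← Finset.card_pos, h.card_near hf hR hw]
    exact hp.pos
  have hxR := (mem_near_iff.1 hx).1
  have hN := h.norm_near hf hR hw hx
  refine h.dvd_card (fun σ hσ y hy => hR.map_mem (h.le hσ) hy) (d := x - cst k E w) ?_
    (Field.isSeparable_sub (hR.isSeparable hA hf.deg hxR) (isSeparable_cst w)) ?_ (q := p) (m := 1)
    (by rw [hN, pow_one]) (Nat.coprime_one_right p)
  · intro h0
    rw [h0, h.zero, zero_pow hp.ne_zero] at hN
    exact h.zpos.ne hN
  · intro σ hσ hfix
    rw [map_sub, hfix x hxR, (h.le hσ).2 w]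

/-- ROW C5: two wild points -/
theorem IsLocal.dvd_two [DecidableEq k] (h : IsLocal k N D) {a : ℕ} {w w' e : k} (hww : w ≠ w')
    {A B : k[X]} (hf : Fam p a {w, w'} A B) (he : e ≠ 0)
    (hw : w * (derivative B).eval w - a * B.eval w = e * B.eval w)
    (hw' : w' * (derivative B).eval w' - a * B.eval w' = e * B.eval w')
    (hne : B.eval w * w' ^ (a + p) + B.eval w' * w ^ (a + p) ≠ 0)
    {R : Finset E} (hR : IsRoots R A B) : p ^ 2 ∣ Nat.card (img D R) := by
  have hp : p.Prime := Fact.out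
  have hwm : w ∈ ({w, w'} : Finset k) := Finset.mem_insert_self _ _
  have hwm' : w' ∈ ({w, w'} : Finset k) := Finset.mem_insert_of_mem (Finset.mem_singleton_self _)
  have hw0 : w ≠ 0 := fun h0 => hf.zero_notMem (h0 ▸ hwm)
  have hw0' : w' ≠ 0 := fun h0 => hf.zero_notMem (h0 ▸ hwm')
  have hA1 : A = X ^ a * ((X - C w) * (X - C w')) ^ p := by
    rw [hf.eqA, Finset.prod_pair hww]
  have hA2 : A = X ^ a * ((X - C w') * (X - C w)) ^ p := by
    rw [hA1, mul_comm (X - C w)]
  have hA : A.Monic := by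
    rw [hA1]
    exact (monic_X_pow a).mul (((monic_X_sub_C w).mul (monic_X_sub_C w')).pow p)
  obtain ⟨x, hx⟩ : (near N R (cst k E w)).Nonempty := by
    rw [← Finset.card_pos, h.card_near hf hR hwm]
    exact hp.pos
  obtain ⟨x', hx'⟩ : (near N R (cst k E w')).Nonempty := by
    rw [← Finset.card_pos, h.card_near hf hR hwm']
    exact hp.pos
  obtain ⟨hxR, hx1⟩ := mem_near_iff.1 hx
  obtain ⟨hxR', hx1'⟩ := mem_near_iff.1 hx'
  have hN := h.norm_near hf hR hwm hx
  have hN' := h.norm_near hf hR hwm' hx'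
  obtain ⟨ε, hε, h1⟩ := Two.first h hw0 hww hA1 (hf.ne w hwm) hw ((hR.mem x).1 hxR) hx1
  obtain ⟨ε', hε', h2⟩ := Two.first h hw0' hww.symm hA2 (hf.ne w' hwm') hw'
    ((hR.mem x').1 hxR') hx1'
  set ψ : k := -(B.eval w) / (w ^ a * (w - w') ^ p) with hψ
  set ψ' : k := -(B.eval w') / (w' ^ a * (w' - w) ^ p) with hψ'
  have hψ0 : ψ ≠ 0 := div_ne_zero (neg_ne_zero.2 (hf.ne w hwm))
    (mul_ne_zero (pow_ne_zero _ hw0) (pow_ne_zero _ (sub_ne_zero.2 hww)))
  have hψ0' : ψ' ≠ 0 := div_ne_zero (neg_ne_zero.2 (hf.ne w' hwm'))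
    (mul_ne_zero (pow_ne_zero _ hw0') (pow_ne_zero _ (sub_ne_zero.2 hww.symm)))
  obtain ⟨ρ, hρ⟩ := IsAlgClosed.exists_pow_nat_eq (ψ / ψ') hp.pos
  have hneg : (w' - w) ^ p = -(w - w') ^ p := by
    have hex : ExpChar k p := ExpChar.prime hp
    rw [sub_pow_char, sub_pow_char]
    ring
  have hρne : ρ * w' ≠ w := by
    intro h0
    apply hne
    have h3 : ψ / ψ' * w' ^ p = w ^ p := by rw [← hρ, ← mul_pow, h0]
    have hs : (w - w') ^ p ≠ 0 := pow_ne_zero _ (sub_ne_zero.2 hww)
    have hBw' := hf.ne w' hwm'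
    rw [hψ, hψ', hneg] at h3
    field_simp at h3
    rw [pow_add, pow_add]
    linear_combination (-1) * h3
  have hmain := Two.second h hw0 hw0' he hψ0 hψ0' hρ hρne hN hN' hε hε' h1 h2
  refine h.dvd_card (fun σ hσ y hy => hR.map_mem (h.le hσ) hy)
    (d := (x - cst k E w) - cst k E ρ * (x' - cst k E w')) ?_ ?_ ?_ (q := p ^ 2) (m := p + 1)
    hmain ?_
  · intro h0
    rw [h0, h.zero, zero_pow (pow_ne_zero _ hp.ne_zero)] at hmain
    exact (pow_pos h.zpos _).ne hmain
  · exact Field.isSeparable_sub (Field.isSeparable_sub (hR.isSeparable hA hf.deg hxR)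
      (isSeparable_cst w)) (Field.isSeparable_mul (isSeparable_cst ρ) (Field.isSeparable_sub
      (hR.isSeparable hA hf.deg hxR') (isSeparable_cst w')))
  · intro σ hσ hfix
    rw [map_sub, map_sub, map_mul, map_sub, hfix x hxR, hfix x' hxR', (h.le hσ).2, (h.le hσ).2,
      (h.le hσ).2]
  · apply Nat.Coprime.pow_left
    simp

end BCX6
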