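import Pool.Agent.BCX6.Divis
import Pool.Agent.BCX6.Prim
import Pool.Agent.BCX6.Jordan
import Pool.Agent.BCX6.Cycles
import Pool.Agent.BCX6.Local
import Pool.Agent.BCX6.Near
import Pool.Agent.BCX6.Tame
import Pool.Agent.BCX6.Two
import Pool.Agent.BCX6.Auto
import Pool.Agent.BCX6.Block

/-!
# Rows M: the monodromy groups contain the alternating groups
-/

set_option autoImplicit false

namespace BCX6

open Polynomial Equiv MulAction

namespace Mono

variable {k E : Type} [Field k] [Field E] [Algebra (RatFunc k) E] {p : ℕ}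

/-- the elements of `R` near `w`, in the type of the elements of `R` -/
noncomputable def nearS (N : E → ℝ) (R : Finset E) (w : E) : Finset {x // x ∈ R} := by
  classical exact Finset.univ.filter fun x => (x : E) ∈ near N R w

theorem mem_nearS {N : E → ℝ} {R : Finset E} {w : E} {x : {x // x ∈ R}} :
    x ∈ nearS N R w ↔ (x : E) ∈ near N R w := by
  simp [nearS]

theorem near_subset {N : E → ℝ} {R : Finset E} {w x : E} (hx : x ∈ near N R w) : x ∈ R := by
  simp only [near, Finset.mem_filter] at hx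
  exact hx.1

theorem card_nearS (N : E → ℝ) (R : Finset E) (w : E) :
    (nearS N R w).card = (near N R w).card := by
  refine Finset.card_bij (fun x _ => (x : E)) (fun x hx => mem_nearS.1 hx)
    (fun x _ y _ hxy => Subtype.ext hxy) (fun x hx => ⟨⟨x, near_subset hx⟩, mem_nearS.2 hx, rfl⟩)

theorem exists_perm {G : Subgroup (E ≃+* E)} {R : Finset E} (hR : ∀ σ ∈ G, ∀ x ∈ R, σ x ∈ R)
    {σ : E ≃+* E} (hσ : σ ∈ G) : ∃ π ∈ img G R, ∀ x : {x // x ∈ R}, σ x = π x :=
  ⟨(toImg G R hR ⟨σ, hσ⟩ : img G R), (toImg G R hR ⟨σ, hσ⟩).2, fun _ => rfl⟩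

theorem monic {a : ℕ} {W : Finset k} {A B : k[X]} (hf : Fam p a W A B) : A.Monic := by
  rw [hf.eqA]
  exact (monic_X_pow a).mul ((monic_prod_of_monic _ _ fun w _ => monic_X_sub_C w).pow p)

theorem coprime {a : ℕ} {W : Finset k} {A B : k[X]} (hf : Fam p a W A B) : IsCoprime A B := by
  rw [hf.eqA]
  have hX : ∀ w : k, B.eval w ≠ 0 → IsCoprime (X - C w) B := by
    intro w hw
    rw [(irreducible_X_sub_C w).coprime_iff_not_dvd, dvd_iff_isRoot]
    exact hw
  refine IsCoprime.mul_left ?_ (IsCoprime.pow_left (IsCoprime.prod_left fun w hw => hX w (hf.ne w hw)))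
  rcases eq_or_ne a 0 with h | h
  · rw [h, pow_zero]
    exact isCoprime_one_left
  · have := hX 0 (hf.zero h)
    rw [C_0, sub_zero] at this
    exact this.pow_left

theorem natDegree {a : ℕ} {W : Finset k} {A B : k[X]} (hf : Fam p a W A B) :
    A.natDegree = a + W.card * p := by
  rw [hf.eqA, Monic.natDegree_mul (monic_X_pow a)
    ((monic_prod_of_monic _ _ fun w _ => monic_X_sub_C w).pow p), natDegree_X_pow,
    Monic.natDegree_pow (monic_prod_of_monic _ _ fun w _ => monic_X_sub_C w),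
    natDegree_prod_of_monic _ _ fun w _ => monic_X_sub_C w]
  simp [mul_comm]

theorem pow_apply {R : Finset E} {σ : E ≃+* E}
    {π : Perm {x // x ∈ R}} (hπ : ∀ x : {x // x ∈ R}, σ x = π x) (n : ℕ) (x : {x // x ∈ R}) :
    (σ ^ n) x = (π ^ n) x := by
  induction n with
  | zero => rfl
  | succ n ih =>
    rw [pow_succ', pow_succ', RingAut.mul_apply, ih, hπ, Perm.mul_apply]

theorem img_mono {G H : Subgroup (E ≃+* E)} (hGH : G ≤ H) (R : Finset E) : img G R ≤ img H R := by
  rintro π ⟨σ, hσ, h⟩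
  exact ⟨σ, hGH hσ, h⟩

variable [IsAlgClosed k] [IsAlgClosure (RatFunc k) E]

theorem isPretransitive {a : ℕ} {W : Finset k} {A B : k[X]} (hf : Fam p a W A B) {R : Finset E}
    (hR : IsRoots R A B) : IsPretransitive (img (G1 k E) R) {x // x ∈ R} := by
  refine ⟨fun x y => ?_⟩
  obtain ⟨σ, hσ, h⟩ := exists_G1 (coprime hf) (monic hf) hf.deg ((hR.mem x).1 x.2)
    ((hR.mem y).1 y.2)
  obtain ⟨π, hπ, h1⟩ := exists_perm (fun σ hσ x hx => hR.map_mem hσ hx) hσ
  exact ⟨⟨π, hπ⟩, Subtype.ext ((h1 x).symm.trans h)⟩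

variable [Fact p.Prime] [CharP k p] {N : E → ℝ} {D : Subgroup (E ≃+* E)}

theorem near_stable (h : IsLocal k N D) {A B : k[X]} {R : Finset E} (hR : IsRoots R A B) (w : k)
    {π : Perm {x // x ∈ R}} (hπ : π ∈ img D R) {x : {x // x ∈ R}}
    (hx : x ∈ nearS N R (cst k E w)) : π x ∈ nearS N R (cst k E w) := by
  obtain ⟨σ, hσ, h1⟩ := hπ
  rw [mem_nearS] at hx ⊢
  rw [← h1]
  exact h.map_near hR hσ hx

theorem pow_fix (h : IsLocal k N D) {a : ℕ} (hpa : ¬ p ∣ a) {W : Finset k} {A B : k[X]}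
    (hf : Fam p a W A B) {R : Finset E} (hR : IsRoots R A B) {π : Perm {x // x ∈ R}}
    (hπ : π ∈ img D R) {x : {x // x ∈ R}} (hx : (x : E) ∈ near N R 0) : (π ^ a) x = x := by
  obtain ⟨σ, hσ, h1⟩ := hπ
  apply Subtype.ext
  rw [← pow_apply h1]
  exact h.pow_fix hpa hf hR hσ hx

theorem exists_zero (h : IsLocal k N D) {a : ℕ} (hpa : ¬ p ∣ a) {W : Finset k} {A B : k[X]}
    (hf : Fam p a W A B) {R : Finset E} (hR : IsRoots R A B) {x y : {x // x ∈ R}}
    (hx : (x : E) ∈ near N R 0) (hy : (y : E) ∈ near N R 0) : ∃ π ∈ img D R, π x = y := by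
  obtain ⟨σ, hσ, h1⟩ := h.exists_zero hpa hf hR hx hy
  obtain ⟨π, hπ, h2⟩ := exists_perm (fun σ hσ x hx => hR.map_mem (h.le hσ) hx) hσ
  exact ⟨π, hπ, Subtype.ext ((h2 x).symm.trans h1)⟩

theorem card_eq {a : ℕ} {W : Finset k} {A B : k[X]} (hf : Fam p a W A B) {R : Finset E}
    (hR : IsRoots R A B) : Fintype.card {x // x ∈ R} = a + W.card * p := by
  rw [Fintype.card_coe, hR.card, natDegree hf]

end Mono

variable {k E : Type} [Field k] [IsAlgClosed k] [Field E] [Algebra (RatFunc k) E]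
  [IsAlgClosure (RatFunc k) E] {p : ℕ} [Fact p.Prime] [CharP k p]

open Mono

/-- ROW M1 -/
theorem mono_one [DecidableEq E] (hp3 : 3 ≤ p) {a : ℕ} (ha : 3 ≤ a) (hpa : ¬ p ∣ a) {w : k} {A B : k[X]}
    (hf : Fam p a {w} A B) {R : Finset E} (hR : IsRoots R A B) :
    alternatingGroup {x // x ∈ R} ≤ img (G1 k E) R := by
  have hp : p.Prime := Fact.out
  obtain ⟨N, D, h⟩ := exists_isLocal k E
  have hcard : Fintype.card {x // x ∈ R} = a + p := by
    rw [card_eq hf hR, Finset.card_singleton, one_mul]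
  have hor : ∀ x : {x // x ∈ R}, x ∉ nearS N R (cst k E w) → (x : E) ∈ near N R 0 := by
    intro x hx
    rcases h.near_or hf hR x.2 with h1 | ⟨w', hw', h1⟩
    · exact h1.1
    · rw [Finset.mem_singleton] at hw'
      subst hw'
      exact absurd (mem_nearS.2 h1) hx
  have hΓ : (nearS N R (cst k E w)).card = p := by
    rw [card_nearS, h.card_near hf hR (Finset.mem_singleton_self w)]
  obtain ⟨g, hg, hgc, hgs⟩ := exists_cycle_one (img D R) hp hpa (nearS N R (cst k E w)) hΓ
    (fun π hπ x hx => near_stable h hR w hπ hx)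
    (fun π hπ x hx => Mono.pow_fix h hpa hf hR hπ (hor x hx))
    (h.dvd_one (monic hf) hf hR (Finset.mem_singleton_self w))
  have hgc' : g.support.card = p := by rw [hgs, hΓ]
  have hprim := isPreprimitive_of_isCycle_mem (isPretransitive hf hR) (g := g)
    (by rw [hgc']; exact hp) (by
      rw [hgc', hcard]
      intro h1
      exact hpa ((Nat.dvd_add_left (dvd_refl p)).1 h1)) hgc (img_mono h.le R hg) (by
      intro x y hx hy
      rw [hgs] at hx hy
      obtain ⟨π, hπ, h1⟩ := Mono.exists_zero h hpa hf hR (hor x hx) (hor y hy)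
      refine ⟨π, img_mono h.le R hπ, fun z hz => ?_, h1⟩
      rw [hgs] at hz ⊢
      exact near_stable h hR w hπ hz)
  exact alternatingGroup_le_of_isCycle_mem hprim (by rw [hgc']; exact hp)
    (by rw [hgc', hcard]; omega) hgc (img_mono h.le R hg)

/-- ROW M2 -/
theorem mono_two [DecidableEq k] [DecidableEq E] (hp3 : 3 ≤ p) {a : ℕ} (ha : 1 ≤ a) (hpa : ¬ p ∣ a) {w w' e : k} (hww : w ≠ w')
    {A B : k[X]} (hf : Fam p a {w, w'} A B) (he : e ≠ 0)
    (hw : w * (derivative B).eval w - a * B.eval w = e * B.eval w)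
    (hw' : w' * (derivative B).eval w' - a * B.eval w' = e * B.eval w')
    (hne : B.eval w * w' ^ (a + p) + B.eval w' * w ^ (a + p) ≠ 0)
    {R : Finset E} (hR : IsRoots R A B) :
    alternatingGroup {x // x ∈ R} ≤ img (G1 k E) R := by
  have hp : p.Prime := Fact.out
  obtain ⟨N, D, h⟩ := exists_isLocal k E
  have hcard : Fintype.card {x // x ∈ R} = a + 2 * p := by
    rw [card_eq hf hR, Finset.card_pair hww]
  have hor : ∀ x : {x // x ∈ R}, x ∉ nearS N R (cst k E w) → x ∉ nearS N R (cst k E w') →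
      (x : E) ∈ near N R 0 := by
    intro x hx hx'
    rcases h.near_or hf hR x.2 with h1 | ⟨v, hv, h1⟩
    · exact h1.1
    · rw [Finset.mem_insert, Finset.mem_singleton] at hv
      rcases hv with rfl | rfl
      · exact absurd (mem_nearS.2 h1) hx
      · exact absurd (mem_nearS.2 h1) hx'
  have hmw : w ∈ ({w, w'} : Finset k) := by simp
  have hmw' : w' ∈ ({w, w'} : Finset k) := by simp
  have hΓ : (nearS N R (cst k E w)).card = p := by rw [card_nearS, h.card_near hf hR hmw]
  have hΓ' : (nearS N R (cst k E w')).card = p := by rw [card_nearS, h.card_near hf hR hmw']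
  have hdis : Disjoint (nearS N R (cst k E w)) (nearS N R (cst k E w')) := by
    rw [Finset.disjoint_left]
    intro x hx hx'
    exact (Finset.disjoint_left.1 (h.disjoint_near hww)) (mem_nearS.1 hx) (mem_nearS.1 hx')
  have hdvd := h.dvd_two hww hf he hw hw' hne hR
  obtain ⟨g, hg, hgc, hgs⟩ := exists_cycle_two (img D R) hp hpa (nearS N R (cst k E w))
    (nearS N R (cst k E w')) hΓ hΓ' hdis
    (fun π hπ x hx => near_stable h hR w hπ hx) (fun π hπ x hx => near_stable h hR w' hπ hx)
    (fun π hπ x hx hx' => Mono.pow_fix h hpa hf hR hπ (hor x hx hx')) hdvd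
  obtain ⟨g', hg', hgc', hgs'⟩ := exists_cycle_two (img D R) hp hpa (nearS N R (cst k E w'))
    (nearS N R (cst k E w)) hΓ' hΓ hdis.symm
    (fun π hπ x hx => near_stable h hR w' hπ hx) (fun π hπ x hx => near_stable h hR w hπ hx)
    (fun π hπ x hx hx' => Mono.pow_fix h hpa hf hR hπ (hor x hx' hx)) hdvd
  have hprim := isPreprimitive_two (isPretransitive hf hR) hp (by
      rw [hcard]
      intro h1
      exact hpa ((Nat.dvd_add_left (dvd_mul_left p 2)).1 h1)) hgc (img_mono h.le R hg) hgc'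
      (img_mono h.le R hg') (by rw [hgs, hΓ]) (by rw [hgs', hΓ']) (by rw [hgs, hgs']; exact hdis) (by
      intro x y hx hx' hy hy'
      rw [hgs] at hx hy
      rw [hgs'] at hx' hy'
      obtain ⟨π, hπ, h1⟩ := Mono.exists_zero h hpa hf hR (hor x hx hx') (hor y hy hy')
      refine ⟨π, img_mono h.le R hπ, fun z hz => ?_, h1⟩
      rw [hgs] at hz ⊢
      exact near_stable h hR w hπ hz)
  exact alternatingGroup_le_of_isCycle_mem hprim (by rw [hgs, hΓ]; exact hp)
    (by rw [hgs, hΓ, hcard]; omega) hgc (img_mono h.le R hg)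

/-- ROW M3 -/
theorem mono_zero [DecidableEq k] [DecidableEq E] (hp3 : 3 ≤ p) {w w' e : k} (hww : w ≠ w')
    {A B : k[X]} (hf : Fam p 0 {w, w'} A B) (he : e ≠ 0)
    (hw : w * (derivative B).eval w = e * B.eval w)
    (hw' : w' * (derivative B).eval w' = e * B.eval w')
    (hne : B.eval w * w' ^ p + B.eval w' * w ^ p ≠ 0)
    {R : Finset E} (hR : IsRoots R A B)
    (hdisc : ∃ (c : k) (m : ℕ), c ≠ 0 ∧
      ∏ x ∈ R, (derivative (fE E A B)).eval x = cst k E c * zz k E ^ m) :
    alternatingGroup {x // x ∈ R} ≤ img (G1 k E) R := by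
  have hp : p.Prime := Fact.out
  obtain ⟨N, D, h⟩ := exists_isLocal k E
  have hcard : Fintype.card {x // x ∈ R} = 2 * p := by
    rw [card_eq hf hR, Finset.card_pair hww, zero_add]
  have hor : ∀ x : {x // x ∈ R}, x ∉ nearS N R (cst k E w) → x ∉ nearS N R (cst k E w') →
      False := by
    intro x hx hx'
    rcases h.near_or hf hR x.2 with h1 | ⟨v, hv, h1⟩
    · exact h1.2 rfl
    · rw [Finset.mem_insert, Finset.mem_singleton] at hv
      rcases hv with rfl | rfl
      · exact absurd (mem_nearS.2 h1) hx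
      · exact absurd (mem_nearS.2 h1) hx'
  have hmw : w ∈ ({w, w'} : Finset k) := by simp
  have hmw' : w' ∈ ({w, w'} : Finset k) := by simp
  have hΓ : (nearS N R (cst k E w)).card = p := by rw [card_nearS, h.card_near hf hR hmw]
  have hΓ' : (nearS N R (cst k E w')).card = p := by rw [card_nearS, h.card_near hf hR hmw']
  have hdis : Disjoint (nearS N R (cst k E w)) (nearS N R (cst k E w')) := by
    rw [Finset.disjoint_left]
    intro x hx hx'
    exact (Finset.disjoint_left.1 (h.disjoint_near hww)) (mem_nearS.1 hx) (mem_nearS.1 hx')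
  have hdvd := h.dvd_two (a := 0) hww hf he (by simpa using hw) (by simpa using hw')
    (by simpa using hne) hR
  obtain ⟨g, hg, hgc, hgs⟩ := exists_cycle_two (img D R) hp hp.not_dvd_one (a := 1)
    (nearS N R (cst k E w))
    (nearS N R (cst k E w')) hΓ hΓ' hdis
    (fun π hπ x hx => near_stable h hR w hπ hx) (fun π hπ x hx => near_stable h hR w' hπ hx)
    (fun π hπ x hx hx' => absurd (hor x hx hx') id) hdvd
  obtain ⟨g', hg', hgc', hgs'⟩ := exists_cycle_two (img D R) hp hp.not_dvd_one (a := 1)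
    (nearS N R (cst k E w'))
    (nearS N R (cst k E w)) hΓ' hΓ hdis.symm
    (fun π hπ x hx => near_stable h hR w' hπ hx) (fun π hπ x hx => near_stable h hR w hπ hx)
    (fun π hπ x hx hx' => absurd (hor x hx' hx) id) hdvd
  rcases isPreprimitive_or (isPretransitive hf hR) hp hgc (img_mono h.le R hg) hgc'
      (img_mono h.le R hg') (by rw [hgs, hΓ]) (by rw [hgs', hΓ']) (by rw [hgs, hgs']; exact hdis) (by
      intro x
      rw [hgs, hgs']
      by_contra hcon
      push Not at hcon
      exact hor x hcon.1 hcon.2) with hprim | hblock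
  · exact alternatingGroup_le_of_isCycle_mem hprim (by rw [hgs, hΓ]; exact hp)
      (by rw [hgs, hΓ, hcard]; omega) hgc (img_mono h.le R hg)
  · exfalso
    refine h.not_block hp3 hww hf hR hdisc fun σ hσ => ?_
    obtain ⟨π, hπ, h1⟩ := exists_perm (fun σ hσ x hx => hR.map_mem hσ hx) hσ
    rcases hblock π hπ with h2 | h2
    · left
      intro x hx
      have h3 := h2 ⟨x, near_subset hx⟩ (by rw [hgs]; exact mem_nearS.2 hx)
      rw [hgs] at h3
      have h4 := mem_nearS.1 h3
      rw [← h1] at h4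
      exact h4
    · right
      intro x hx
      have h3 := h2 ⟨x, near_subset hx⟩ (by rw [hgs]; exact mem_nearS.2 hx)
      rw [hgs'] at h3
      have h4 := mem_nearS.1 h3
      rw [← h1] at h4
      exact h4

end BCX6
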