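import Mathlib.GroupTheory.SpecificGroups.Alternating.Simple
import Mathlib.GroupTheory.SpecificGroups.Alternating.Centralizer
import Mathlib.GroupTheory.QuotientGroup.Basic
import Mathlib.Data.Finset.Lattice.Fold
import Mathlib.Tactic.Group

/-!
# Normal subgroups of subdirect products of simple groups, and subgroups of products of symmetric groups
-/

open Equiv Equiv.Perm

namespace BCX6

/-- products with a normal subgroup -/
lemma mem_sup_normal {M : Type*} [Group M] {H K : Subgroup M} (hK : K.Normal) {z : M} (hz : z ∈ H ⊔ K) :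
    ∃ x ∈ H, ∃ y ∈ K, x * y = z := by
  rw [← SetLike.mem_coe, Subgroup.mul_normal, Set.mem_mul] at hz
  obtain ⟨x, hx, y, hy, h⟩ := hz
  exact ⟨x, hx, y, hy, h⟩

/-- a normal subgroup `N` of `M` which maps onto all the non-abelian simple quotients `M ⧸ K i` and contains
the intersection of the `K i` is everything -/
theorem normal_eq_top {M : Type*} [Group M] {ι : Type*} (s : Finset ι) (K : ι → Subgroup M)
    (hK : ∀ i ∈ s, (K i).Normal)
    (hs : ∀ i ∈ s, ∀ H : Subgroup M, H.Normal → K i ≤ H → H = K i ∨ H = ⊤)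
    (hna : ∀ i ∈ s, ∃ a b : M, a * b * a⁻¹ * b⁻¹ ∉ K i)
    (N : Subgroup M) (hNn : N.Normal) (hN : ∀ i ∈ s, N ⊔ K i = ⊤) (h : s.inf K ≤ N) : N = ⊤ := by
  classical
  induction s using Finset.induction_on with
  | empty => exact top_le_iff.1 (by simpa using h)
  | insert j s hj ih =>
    have hKj : (K j).Normal := hK j (Finset.mem_insert_self _ _)
    have hK' : ∀ i ∈ s, (K i).Normal := fun i hi => hK i (Finset.mem_insert_of_mem hi)
    refine ih hK' (fun i hi => hs i (Finset.mem_insert_of_mem hi))
      (fun i hi => hna i (Finset.mem_insert_of_mem hi)) (fun i hi => hN i (Finset.mem_insert_of_mem hi)) ?_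
    set J := s.inf K with hJ
    rw [Finset.inf_insert] at h
    have hJn : J.Normal := by
      clear ih hs hna hN hK h
      rw [hJ]
      clear hJ
      clear J
      induction s using Finset.induction_on with
      | empty => simp only [Finset.inf_empty]; infer_instance
      | insert a s ha ih2 =>
        rw [Finset.inf_insert]
        have h1 : (K a).Normal := hK' a (Finset.mem_insert_self _ _)
        have h2 : (s.inf K).Normal := ih2 (fun h => hj (Finset.mem_insert_of_mem h))
          (fun i hi => hK' i (Finset.mem_insert_of_mem hi))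
        infer_instance
    rcases hs j (Finset.mem_insert_self _ _) (J ⊔ K j) inferInstance le_sup_right with h1 | h1
    · -- `J ≤ K j`
      have h2 : J ≤ K j := by rw [← h1]; exact le_sup_left
      exact (le_inf h2 le_rfl).trans h
    · -- `J ⊔ K j = ⊤`
      rcases hs j (Finset.mem_insert_self _ _) ((N ⊓ J) ⊔ K j) inferInstance le_sup_right with h2 | h2
      · exfalso
        have h3 : N ⊓ J ≤ K j := by rw [← h2]; exact le_sup_left
        obtain ⟨a, b, hab⟩ := hna j (Finset.mem_insert_self _ _)
        have ha : a ∈ N ⊔ K j := by rw [hN j (Finset.mem_insert_self _ _)]; trivial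
        have hb : b ∈ J ⊔ K j := by rw [h1]; trivial
        obtain ⟨x, hx, k, hk, rfl⟩ := mem_sup_normal hKj ha
        obtain ⟨y, hy, l, hl, rfl⟩ := mem_sup_normal hKj hb
        have hc : x * y * x⁻¹ * y⁻¹ ∈ K j := h3 ⟨by
          have := hNn.conj_mem x⁻¹ (N.inv_mem hx) y
          have h4 := N.mul_mem hx this
          simpa [mul_assoc] using h4, by
          have := hJn.conj_mem y hy x
          exact J.mul_mem this (J.inv_mem hy)⟩
        refine hab ?_
        have hq : ∀ g : M, g ∈ K j ↔ QuotientGroup.mk' (K j) g = 1 := fun g =>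
          (QuotientGroup.eq_one_iff g).symm
        rw [hq] at hk hl hc ⊢
        simp only [map_mul, map_inv, hk, hl, mul_one] at hc ⊢
        exact hc
      · intro z hz
        have h3 : z ∈ (N ⊓ J) ⊔ K j := by rw [h2]; trivial
        obtain ⟨x, hx, k, hk, rfl⟩ := mem_sup_normal hKj h3
        have hkJ : k ∈ J := by
          have := J.mul_mem (J.inv_mem hx.2) hz
          simpa using this
        exact N.mul_mem hx.1 (h ⟨hk, hkJ⟩)

/-- there are two even permutations which do not commute -/
lemma exists_not_commute {β : Type*} [Fintype β] [DecidableEq β] (h5 : 5 ≤ Fintype.card β) :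
    ∃ σ τ : alternatingGroup β, σ * τ * σ⁻¹ * τ⁻¹ ≠ 1 := by
  by_contra hcon
  push Not at hcon
  have h5' : 5 ≤ Nat.card β := by rwa [Nat.card_eq_fintype_card]
  have hs := alternatingGroup.isSimpleGroup h5'
  have hcomm : ∀ a b : alternatingGroup β, a * b = b * a := by
    intro a b
    have := hcon a b
    rw [mul_inv_eq_one, mul_inv_eq_iff_eq_mul] at this
    exact this
  have h1 := alternatingGroup.center_eq_bot (α := β) (by omega)
  have h2 : Subgroup.center (alternatingGroup β) = ⊤ := by
    rw [Subgroup.eq_top_iff']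
    intro a
    rw [Subgroup.mem_center_iff]
    exact fun b => hcomm b a
  rw [h1] at h2
  exact bot_ne_top h2

variable {ι : Type*} {α : ι → Type*} [∀ i, Fintype (α i)] [∀ i, DecidableEq (α i)]

/-- the elements of a subgroup all of whose coordinates are even -/
def evenPart (A : Subgroup (∀ i, Perm (α i))) : Subgroup (∀ i, Perm (α i)) :=
  A ⊓ ⨅ i, (alternatingGroup (α i)).comap (Pi.evalMonoidHom _ i)

lemma mem_evenPart {A : Subgroup (∀ i, Perm (α i))} {a : ∀ i, Perm (α i)} :
    a ∈ evenPart A ↔ a ∈ A ∧ ∀ i, sign (a i) = 1 := by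
  rw [evenPart, Subgroup.mem_inf, Subgroup.mem_iInf]
  simp only [Subgroup.mem_comap, Pi.evalMonoidHom_apply, mem_alternatingGroup]

/-- the coordinates of the even part -/
def coord (A : Subgroup (∀ i, Perm (α i))) (i : ι) : evenPart A →* alternatingGroup (α i) where
  toFun a := ⟨(a : ∀ i, Perm (α i)) i, mem_alternatingGroup.2 ((mem_evenPart.1 a.2).2 i)⟩
  map_one' := rfl
  map_mul' _ _ := rfl

lemma coord_coe (A : Subgroup (∀ i, Perm (α i))) (i : ι) (a : evenPart A) :
    (coord A i a : Perm (α i)) = (a : ∀ i, Perm (α i)) i := rfl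

/-- the even part of a subgroup which maps onto the alternating groups does the same -/
lemma coord_surjective {B : Subgroup (∀ i, Perm (α i))} {i : ι} (h5 : 5 ≤ Fintype.card (α i))
    (hproj : ∀ σ ∈ alternatingGroup (α i), ∃ b ∈ B, b i = σ) : Function.Surjective (coord B i) := by
  have h5' : 5 ≤ Nat.card (α i) := by rwa [Nat.card_eq_fintype_card]
  rw [← MonoidHom.range_eq_top, ← top_le_iff, ← commutator_alternatingGroup_eq_top h5',
    commutator_def, Subgroup.commutator_le]
  intro σ _ τ _
  obtain ⟨b, hb, hσ⟩ := hproj σ σ.2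
  obtain ⟨c, hc, hτ⟩ := hproj τ τ.2
  refine ⟨⟨b * c * b⁻¹ * c⁻¹, mem_evenPart.2 ⟨?_, fun j => ?_⟩⟩, ?_⟩
  · exact B.mul_mem (B.mul_mem (B.mul_mem hb hc) (B.inv_mem hb)) (B.inv_mem hc)
  · simp only [Pi.mul_apply, Pi.inv_apply, map_mul, map_inv]
    rw [mul_comm (sign (b j)) (sign (c j)), mul_inv_cancel_right, mul_inv_cancel]
  · apply Subtype.ext
    rw [coord_coe]
    simp only [commutatorElement_def, Pi.mul_apply, Pi.inv_apply, Subgroup.coe_mul, Subgroup.coe_inv, hσ, hτ]

/-- **Lemma P.**  Let `B ≤ A` be subgroups of a product of symmetric groups of degrees at least five, `B`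
normalised by `A`, such that all projections of `B` contain the alternating groups.  If every vector of signs
of an element of `A` is the one of an element of `B`, then `B = A`. -/
theorem eq_of_sign [Finite ι] (h5 : ∀ i, 5 ≤ Fintype.card (α i)) {A B : Subgroup (∀ i, Perm (α i))}
    (hBA : B ≤ A) (hn : ∀ a ∈ A, ∀ b ∈ B, a * b * a⁻¹ ∈ B)
    (hproj : ∀ i, ∀ σ ∈ alternatingGroup (α i), ∃ b ∈ B, b i = σ)
    (hsign : ∀ a ∈ A, ∃ b ∈ B, ∀ i, sign (b i) = sign (a i)) : B = A := by
  classical
  have := Fintype.ofFinite ι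
  have hprojA : ∀ i, ∀ σ ∈ alternatingGroup (α i), ∃ a ∈ A, a i = σ := fun i σ hσ => by
    obtain ⟨b, hb, h⟩ := hproj i σ hσ
    exact ⟨b, hBA hb, h⟩
  set N : Subgroup (evenPart A) := B.comap (evenPart A).subtype with hN
  have hNn : N.Normal := ⟨fun b hb a => hn a (mem_evenPart.1 a.2).1 b hb⟩
  have key : N = ⊤ := by
    refine normal_eq_top Finset.univ (fun i => (coord A i).ker) (fun i _ => inferInstance) ?_ ?_ N hNn ?_ ?_
    · intro i _ H hH hle
      have hs := alternatingGroup.isSimpleGroup (α := α i) (by rw [Nat.card_eq_fintype_card]; exact h5 i)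
      have hsurj := coord_surjective (h5 i) (hprojA i)
      have hmap : (H.map (coord A i)).Normal := hH.map _ hsurj
      rcases hmap.eq_bot_or_eq_top with h | h
      · left
        refine le_antisymm ?_ hle
        rwa [Subgroup.map_eq_bot_iff] at h
      · right
        have h1 := Subgroup.comap_map_eq (coord A i) H
        rw [h, Subgroup.comap_top, sup_eq_left.2 hle] at h1
        exact h1.symm
    · intro i _
      obtain ⟨σ, τ, h⟩ := exists_not_commute (h5 i)
      obtain ⟨a, rfl⟩ := coord_surjective (h5 i) (hprojA i) σ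
      obtain ⟨b, rfl⟩ := coord_surjective (h5 i) (hprojA i) τ
      refine ⟨a, b, ?_⟩
      rw [MonoidHom.mem_ker]
      simpa only [map_mul, map_inv] using h
    · intro i _
      rw [Subgroup.eq_top_iff']
      intro a
      obtain ⟨b, hb⟩ := coord_surjective (h5 i) (hproj i) (coord A i a)
      have hbA : (b : ∀ i, Perm (α i)) ∈ evenPart A :=
        mem_evenPart.2 ⟨hBA (mem_evenPart.1 b.2).1, (mem_evenPart.1 b.2).2⟩
      have h1 : a = ⟨b, hbA⟩ * (⟨b, hbA⟩⁻¹ * a) := by group
      rw [h1]
      refine Subgroup.mul_mem_sup ?_ ?_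
      · exact (mem_evenPart.1 b.2).1
      · rw [MonoidHom.mem_ker, map_mul, map_inv, ← hb, inv_mul_eq_one]
        rfl
    · intro a ha
      have : a = 1 := by
        apply Subtype.ext
        funext i
        have hle : Finset.univ.inf (fun i => (coord A i).ker) ≤ (coord A i).ker :=
          Finset.inf_le (f := fun i => (coord A i).ker) (Finset.mem_univ i)
        have h1 : a ∈ (coord A i).ker := hle ha
        rw [MonoidHom.mem_ker] at h1
        exact congrArg Subtype.val h1
      rw [this]
      exact N.one_mem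
  refine le_antisymm hBA fun a ha => ?_
  obtain ⟨b, hb, h⟩ := hsign a ha
  have h1 : a * b⁻¹ ∈ evenPart A := by
    refine mem_evenPart.2 ⟨A.mul_mem ha (A.inv_mem (hBA hb)), fun i => ?_⟩
    rw [Pi.mul_apply, Pi.inv_apply, map_mul, map_inv, h i, mul_inv_cancel]
  have h2 : (⟨a * b⁻¹, h1⟩ : evenPart A) ∈ N := by rw [key]; trivial
  have h3 : a * b⁻¹ ∈ B := h2
  have := B.mul_mem h3 hb
  rwa [inv_mul_cancel_right] at this

end BCX6
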