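import Pool.Agent.BCX6.Defs
import Pool.Agent.BCX6.Goursat

/-!
# The arithmetic monodromy group is the geometric one
-/

set_option linter.unusedVariables false

namespace BCX6

open Polynomial Equiv MulAction

/-- an automorphism that preserves a finite set induces a permutation of it -/
theorem Same.exists_perm {E : Type} [Field E] {R : Finset E} {σ : E ≃+* E} (h : ∀ x ∈ R, σ x ∈ R) :
    ∃ π : Perm {x // x ∈ R}, ∀ x : {x // x ∈ R}, σ x = π x := by
  have hinj : Function.Injective (fun x : {x // x ∈ R} => (⟨σ x, h x x.2⟩ : {x // x ∈ R})) := by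
    intro x y hxy
    have h1 : σ x = σ y := congrArg Subtype.val hxy
    exact Subtype.ext (σ.injective h1)
  exact ⟨Equiv.ofBijective _ (Finite.injective_iff_bijective.1 hinj), fun x => rfl⟩

/-- ROW R, with the normality as a hypothesis -/
theorem Same.exists_same_of_conj {k E : Type} [Field k] [Field E] [Algebra (RatFunc k) E]
    [DecidableEq E] {K : Type} [Field K] [Algebra K k] {ι : Type}
    [Finite ι] (R : ι → Finset E) (h5 : ∀ i, 5 ≤ (R i).card)
    (hle : G1 k E ≤ G0 k E K)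
    (hconj : ∀ σ ∈ G0 k E K, ∀ τ ∈ G1 k E, σ * τ * σ⁻¹ ∈ G1 k E)
    (hst : ∀ σ ∈ G0 k E K, ∀ i, ∀ x ∈ R i, σ x ∈ R i)
    (halt : ∀ i, alternatingGroup {x // x ∈ R i} ≤ img (G1 k E) (R i))
    (hsign : ∀ π ∈ imgs (G0 k E K) R, ∃ ρ ∈ imgs (G1 k E) R, ∀ i,
      Perm.sign (ρ i) = Perm.sign (π i)) :
    ∀ σ ∈ G0 k E K, ∃ τ ∈ G1 k E, ∀ i, ∀ x ∈ R i, τ x = σ x := by
  have key : imgs (G1 k E) R = imgs (G0 k E K) R := by
    refine eq_of_sign (α := fun i => {x // x ∈ R i}) ?_ ?_ ?_ ?_ hsign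
    · intro i
      rw [Fintype.card_coe]
      exact h5 i
    · rintro π ⟨σ, hσ, h⟩
      exact ⟨σ, hle hσ, h⟩
    · rintro π ⟨σ, hσ, h1⟩ ρ ⟨τ, hτ, h2⟩
      refine ⟨σ * τ * σ⁻¹, hconj σ hσ τ hτ, fun i x => ?_⟩
      have h3 : σ⁻¹ (x : E) = ((π i)⁻¹ x : {x // x ∈ R i}) := by
        change σ.symm _ = _
        rw [RingEquiv.symm_apply_eq, h1]
        exact congrArg Subtype.val ((π i).apply_symm_apply x).symm
      rw [RingAut.mul_apply, RingAut.mul_apply, h3, h2, h1]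
      rfl
    · intro i π hπ
      obtain ⟨σ, hσ, h⟩ := halt i hπ
      have hex : ∀ j, ∃ ρ : Perm {x // x ∈ R j}, ∀ x : {x // x ∈ R j}, σ x = ρ x := fun j =>
        Same.exists_perm fun x hx => hst σ (hle hσ) j x hx
      choose ρ hρ using hex
      refine ⟨ρ, ⟨σ, hσ, hρ⟩, ?_⟩
      ext x
      rw [← hρ, h]
  intro σ hσ
  have hex : ∀ j, ∃ ρ : Perm {x // x ∈ R j}, ∀ x : {x // x ∈ R j}, σ x = ρ x := fun j =>
    Same.exists_perm fun x hx => hst σ hσ j x hx
  choose ρ hρ using hex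
  have hmem : ρ ∈ imgs (G1 k E) R := by
    rw [key]
    exact ⟨σ, hσ, hρ⟩
  obtain ⟨τ, hτ, h⟩ := hmem
  exact ⟨τ, hτ, fun i x hx => (h i ⟨x, hx⟩).trans (hρ i ⟨x, hx⟩).symm⟩

/-- automorphisms over `K(z)` preserve the constants -/
theorem Same.exists_const {k E : Type} [Field k] [IsAlgClosed k] [Field E] [Algebra (RatFunc k) E]
    {K : Type} [Field K] [Algebra K k] [Algebra.IsAlgebraic K k] {σ : E ≃+* E} (hσ : σ ∈ G0 k E K)
    (c : k) : ∃ c' : k, σ (cst k E c) = cst k E c' := by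
  obtain ⟨P, hP, hc⟩ := Algebra.IsAlgebraic.isAlgebraic (R := K) c
  have hP' : P.map (algebraMap K k) ≠ 0 := by
    rwa [Ne, Polynomial.map_eq_zero]
  have h1 : eval₂ ((cst k E).comp (algebraMap K k)) (σ (cst k E c)) P = 0 := by
    have h2 : eval₂ ((cst k E).comp (algebraMap K k)) (cst k E c) P = 0 := by
      rw [← Polynomial.hom_eval₂, ← aeval_def, hc, map_zero]
    have h3 := congrArg σ h2
    rw [map_zero] at h3
    have h4 : σ (eval₂ ((cst k E).comp (algebraMap K k)) (cst k E c) P) =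
        eval₂ ((σ : E →+* E).comp ((cst k E).comp (algebraMap K k))) (σ (cst k E c)) P :=
      Polynomial.hom_eval₂ P _ (σ : E →+* E) _
    have h5 : (σ : E →+* E).comp ((cst k E).comp (algebraMap K k)) =
        (cst k E).comp (algebraMap K k) := RingHom.ext fun a => hσ.2 a
    rw [h4, h5] at h3
    exact h3
  have hs : (P.map (algebraMap K k)).Splits := IsAlgClosed.splits _
  have h6 : ((P.map (algebraMap K k)).map (cst k E)).IsRoot (σ (cst k E c)) := by
    rw [Polynomial.map_map, IsRoot.def, eval_map]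
    exact h1
  obtain ⟨c', h7⟩ := hs.mem_range_of_isRoot hP' h6
  exact ⟨c', h7.symm⟩

/-- the group over `k(z)` is normal in the group over `K(z)` -/
theorem Same.conj {k E : Type} [Field k] [IsAlgClosed k] [Field E] [Algebra (RatFunc k) E]
    {K : Type} [Field K] [Algebra K k] [Algebra.IsAlgebraic K k] :
    ∀ σ ∈ G0 k E K, ∀ τ ∈ G1 k E, σ * τ * σ⁻¹ ∈ G1 k E := by
  intro σ hσ τ hτ
  have hσ' : σ⁻¹ ∈ G0 k E K := inv_mem hσ
  have hcancel : ∀ x : E, σ (σ⁻¹ x) = x := fun x => σ.apply_symm_apply x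
  refine ⟨?_, fun c => ?_⟩
  · rw [RingAut.mul_apply, RingAut.mul_apply, hσ'.1, hτ.1, hσ.1]
  · obtain ⟨c', hc'⟩ := Same.exists_const hσ' c
    rw [RingAut.mul_apply, RingAut.mul_apply, hc', hτ.2, ← hc', hcancel]

/-- ROW R -/
theorem exists_same {k E : Type} [Field k] [IsAlgClosed k] [Field E] [Algebra (RatFunc k) E]
    [IsAlgClosure (RatFunc k) E] [DecidableEq E] {K : Type} [Field K] [Algebra K k]
    [Algebra.IsAlgebraic K k] {ι : Type}
    [Finite ι] (R : ι → Finset E) (h5 : ∀ i, 5 ≤ (R i).card)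
    (hst : ∀ σ ∈ G0 k E K, ∀ i, ∀ x ∈ R i, σ x ∈ R i)
    (halt : ∀ i, alternatingGroup {x // x ∈ R i} ≤ img (G1 k E) (R i))
    (hsign : ∀ π ∈ imgs (G0 k E K) R, ∃ ρ ∈ imgs (G1 k E) R, ∀ i,
      Perm.sign (ρ i) = Perm.sign (π i)) :
    ∀ σ ∈ G0 k E K, ∃ τ ∈ G1 k E, ∀ i, ∀ x ∈ R i, τ x = σ x :=
  Same.exists_same_of_conj R h5 (fun σ hσ => ⟨hσ.1, fun c => hσ.2 _⟩) Same.conj hst halt hsign

end BCX6
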