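import Pool.Agent.BCX6.Auto
import Pool.Agent.BCX6.Vand

/-!
# BCX6 row E2: equality of the sign vectors, from the discriminants
-/

namespace BCX6

open Polynomial Equiv

/-- `A + z B` is monic of the degree of `A` -/
theorem fE_monic_aux {k E : Type} [Field k] [Field E] [Algebra (RatFunc k) E] {A B : k[X]}
    (hA : A.Monic) (hdeg : B.degree < A.degree) :
    (fE E A B).Monic ∧ (fE E A B).natDegree = A.natDegree := by
  have h1 : (A.map (cst k E)).Monic := hA.map _
  have h2 : (C (zz k E) * B.map (cst k E)).degree < (A.map (cst k E)).degree := by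
    have h3 : (C (zz k E) * B.map (cst k E)).degree ≤ (B.map (cst k E)).degree := by
      refine (degree_mul_le _ _).trans ?_
      calc (C (zz k E)).degree + (B.map (cst k E)).degree ≤ 0 + (B.map (cst k E)).degree :=
            add_le_add_left degree_C_le _
        _ = _ := zero_add _
    rw [degree_map] at h3 ⊢
    exact h3.trans_lt hdeg
  refine ⟨h1.add_of_left h2, ?_⟩
  rw [fE, natDegree_add_eq_left_of_degree_lt h2, natDegree_map]

/-- an automorphism preserving a finite set induces a permutation of it -/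
theorem exists_perm_aux {E : Type} [Field E] {R : Finset E} {σ : E ≃+* E}
    (h : ∀ x ∈ R, σ x ∈ R) : ∃ π : Perm {x // x ∈ R}, ∀ x : {x // x ∈ R}, σ x = π x := by
  have hinj : Function.Injective (fun x : {x // x ∈ R} => (⟨σ x, h x x.2⟩ : {x // x ∈ R})) := by
    intro x y hxy
    exact Subtype.ext (σ.injective (Subtype.mk.inj hxy))
  exact ⟨Equiv.ofBijective _ (Finite.injective_iff_bijective.1 hinj), fun x => rfl⟩

variable {k E : Type} [Field k] [IsAlgClosed k] [Field E] [Algebra (RatFunc k) E]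
  [IsAlgClosure (RatFunc k) E]

/-- ROW E2: equality of the sign vectors, from the discriminants -/
theorem exists_signs [DecidableEq E] (h2 : (2 : k) ≠ 0) {K : Type} [Field K] [Algebra K k]
    {ι : Type} (A B : ι → K[X]) (hA : ∀ i, (A i).Monic) (hdeg : ∀ i, (B i).degree < (A i).degree)
    (R : ι → Finset E)
    (hR : ∀ i, IsRoots (R i) ((A i).map (algebraMap K k)) ((B i).map (algebraMap K k)))
    (d : E) (hd : ∃ (c : k) (m : ℕ), c ≠ 0 ∧ d = cst k E c * zz k E ^ (2 * m + 1))
    (hdisc : ∀ i, ∃ g : E, g ≠ 0 ∧ (∀ σ ∈ G0 k E K, σ g = g) ∧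
      ((-1) ^ ((R i).card * ((R i).card - 1) / 2) * ∏ x ∈ R i, (derivative
        (fE E ((A i).map (algebraMap K k)) ((B i).map (algebraMap K k)))).eval x = g ^ 2 ∨
       (-1) ^ ((R i).card * ((R i).card - 1) / 2) * ∏ x ∈ R i, (derivative
        (fE E ((A i).map (algebraMap K k)) ((B i).map (algebraMap K k)))).eval x = d * g ^ 2)) :
    ∀ π ∈ imgs (G0 k E K) R, ∃ ρ ∈ imgs (G1 k E) R, ∀ i,
      Perm.sign (ρ i) = Perm.sign (π i) := by
  -- `2 ≠ 0` in `E`
  have h2E : (2 : E) ≠ 0 := by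
    have h3 : cst k E 2 = 2 := map_ofNat (cst k E) 2
    rw [← h3]
    exact (map_ne_zero (cst k E)).2 h2
  have hne : ∀ s : ℤˣ, ∀ x : E, x ≠ 0 → ((s : ℤ) : E) * x = x → s = 1 := by
    intro s x hx hs
    rcases Int.units_eq_one_or s with h | h
    · exact h
    · exfalso
      subst h
      have h3 : (2 : E) * x = 0 := by
        have h4 : -x = x := by simpa using hs
        linear_combination -h4
      rcases mul_eq_zero.1 h3 with h4 | h4
      · exact h2E h4
      · exact hx h4
  have hneg : ∀ s : ℤˣ, ∀ x : E, x ≠ 0 → ((s : ℤ) : E) * x = -x → s = -1 := by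
    intro s x hx hs
    rcases Int.units_eq_one_or s with h | h
    · exfalso
      subst h
      have h3 : (2 : E) * x = 0 := by
        have h4 : x = -x := by simpa using hs
        linear_combination h4
      rcases mul_eq_zero.1 h3 with h4 | h4
      · exact h2E h4
      · exact hx h4
    · exact h
  -- the Vandermonde products
  have hV : ∀ i, ∃ V : E, V ≠ 0 ∧
      V ^ 2 = (-1) ^ ((R i).card * ((R i).card - 1) / 2) * ∏ x ∈ R i, (derivative
        (fE E ((A i).map (algebraMap K k)) ((B i).map (algebraMap K k)))).eval x ∧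
      ∀ (σ : E ≃+* E) (π : Perm {x // x ∈ R i}), (∀ x : {x // x ∈ R i}, σ x = π x) →
        σ V = ((Perm.sign π : ℤ) : E) * V := by
    intro i
    have h3 := fE_monic_aux (k := k) (E := E) ((hA i).map (algebraMap K k))
      (B := (B i).map (algebraMap K k)) (by rw [degree_map, degree_map]; exact hdeg i)
    exact exists_vandermonde (R i) _ h3.1 (hR i).mem (by rw [(hR i).card, h3.2])
  choose V hV0 hV2 hVs using hV
  choose g hg0 hgσ hg using hdisc
  -- the first kind
  have hfirst : ∀ i, V i ^ 2 = g i ^ 2 → ∀ σ ∈ G0 k E K, ∀ π : Perm {x // x ∈ R i},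
      (∀ x : {x // x ∈ R i}, σ x = π x) → Perm.sign π = 1 := by
    intro i hi σ hσ π hπ
    apply hne _ (V i) (hV0 i)
    rw [← hVs i σ π hπ]
    rcases sq_eq_sq_iff_eq_or_eq_neg.1 hi with h | h
    · rw [h]; exact hgσ i σ hσ
    · rw [h, map_neg, hgσ i σ hσ]
  -- the square root of `d`
  obtain ⟨c, m, hc, rfl⟩ := hd
  have hacE : IsAlgClosed E := IsAlgClosure.isAlgClosed (RatFunc k)
  obtain ⟨e, he⟩ := IsAlgClosed.exists_pow_nat_eq (k := k) c (n := 2) (by norm_num)
  obtain ⟨u, hu⟩ := IsAlgClosed.exists_pow_nat_eq (k := E) (zz k E) (n := 2) (by norm_num)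
  have he0 : e ≠ 0 := by
    rintro rfl
    exact hc (by rw [← he]; norm_num)
  have hz0 : zz k E ≠ 0 := by
    rw [zz]
    exact (_root_.map_ne_zero (algebraMap (RatFunc k) E)).2 RatFunc.X_ne_zero
  have hu0 : u ≠ 0 := by
    rintro rfl
    exact hz0 (by rw [← hu]; norm_num)
  set w : E := cst k E e * u ^ (2 * m + 1) with hw
  have hw0 : w ≠ 0 := mul_ne_zero ((map_ne_zero (cst k E)).2 he0) (pow_ne_zero _ hu0)
  have hw2 : w ^ 2 = cst k E c * zz k E ^ (2 * m + 1) := by
    rw [hw, mul_pow, ← map_pow, he, ← pow_mul, mul_comm (2 * m + 1) 2, pow_mul, hu]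
  -- the second kind
  have hsecond : ∀ i, V i ^ 2 = cst k E c * zz k E ^ (2 * m + 1) * g i ^ 2 →
      V i = w * g i ∨ V i = -(w * g i) := by
    intro i hi
    rw [← hw2, ← mul_pow] at hi
    exact sq_eq_sq_iff_eq_or_eq_neg.1 hi
  have hsign : ∀ i, V i ^ 2 = cst k E c * zz k E ^ (2 * m + 1) * g i ^ 2 → ∀ σ ∈ G0 k E K,
      ∀ π : Perm {x // x ∈ R i}, (∀ x : {x // x ∈ R i}, σ x = π x) →
      σ w = ((Perm.sign π : ℤ) : E) * w := by
    intro i hi σ hσ π hπ
    have h3 := hVs i σ π hπ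
    rcases hsecond i hi with h | h
    · rw [h, map_mul, hgσ i σ hσ, ← mul_assoc] at h3
      exact mul_right_cancel₀ (hg0 i) h3
    · rw [h, map_neg, map_mul, hgσ i σ hσ, mul_neg, neg_inj, ← mul_assoc] at h3
      exact mul_right_cancel₀ (hg0 i) h3
  rintro π ⟨σ, hσ, hπ⟩
  by_cases hcase : ∃ j, V j ^ 2 = cst k E c * zz k E ^ (2 * m + 1) * g j ^ 2 ∧
      Perm.sign (π j) = -1
  · -- use the automorphism which changes the sign of `√z`
    obtain ⟨j, hj, hjs⟩ := hcase
    have hσw : σ w = -w := by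
      have := hsign j hj σ hσ (π j) (hπ j)
      rw [hjs] at this
      simpa using this
    obtain ⟨τ, hτ, hτu⟩ := exists_neg h2 hu
    have hτw : τ w = -w := by
      rw [hw, map_mul, map_pow, hτu, hτ.2, Odd.neg_pow ⟨m, rfl⟩, mul_neg]
    have hτ0 : τ ∈ G0 k E K := G1_le_G0 hτ
    have hex : ∀ i, ∃ ρ : Perm {x // x ∈ R i}, ∀ x : {x // x ∈ R i}, τ x = ρ x := fun i =>
      exists_perm_aux fun x hx => (hR i).map_mem hτ hx
    choose ρ hρ using hex
    refine ⟨ρ, ⟨τ, hτ, hρ⟩, fun i => ?_⟩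
    rcases hg i with h | h
    · have h' : V i ^ 2 = g i ^ 2 := by rw [hV2, h]
      rw [hfirst i h' τ hτ0 (ρ i) (hρ i), hfirst i h' σ hσ (π i) (hπ i)]
    · have h' : V i ^ 2 = cst k E c * zz k E ^ (2 * m + 1) * g i ^ 2 := by rw [hV2, h]
      have h3 := hsign i h' σ hσ (π i) (hπ i)
      have h4 := hsign i h' τ hτ0 (ρ i) (hρ i)
      rw [hσw] at h3
      rw [hτw] at h4
      rw [hneg _ w hw0 h3.symm, hneg _ w hw0 h4.symm]
  · -- all signs are `1`
    refine ⟨1, one_mem _, fun i => ?_⟩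
    rw [Pi.one_apply, Perm.sign_one]
    symm
    rcases hg i with h | h
    · have h' : V i ^ 2 = g i ^ 2 := by rw [hV2, h]
      exact hfirst i h' σ hσ (π i) (hπ i)
    · have h' : V i ^ 2 = cst k E c * zz k E ^ (2 * m + 1) * g i ^ 2 := by rw [hV2, h]
      rcases Int.units_eq_one_or (Perm.sign (π i)) with h5 | h5
      · exact h5
      · exact absurd ⟨i, h', h5⟩ hcase

end BCX6
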