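import Pool.Agent.BCX6.Frame
import Pool.Agent.BCX6.Defs

/-!
# Row A: specialisations for which all polynomials of a family split
-/

set_option autoImplicit false

namespace BCX6

open Polynomial Pool.Agent.BCX Pool.Agent.BCX6

/-- a monic polynomial over `K[z]` with a separable specialisation is separable -/
theorem separable_of_eval {K : Type} [Field K] (F : K[X][X]) (hF : F.Monic) (c : K)
    (hsep : (F.map (evalRingHom c)).Separable) :
    (F.map (algebraMap K[X] (RatFunc K))).Separable := by
  have hinj : Function.Injective (algebraMap K[X] (RatFunc K)) :=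
    IsFractionRing.injective K[X] (RatFunc K)
  refine isCoprime_of_irreducible_dvd ?_ ?_
  · rintro ⟨h, -⟩
    exact (hF.map _).ne_zero h
  · intro g hg h1 h2
    obtain ⟨g', hg'⟩ := IsIntegrallyClosed.eq_map_mul_C_of_dvd (RatFunc K) hF h1
    have hlc : g.leadingCoeff ≠ 0 := leadingCoeff_ne_zero.2 hg.ne_zero
    have hlc1 : (g'.map (algebraMap K[X] (RatFunc K))).leadingCoeff = 1 := by
      have h3 := congrArg leadingCoeff hg'
      rw [leadingCoeff_mul, leadingCoeff_C] at h3
      exact mul_right_cancel₀ hlc (by rw [h3, one_mul])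
    have hm : g'.Monic := by
      rw [leadingCoeff_map_of_injective hinj] at hlc1
      exact hinj (by rw [hlc1, map_one])
    have hd : g'.map (algebraMap K[X] (RatFunc K)) ∣ g := ⟨_, hg'.symm⟩
    have h3 : g' ∣ F := (map_dvd_map _ hinj hm).1 (hd.trans h1)
    have h4 : g' ∣ derivative F := by
      refine (map_dvd_map _ hinj hm).1 (hd.trans ?_)
      rw [← derivative_map]
      exact h2
    have h5 : IsUnit (g'.map (evalRingHom c)) := by
      refine hsep.isUnit_of_dvd' (Polynomial.map_dvd _ h3) ?_
      rw [derivative_map]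
      exact Polynomial.map_dvd _ h4
    have h6 : (g'.map (evalRingHom c)).natDegree = 0 := natDegree_eq_zero_of_isUnit h5
    rw [hm.natDegree_map] at h6
    have h7 : g.natDegree = 0 := by
      rw [← hg', natDegree_mul_C hlc, natDegree_map_eq_of_injective hinj, h6]
    apply hg.not_isUnit
    rw [eq_C_of_natDegree_eq_zero h7, isUnit_C, isUnit_iff_ne_zero]
    intro h8
    apply hg.ne_zero
    rw [eq_C_of_natDegree_eq_zero h7, h8, C_0]

/-- ROW A -/
theorem exists_special (k E : Type) [Field k] [Field E] [Algebra (RatFunc k) E]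
    [IsAlgClosure (RatFunc k) E] {K : Type} [Field K] [Finite K] [Algebra K k] [IsAlgClosure K k]
    (F : K[X][X]) (hF : F.Monic) (hsep : (F.map (evalRingHom (1 : K))).Separable)
    (hreg : ∀ σ ∈ G0 k E K, ∃ τ ∈ G1 k E, ∀ x : E, (F.map (toE k E K)).eval x = 0 → τ x = σ x)
    (r : K[X]) (hr : r ≠ 0) :
    ∃ Q0 : ℕ, ∀ (L : Type) [Field L] [Finite L] [Algebra K L], Q0 ≤ Nat.card L →
      ∃ z0 : L, aeval z0 r ≠ 0 ∧ (F.map (aeval z0 : K[X] →ₐ[K] L).toRingHom).Splits := by
  obtain ⟨p, hp⟩ := CharP.exists K
  have hp' : Fact p.Prime := ⟨CharP.char_is_prime K p⟩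
  have hka : IsAlgClosed k := IsAlgClosure.isAlgClosed K
  have hkk : Algebra.IsAlgebraic K k := IsAlgClosure.isAlgebraic
  have hEa : IsAlgClosed E := IsAlgClosure.isAlgClosed (RatFunc k)
  have hEk : Algebra.IsAlgebraic (RatFunc k) E := IsAlgClosure.isAlgebraic
  have hinj0 : Function.Injective ((algebraMap k[X] (RatFunc k)).comp
      (mapRingHom (algebraMap K k))) :=
    (IsFractionRing.injective k[X] (RatFunc k)).comp
      (Polynomial.map_injective _ (algebraMap K k).injective)
  let j : RatFunc K →+* RatFunc k := IsFractionRing.lift (A := K[X]) hinj0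
  have hj : ∀ g : K[X], j (algebraMap K[X] (RatFunc K) g) =
      algebraMap k[X] (RatFunc k) (g.map (algebraMap K k)) := fun g =>
    IsFractionRing.lift_algebraMap hinj0 g
  let a1 : Algebra (RatFunc K) (RatFunc k) := j.toAlgebra
  let a2 : Algebra (RatFunc K) E := ((algebraMap (RatFunc k) E).comp j).toAlgebra
  have t1 : IsScalarTower (RatFunc K) (RatFunc k) E := IsScalarTower.of_algebraMap_eq' rfl
  let a3 : Algebra K[X] E := (toE k E K).toAlgebra
  let a4 : Algebra K E := ((cst k E).comp (algebraMap K k)).toAlgebra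
  have t2 : IsScalarTower K K[X] E := IsScalarTower.of_algebraMap_eq fun c => by
    change cst k E (algebraMap K k c) = toE k E K (C c)
    rw [toE, coe_eval₂RingHom, eval₂_C]
    rfl
  have t3 : IsScalarTower K[X] (RatFunc K) E := IsScalarTower.of_algebraMap_eq' (by
    apply Polynomial.ringHom_ext
    · intro c
      change toE k E K (C c) = algebraMap (RatFunc k) E (j (algebraMap K[X] (RatFunc K) (C c)))
      rw [hj, map_C, toE, coe_eval₂RingHom, eval₂_C]
      rfl
    · change toE k E K X = algebraMap (RatFunc k) E (j (algebraMap K[X] (RatFunc K) X))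
      rw [hj, map_X, toE, coe_eval₂RingHom, eval₂_X]
      rfl)
  have alg1 : Algebra.IsAlgebraic (RatFunc K) (RatFunc k) := by
    let a5 : Algebra K[X] k[X] := Polynomial.algebra K k
    have hkint : Algebra.IsIntegral K k := inferInstance
    have h1 : ∀ a : k[X], IsIntegral (RatFunc K) (algebraMap k[X] (RatFunc k) a) := by
      intro a
      have h2 : IsIntegral K[X] a := Algebra.IsIntegral.isIntegral a
      exact h2.map_of_comp_eq (algebraMap K[X] (RatFunc K)) (algebraMap k[X] (RatFunc k))
        (RingHom.ext fun g => hj g)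
    refine ⟨fun x => ?_⟩
    obtain ⟨a, b, -, rfl⟩ := IsFractionRing.div_surjective (A := k[X]) x
    rw [div_eq_mul_inv]
    exact (h1 a).isAlgebraic.mul (h1 b).isAlgebraic.inv
  have alg2 : Algebra.IsAlgebraic (RatFunc K) E :=
    Algebra.IsAlgebraic.trans (RatFunc K) (RatFunc k) E
  have clo : IsAlgClosure (RatFunc K) E := ⟨hEa, alg2⟩
  have nor : Normal (RatFunc K) E := inferInstance
  refine exists_split_abs (k := K) (kb := k) (K := RatFunc K) (Kb := RatFunc k) (E := E) p ?_ F hF
    (separable_of_eval F hF 1 hsep) ?_ r hr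
  · exact RingHom.ext fun g => (hj g).symm
  · intro σ
    have hσ : σ.toRingEquiv ∈ G0 k E K := by
      have h1 : ∀ g : K[X], σ (toE k E K g) = toE k E K g := by
        intro g
        have h2 : toE k E K g = algebraMap (RatFunc K) E (algebraMap K[X] (RatFunc K) g) :=
          IsScalarTower.algebraMap_apply K[X] (RatFunc K) E g
        rw [h2]
        exact AlgEquiv.commutes σ _
      refine ⟨?_, fun c => ?_⟩
      · have h3 := h1 X
        rw [toE, coe_eval₂RingHom, eval₂_X] at h3
        exact h3
      · have h3 := h1 (C c)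
        rw [toE, coe_eval₂RingHom, eval₂_C] at h3
        exact h3
    obtain ⟨τ, hτ, h⟩ := hreg _ hσ
    have hcom : (τ : E →+* E).comp (algebraMap (RatFunc k) E) = algebraMap (RatFunc k) E := by
      apply IsLocalization.ringHom_ext (nonZeroDivisors k[X])
      apply Polynomial.ringHom_ext
      · intro c
        have h4 : algebraMap k[X] (RatFunc k) (C c) = algebraMap k (RatFunc k) c := by
          rw [← Polynomial.algebraMap_eq, ← IsScalarTower.algebraMap_apply]
        simp only [RingHom.comp_apply, h4]
        exact hτ.2 c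
      · simp only [RingHom.comp_apply, RatFunc.algebraMap_X]
        exact hτ.1
    refine ⟨AlgEquiv.ofRingEquiv (f := τ) (fun x => RingHom.congr_fun hcom x), fun x hx => ?_⟩
    refine h x ?_
    rw [eval_map]
    exact hx

theorem fK_monic {K : Type} [Field K] {A B : K[X]} (hA : A.Monic) (hdeg : B.degree < A.degree) :
    (fK A B).Monic := by
  have h1 : (C (X : K[X]) * B.map C).degree < (A.map (C : K →+* K[X])).degree := by
    rw [degree_map_eq_of_injective C_injective]
    refine lt_of_le_of_lt ?_ hdeg
    refine (degree_mul_le _ _).trans ?_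
    rw [degree_map_eq_of_injective C_injective, degree_C X_ne_zero, zero_add]
  rw [fK, Monic, leadingCoeff_add_of_degree_lt' h1, leadingCoeff_map_of_injective C_injective,
    hA.leadingCoeff, map_one]

theorem fK_map {K : Type} [Field K] {S : Type} [CommRing S] (A B : K[X]) (φ : K[X] →+* S) :
    (fK A B).map φ = A.map (φ.comp C) + C (φ X) * B.map (φ.comp C) := by
  rw [fK, Polynomial.map_add, Polynomial.map_mul, Polynomial.map_map, Polynomial.map_map, map_C]

/-- ROW A4: the same for a family -/
theorem exists_special_family (k E : Type) [Field k] [IsAlgClosed k] [Field E]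
    [Algebra (RatFunc k) E] [IsAlgClosure (RatFunc k) E] {K : Type} [Field K] [Finite K]
    [Algebra K k] [IsAlgClosure K k] {ι : Type} [Finite ι] (A B : ι → K[X])
    (hA : ∀ i, (A i).Monic) (hdeg : ∀ i, (B i).degree < (A i).degree)
    (hsep : ∀ i, (A i + B i).Separable)
    (hco : ∀ i j, i ≠ j → IsCoprime (A i + B i) (A j + B j)) (R : ι → Finset E)
    (hR : ∀ i, IsRoots (R i) ((A i).map (algebraMap K k)) ((B i).map (algebraMap K k)))
    (hreg : ∀ σ ∈ G0 k E K, ∃ τ ∈ G1 k E, ∀ i, ∀ x ∈ R i, τ x = σ x)
    (r : K[X]) (hr : r ≠ 0) :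
    ∃ Q0 : ℕ, ∀ (L : Type) [Field L] [Finite L] [Algebra K L], Q0 ≤ Nat.card L →
      ∃ z0 : L, aeval z0 r ≠ 0 ∧ ∀ i,
        ((A i).map (algebraMap K L) + C z0 * (B i).map (algebraMap K L)).Splits := by
  have hι : Fintype ι := Fintype.ofFinite ι
  have hFm : (∏ i, fK (A i) (B i)).Monic := monic_prod_of_monic _ _ fun i _ => fK_monic (hA i) (hdeg i)
  obtain ⟨Q0, hQ⟩ := exists_special k E (∏ i, fK (A i) (B i)) hFm (by
      have h1 : (∏ i, fK (A i) (B i)).map (evalRingHom (1 : K)) = ∏ i, (A i + B i) := by
        rw [Polynomial.map_prod]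
        refine Finset.prod_congr rfl fun i _ => ?_
        have h2 : (evalRingHom (1 : K)).comp C = RingHom.id K := by
          ext c
          simp
        rw [fK_map, h2]
        simp
      rw [h1]
      exact separable_prod (fun i j hij => hco i j hij) hsep) (by
      intro σ hσ
      obtain ⟨τ, hτ, h⟩ := hreg σ hσ
      refine ⟨τ, hτ, fun x hx => ?_⟩
      rw [Polynomial.map_prod, eval_prod, Finset.prod_eq_zero_iff] at hx
      obtain ⟨i, -, hi⟩ := hx
      refine h i x (((hR i).mem x).2 ?_)
      rw [← hi, fE, fK_map, Polynomial.map_map, Polynomial.map_map]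
      have h3 : (toE k E K).comp C = (cst k E).comp (algebraMap K k) := by
        ext c
        simp [toE]
      have h4 : toE k E K X = zz k E := by
        simp [toE]
      rw [h3, h4]) r hr
  refine ⟨Q0, fun L _ _ _ hL => ?_⟩
  obtain ⟨z0, h1, h2⟩ := hQ L hL
  refine ⟨z0, h1, fun i => ?_⟩
  have h3 : (fK (A i) (B i)).map (aeval z0 : K[X] →ₐ[K] L).toRingHom =
      (A i).map (algebraMap K L) + C z0 * (B i).map (algebraMap K L) := by
    have h4 : (aeval z0 : K[X] →ₐ[K] L).toRingHom.comp C = algebraMap K L := by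
      ext c
      simp
    rw [fK_map, h4]
    simp
  rw [← h3]
  refine h2.of_dvd (hFm.map _).ne_zero ?_
  exact Polynomial.map_dvd _ (Finset.dvd_prod_of_mem _ (Finset.mem_univ i))

end BCX6
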