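import Pool.Agent.BCX6.Auto
import Pool.Agent.BCX6.Signs
import Pool.Agent.BCX6.Mono
import Pool.Agent.BCX6.Same
import Pool.Agent.BCX6.Special
import Pool.Agent.BCX.DefsP

/-!
# BCX6 rows F1 and G1: the family `X ^ n - X ^ (n - p) - z / c`
-/

namespace BCX6

open Polynomial Equiv Pool.Agent.BCX

/-! ### squares in a finite field of odd order -/

/-- ROW G1: the squares -/
theorem card_squares {p : ℕ} (hp3 : p % 2 = 1) {K : Type} [Field K] [Finite K] [CharP K p] :
    ∃ S : Finset K, 2 * S.card + 1 = Nat.card K ∧ ∀ c ∈ S, c ≠ 0 ∧ IsSquare c := by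
  classical
  have : Fintype K := Fintype.ofFinite K
  have hchar : ringChar K ≠ 2 := by
    rw [ringChar.eq K p]
    omega
  refine ⟨Finset.univ.filter fun c : K => c ≠ 0 ∧ IsSquare c, ?_, fun c hc => (Finset.mem_filter.1 hc).2⟩
  set S := Finset.univ.filter fun c : K => c ≠ 0 ∧ IsSquare c with hS
  set T := Finset.univ.filter fun c : K => c ≠ 0 ∧ ¬ IsSquare c with hT
  have h1 : ∑ c : K, quadraticChar K c = 0 := quadraticChar_sum_zero hchar
  have h2 : ∑ c : K, quadraticChar K c = (S.card : ℤ) - T.card := by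
    have h3 : ∀ c : K, quadraticChar K c = (if c ≠ 0 ∧ IsSquare c then (1 : ℤ) else 0) -
        (if c ≠ 0 ∧ ¬ IsSquare c then (1 : ℤ) else 0) := by
      intro c
      by_cases h0 : c = 0
      · simp [h0]
      · by_cases h4 : IsSquare c
        · rw [(quadraticChar_one_iff_isSquare h0).2 h4]
          simp [h0, h4]
        · rw [quadraticChar_neg_one_iff_not_isSquare.2 h4]
          simp [h0, h4]
    rw [Finset.sum_congr rfl fun c _ => h3 c, Finset.sum_sub_distrib, Finset.sum_boole,
      Finset.sum_boole]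
  have h4 : S.card + T.card + 1 = Nat.card K := by
    have h5 : S ∪ T = Finset.univ.erase (0 : K) := by
      ext c
      simp only [hS, hT, Finset.mem_union, Finset.mem_filter, Finset.mem_univ, true_and,
        Finset.mem_erase, and_true]
      tauto
    have h6 : Disjoint S T := by
      rw [Finset.disjoint_left]
      intro c hc hc'
      exact (Finset.mem_filter.1 hc').2.2 (Finset.mem_filter.1 hc).2.2
    rw [← Finset.card_union_of_disjoint h6, h5, Finset.card_erase_of_mem (Finset.mem_univ _),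
      Finset.card_univ, Nat.card_eq_fintype_card]
    have : 0 < Fintype.card K := Fintype.card_pos
    omega
  rw [h2] at h1
  omega

/-- ROW G1: the squares -/
theorem exists_squares {p : ℕ} [Fact p.Prime] (hp3 : 3 ≤ p) {K : Type} [Field K] [Finite K]
    {s : ℕ} (hK : Nat.card K = p ^ s) {v : ℕ} (hv : v < s) :
    ∃ S : Finset K, S.card = p ^ v ∧ ∀ c ∈ S, c ≠ 0 ∧ IsSquare c := by
  have hp : p.Prime := Fact.out
  have hchar : CharP K p := by
    have : Fintype K := Fintype.ofFinite K
    obtain ⟨q, hq⟩ := CharP.exists K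
    obtain ⟨m, hq1, hq2⟩ := FiniteField.card K q
    rw [← Nat.card_eq_fintype_card, hK] at hq2
    have h1 : p = q := by
      have h2 : p ∣ q ^ (m : ℕ) := by
        rw [← hq2]
        exact dvd_pow_self p (by omega)
      exact (Nat.prime_dvd_prime_iff_eq hp hq1).1 (hp.dvd_of_dvd_pow h2)
    rw [h1]
    exact hq
  have hodd : p % 2 = 1 := by
    rcases hp.eq_two_or_odd with h | h
    · omega
    · exact h
  obtain ⟨S, hS, hS2⟩ := card_squares hodd (K := K)
  rw [hK] at hS
  have h1 : p ^ v ≤ S.card := by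
    have h2 : p ^ v ≤ p ^ (s - 1) := Nat.pow_le_pow_right hp.pos (by omega)
    have h3 : p ^ s = p ^ (s - 1) * p := by
      rw [← pow_succ]
      congr 1
      omega
    have h4 : 1 ≤ p ^ (s - 1) := Nat.one_le_pow _ _ hp.pos
    have h5 : p ^ (s - 1) * 3 ≤ p ^ (s - 1) * p := Nat.mul_le_mul_left _ hp3
    omega
  obtain ⟨T, hT, hT2⟩ := Finset.exists_subset_card_eq h1
  exact ⟨T, hT2, fun c hc => hS2 c (hT hc)⟩

/-! ### the family -/

section poly

variable (p : ℕ) {F : Type*} [Field F] [CharP F p]

/-- the derivative of `X ^ (n - p) * (X - 1) ^ p + c` -/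
theorem famOne_deriv {n : ℕ} (hn : p + 1 ≤ n) (c : F) :
    derivative (X ^ (n - p) * (X - 1) ^ p + C c : F[X]) =
      C (n : F) * (X ^ (n - p - 1) * (X - 1) ^ p) := by
  have h1 : derivative ((X - 1 : F[X]) ^ p) = 0 := by
    rw [derivative_pow, CharP.cast_eq_zero F p]
    simp
  have h2 : ((n - p : ℕ) : F) = n := by
    rw [Nat.cast_sub (by omega), CharP.cast_eq_zero F p, sub_zero]
  rw [derivative_add, derivative_C, add_zero, derivative_mul, h1, mul_zero, add_zero,
    derivative_X_pow, h2]
  ring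

/-- the polynomials `X ^ (n - p) * (X - 1) ^ p + c` are separable -/
theorem famOne_separable {n : ℕ} (hp : p ≠ 0) (hn : p + 1 ≤ n) (hn0 : (n : F) ≠ 0) {c : F}
    (hc : c ≠ 0) : (X ^ (n - p) * (X - 1) ^ p + C c : F[X]).Separable := by
  rw [separable_def, famOne_deriv p hn c]
  have hcc : C c⁻¹ * C c = (1 : F[X]) := by rw [← C_mul, inv_mul_cancel₀ hc, C_1]
  have h0 : (X : F[X]) ^ (n - p) = X ^ (n - p - 1) * X := by
    rw [← pow_succ]
    congr 1
    omega
  have h1 : (X - 1 : F[X]) ^ p = (X - 1) ^ (p - 1) * (X - 1) := by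
    rw [← pow_succ]
    congr 1
    omega
  rw [isCoprime_mul_unit_left_right ((isUnit_C).2 (isUnit_iff_ne_zero.2 hn0))]
  refine IsCoprime.mul_right (IsCoprime.pow_right ?_) (IsCoprime.pow_right ?_)
  · refine ⟨C c⁻¹, -(C c⁻¹ * (X ^ (n - p - 1) * (X - 1) ^ p)), ?_⟩
    rw [h0]
    linear_combination hcc
  · refine ⟨C c⁻¹, -(C c⁻¹ * (X ^ (n - p) * (X - 1) ^ (p - 1))), ?_⟩
    rw [h1]
    linear_combination hcc

/-- two such polynomials are coprime -/
theorem famOne_coprime (g : F[X]) {c d : F} (hcd : c ≠ d) : IsCoprime (g + C c) (g + C d) := by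
  have h1 : c - d ≠ 0 := sub_ne_zero.2 hcd
  refine ⟨C (c - d)⁻¹, -C (c - d)⁻¹, ?_⟩
  have h2 : C (c - d)⁻¹ * (C c - C d) = (1 : F[X]) := by
    rw [← C_sub, ← C_mul, inv_mul_cancel₀ h1, C_1]
  linear_combination h2

end poly

/-- the polynomials `A + z B` -/
theorem famOne_fE {k E : Type} [Field k] [Field E] [Algebra (RatFunc k) E] {K : Type} [Field K]
    [Algebra K k] (p n : ℕ) (b : K) :
    fE E ((X ^ (n - p) * (X - 1) ^ p : K[X]).map (algebraMap K k)) ((C b : K[X]).map (algebraMap K k)) =
      X ^ (n - p) * (X - 1) ^ p + C (zz k E * cst k E (algebraMap K k b)) := by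
  simp [fE, Polynomial.map_mul, Polynomial.map_pow]

/-- ROW F1 -/
theorem splitQ_F1 {p : ℕ} [Fact p.Prime] (hp3 : 3 ≤ p) {K : Type} [Field K] [Finite K] [CharP K p]
    {n : ℕ} (hn : p + 3 ≤ n) (hpn : ¬ p ∣ n) (S : Finset K) (hS0 : ∀ c ∈ S, c ≠ 0)
    (hS : (Even n ∧ ∀ c ∈ S, IsSquare c) ∨
      (Odd n ∧ IsSquare ((-1) ^ ((n - 1) / 2) * (n : K)))) :
    ∃ Q0 : ℕ, ∀ (L : Type) [Field L] [Finite L] [Algebra K L], Q0 ≤ Nat.card L → SplitQ S L n := by
  classical
  -- the fields
  let k := AlgebraicClosure K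
  have hacl : IsAlgClosure K k := inferInstance
  have hkp : CharP k p := charP_of_injective_algebraMap (algebraMap K k).injective p
  let E := AlgebraicClosure (RatFunc k)
  have hacE : IsAlgClosure (RatFunc k) E := inferInstance
  have hrp : CharP E p := charP_of_injective_ringHom (cst k E).injective p
  have hnE : (n : E) ≠ 0 := by
    rw [Ne, CharP.cast_eq_zero_iff E p]
    exact hpn
  have hnK : (n : K) ≠ 0 := by
    rw [Ne, CharP.cast_eq_zero_iff K p]
    exact hpn
  have hnk : (n : k) ≠ 0 := by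
    rw [Ne, CharP.cast_eq_zero_iff k p]
    exact hpn
  have h2k : (2 : k) ≠ 0 := by
    have h3 : ((2 : ℕ) : k) ≠ 0 := by
      rw [Ne, CharP.cast_eq_zero_iff k p]
      intro h
      exact absurd (Nat.le_of_dvd (by norm_num) h) (by omega)
    exact_mod_cast h3
  have hpa : ¬ p ∣ n - p := by
    intro h
    exact hpn ((Nat.dvd_sub_self_right.1 h).resolve_right (by omega))
  -- the family
  let ι := {c : K // c ∈ S}
  let A : ι → K[X] := fun _ => X ^ (n - p) * (X - 1) ^ p
  let B : ι → K[X] := fun c => C (-(c : K)⁻¹)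
  have hmonX : (X - 1 : K[X]).Monic := by
    have := monic_X_sub_C (1 : K)
    rwa [C_1] at this
  have hA : ∀ i, (A i).Monic := fun i => (monic_X_pow _).mul (hmonX.pow p)
  have hAd : ∀ i, (A i).natDegree = n := by
    intro i
    have h3 : (X - 1 : K[X]).natDegree = 1 := by
      have := natDegree_X_sub_C (1 : K)
      rwa [C_1] at this
    change (X ^ (n - p) * (X - 1) ^ p : K[X]).natDegree = n
    rw [(monic_X_pow (n - p)).natDegree_mul (hmonX.pow p), natDegree_X_pow, hmonX.natDegree_pow, h3]
    omega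
  have hdeg : ∀ i, (B i).degree < (A i).degree := by
    intro i
    rw [degree_eq_natDegree (hA i).ne_zero, hAd i]
    refine lt_of_le_of_lt degree_C_le ?_
    exact_mod_cast (by omega : 0 < n)
  have hzz : zz k E ≠ 0 := (_root_.map_ne_zero (algebraMap (RatFunc k) E)).2 RatFunc.X_ne_zero
  have hfE : ∀ i : ι, fE E ((A i).map (algebraMap K k)) ((B i).map (algebraMap K k)) =
      X ^ (n - p) * (X - 1) ^ p + C (zz k E * cst k E (algebraMap K k (-(i : K)⁻¹))) :=
    fun i => famOne_fE p n _
  have hcne : ∀ i : ι, -(i : K)⁻¹ ≠ 0 := fun i => neg_ne_zero.2 (inv_ne_zero (hS0 i i.2))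
  have hγ : ∀ i : ι, zz k E * cst k E (algebraMap K k (-(i : K)⁻¹)) ≠ 0 := fun i =>
    mul_ne_zero hzz ((_root_.map_ne_zero (cst k E)).2 ((_root_.map_ne_zero (algebraMap K k)).2 (hcne i)))
  -- the roots
  have hdeg' : ∀ i, ((B i).map (algebraMap K k)).degree < ((A i).map (algebraMap K k)).degree := by
    intro i
    rw [degree_map, degree_map]
    exact hdeg i
  have hA' : ∀ i, ((A i).map (algebraMap K k)).Monic := fun i => (hA i).map _
  have hRex : ∀ i, ∃ R : Finset E, IsRoots R ((A i).map (algebraMap K k)) ((B i).map (algebraMap K k)) := by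
    intro i
    refine exists_isRoots (hA' i) (hdeg' i) ?_
    rw [hfE i]
    exact famOne_separable p (by omega) (by omega) hnE (hγ i)
  choose R hR using hRex
  have hRcard : ∀ i, (R i).card = n := by
    intro i
    rw [(hR i).card, natDegree_map, hAd i]
  -- the monodromy groups
  have hFam : ∀ i, Fam p (n - p) {(1 : k)} ((A i).map (algebraMap K k)) ((B i).map (algebraMap K k)) := by
    intro i
    refine ⟨?_, ?_, hdeg' i, ?_, ?_⟩
    · simp [A, Polynomial.map_mul, Polynomial.map_pow]
    · simp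
    · intro _
      simp only [B, Polynomial.map_C, eval_C]
      exact (_root_.map_ne_zero (algebraMap K k)).2 (hcne i)
    · intro w _
      simp only [B, Polynomial.map_C, eval_C]
      exact (_root_.map_ne_zero (algebraMap K k)).2 (hcne i)
  have halt : ∀ i, alternatingGroup {x // x ∈ R i} ≤ img (G1 k E) (R i) := fun i =>
    mono_one hp3 (by omega) hpa (hFam i) (hR i)
  -- the discriminants
  have hdisc : ∀ i, ∏ x ∈ R i, (derivative
      (fE E ((A i).map (algebraMap K k)) ((B i).map (algebraMap K k)))).eval x =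
        (n : E) ^ n * ((-1) ^ n * (zz k E * cst k E (algebraMap K k (-(i : K)⁻¹)))) ^ (n - 1) := by
    intro i
    have h3 : ∀ x : E, (derivative
        (fE E ((A i).map (algebraMap K k)) ((B i).map (algebraMap K k)))).eval x =
        (n : E) * ((x - cst k E 0) ^ (n - p - 1) * (x - cst k E 1) ^ p) := by
      intro x
      rw [hfE i, famOne_deriv p (by omega)]
      simp
    have h4 := (hR i).prod_sub (hA' i) (hdeg' i) 0
    have h5 := (hR i).prod_sub (hA' i) (hdeg' i) 1
    have h6 : ((A i).map (algebraMap K k)).eval 0 = 0 := by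
      simp only [A, Polynomial.map_mul, Polynomial.map_pow, Polynomial.map_X, eval_mul, eval_pow, eval_X]
      rw [zero_pow (by omega), zero_mul]
    have h7 : ((A i).map (algebraMap K k)).eval 1 = 0 := by
      simp only [A, Polynomial.map_mul, Polynomial.map_pow, Polynomial.map_X, Polynomial.map_sub,
        Polynomial.map_one, eval_mul, eval_pow, eval_X, eval_sub, eval_one, sub_self]
      rw [zero_pow (by omega), mul_zero]
    have h8 : ∀ x, ((B i).map (algebraMap K k)).eval x = algebraMap K k (-(i : K)⁻¹) := by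
      intro x
      simp only [B, Polynomial.map_C, eval_C]
    rw [h6, h8, map_zero, zero_add, hRcard i] at h4
    rw [h7, h8, map_zero, zero_add, hRcard i] at h5
    rw [Finset.prod_congr rfl fun x _ => h3 x, Finset.prod_mul_distrib, Finset.prod_const, hRcard i,
      Finset.prod_mul_distrib, Finset.prod_pow, Finset.prod_pow, map_zero, h4, h5, ← pow_add]
    congr 2
    omega
  -- the signs
  have hgfix : ∀ σ ∈ G0 k E K, ∀ c : K, σ (cst k E (algebraMap K k c)) = cst k E (algebraMap K k c) :=
    fun σ hσ c => hσ.2 c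
  have hsign : ∀ π ∈ imgs (G0 k E K) R, ∃ ρ ∈ imgs (G1 k E) R, ∀ i,
      Perm.sign (ρ i) = Perm.sign (π i) := by
    rcases hS with ⟨⟨h, hh⟩, hsq⟩ | ⟨⟨h, hh⟩, hsq⟩
    · -- `n` even
      refine exists_signs h2k A B hA hdeg R hR
        (cst k E (-((-1) ^ (n * (n - 1) / 2) * (n : k) ^ n)) * zz k E ^ (2 * (h - 1) + 1))
        ⟨_, h - 1, ?_, rfl⟩ ?_
      · exact neg_ne_zero.2 (mul_ne_zero (pow_ne_zero _ (by norm_num)) (pow_ne_zero _ hnk))
      · intro i
        obtain ⟨y, hy⟩ := hsq i i.2
        have hy0 : y ≠ 0 := by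
          rintro rfl
          exact hS0 i i.2 (by rw [hy, zero_mul])
        refine ⟨cst k E (algebraMap K k y⁻¹) ^ (n - 1), pow_ne_zero _ ((_root_.map_ne_zero (cst k E)).2
          ((_root_.map_ne_zero (algebraMap K k)).2 (inv_ne_zero hy0))), ?_, Or.inr ?_⟩
        · intro σ hσ
          rw [map_pow, hgfix σ hσ]
        · rw [hdisc i, hRcard i]
          have e1 : 2 * (h - 1) + 1 = n - 1 := by omega
          have e2 : Even n := ⟨h, hh⟩
          have e3 : Odd (n - 1) := ⟨h - 1, by omega⟩
          have e4 : cst k E (algebraMap K k (-(i : K)⁻¹)) = -(cst k E (algebraMap K k y⁻¹) ^ 2) := by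
            rw [hy, mul_inv, ← sq, map_neg, map_neg, map_pow, map_pow]
          rw [e1, e2.neg_one_pow, one_mul, e4, mul_neg, e3.neg_pow, mul_pow, ← pow_mul, ← pow_mul,
            mul_comm 2 (n - 1)]
          have e5 : cst k E (n : k) = (n : E) := map_natCast (cst k E) n
          simp only [map_neg, map_mul, map_pow, map_one]
          rw [e5]
          ring
    · -- `n` odd
      obtain ⟨t, ht⟩ := hsq
      have ht0 : t ≠ 0 := by
        rintro rfl
        rw [zero_mul] at ht
        exact mul_ne_zero (pow_ne_zero _ (by norm_num)) hnK ht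
      refine exists_signs h2k A B hA hdeg R hR (cst k E 1 * zz k E ^ (2 * 0 + 1))
        ⟨1, 0, one_ne_zero, rfl⟩ ?_
      intro i
      set P : E := (-1) ^ n * (zz k E * cst k E (algebraMap K k (-(i : K)⁻¹))) with hP
      have hP0 : P ≠ 0 := mul_ne_zero (pow_ne_zero _ (by norm_num)) (hγ i)
      refine ⟨cst k E (algebraMap K k t) * (n : E) ^ h * P ^ h, ?_, ?_, Or.inl ?_⟩
      · exact mul_ne_zero (mul_ne_zero ((_root_.map_ne_zero (cst k E)).2
          ((_root_.map_ne_zero (algebraMap K k)).2 ht0)) (pow_ne_zero _ hnE)) (pow_ne_zero _ hP0)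
      · intro σ hσ
        rw [map_mul, map_mul, map_pow, map_pow, hgfix σ hσ, map_natCast, hP, map_mul, map_mul,
          map_pow, map_neg, map_one, hσ.1, hgfix σ hσ]
      · rw [hdisc i, hRcard i, ← hP]
        have e1 : n - 1 = 2 * h := by omega
        have e2 : (-1 : E) ^ (n * (n - 1) / 2) = (-1) ^ h := by
          have e3 : n * (n - 1) / 2 = 2 * (h * h) + h := by
            rw [e1, hh]
            have : (2 * h + 1) * (2 * h) = 2 * (2 * (h * h) + h) := by ring
            rw [this, Nat.mul_div_cancel_left _ (by norm_num)]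
          rw [e3, pow_add, pow_mul]
          norm_num
        have e4 : (-1 : E) ^ h * n = cst k E (algebraMap K k t) ^ 2 := by
          have e5 := congrArg (fun x => cst k E (algebraMap K k x)) ht
          simp only [map_mul, map_pow, map_neg, map_one, map_natCast, e1,
            Nat.mul_div_cancel_left h (by norm_num : 0 < 2)] at e5
          rw [e5, sq]
        have e6 : (n : E) ^ n = n * ((n : E) ^ h) ^ 2 := by
          conv_lhs => rw [show n = 2 * h + 1 from hh]
          push_cast
          rw [hh]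
          push_cast
          ring
        rw [e2, e6, e1]
        linear_combination ((n : E) ^ h * P ^ h) ^ 2 * e4
  -- the common automorphisms
  have hst : ∀ σ ∈ G0 k E K, ∀ i, ∀ x ∈ R i, σ x ∈ R i := fun σ hσ i x hx => (hR i).map_mem' hσ hx
  have hsame := exists_same R (fun i => by rw [hRcard i]; omega) hst halt hsign
  -- specialisation
  have hco : ∀ i j, i ≠ j → IsCoprime (A i + B i) (A j + B j) := by
    intro i j hij
    refine famOne_coprime _ ?_
    intro h3
    exact hij (Subtype.ext (inv_injective (neg_injective h3)))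
  obtain ⟨Q0, hQ0⟩ := exists_special_family k E A B hA hdeg
    (fun i => famOne_separable p (by omega) (by omega) hnK (hcne i)) hco R hR hsame X X_ne_zero
  refine ⟨Q0, fun L _ _ _ hL => ?_⟩
  obtain ⟨z0, hz0, hsp⟩ := hQ0 L hL
  rw [aeval_X] at hz0
  have hLp : CharP L p := charP_of_injective_algebraMap (algebraMap K L).injective p
  have hnL : (n : L) ≠ 0 := by
    rw [Ne, CharP.cast_eq_zero_iff L p]
    exact hpn
  have hmonL : (X - 1 : L[X]).Monic := by
    have := monic_X_sub_C (1 : L)
    rwa [C_1] at this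
  refine ⟨X ^ (n - p) * (X - 1) ^ p, z0, ?_, ?_, hz0, ?_⟩
  · have h3 : (X - 1 : L[X]).natDegree = 1 := by
      have := natDegree_X_sub_C (1 : L)
      rwa [C_1] at this
    rw [(monic_X_pow (n - p)).natDegree_mul (hmonL.pow p), natDegree_X_pow, hmonL.natDegree_pow, h3]
    omega
  · have h3 := famOne_deriv p (F := L) (n := n) (by omega) 0
    rw [C_0, add_zero] at h3
    have h0 : (X : L[X]) ^ (n - p) = X ^ (n - p - 1) * X := by
      rw [← pow_succ]
      congr 1
      omega
    rw [h3, ← C_eq_natCast, h0]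
    ring
  · intro c hc
    have h3 := hsp ⟨c, hc⟩
    set f : L[X] := X ^ (n - p) * (X - 1) ^ p + C (z0 * algebraMap K L (-c⁻¹)) with hf
    have h4 : ((A ⟨c, hc⟩).map (algebraMap K L) + C z0 * (B ⟨c, hc⟩).map (algebraMap K L)) = f := by
      rw [hf]
      simp [A, B, Polynomial.map_mul, Polynomial.map_pow]
    rw [h4] at h3
    have h5 : z0 * algebraMap K L (-c⁻¹) ≠ 0 := mul_ne_zero hz0
      ((_root_.map_ne_zero (algebraMap K L)).2 (hcne ⟨c, hc⟩))
    have h6 : f.Separable := famOne_separable p (by omega) (by omega) hnL h5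
    have h7 : f.natDegree = n := by
      have h8 : (X ^ (n - p) * (X - 1) ^ p : L[X]).natDegree = n := by
        have h3 : (X - 1 : L[X]).natDegree = 1 := by
          have := natDegree_X_sub_C (1 : L)
          rwa [C_1] at this
        rw [(monic_X_pow (n - p)).natDegree_mul (hmonL.pow p), natDegree_X_pow, hmonL.natDegree_pow, h3]
        omega
      rw [hf, natDegree_add_C, h8]
    refine ⟨f.roots.toFinset, ?_, ?_⟩
    · rw [Multiset.toFinset_card_of_nodup (nodup_roots h6), ← h3.natDegree_eq_card_roots, h7]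
    · intro x hx
      rw [Multiset.mem_toFinset, mem_roots h6.ne_zero, IsRoot.def, hf, eval_add, eval_C] at hx
      have h8 : algebraMap K L c ≠ 0 := (_root_.map_ne_zero (algebraMap K L)).2 (hS0 c hc)
      rw [map_neg, map_inv₀] at hx
      have h9 : (X ^ (n - p) * (X - 1) ^ p : L[X]).eval x = z0 * (algebraMap K L c)⁻¹ := by
        linear_combination hx
      rw [h9]
      field_simp

end BCX6
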