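import Pool.Agent.BCX6.Auto
import Pool.Agent.BCX6.Mono
import Pool.Agent.BCX6.Same
import Pool.Agent.BCX6.Signs
import Pool.Agent.BCX6.Special

/-!
# The family F3
-/

set_option linter.unusedSectionVars false

namespace BCX6

open Polynomial Equiv MulAction

namespace FamThree

section general

variable {k E : Type} [Field k] [Field E] [Algebra (RatFunc k) E] {K : Type} [Field K] [Algebra K k]

/-- the constants of `K` -/
noncomputable def jj (k E K : Type) [Field k] [Field E] [Algebra (RatFunc k) E] [Field K]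
    [Algebra K k] : K →+* E := (cst k E).comp (algebraMap K k)

theorem jj_apply (c : K) : jj k E K c = cst k E (algebraMap K k c) := rfl

theorem zz_ne_zero : zz k E ≠ 0 := by
  rw [zz, Ne, map_eq_zero]
  exact RatFunc.X_ne_zero

theorem cst_ne_zero {c : k} (hc : c ≠ 0) : cst k E c ≠ 0 := by
  rwa [Ne, map_eq_zero]

theorem jj_ne_zero {c : K} (hc : c ≠ 0) : jj k E K c ≠ 0 := by
  rwa [Ne, map_eq_zero]

theorem fE_map (A B : K[X]) : fE E (A.map (algebraMap K k)) (B.map (algebraMap K k)) =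
    A.map (jj k E K) + C (zz k E) * B.map (jj k E K) := by
  simp [fE, jj, Polynomial.map_map]

theorem eval_fE (A B : K[X]) (x : E) :
    (fE E (A.map (algebraMap K k)) (B.map (algebraMap K k))).eval x =
      A.eval₂ (jj k E K) x + zz k E * B.eval₂ (jj k E K) x := by
  rw [fE_map, eval_add, eval_mul, eval_C, eval_map, eval_map]

theorem eval_dfE (A B : K[X]) (x : E) :
    (derivative (fE E (A.map (algebraMap K k)) (B.map (algebraMap K k)))).eval x =
      (derivative A).eval₂ (jj k E K) x + zz k E * (derivative B).eval₂ (jj k E K) x := by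
  rw [fE_map, derivative_add, derivative_mul, derivative_C, zero_mul, zero_add, derivative_map,
    derivative_map, eval_add, eval_mul, eval_C, eval_map, eval_map]

theorem map_deg {A B : K[X]} (h : B.degree < A.degree) :
    (B.map (algebraMap K k)).degree < (A.map (algebraMap K k)).degree := by
  rwa [degree_map, degree_map]

end general

section galois

variable {k E : Type} [Field k] [IsAlgClosed k] [Field E] [Algebra (RatFunc k) E]
  [IsAlgClosure (RatFunc k) E] {K : Type} [Field K] [Algebra K k]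

theorem prod_sub {A B : K[X]} (hA : A.Monic) (hdeg : B.degree < A.degree) {R : Finset E}
    (hR : IsRoots R (A.map (algebraMap K k)) (B.map (algebraMap K k))) (c : K) :
    ∏ x ∈ R, (x - jj k E K c) =
      (-1) ^ A.natDegree * (jj k E K (A.eval c) + zz k E * jj k E K (B.eval c)) := by
  have h := hR.prod_sub (hA.map _) (map_deg hdeg) (algebraMap K k c)
  rw [hR.card, natDegree_map, eval_map, eval_map, eval₂_hom, eval₂_hom] at h
  exact h

theorem prod_id {A B : K[X]} (hA : A.Monic) (hdeg : B.degree < A.degree) {R : Finset E}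
    (hR : IsRoots R (A.map (algebraMap K k)) (B.map (algebraMap K k))) :
    ∏ x ∈ R, x =
      (-1) ^ A.natDegree * (jj k E K (A.eval 0) + zz k E * jj k E K (B.eval 0)) := by
  have := prod_sub hA hdeg hR 0
  simpa using this

end galois

section poly

variable {K : Type} [Field K]

theorem der_pow (p : ℕ) [CharP K p] (F : K[X]) : derivative (F ^ p) = 0 := by
  rw [derivative_pow, CharP.cast_eq_zero, map_zero, zero_mul, zero_mul]

theorem der_pow' {p : ℕ} (h : CharP K p) (F : K[X]) : derivative (F ^ p) = 0 := der_pow p F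

/-- separability from the absence of common zeros -/
theorem sep_of {F : K[X]} {D : K[X]} (hD : derivative F = D) (h : IsCoprime F D) : F.Separable := by
  rw [separable_def, hD]
  exact h

theorem coprime_X_sub {F : K[X]} {c : K} (h : F.eval c ≠ 0) : IsCoprime F (X - C c) := by
  refine IsCoprime.symm ((Irreducible.coprime_iff_not_dvd (irreducible_X_sub_C c)).2 ?_)
  rwa [dvd_iff_isRoot, IsRoot.def]

theorem coprime_X {F : K[X]} (h : F.eval 0 ≠ 0) : IsCoprime F X := by
  simpa using coprime_X_sub h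

end poly

section fam

variable {K : Type} [Field K] {p a : ℕ} {W : Finset K} {A B : K[X]}

theorem monic_prod (W : Finset K) : (∏ w ∈ W, (X - C w) : K[X]).Monic :=
  monic_prod_of_monic _ _ fun w _ => monic_X_sub_C w

theorem natDegree_prod' (W : Finset K) : (∏ w ∈ W, (X - C w) : K[X]).natDegree = W.card := by
  rw [natDegree_prod_of_monic _ _ fun w _ => monic_X_sub_C w]
  simp

theorem fam_monic (hf : Fam p a W A B) : A.Monic := by
  rw [hf.eqA]
  exact (monic_X_pow a).mul ((monic_prod W).pow p)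

theorem fam_natDegree (hf : Fam p a W A B) : A.natDegree = a + p * W.card := by
  rw [hf.eqA, (monic_X_pow a).natDegree_mul ((monic_prod W).pow p), natDegree_X_pow,
    (monic_prod W).natDegree_pow, natDegree_prod']

theorem fam_eval_zero (hf : Fam p a W A B) (ha : a ≠ 0) : A.eval 0 = 0 := by
  rw [hf.eqA, eval_mul, eval_pow, eval_X, zero_pow ha, zero_mul]

theorem fam_eval_mem (hf : Fam p a W A B) (hp : p ≠ 0) {w : K} (hw : w ∈ W) : A.eval w = 0 := by
  rw [hf.eqA, eval_mul, eval_pow, eval_pow, eval_prod, Finset.prod_eq_zero hw (by simp),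
    zero_pow hp, mul_zero]

theorem fam_derivative [CharP K p] (hf : Fam p a W A B) :
    derivative A = C (a : K) * X ^ (a - 1) * (∏ w ∈ W, (X - C w)) ^ p := by
  rw [hf.eqA, derivative_mul, der_pow p, mul_zero, add_zero, derivative_X_pow, map_natCast]

theorem fam_map {k : Type} [Field k] [DecidableEq k] [Algebra K k] (hf : Fam p a W A B) :
    Fam p a (W.image (algebraMap K k)) (A.map (algebraMap K k)) (B.map (algebraMap K k)) := by
  refine ⟨?_, ?_, ?_, ?_, ?_⟩
  · rw [hf.eqA, Finset.prod_image fun x _ y _ h => (algebraMap K k).injective h]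
    simp [Polynomial.map_prod]
  · intro h
    obtain ⟨w, hw, h0⟩ := Finset.mem_image.1 h
    rw [map_eq_zero] at h0
    exact hf.zero_notMem (h0 ▸ hw)
  · rw [degree_map, degree_map]
    exact hf.deg
  · intro ha h
    have h1 : (B.map (algebraMap K k)).eval 0 = algebraMap K k (B.eval 0) := by
      rw [eval_map, ← eval₂_hom, map_zero]
    rw [h1, map_eq_zero] at h
    exact hf.zero ha h
  · intro w hw h
    obtain ⟨v, hv, rfl⟩ := Finset.mem_image.1 hw
    rw [eval_map, eval₂_hom, map_eq_zero] at h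
    exact hf.ne v hv h

/-- separability at `z = 1` -/
theorem fam_sep [CharP K p] (hp : p ≠ 0) (hf : Fam p a W A B) (ha : a ≠ 0) (haK : (a : K) ≠ 0)
    (hB : derivative B = 0) : (A + B).Separable := by
  refine sep_of (D := C (a : K) * X ^ (a - 1) * (∏ w ∈ W, (X - C w)) ^ p) ?_ ?_
  · rw [derivative_add, fam_derivative hf, hB, add_zero]
  · refine IsCoprime.mul_right (IsCoprime.mul_right ?_ ?_) ?_
    · exact isCoprime_one_right.of_isCoprime_of_dvd_right
        ((isUnit_C.2 (isUnit_iff_ne_zero.2 haK)).dvd)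
    · refine (coprime_X ?_).pow_right
      rw [eval_add, fam_eval_zero hf ha, zero_add]
      exact hf.zero ha
    · refine IsCoprime.pow_right (IsCoprime.prod_right fun w hw => coprime_X_sub ?_)
      rw [eval_add, fam_eval_mem hf hp hw, zero_add]
      exact hf.ne w hw

end fam

section famE

variable {k E : Type} [Field k] [IsAlgClosed k] [Field E] [Algebra (RatFunc k) E]
  [IsAlgClosure (RatFunc k) E] {K : Type} [Field K] [Algebra K k] {p : ℕ}
  [CharP K p] {a : ℕ} {W : Finset K} {A B : K[X]}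

omit [IsAlgClosed k] [IsAlgClosure (RatFunc k) E] in
theorem eval_der_A (hf : Fam p a W A B) (hB : derivative B = 0) (x : E) :
    (derivative (fE E (A.map (algebraMap K k)) (B.map (algebraMap K k)))).eval x =
      jj k E K a * x ^ (a - 1) * (∏ w ∈ W, (x - jj k E K w)) ^ p := by
  rw [eval_dfE, hB, eval₂_zero, mul_zero, add_zero, fam_derivative hf, ← eval_map]
  simp [Polynomial.map_prod, eval_prod]

/-- separability over `E` -/
theorem fam_sepE (hp : p ≠ 0) (hf : Fam p a W A B) (ha : a ≠ 0) (haK : (a : K) ≠ 0)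
    (hB : derivative B = 0) :
    (fE E (A.map (algebraMap K k)) (B.map (algebraMap K k))).Separable := by
  refine fE_separable ((fam_monic hf).map _) (map_deg hf.deg) fun x hx hx' => ?_
  rw [eval_der_A hf hB] at hx'
  rw [eval_fE] at hx
  have key : ∀ c : K, A.eval c = 0 → B.eval c ≠ 0 → x ≠ jj k E K c := by
    rintro c h1 h2 rfl
    rw [eval₂_hom, eval₂_hom, h1, map_zero, zero_add] at hx
    exact mul_ne_zero zz_ne_zero (jj_ne_zero h2) hx
  rcases mul_eq_zero.1 hx' with h1 | h1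
  · rcases mul_eq_zero.1 h1 with h2 | h2
    · exact jj_ne_zero haK h2
    · have h3 : x = 0 := (pow_eq_zero_iff'.1 h2).1
      exact key 0 (fam_eval_zero hf ha) (hf.zero ha) (by rw [h3, map_zero])
  · have h2 := (pow_eq_zero_iff'.1 h1).1
    obtain ⟨w, hw, h3⟩ := Finset.prod_eq_zero_iff.1 h2
    exact key w (fam_eval_mem hf hp hw) (hf.ne w hw) (sub_eq_zero.1 h3)

/-- the product of the values of the derivative -/
theorem fam_prod (hp : p ≠ 0) (hf : Fam p a W A B) (ha : a ≠ 0) (hB : derivative B = 0)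
    {R : Finset E} (hR : IsRoots R (A.map (algebraMap K k)) (B.map (algebraMap K k))) :
    ∏ x ∈ R, (derivative (fE E (A.map (algebraMap K k)) (B.map (algebraMap K k)))).eval x =
      jj k E K ((a : K) ^ A.natDegree * ((-1) ^ A.natDegree * B.eval 0) ^ (a - 1) *
        (∏ w ∈ W, ((-1) ^ A.natDegree * B.eval w)) ^ p) * zz k E ^ (a - 1 + p * W.card) := by
  rw [Finset.prod_congr rfl fun x _ => eval_der_A hf hB x, Finset.prod_mul_distrib,
    Finset.prod_mul_distrib, Finset.prod_const, Finset.prod_pow, Finset.prod_pow,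
    Finset.prod_comm, prod_id (fam_monic hf) hf.deg hR, fam_eval_zero hf ha,
    Finset.prod_congr rfl fun w hw => by
      rw [prod_sub (fam_monic hf) hf.deg hR w, fam_eval_mem hf hp hw], hR.card, natDegree_map]
  have h1 : ∏ w ∈ W, ((-1) ^ A.natDegree * (jj k E K 0 + zz k E * jj k E K (B.eval w))) =
      (∏ w ∈ W, jj k E K ((-1) ^ A.natDegree * B.eval w)) * zz k E ^ W.card := by
    rw [← Finset.prod_const, ← Finset.prod_mul_distrib]
    refine Finset.prod_congr rfl fun w _ => ?_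
    simp
    ring
  rw [h1, ← map_prod]
  simp only [map_mul, map_pow, map_zero, map_neg, map_one, zero_add]
  ring

end famE

section colours

variable {k E : Type} [Field k] [Field E] [Algebra (RatFunc k) E]
  {K : Type} [Field K] [Algebra K k]

theorem fix_jj {σ : E ≃+* E} (hσ : σ ∈ G0 k E K) (c : K) (m : ℕ) :
    σ (jj k E K c * zz k E ^ m) = jj k E K c * zz k E ^ m := by
  rw [map_mul, map_pow, hσ.1, jj_apply, hσ.2]

/-- What is needed of a colour. -/
structure Col (k E : Type) [Field k] [Field E] [Algebra (RatFunc k) E] {K : Type} [Field K]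
    [Algebra K k] [DecidableEq E] (G : K[X]) (d : E) (A B : K[X]) (y : K) : Prop where
  monic : A.Monic
  deg : B.degree < A.degree
  card : 5 ≤ A.natDegree
  sep : (A + B).Separable
  dvd : A + B ∣ G - C y
  sepE : (fE E (A.map (algebraMap K k)) (B.map (algebraMap K k))).Separable
  mono : ∀ R : Finset E, IsRoots R (A.map (algebraMap K k)) (B.map (algebraMap K k)) →
    alternatingGroup {x // x ∈ R} ≤ img (G1 k E) R
  disc : ∀ R : Finset E, IsRoots R (A.map (algebraMap K k)) (B.map (algebraMap K k)) →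
    ∃ g : E, g ≠ 0 ∧ (∀ σ ∈ G0 k E K, σ g = g) ∧
      ((-1) ^ (R.card * (R.card - 1) / 2) * ∏ x ∈ R, (derivative
        (fE E (A.map (algebraMap K k)) (B.map (algebraMap K k)))).eval x = g ^ 2 ∨
       (-1) ^ (R.card * (R.card - 1) / 2) * ∏ x ∈ R, (derivative
        (fE E (A.map (algebraMap K k)) (B.map (algebraMap K k)))).eval x = d * g ^ 2)

/-- a colour with a square discriminant -/
theorem disc_even {t : E} {c s : K} {m : ℕ} (d : E) (hs : s ≠ 0) (ht : t = jj k E K c * zz k E ^ (2 * m))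
    (hc : c = s ^ 2) : ∃ g : E, g ≠ 0 ∧ (∀ σ ∈ G0 k E K, σ g = g) ∧ (t = g ^ 2 ∨ t = d * g ^ 2) := by
  refine ⟨jj k E K s * zz k E ^ m, mul_ne_zero (jj_ne_zero hs) (pow_ne_zero _ zz_ne_zero),
    fun σ hσ => fix_jj hσ s m, Or.inl ?_⟩
  rw [ht, hc, map_pow]
  ring

/-- a colour with the discriminant `d` -/
theorem disc_odd {t : E} {c c0 s : K} {m : ℕ} {d : E} (hs : s ≠ 0) (hd : d = jj k E K c0 * zz k E)
    (ht : t = jj k E K c * zz k E ^ (2 * m + 1)) (hc : c = c0 * s ^ 2) :
    ∃ g : E, g ≠ 0 ∧ (∀ σ ∈ G0 k E K, σ g = g) ∧ (t = g ^ 2 ∨ t = d * g ^ 2) := by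
  refine ⟨jj k E K s * zz k E ^ m, mul_ne_zero (jj_ne_zero hs) (pow_ne_zero _ zz_ne_zero),
    fun σ hσ => fix_jj hσ s m, Or.inr ?_⟩
  rw [ht, hc, hd, map_mul, map_pow]
  ring

end colours

section par

variable {p : ℕ} [Fact p.Prime] {K : Type} [Field K] [CharP K p] {a k1 r : ℕ} {l a2 : K}
  {Y : Finset K}

theorem par_a (h : Par p a k1 r l a2 Y) : (a : K) ≠ 0 := by
  rw [Ne, CharP.cast_eq_zero_iff K p]
  exact h.dvd

theorem par_r (h : Par p a k1 r l a2 Y) : (r : K) ≠ 0 := by
  rw [Ne, CharP.cast_eq_zero_iff K p]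
  intro h1
  exact h.dvd ((Nat.dvd_add_left h1).1 (h.hr ▸ dvd_mul_right p k1))

theorem par_k1 (h : Par p a k1 r l a2 Y) : k1 ≠ 0 := by
  rintro rfl
  have := h.hr
  have := h.a3
  omega

/-- `β = 1 + l + ⋯ + l ^ (k1 - 1)` is not zero -/
theorem par_beta (h : Par p a k1 r l a2 Y) : ∑ i ∈ Finset.range k1, l ^ i ≠ 0 := by
  intro h0
  have h1 := geom_sum_mul l k1
  rw [h0, zero_mul] at h1
  exact h.lk (sub_eq_zero.1 h1.symm)

theorem par_a2 (h : Par p a k1 r l a2 Y) : a2 ≠ 0 := by
  rw [h.a2eq]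
  exact pow_ne_zero _ h.l0

theorem par_a2' (h : Par p a k1 r l a2 Y) : a2 ≠ 1 := by
  rw [h.a2eq, pow_mul']
  intro h1
  apply h.lk
  have h2 : (l ^ k1 - 1) ^ p = 0 := by
    rw [sub_pow_char, one_pow, h1, sub_self]
  exact sub_eq_zero.1 (pow_eq_zero_iff'.1 h2).1

theorem sq_one (m : ℕ) : ((-1 : K) ^ m) ^ 2 = 1 := by
  rw [← pow_mul, mul_comm, pow_mul]
  simp

end par

section four

variable {k E : Type} [Field k] [IsAlgClosed k] [Field E] [Algebra (RatFunc k) E]
  [IsAlgClosure (RatFunc k) E] {p : ℕ} [Fact p.Prime] {K : Type} [Field K] [Algebra K k]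
  [CharP K p] [CharP k p] {a k1 r : ℕ} {l a2 : K} {Y : Finset K}

/-- The colours `y ∈ Y`. -/
theorem colour_y [DecidableEq k] [DecidableEq E] (hp3 : 3 ≤ p)
    (h : Par p a k1 r l a2 Y) (d : E) {y : K} (hy : y ∈ Y) :
    Col k E (X ^ a * ((X - 1) * (X - C l)) ^ p + X ^ (p * k1)) d
      (X ^ a * ((X - 1) * (X - C l)) ^ p) (X ^ (p * k1) - C y) y := by
  classical
  have hp : p.Prime := Fact.out
  have hp0 : p ≠ 0 := hp.ne_zero
  have ha0 : a ≠ 0 := by have := h.a3; omega
  have hk0 : k1 ≠ 0 := par_k1 h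
  have hy0 : y ≠ 0 := fun h0 => h.Y0 (h0 ▸ hy)
  have hy1 : y ≠ 1 := fun h0 => h.Y1 (h0 ▸ hy)
  have hy2 : y ≠ a2 := fun h0 => h.Y2 (h0 ▸ hy)
  have hpo : Odd p := hp.odd_of_ne_two (by omega)
  have haK := par_a h
  have hl1 : (1 : K) ≠ l := h.l1.symm
  have hBd : (X ^ (p * k1) - C y : K[X]).natDegree = p * k1 := natDegree_X_pow_sub_C
  have hB : derivative (X ^ (p * k1) - C y : K[X]) = 0 := by
    rw [derivative_sub, derivative_C, pow_mul', der_pow p, sub_zero]
  have hAe : (X ^ a * ((X - 1) * (X - C l)) ^ p : K[X]) =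
      X ^ a * (∏ w ∈ ({1, l} : Finset K), (X - C w)) ^ p := by
    rw [Finset.prod_pair hl1, map_one]
  have hcard : ({1, l} : Finset K).card = 2 := Finset.card_pair hl1
  have hnd : (X ^ a * ((X - 1) * (X - C l)) ^ p : K[X]).natDegree = a + p * 2 := by
    rw [hAe, (monic_X_pow a).natDegree_mul ((monic_prod _).pow p), natDegree_X_pow,
      (monic_prod _).natDegree_pow, natDegree_prod', hcard]
  have hf : Fam p a ({1, l} : Finset K) (X ^ a * ((X - 1) * (X - C l)) ^ p)
      (X ^ (p * k1) - C y) := by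
    refine ⟨hAe, ?_, ?_, ?_, ?_⟩
    · simp only [Finset.mem_insert, Finset.mem_singleton, not_or]
      exact ⟨zero_ne_one, h.l0.symm⟩
    · apply degree_lt_degree
      rw [hBd, hnd, h.hr]
      have := h.hr2
      omega
    · intro _
      simpa [hp0, hk0] using hy0
    · intro w hw
      simp only [Finset.mem_insert, Finset.mem_singleton] at hw
      rcases hw with rfl | rfl
      · simpa using sub_ne_zero.2 hy1.symm
      · simpa [h.a2eq] using sub_ne_zero.2 hy2.symm
  refine ⟨fam_monic hf, hf.deg, by rw [hnd]; omega, fam_sep hp0 hf ha0 haK hB,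
    dvd_of_eq (by ring), fam_sepE hp0 hf ha0 haK hB, ?_, ?_⟩
  · intro R hR
    have hfk := fam_map (k := k) hf
    rw [Finset.image_insert, Finset.image_singleton, map_one] at hfk
    have hek : ∀ c : K, ((X ^ (p * k1) - C y : K[X]).map (algebraMap K k)).eval
        (algebraMap K k c) = algebraMap K k (c ^ (p * k1) - y) := by
      intro c
      simp
    have hd0 : derivative ((X ^ (p * k1) - C y : K[X]).map (algebraMap K k)) = 0 := by
      rw [derivative_map, hB, Polynomial.map_zero]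
    have hwk : (1 : k) ≠ algebraMap K k l := by
      intro h1
      apply hl1
      apply (algebraMap K k).injective
      rw [map_one, h1]
    have e1 : ((X ^ (p * k1) - C y : K[X]).map (algebraMap K k)).eval 1 =
        algebraMap K k (1 - y) := by
      simp
    have e2 : ((X ^ (p * k1) - C y : K[X]).map (algebraMap K k)).eval (algebraMap K k l) =
        algebraMap K k (a2 - y) := by
      simp [h.a2eq]
    refine mono_two hp3 (by omega) h.dvd hwk hfk (e := - (a : k)) ?_ ?_ ?_ ?_ hR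
    · rw [neg_ne_zero, Ne, CharP.cast_eq_zero_iff k p]
      exact h.dvd
    · rw [hd0]
      simp
    · rw [hd0]
      simp
    · rw [e1, e2, one_pow, mul_one, ← map_pow, ← map_mul, ← map_add, Ne, map_eq_zero]
      exact h.Yne y hy
  · intro R hR
    obtain ⟨i, hi⟩ : ∃ i, a - 1 = 2 * i := by
      obtain ⟨i, hi⟩ := h.odd
      exact ⟨i, by omega⟩
    obtain ⟨q, hq⟩ := hpo
    obtain ⟨j, hj⟩ : ∃ j, a + p * 2 = 2 * j + 1 := by
      obtain ⟨i, hi⟩ := h.odd
      exact ⟨i + p, by omega⟩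
    obtain ⟨u, hu⟩ := h.Ysq y hy
    have hj' : (a + 2 * p - 1) / 2 = j := by omega
    rw [hj'] at hu
    have hN : R.card = 2 * j + 1 := by rw [hR.card, natDegree_map, hnd, hj]
    have h2 : R.card * (R.card - 1) / 2 = (2 * j + 1) * j := by
      rw [hN, Nat.add_sub_cancel, ← mul_assoc, mul_comm (2 * j + 1) 2, mul_assoc,
        Nat.mul_div_cancel_left _ (by norm_num)]
    have hu0 : u ≠ 0 := by
      rintro rfl
      rw [mul_zero] at hu
      have : (-1 : K) ^ j * (a : K) * ((y - 1) * (y - a2)) ≠ 0 :=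
        mul_ne_zero (mul_ne_zero (pow_ne_zero _ (by simp)) haK)
          (mul_ne_zero (sub_ne_zero.2 hy1) (sub_ne_zero.2 hy2))
      exact this hu
    refine disc_even (c := (-1) ^ ((2 * j + 1) * j) * ((a : K) ^ (2 * j + 1) * (y) ^ (2 * i) *
        ((1 - y) * (a2 - y)) ^ p)) (s := u * (a : K) ^ j * y ^ i * ((y - 1) * (y - a2)) ^ q)
        (m := i + p) d ?_ ?_ ?_
    · exact mul_ne_zero (mul_ne_zero (mul_ne_zero hu0 (pow_ne_zero _ haK)) (pow_ne_zero _ hy0))
        (pow_ne_zero _ (mul_ne_zero (sub_ne_zero.2 hy1) (sub_ne_zero.2 hy2)))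
    · rw [fam_prod hp0 hf ha0 hB hR, h2, hnd, hj, hcard, hi, Finset.prod_pair hl1]
      have e0 : (X ^ (p * k1) - C y : K[X]).eval 0 = - y := by simp [hp0, hk0]
      have e1 : (X ^ (p * k1) - C y : K[X]).eval 1 = 1 - y := by simp
      have e2 : (X ^ (p * k1) - C y : K[X]).eval l = a2 - y := by simp [h.a2eq]
      have o1 : (-1 : K) ^ (2 * j + 1) = -1 := by rw [pow_succ, pow_mul]; simp
      rw [e0, e1, e2, o1]
      have o2 : (-1 : K) * (1 - y) * (-1 * (a2 - y)) = (1 - y) * (a2 - y) := by ring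
      have o3 : (-1 : K) * - y = y := by ring
      rw [o2, o3]
      have o4 : (-1 : E) ^ ((2 * j + 1) * j) = jj k E K ((-1) ^ ((2 * j + 1) * j)) := by simp
      rw [o4, map_mul (jj k E K) ((-1) ^ ((2 * j + 1) * j))]
      have o5 : 2 * i + p * 2 = 2 * (i + p) := by ring
      rw [o5]
      ring
    · have o6 : (1 - y) * (a2 - y) = (y - 1) * (y - a2) := by ring
      have o7 : ((-1 : K) ^ j) ^ 2 = 1 := sq_one j
      rw [o6, hq]
      calc (-1 : K) ^ ((2 * j + 1) * j) * (a ^ (2 * j + 1) * y ^ (2 * i) *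
            ((y - 1) * (y - a2)) ^ (2 * q + 1))
          = (((-1 : K) ^ j) ^ 2) ^ j * (((-1 : K) ^ j * a * ((y - 1) * (y - a2))) *
            ((a : K) ^ j * y ^ i * ((y - 1) * (y - a2)) ^ q) ^ 2) := by ring
        _ = _ := by rw [o7, hu]; ring

/-- The colour `0`. -/
theorem colour_0 [DecidableEq k] [DecidableEq E] (hp3 : 3 ≤ p)
    (h : Par p a k1 r l a2 Y) (d : E) :
    Col k E (X ^ a * ((X - 1) * (X - C l)) ^ p + X ^ (p * k1)) d
      (((X - 1) * (X - C l)) ^ p) (X ^ r) 0 := by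
  classical
  have hp : p.Prime := Fact.out
  have hp0 : p ≠ 0 := hp.ne_zero
  have ha0 : a ≠ 0 := by have := h.a3; omega
  have hk0 : k1 ≠ 0 := par_k1 h
  have hr0 : r ≠ 0 := h.hr0.ne'
  have hpo : Odd p := hp.odd_of_ne_two (by omega)
  have hrK := par_r h
  have hl1 : (1 : K) ≠ l := h.l1.symm
  have hAe : (((X - 1) * (X - C l)) ^ p : K[X]) =
      X ^ 0 * (∏ w ∈ ({1, l} : Finset K), (X - C w)) ^ p := by
    rw [Finset.prod_pair hl1, map_one, pow_zero, one_mul]
  have hcard : ({1, l} : Finset K).card = 2 := Finset.card_pair hl1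
  have hnd : (((X - 1) * (X - C l)) ^ p : K[X]).natDegree = p * 2 := by
    rw [hAe, pow_zero, one_mul, (monic_prod _).natDegree_pow, natDegree_prod', hcard]
  have hf : Fam p 0 ({1, l} : Finset K) (((X - 1) * (X - C l)) ^ p) (X ^ r) := by
    refine ⟨hAe, ?_, ?_, ?_, ?_⟩
    · simp only [Finset.mem_insert, Finset.mem_singleton, not_or]
      exact ⟨zero_ne_one, h.l0.symm⟩
    · apply degree_lt_degree
      rw [natDegree_X_pow, hnd]
      have := h.hr2
      omega
    · intro h0
      exact absurd rfl h0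
    · intro w hw
      simp only [Finset.mem_insert, Finset.mem_singleton] at hw
      rcases hw with rfl | rfl
      · simp
      · simpa using pow_ne_zero _ h.l0
  have hdA : derivative (((X - 1) * (X - C l)) ^ p : K[X]) = 0 := der_pow p _
  have hdB : derivative (X ^ r : K[X]) = C (r : K) * X ^ (r - 1) := by
    rw [derivative_X_pow, map_natCast]
  have hA0 : (((X - 1) * (X - C l)) ^ p : K[X]).eval 0 = l ^ p := by simp
  have hmon := fam_monic hf
  have hder : ∀ x : E, (derivative (fE E ((((X - 1) * (X - C l)) ^ p : K[X]).map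
      (algebraMap K k)) ((X ^ r : K[X]).map (algebraMap K k)))).eval x =
      zz k E * jj k E K r * x ^ (r - 1) := by
    intro x
    rw [eval_dfE, hdA, hdB]
    simp [mul_assoc]
  have hprod : ∀ R : Finset E, IsRoots R ((((X - 1) * (X - C l)) ^ p : K[X]).map
      (algebraMap K k)) ((X ^ r : K[X]).map (algebraMap K k)) →
      ∏ x ∈ R, (derivative (fE E ((((X - 1) * (X - C l)) ^ p : K[X]).map
      (algebraMap K k)) ((X ^ r : K[X]).map (algebraMap K k)))).eval x =
      jj k E K ((r : K) ^ (p * 2) * (l ^ p) ^ (r - 1)) * zz k E ^ (2 * p) := by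
    intro R hR
    rw [Finset.prod_congr rfl fun x _ => hder x, Finset.prod_mul_distrib, Finset.prod_const,
      Finset.prod_pow, prod_id hmon hf.deg hR, hA0, hR.card, natDegree_map, hnd]
    have o1 : (-1 : E) ^ (p * 2) = 1 := Even.neg_one_pow ⟨p, by ring⟩
    rw [o1]
    simp [hr0]
    ring
  refine ⟨hmon, hf.deg, by rw [hnd]; omega, ?_, ?_, ?_, ?_, ?_⟩
  · refine sep_of (D := C (r : K) * X ^ (r - 1)) ?_ ?_
    · rw [derivative_add, hdA, hdB, zero_add]
    · refine IsCoprime.mul_right ?_ ?_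
      · exact isCoprime_one_right.of_isCoprime_of_dvd_right
          ((isUnit_C.2 (isUnit_iff_ne_zero.2 hrK)).dvd)
      · refine (coprime_X ?_).pow_right
        rw [eval_add, hA0]
        simpa [hr0] using pow_ne_zero _ h.l0
  · rw [map_zero, sub_zero]
    refine ⟨X ^ a, ?_⟩
    rw [h.hr]
    ring
  · refine fE_separable (hmon.map _) (map_deg hf.deg) fun x hx hx' => ?_
    rw [hder] at hx'
    rw [eval_fE] at hx
    have h1 : x = 0 := by
      rcases mul_eq_zero.1 hx' with h2 | h2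
      · exact absurd h2 (mul_ne_zero zz_ne_zero (jj_ne_zero hrK))
      · exact (pow_eq_zero_iff'.1 h2).1
    have h3 : (0 : E) = jj k E K 0 := (map_zero _).symm
    rw [h1, h3, eval₂_hom, eval₂_hom, hA0] at hx
    simp only [eval_pow, eval_X, zero_pow hr0, map_zero, mul_zero, add_zero] at hx
    exact jj_ne_zero (pow_ne_zero _ h.l0) hx
  · intro R hR
    have hfk := fam_map (k := k) hf
    rw [Finset.image_insert, Finset.image_singleton, map_one] at hfk
    have hwk : (1 : k) ≠ algebraMap K k l := by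
      intro h1
      apply hl1
      apply (algebraMap K k).injective
      rw [map_one, h1]
    have hrk : (r : k) ≠ 0 := by
      have : (r : k) = algebraMap K k r := by simp
      rw [this, Ne, map_eq_zero]
      exact hrK
    refine mono_zero hp3 hwk hfk (e := (r : k)) hrk ?_ ?_ ?_ hR ?_
    · rw [derivative_map, hdB]
      simp
    · rw [derivative_map, hdB]
      obtain ⟨r', rfl⟩ : ∃ r', r = r' + 1 := ⟨r - 1, by omega⟩
      simp
      ring
    · have e1 : ((X ^ r : K[X]).map (algebraMap K k)).eval 1 = 1 := by simp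
      have e2 : ((X ^ r : K[X]).map (algebraMap K k)).eval (algebraMap K k l) =
        algebraMap K k (l ^ r) := by simp
      rw [e1, e2, one_mul, one_pow, mul_one, ← map_pow, ← map_add, Ne, map_eq_zero]
      exact h.lr
    · refine ⟨algebraMap K k ((r : K) ^ (p * 2) * (l ^ p) ^ (r - 1)), 2 * p, ?_, hprod R hR⟩
      rw [Ne, map_eq_zero]
      exact mul_ne_zero (pow_ne_zero _ hrK) (pow_ne_zero _ (pow_ne_zero _ h.l0))
  · intro R hR
    obtain ⟨u, hu⟩ := h.lsq
    obtain ⟨q, hq⟩ := hpo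
    obtain ⟨j, hj⟩ : ∃ j, r - 1 = 2 * j + 1 := by
      obtain ⟨i1, h1⟩ := h.k1odd
      obtain ⟨i2, h2⟩ := h.odd
      have h3 := h.hr
      have h4 : Odd (p * k1) := (hp.odd_of_ne_two (by omega)).mul h.k1odd
      obtain ⟨i3, h5⟩ := h4
      have := h.hr0
      exact ⟨(r - 2) / 2, by omega⟩
    have hu0 : u ≠ 0 := by
      rintro rfl
      rw [mul_zero] at hu
      exact h.l0 (neg_eq_zero.1 hu)
    have hN : R.card = p * 2 := by rw [hR.card, natDegree_map, hnd]
    have h2 : R.card * (R.card - 1) / 2 = p * (p * 2 - 1) := by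
      rw [hN, mul_comm p 2, mul_assoc, Nat.mul_div_cancel_left _ (by norm_num)]
    refine disc_even (c := - ((r : K) ^ (p * 2) * (l ^ p) ^ (r - 1)))
      (s := (r : K) ^ p * u ^ (p * (2 * j + 1))) (m := p) d ?_ ?_ ?_
    · exact mul_ne_zero (pow_ne_zero _ hrK) (pow_ne_zero _ hu0)
    · rw [hprod R hR, h2]
      have o1 : (-1 : E) ^ (p * (p * 2 - 1)) = -1 := by
        have h3 : Odd (p * (p * 2 - 1)) := by
          refine (hp.odd_of_ne_two (by omega)).mul ?_
          exact ⟨p - 1, by omega⟩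
        exact h3.neg_one_pow
      rw [o1]
      simp
    · rw [hj]
      have h3 : (u ^ (p * (2 * j + 1))) ^ 2 = (- l) ^ (p * (2 * j + 1)) := by
        rw [hu, ← pow_mul, mul_comm _ 2, pow_mul, pow_two]
      have h4 : (- l) ^ (p * (2 * j + 1)) = - l ^ (p * (2 * j + 1)) := by
        refine Odd.neg_pow ?_ _
        exact (hp.odd_of_ne_two (by omega)).mul ⟨j, rfl⟩
      rw [mul_pow, h3, h4, ← pow_mul]
      ring

/-- The colours `1` and `a2`. -/
theorem colour_w [DecidableEq k] [DecidableEq E] (hp3 : 3 ≤ p)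
    (h : Par p a k1 r l a2 Y) {w : K} (hw : w ≠ 0) (B : K[X]) (hB : (B ^ p).natDegree < a + p)
    (hB0 : B.eval 0 ≠ 0) (hBw : B.eval w = ∑ i ∈ Finset.range k1, l ^ i) {y : K}
    (hdvd : X ^ a * (X - C w) ^ p + B ^ p ∣
      (X ^ a * ((X - 1) * (X - C l)) ^ p + X ^ (p * k1)) - C y) :
    Col k E (X ^ a * ((X - 1) * (X - C l)) ^ p + X ^ (p * k1))
      (jj k E K ((-1) ^ ((a + p) * (a + p - 1) / 2) * ∑ i ∈ Finset.range k1, l ^ i) * zz k E)
      (X ^ a * (X - C w) ^ p) (B ^ p) y := by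
  classical
  have hp : p.Prime := Fact.out
  have hp0 : p ≠ 0 := hp.ne_zero
  have ha0 : a ≠ 0 := by have := h.a3; omega
  have hpo : Odd p := hp.odd_of_ne_two (by omega)
  have haK := par_a h
  have hβ := par_beta h
  have hdB : derivative (B ^ p : K[X]) = 0 := der_pow p _
  have hAe : (X ^ a * (X - C w) ^ p : K[X]) =
      X ^ a * (∏ v ∈ ({w} : Finset K), (X - C v)) ^ p := by
    rw [Finset.prod_singleton]
  have hnd : (X ^ a * (X - C w) ^ p : K[X]).natDegree = a + p := by
    rw [hAe, (monic_X_pow a).natDegree_mul ((monic_prod _).pow p), natDegree_X_pow,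
      (monic_prod _).natDegree_pow, natDegree_prod', Finset.card_singleton, mul_one]
  have hf : Fam p a ({w} : Finset K) (X ^ a * (X - C w) ^ p) (B ^ p) := by
    refine ⟨hAe, ?_, ?_, ?_, ?_⟩
    · rw [Finset.mem_singleton]
      exact hw.symm
    · apply degree_lt_degree
      rwa [hnd]
    · intro _
      rw [eval_pow]
      exact pow_ne_zero _ hB0
    · intro v hv
      rw [Finset.mem_singleton] at hv
      rw [hv, eval_pow, hBw]
      exact pow_ne_zero _ hβ
  refine ⟨fam_monic hf, hf.deg, by rw [hnd]; have := h.a3; omega, fam_sep hp0 hf ha0 haK hdB,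
    hdvd, fam_sepE hp0 hf ha0 haK hdB, ?_, ?_⟩
  · intro R hR
    have hfk := fam_map (k := k) hf
    rw [Finset.image_singleton] at hfk
    exact mono_one hp3 h.a3 h.dvd hfk hR
  · intro R hR
    obtain ⟨j, hj⟩ : ∃ j, a + p = 2 * j := by
      obtain ⟨i1, h1⟩ := hpo
      obtain ⟨i2, h2⟩ := h.odd
      exact ⟨i1 + i2 + 1, by omega⟩
    obtain ⟨i, hi⟩ : ∃ i, a - 1 = 2 * i := by
      obtain ⟨i, hi⟩ := h.odd
      exact ⟨i, by omega⟩
    obtain ⟨q, hq⟩ := hpo
    obtain ⟨q2, hq2⟩ : ∃ q2, p * p = 2 * q2 + 1 := by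
      obtain ⟨q2, hq2⟩ := (hp.odd_of_ne_two (by omega)).mul (hp.odd_of_ne_two (by omega))
      exact ⟨q2, hq2⟩
    have hN : R.card = a + p := by rw [hR.card, natDegree_map, hnd]
    set β := ∑ i ∈ Finset.range k1, l ^ i with hβd
    refine disc_odd (c := (-1) ^ ((a + p) * (a + p - 1) / 2) * ((a : K) ^ (2 * j) *
      (B.eval 0 ^ p) ^ (2 * i) * (β ^ p) ^ p))
      (s := (a : K) ^ j * (B.eval 0 ^ p) ^ i * β ^ q2) (m := i + q) ?_ rfl ?_ ?_
    · exact mul_ne_zero (mul_ne_zero (pow_ne_zero _ haK) (pow_ne_zero _ (pow_ne_zero _ hB0)))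
        (pow_ne_zero _ hβ)
    · rw [fam_prod hp0 hf ha0 hdB hR, hN, hnd, hj, Finset.card_singleton, hi,
        Finset.prod_singleton]
      have o1 : (-1 : K) ^ (2 * j) = 1 := by rw [pow_mul]; simp
      rw [o1, one_mul, one_mul, eval_pow, eval_pow, hBw]
      have o4 : (-1 : E) ^ (2 * j * (2 * j - 1) / 2) =
          jj k E K ((-1) ^ (2 * j * (2 * j - 1) / 2)) := by simp
      rw [o4, map_mul (jj k E K) ((-1) ^ (2 * j * (2 * j - 1) / 2))]
      have o5 : 2 * i + p * 1 = 2 * (i + q) + 1 := by omega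
      rw [o5]
      ring
    · rw [← pow_mul β, hq2]
      ring

theorem natDegree_geom (w : K) : (∑ i ∈ Finset.range k1, X ^ i * C w ^ (k1 - 1 - i) : K[X]).natDegree
    ≤ k1 - 1 := by
  refine natDegree_sum_le_of_forall_le _ _ fun i hi => ?_
  have := Finset.mem_range.1 hi
  rw [← C_pow]
  exact (natDegree_mul_C_le _ _).trans (by rw [natDegree_X_pow]; omega)

theorem eval_zero_geom (hk : k1 ≠ 0) (w : K) :
    (∑ i ∈ Finset.range k1, X ^ i * C w ^ (k1 - 1 - i) : K[X]).eval 0 = w ^ (k1 - 1) := by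
  rw [eval_finsetSum, Finset.sum_eq_single_of_mem 0 (Finset.mem_range.2 (by omega))]
  · simp
  · intro i _ hi
    simp [hi]

/-- The colour `1`. -/
theorem colour_1 [DecidableEq k] [DecidableEq E] (hp3 : 3 ≤ p)
    (h : Par p a k1 r l a2 Y) :
    Col k E (X ^ a * ((X - 1) * (X - C l)) ^ p + X ^ (p * k1))
      (jj k E K ((-1) ^ ((a + p) * (a + p - 1) / 2) * ∑ i ∈ Finset.range k1, l ^ i) * zz k E)
      (X ^ a * (X - C l) ^ p) ((∑ i ∈ Finset.range k1, X ^ i) ^ p) 1 := by
  have hp : p.Prime := Fact.out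
  have hk0 := par_k1 h
  have hg : (∑ i ∈ Finset.range k1, X ^ i : K[X]) =
      ∑ i ∈ Finset.range k1, X ^ i * C 1 ^ (k1 - 1 - i) := by simp
  refine colour_w hp3 h h.l0 _ ?_ ?_ ?_ ?_
  · rw [hg]
    refine (natDegree_pow_le).trans_lt ?_
    have h1 := natDegree_geom (k1 := k1) (1 : K)
    have h2 : p * (∑ i ∈ Finset.range k1, X ^ i * C 1 ^ (k1 - 1 - i) : K[X]).natDegree ≤
      p * (k1 - 1) := Nat.mul_le_mul_left p h1
    have h3 : p * (k1 - 1) + p = p * k1 := by
      obtain ⟨m, rfl⟩ : ∃ m, k1 = m + 1 := ⟨k1 - 1, by omega⟩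
      simp
      ring
    have h4 := h.hr
    have h5 := h.hr2
    omega
  · rw [hg, eval_zero_geom hk0]
    simp
  · simp [eval_finsetSum]
  · refine ⟨(X - 1) ^ p, ?_⟩
    have h1 : (X ^ (p * k1) - 1 : K[X]) = (∑ i ∈ Finset.range k1, X ^ i) ^ p * (X - 1) ^ p := by
      rw [← mul_pow, geom_sum_mul, sub_pow_char, one_pow, ← pow_mul, mul_comm k1 p]
    rw [map_one, add_sub_assoc, h1, mul_pow]
    ring

/-- The colour `a2`. -/
theorem colour_2 [DecidableEq k] [DecidableEq E] (hp3 : 3 ≤ p)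
    (h : Par p a k1 r l a2 Y) :
    Col k E (X ^ a * ((X - 1) * (X - C l)) ^ p + X ^ (p * k1))
      (jj k E K ((-1) ^ ((a + p) * (a + p - 1) / 2) * ∑ i ∈ Finset.range k1, l ^ i) * zz k E)
      (X ^ a * (X - 1) ^ p)
      ((∑ i ∈ Finset.range k1, X ^ i * C l ^ (k1 - 1 - i)) ^ p) a2 := by
  have hp : p.Prime := Fact.out
  have hk0 := par_k1 h
  have h1C : (X - 1 : K[X]) = X - C 1 := by simp
  rw [h1C]
  refine colour_w hp3 h one_ne_zero _ ?_ ?_ ?_ ?_
  · refine (natDegree_pow_le).trans_lt ?_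
    have h1 := natDegree_geom (k1 := k1) l
    have h2 : p * (∑ i ∈ Finset.range k1, X ^ i * C l ^ (k1 - 1 - i) : K[X]).natDegree ≤
      p * (k1 - 1) := Nat.mul_le_mul_left p h1
    have h3 : p * (k1 - 1) + p = p * k1 := by
      obtain ⟨m, rfl⟩ : ∃ m, k1 = m + 1 := ⟨k1 - 1, by omega⟩
      simp
      ring
    have h4 := h.hr
    have h5 := h.hr2
    omega
  · rw [eval_zero_geom hk0]
    exact pow_ne_zero _ h.l0
  · rw [eval_finsetSum, ← Finset.sum_range_reflect]
    refine Finset.sum_congr rfl fun i hi => ?_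
    have := Finset.mem_range.1 hi
    have h2 : k1 - 1 - (k1 - 1 - i) = i := by omega
    simp [h2]
  · refine ⟨(X - C l) ^ p, ?_⟩
    have h1 : (X ^ (p * k1) - C a2 : K[X]) =
        (∑ i ∈ Finset.range k1, X ^ i * C l ^ (k1 - 1 - i)) ^ p * (X - C l) ^ p := by
      rw [← mul_pow, (Commute.all (X : K[X]) (C l)).geom_sum₂_mul, sub_pow_char, ← pow_mul,
        mul_comm k1 p, h.a2eq, ← C_pow, ← C_pow, ← pow_mul, mul_comm k1 p]
    rw [add_sub_assoc, h1, mul_pow, map_one]
    ring

end four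

/-- the four kinds of colours -/
noncomputable def fA {K : Type} [Field K] (p a : ℕ) (l : K) (Y : Finset K) :
    {y // y ∈ Y} ⊕ Fin 3 → K[X] :=
  Sum.elim (fun _ => X ^ a * ((X - 1) * (X - C l)) ^ p)
    ![((X - 1) * (X - C l)) ^ p, X ^ a * (X - C l) ^ p, X ^ a * (X - 1) ^ p]

/-- the four kinds of colours -/
noncomputable def fB {K : Type} [Field K] (p k1 r : ℕ) (l : K) (Y : Finset K) :
    {y // y ∈ Y} ⊕ Fin 3 → K[X] :=
  Sum.elim (fun y => X ^ (p * k1) - C y.1)
    ![X ^ r, (∑ i ∈ Finset.range k1, X ^ i) ^ p,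
      (∑ i ∈ Finset.range k1, X ^ i * C l ^ (k1 - 1 - i)) ^ p]

/-- the colours -/
noncomputable def fy {K : Type} [Field K] (a2 : K) (Y : Finset K) :
    {y // y ∈ Y} ⊕ Fin 3 → K :=
  Sum.elim (fun y => y.1) ![0, 1, a2]

theorem fy_injective {p : ℕ} [Fact p.Prime] {K : Type} [Field K] [CharP K p]
    {a k1 r : ℕ} {l a2 : K} {Y : Finset K} (h : Par p a k1 r l a2 Y) :
    Function.Injective (fy a2 Y) := by
  have h1 := par_a2 h
  have h2 := par_a2' h
  have hY0 := h.Y0
  have hY1 := h.Y1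
  have hY2 := h.Y2
  rintro (⟨y, hy⟩ | i) (⟨y', hy'⟩ | j) hij
  · simp only [fy, Sum.elim_inl] at hij
    subst hij
    rfl
  · exfalso
    fin_cases j <;> simp [fy] at hij <;> subst hij <;> first | exact hY0 hy | exact hY1 hy | exact hY2 hy
  · exfalso
    fin_cases i <;> simp [fy] at hij <;> subst hij <;> first | exact hY0 hy' | exact hY1 hy' | exact hY2 hy'
  · fin_cases i <;> fin_cases j <;> simp_all [fy, eq_comm]

theorem coprime_of_dvd {K : Type} [Field K] {G F F' : K[X]} {y y' : K} (hy : y ≠ y')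
    (h : F ∣ G - C y) (h' : F' ∣ G - C y') : IsCoprime F F' := by
  have h1 : IsCoprime (G - C y) (G - C y') := by
    refine ⟨C (y' - y)⁻¹, - C (y' - y)⁻¹, ?_⟩
    have h2 : C (y' - y)⁻¹ * (G - C y) + - C (y' - y)⁻¹ * (G - C y') =
        C (y' - y)⁻¹ * C (y' - y) := by
      rw [C_sub]
      ring
    rw [h2, ← C_mul, inv_mul_cancel₀ (sub_ne_zero.2 hy.symm), C_1]
  exact (h1.of_isCoprime_of_dvd_left h).of_isCoprime_of_dvd_right h'

end FamThree

open FamThree in
theorem exists_F3 {p : ℕ} [Fact p.Prime] (hp3 : 3 ≤ p) {K : Type} [Field K] [Finite K] [CharP K p]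
    {a k1 r : ℕ} {l a2 : K} {Y : Finset K} (h : Par p a k1 r l a2 Y) :
    ∃ Q0 : ℕ, ∀ (L : Type) [Field L] [Finite L] [Algebra K L], Q0 ≤ Nat.card L →
      ∃ z : L, z ≠ 0 ∧
      (1 - algebraMap K L l) ^ p + z * (k1 : L) ^ p ≠ 0 ∧
      (algebraMap K L l) ^ a * (algebraMap K L l - 1) ^ p +
        z * (k1 * (algebraMap K L l) ^ (k1 - 1)) ^ p ≠ 0 ∧
      (∀ y ∈ Y, (X ^ a * ((X - 1) * (X - C (algebraMap K L l))) ^ p +
        C z * (X ^ (p * k1) - C (algebraMap K L y))).Splits) ∧
      (((X - 1) * (X - C (algebraMap K L l))) ^ p + C z * X ^ r).Splits ∧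
      (X ^ a * (X - C (algebraMap K L l)) ^ p +
        C z * (∑ i ∈ Finset.range k1, X ^ i) ^ p).Splits ∧
      (X ^ a * (X - 1) ^ p +
        C z * (∑ i ∈ Finset.range k1, X ^ i * C (algebraMap K L l) ^ (k1 - 1 - i)) ^ p).Splits := by
  classical
  have hp : p.Prime := Fact.out
  let k := AlgebraicClosure K
  let E := AlgebraicClosure (RatFunc k)
  have : CharP k p := charP_of_injective_algebraMap (algebraMap K k).injective p
  have hcol : ∀ i, Col k E (X ^ a * ((X - 1) * (X - C l)) ^ p + X ^ (p * k1))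
      (jj k E K ((-1) ^ ((a + p) * (a + p - 1) / 2) * ∑ i ∈ Finset.range k1, l ^ i) * zz k E)
      (fA p a l Y i) (fB p k1 r l Y i) (fy a2 Y i) := by
    rintro (⟨y, hy⟩ | i)
    · exact colour_y hp3 h _ hy
    · fin_cases i
      · exact colour_0 hp3 h _
      · exact colour_1 hp3 h
      · exact colour_2 hp3 h
  have hR := fun i => exists_isRoots (E := E) ((hcol i).monic.map (algebraMap K k))
    (map_deg (hcol i).deg) (hcol i).sepE
  choose R hR using hR
  have h2 : (2 : k) ≠ 0 := by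
    have : ((2 : ℕ) : k) ≠ 0 := by
      rw [Ne, CharP.cast_eq_zero_iff k p]
      intro h3
      have := Nat.le_of_dvd (by norm_num) h3
      omega
    exact_mod_cast this
  have hcard : ∀ i, 5 ≤ (R i).card := fun i => by
    rw [(hR i).card, natDegree_map]
    exact (hcol i).card
  have hsign := exists_signs (E := E) h2 (fA p a l Y) (fB p k1 r l Y)
    (fun i => (hcol i).monic) (fun i => (hcol i).deg) R hR
    (jj k E K ((-1) ^ ((a + p) * (a + p - 1) / 2) * ∑ i ∈ Finset.range k1, l ^ i) * zz k E)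
    ⟨algebraMap K k ((-1) ^ ((a + p) * (a + p - 1) / 2) * ∑ i ∈ Finset.range k1, l ^ i), 0, by
      rw [Ne, map_eq_zero]
      exact mul_ne_zero (pow_ne_zero _ (by simp)) (par_beta h), by
      rw [mul_zero, zero_add, pow_one]; rfl⟩
    (fun i => (hcol i).disc (R i) (hR i))
  have hsame := exists_same (K := K) (k := k) R hcard
    (fun σ hσ i x hx => (hR i).map_mem' hσ hx) (fun i => (hcol i).mono (R i) (hR i)) hsign
  set rr : K[X] := X * (C ((1 - l) ^ p) + X * C ((k1 : K) ^ p)) *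
    (C (l ^ a * (l - 1) ^ p) + X * C (((k1 : K) * l ^ (k1 - 1)) ^ p)) with hrr
  have hrr0 : rr ≠ 0 := by
    have e1 : (C ((1 - l) ^ p) + X * C ((k1 : K) ^ p) : K[X]) ≠ 0 := by
      intro h0
      have := congrArg (eval 0) h0
      simp only [eval_add, eval_C, eval_mul, eval_X, zero_mul, add_zero, eval_zero] at this
      exact pow_ne_zero p (sub_ne_zero.2 h.l1.symm) this
    have e2 : (C (l ^ a * (l - 1) ^ p) + X * C (((k1 : K) * l ^ (k1 - 1)) ^ p) : K[X]) ≠ 0 := by
      intro h0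
      have := congrArg (eval 0) h0
      simp only [eval_add, eval_C, eval_mul, eval_X, zero_mul, add_zero, eval_zero] at this
      exact mul_ne_zero (pow_ne_zero a h.l0) (pow_ne_zero p (sub_ne_zero.2 h.l1)) this
    exact mul_ne_zero (mul_ne_zero X_ne_zero e1) e2
  obtain ⟨Q0, hQ0⟩ := exists_special_family k E (fA p a l Y) (fB p k1 r l Y)
    (fun i => (hcol i).monic) (fun i => (hcol i).deg) (fun i => (hcol i).sep)
    (fun i j hij => coprime_of_dvd ((fy_injective h).ne hij) (hcol i).dvd (hcol j).dvd) R hR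
    hsame rr hrr0
  refine ⟨Q0, fun L _ _ _ hL => ?_⟩
  obtain ⟨z, hz, hsp⟩ := hQ0 L hL
  rw [hrr] at hz
  simp only [map_mul, map_add, aeval_X, aeval_C, map_pow, map_sub, map_one, map_natCast] at hz
  obtain ⟨⟨hz0, hz1⟩, hz2⟩ : (z ≠ 0 ∧ _ ≠ (0 : L)) ∧ _ ≠ (0 : L) := by
    rw [mul_ne_zero_iff, mul_ne_zero_iff] at hz
    exact hz
  refine ⟨z, hz0, hz1, hz2, ?_, ?_, ?_, ?_⟩
  · intro y hy
    have := hsp (Sum.inl ⟨y, hy⟩)
    simpa [fA, fB, Polynomial.map_mul, Polynomial.map_pow] using this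
  · have := hsp (Sum.inr 0)
    simpa [fA, fB] using this
  · have := hsp (Sum.inr 1)
    simpa [fA, fB, Polynomial.map_sum] using this
  · have := hsp (Sum.inr 2)
    simpa [fA, fB, Polynomial.map_sum] using this

end BCX6
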