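import Pool.Agent.BCX6.Defs

/-!
# BCX6, row G2: the parameters of the family F3
-/

namespace BCX6

open Polynomial

/-- the odd multiplier -/
theorem exists_k1 {p a : ℕ} (hp : p.Prime) (hp3 : 3 ≤ p) (ha : Odd a) (hpa : ¬ p ∣ a) :
    ∃ k1 r : ℕ, Odd k1 ∧ p * k1 = a + r ∧ 0 < r ∧ r < 2 * p ∧ Even r := by
  have hpo : Odd p := hp.odd_of_ne_two (by omega)
  have h0 : a % p ≠ 0 := fun h => hpa (Nat.dvd_of_mod_eq_zero h)
  have h1 : a % p < p := Nat.mod_lt _ hp.pos
  have h2 : p * (a / p) + a % p = a := Nat.div_add_mod a p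
  have key : ∀ k1 r : ℕ, Odd k1 → p * k1 = a + r → Even r := by
    intro k1 r hk he
    have : Odd (a + r) := he ▸ hpo.mul hk
    rcases Nat.even_or_odd r with h | h
    · exact h
    · exact absurd (ha.add_odd h) (by rw [Nat.not_even_iff_odd]; exact this)
  rcases Nat.even_or_odd (a / p) with h | h
  · have hk : Odd (a / p + 1) := h.add_one
    have he : p * (a / p + 1) = a + (p - a % p) := by
      rw [Nat.mul_add]; omega
    exact ⟨a / p + 1, p - a % p, hk, he, by omega, by omega, key _ _ hk he⟩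
  · have hk : Odd (a / p + 2) := by
      rw [Nat.odd_add]; exact ⟨fun _ => even_two, fun _ => h⟩
    have he : p * (a / p + 2) = a + (2 * p - a % p) := by
      rw [Nat.mul_add]; omega
    exact ⟨a / p + 2, 2 * p - a % p, hk, he, by omega, by omega, key _ _ hk he⟩

/-- an element of odd order -/
theorem exists_mu {p : ℕ} (hp : p.Prime) (hp3 : 3 ≤ p) {K : Type} [Field K] [Finite K]
    {s : ℕ} (hK : Nat.card K = p ^ s) (hs3 : 3 ≤ s) (hodd : Odd s) :
    ∃ μ : Kˣ, Odd (orderOf μ) ∧ 2 * p < orderOf μ := by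
  obtain ⟨g, hg⟩ := IsCyclic.exists_generator (α := Kˣ)
  have hc : orderOf g = p ^ s - 1 := by
    rw [orderOf_eq_card_of_forall_mem_zpowers hg, Nat.card_units, hK]
  have hd : (p - 1) ∣ p ^ s - 1 := by
    simpa using Nat.sub_dvd_pow_sub_pow p 1 s
  have ho : orderOf (g ^ (p - 1)) = (p ^ s - 1) / (p - 1) := by
    rw [orderOf_pow_of_dvd (by omega) (by rw [hc]; exact hd), hc]
  have hsum : orderOf (g ^ (p - 1)) = ∑ k ∈ Finset.range s, p ^ k := by
    rw [ho, Nat.geomSum_eq (by omega)]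
  have hpo : Odd p := hp.odd_of_ne_two (by omega)
  refine ⟨g ^ (p - 1), ?_, ?_⟩
  · rw [hsum, Finset.odd_sum_iff_odd_card_odd]
    rw [Finset.filter_true_of_mem (fun k _ => hpo.pow), Finset.card_range]
    exact hodd
  · rw [hsum]
    have h3 : ∑ k ∈ Finset.range 3, p ^ k ≤ ∑ k ∈ Finset.range s, p ^ k :=
      Finset.sum_le_sum_of_subset (Finset.range_subset_range.2 hs3)
    have h4 : ∑ k ∈ Finset.range 3, p ^ k = 1 + p + p ^ 2 := by
      simp [Finset.sum_range_succ]
    nlinarith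

/-- the number of nonzero squares -/
theorem card_sq_ge {K : Type} [Field K] [Fintype K] [DecidableEq K] :
    Fintype.card K ≤ 2 * ((Finset.univ : Finset K).filter
      (fun t => t ≠ 0 ∧ ∃ u, t = u * u)).card + 1 := by
  classical
  have h := Finset.card_le_mul_card_image (f := fun u : K => u * u)
    ((Finset.univ : Finset K).erase 0) 2 (by
      intro b hb
      obtain ⟨u, hu, rfl⟩ := Finset.mem_image.1 hb
      refine le_trans (Finset.card_le_card (t := {u, -u}) ?_) Finset.card_le_two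
      intro v hv
      have hv' : v * v = u * u := (Finset.mem_filter.1 hv).2
      rcases mul_self_eq_mul_self_iff.1 hv' with h | h <;> simp [h])
  have h2 : (((Finset.univ : Finset K).erase 0).image (fun u : K => u * u)) ⊆
      (Finset.univ : Finset K).filter (fun t => t ≠ 0 ∧ ∃ u, t = u * u) := by
    intro t ht
    obtain ⟨u, hu, rfl⟩ := Finset.mem_image.1 ht
    have hu0 : u ≠ 0 := (Finset.mem_erase.1 hu).1
    exact Finset.mem_filter.2 ⟨Finset.mem_univ _, mul_ne_zero hu0 hu0, u, rfl⟩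
  have h3 := Finset.card_le_card h2
  have h4 : ((Finset.univ : Finset K).erase 0).card + 1 = Fintype.card K := by
    rw [Finset.card_erase_add_one (Finset.mem_univ _), Finset.card_univ]
  omega

/-- ROW G2: the parameters -/
theorem exists_par {p : ℕ} [Fact p.Prime] (hp3 : 3 ≤ p) {K : Type} [Field K] [Finite K]
    [CharP K p] {s : ℕ} (hK : Nat.card K = p ^ s) (hs3 : 3 ≤ s) (hodd : Odd s) {n : ℕ}
    (hn : 2 * p + 3 ≤ n) (hn2 : Odd n) (hpn : ¬ p ∣ n) {v : ℕ} (hv1 : 1 ≤ v) (hv : v < s) :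
    ∃ (k1 r : ℕ) (l a2 : K) (Y : Finset K), Y.card + 2 = p ^ v ∧
      Par p (n - 2 * p) k1 r l a2 Y := by
  classical
  have hp : p.Prime := Fact.out
  have hpo : Odd p := hp.odd_of_ne_two (by omega)
  have : Fintype K := Fintype.ofFinite K
  have hK' : Fintype.card K = p ^ s := by rw [← Nat.card_eq_fintype_card, hK]
  set a := n - 2 * p with ha
  have han : n = a + 2 * p := by omega
  have ha3 : 3 ≤ a := by omega
  have hao : Odd a := by
    have h : Even (2 * p) := even_two_mul p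
    rcases Nat.even_or_odd a with h1 | h1
    · exact absurd (h1.add h) (by rw [← han, Nat.not_even_iff_odd]; exact hn2)
    · exact h1
  have hpa : ¬ p ∣ a := fun h => hpn (by rw [han]; exact h.add (Dvd.intro_left 2 rfl))
  obtain ⟨k1, r, hk1, hr, hr0, hr2, hre⟩ := exists_k1 hp hp3 hao hpa
  obtain ⟨μ, hμo, hμ⟩ := exists_mu hp hp3 hK hs3 hodd
  -- powers of `μ` are never `-1`
  have h2 : (2 : K) ≠ 0 := by
    intro h
    have h' : ((2 : ℕ) : K) = 0 := by exact_mod_cast h
    rw [CharP.cast_eq_zero_iff K p] at h'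
    exact absurd (Nat.le_of_dvd (by norm_num) h') (by omega)
  have hneg : ∀ j : ℕ, (μ : K) ^ j ≠ -1 := by
    intro j hj
    have h1 : ((μ : K) ^ j) ^ orderOf μ = 1 := by
      rw [← pow_mul, mul_comm, pow_mul, ← Units.val_pow_eq_pow_val, pow_orderOf_eq_one]
      simp
    rw [hj, hμo.neg_one_pow] at h1
    apply h2
    linear_combination -h1
  set m : K := (μ : K) ^ 2 with hm
  have hm0 : m ≠ 0 := pow_ne_zero _ μ.ne_zero
  have hmj : ∀ j : ℕ, m ^ j ≠ -1 := fun j => by rw [hm, ← pow_mul]; exact hneg _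
  set l : K := - m with hl
  have hl0 : l ≠ 0 := neg_ne_zero.2 hm0
  have hl1 : l ≠ 1 := by
    intro h
    have := hmj 1
    rw [pow_one] at this
    exact this (by rw [← h, hl, neg_neg])
  have hlk : l ^ k1 ≠ 1 := by
    intro h
    rw [hl, hk1.neg_pow] at h
    exact hmj k1 (by rw [← h, neg_neg])
  have hlr : l ^ p + l ^ r ≠ 0 := by
    intro h
    rw [hl, hpo.neg_pow, hre.neg_pow] at h
    have h1 : m ^ r = m ^ p := by linear_combination h
    have h3 : μ ^ (2 * r) = μ ^ (2 * p) := by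
      apply Units.ext
      rw [Units.val_pow_eq_pow_val, Units.val_pow_eq_pow_val, pow_mul, pow_mul]
      exact h1
    rw [pow_eq_pow_iff_modEq] at h3
    have h4 : r ≡ p [MOD orderOf μ] :=
      Nat.ModEq.cancel_left_of_coprime (Nat.coprime_two_right.2 hμo) h3
    have h5 : r = p := h4.eq_of_lt_of_lt (by omega) (by omega)
    rw [h5] at hre
    exact absurd hpo (by rw [Nat.not_odd_iff_even]; exact hre)
  set a2 : K := l ^ (p * k1) with ha2
  have ha21 : a2 ≠ 1 := by
    intro h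
    apply hlk
    have h1 : (l ^ k1) ^ p = 1 := by rw [← pow_mul, mul_comm]; exact h
    have h3 : (l ^ k1 - 1) ^ p = 0 := by
      rw [sub_pow_char, h1, one_pow, sub_self]
    exact sub_eq_zero.1 (pow_eq_zero_iff hp.ne_zero |>.1 h3)
  set ν : K := (-1) ^ ((a + 2 * p - 1) / 2) * (a : K) with hν
  have ha0 : (a : K) ≠ 0 := by
    intro h
    rw [CharP.cast_eq_zero_iff K p] at h
    exact hpa h
  have hν0 : ν ≠ 0 := mul_ne_zero (pow_ne_zero _ (neg_ne_zero.2 one_ne_zero)) ha0
  have h1a : (1 : K) - a2 ≠ 0 := sub_ne_zero.2 (Ne.symm ha21)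
  set T : Finset K := ((Finset.univ : Finset K).filter
      (fun t => t ≠ 0 ∧ ∃ u, t = u * u)).erase ν with hT
  set f : K → K := fun t => 1 + ν * (1 - a2) / (t - ν) with hf
  set y0 : K := (l ^ (a + p) + a2) / (1 + l ^ (a + p)) with hy0
  set U : Finset K := ((T.image f).erase 0).erase y0 with hU
  have hTmem : ∀ t ∈ T, t ≠ ν ∧ t ≠ 0 ∧ ∃ u, t = u * u := by
    intro t ht
    have h1 := Finset.mem_erase.1 ht
    exact ⟨h1.1, (Finset.mem_filter.1 h1.2).2⟩
  have hinj : Set.InjOn f T := by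
    intro t ht t' ht' h
    have h1 : t - ν ≠ 0 := sub_ne_zero.2 (hTmem t ht).1
    have h1' : t' - ν ≠ 0 := sub_ne_zero.2 (hTmem t' ht').1
    have h3 : ν * (1 - a2) / (t - ν) = ν * (1 - a2) / (t' - ν) := by
      have : 1 + ν * (1 - a2) / (t - ν) = 1 + ν * (1 - a2) / (t' - ν) := h
      linear_combination this
    rw [div_eq_div_iff h1 h1'] at h3
    have h4 := mul_left_cancel₀ (mul_ne_zero hν0 h1a) h3
    linear_combination -h4
  have hcT : Fintype.card K ≤ 2 * T.card + 3 := by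
    have h1 := card_sq_ge (K := K)
    have h3 : ((Finset.univ : Finset K).filter (fun t => t ≠ 0 ∧ ∃ u, t = u * u)).card ≤
        T.card + 1 := by
      rw [hT]
      exact Nat.sub_le_iff_le_add.1 Finset.pred_card_le_card_erase
    omega
  have hcU : T.card ≤ U.card + 2 := by
    have h1 : T.card = (T.image f).card := (Finset.card_image_of_injOn hinj).symm
    have h3 : (T.image f).card ≤ ((T.image f).erase 0).card + 1 :=
      Nat.sub_le_iff_le_add.1 Finset.pred_card_le_card_erase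
    have h4 : ((T.image f).erase 0).card ≤ U.card + 1 := by
      rw [hU]
      exact Nat.sub_le_iff_le_add.1 Finset.pred_card_le_card_erase
    omega
  have hpv : p ^ v ≤ p ^ (s - 1) := Nat.pow_le_pow_right hp.pos (by omega)
  have hps : p ^ s = p ^ (s - 1) * p := by
    rw [← pow_succ]; congr 1; omega
  have h9 : 9 ≤ p ^ (s - 1) := by
    calc 9 = 3 ^ 2 := by norm_num
      _ ≤ p ^ 2 := Nat.pow_le_pow_left hp3 2
      _ ≤ p ^ (s - 1) := Nat.pow_le_pow_right hp.pos (by omega)
  have hps3 : 3 * p ^ (s - 1) ≤ p ^ s := by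
    rw [hps, mul_comm]; exact Nat.mul_le_mul_left _ hp3
  have hpv2 : 2 ≤ p ^ v := by
    calc 2 ≤ p ^ 1 := by rw [pow_one]; omega
      _ ≤ p ^ v := Nat.pow_le_pow_right hp.pos hv1
  have hle : p ^ v - 2 ≤ U.card := by
    rw [hK'] at hcT
    omega
  obtain ⟨Y, hYU, hYc⟩ := Finset.exists_subset_card_eq hle
  refine ⟨k1, r, l, a2, Y, by omega, ?_⟩
  have hYT : ∀ y ∈ Y, y ≠ y0 ∧ y ≠ 0 ∧ ∃ t ∈ T, f t = y := by
    intro y hy
    have h1 := Finset.mem_erase.1 (hYU hy)
    have h3 := Finset.mem_erase.1 h1.2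
    exact ⟨h1.1, h3.1, Finset.mem_image.1 h3.2⟩
  refine
    { a3 := ha3
      odd := hao
      dvd := hpa
      k1odd := hk1
      hr := hr
      hr0 := hr0
      hr2 := hr2
      l0 := hl0
      l1 := hl1
      lk := hlk
      lr := hlr
      lsq := ⟨(μ : K), by rw [hl, neg_neg, hm, sq]⟩
      a2eq := rfl
      Y0 := fun h => (hYT 0 h).2.1 rfl
      Y1 := ?_
      Y2 := ?_
      Ysq := ?_
      Yne := ?_ }
  · intro h
    obtain ⟨t, ht, he⟩ := (hYT 1 h).2.2
    have h1 : t - ν ≠ 0 := sub_ne_zero.2 (hTmem t ht).1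
    have h3 : ν * (1 - a2) / (t - ν) ≠ 0 := div_ne_zero (mul_ne_zero hν0 h1a) h1
    apply h3
    have : 1 + ν * (1 - a2) / (t - ν) = 1 := he
    linear_combination this
  · intro h
    obtain ⟨t, ht, he⟩ := (hYT a2 h).2.2
    have h1 : t - ν ≠ 0 := sub_ne_zero.2 (hTmem t ht).1
    have h3 : (1 - a2) * t = 0 := by
      have : 1 + ν * (1 - a2) / (t - ν) = a2 := he
      field_simp at this
      linear_combination this
    rcases mul_eq_zero.1 h3 with h4 | h4
    · exact h1a h4
    · exact (hTmem t ht).2.1 h4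
  · intro y hy
    obtain ⟨t, ht, he⟩ := (hYT y hy).2.2
    have h1 : t - ν ≠ 0 := sub_ne_zero.2 (hTmem t ht).1
    obtain ⟨u, hu⟩ := (hTmem t ht).2.2
    refine ⟨u * (y - 1), ?_⟩
    have he' : y = 1 + ν * (1 - a2) / (t - ν) := he.symm
    have h3 : (y - 1) * (t - ν) = ν * (1 - a2) := by
      rw [he']; field_simp; ring
    have h4 : ν * (y - a2) = t * (y - 1) := by linear_combination -h3
    have h5 : (-1) ^ ((a + 2 * p - 1) / 2) * (a : K) * ((y - 1) * (y - a2)) =
        ν * (y - a2) * (y - 1) := by rw [hν]; ring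
    rw [h5, h4, hu]
    ring
  · intro y hy h
    have h3 : y * (1 + l ^ (a + p)) = l ^ (a + p) + a2 := by linear_combination -h
    by_cases h4 : 1 + l ^ (a + p) = 0
    · rw [h4, mul_zero] at h3
      apply ha21
      linear_combination -h3 - h4
    · exact (hYT y hy).1 (by rw [hy0, eq_div_iff h4, h3])

end BCX6
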