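import Pool.Agent.BCX6.Defs
import Pool.Agent.Helper36.BCH.Balanced

/-!
# BCX6, row F3b: the balanced set of the family F3
-/

namespace BCX6

open Polynomial
open Pool.Agent.Helper36.BCH

/-- a monic polynomial which splits, with derivative in one coset at the roots, gives a balanced
set -/
theorem balanced_of_poly {K L : Type} [Field K] [Field L] [Algebra K L] [DecidableEq L]
    {P : L[X]} (hP : P.Monic) (hs : P.Splits) {lam : L} (hlam : lam ≠ 0)
    (h : ∀ x, P.eval x = 0 → ∃ k : K, k ≠ 0 ∧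
      (derivative P).eval x = lam * algebraMap K L k) :
    ∃ S : Finset L, S.card = P.natDegree ∧ Balanced K S := by
  have hnd : P.roots.Nodup := by
    rw [Multiset.nodup_iff_count_le_one]
    intro x
    rw [count_roots]
    by_contra hc
    rw [not_le, one_lt_rootMultiplicity_iff_isRoot hP.ne_zero] at hc
    obtain ⟨k, hk, he⟩ := h x hc.1
    have h0 : (derivative P).eval x = 0 := hc.2
    rw [h0] at he
    exact mul_ne_zero hlam ((_root_.map_ne_zero _).2 hk) he.symm
  refine ⟨P.roots.toFinset, ?_, lam, hlam, ?_⟩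
  · rw [Multiset.toFinset_card_of_nodup hnd, hs.natDegree_eq_card_roots]
  · intro x hx
    have hx' : x ∈ P.roots := Multiset.mem_toFinset.1 hx
    obtain ⟨k, hk, he⟩ := h x (isRoot_of_mem_roots hx')
    refine ⟨k, hk, ?_⟩
    rw [← he, hs.eval_root_derivative hP hx']
    rw [Finset.prod, Finset.erase_val, Multiset.toFinset_val, hnd.dedup]

/-- ROW F3b: the word -/
theorem balanced_F3 {p : ℕ} [Fact p.Prime] (hp3 : 3 ≤ p) {K : Type} [Field K] [CharP K p]
    {a k1 r : ℕ} {l a2 : K} {Y : Finset K} (h : Par p a k1 r l a2 Y) {L : Type} [Field L]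
    [DecidableEq L] [Algebra K L] {z : L} (hz : z ≠ 0)
    (h1 : (1 - algebraMap K L l) ^ p + z * (k1 : L) ^ p ≠ 0)
    (h2 : (algebraMap K L l) ^ a * (algebraMap K L l - 1) ^ p +
        z * (k1 * (algebraMap K L l) ^ (k1 - 1)) ^ p ≠ 0)
    (hY : ∀ y ∈ Y, (X ^ a * ((X - 1) * (X - C (algebraMap K L l))) ^ p +
        C z * (X ^ (p * k1) - C (algebraMap K L y))).Splits)
    (hs0 : (((X - 1) * (X - C (algebraMap K L l))) ^ p + C z * X ^ r).Splits)
    (hs1 : (X ^ a * (X - C (algebraMap K L l)) ^ p +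
        C z * (∑ i ∈ Finset.range k1, X ^ i) ^ p).Splits)
    (hs2 : (X ^ a * (X - 1) ^ p +
        C z * (∑ i ∈ Finset.range k1, X ^ i * C (algebraMap K L l) ^ (k1 - 1 - i)) ^ p).Splits) :
    ∃ S : Finset L, S.card = (Y.card + 2) * (a + 2 * p) + 1 ∧ Balanced K S := by
  classical
  have hp : p.Prime := Fact.out
  have : CharP L p := charP_of_injective_algebraMap (algebraMap K L).injective p
  set φ := algebraMap K L with hφ
  have hφi : Function.Injective φ := φ.injective
  set m := φ l with hm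
  have hm0 : m ≠ 0 := (_root_.map_ne_zero φ).2 h.l0
  have hm1 : m ≠ 1 := fun e => h.l1 (hφi (by rw [map_one]; exact e))
  have hk1 : 0 < k1 := h.k1odd.pos
  have ha3 := h.a3
  have hr := h.hr
  have hr2 := h.hr2
  have hr0 := h.hr0
  set F0 : L[X] := ((X - 1) * (X - C m)) ^ p + C z * X ^ r with hF0
  set F1 : L[X] := X ^ a * (X - C m) ^ p + C z * (∑ i ∈ Finset.range k1, X ^ i) ^ p with hF1
  set F2 : L[X] := X ^ a * (X - 1) ^ p +
    C z * (∑ i ∈ Finset.range k1, X ^ i * C m ^ (k1 - 1 - i)) ^ p with hF2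
  set FY : K → L[X] := fun y => X ^ a * ((X - 1) * (X - C m)) ^ p +
    C z * (X ^ (p * k1) - C (φ y)) with hFY
  set G : L[X] := X ^ a * ((X - 1) * (X - C m)) ^ p + C z * X ^ (p * k1) with hG
  -- the factorisations
  have e0 : G - C (z * φ 0) = X ^ a * F0 := by
    rw [map_zero, mul_zero, C_0, sub_zero, hG, hF0, hr, pow_add]; ring
  have e1 : G - C (z * φ 1) = (X - 1) ^ p * F1 := by
    have hg : (X ^ (p * k1) - 1 : L[X]) = (X - 1) ^ p * (∑ i ∈ Finset.range k1, X ^ i) ^ p := by
      rw [← mul_pow, mul_comm (X - 1 : L[X]), geom_sum_mul, sub_pow_char, one_pow, ← pow_mul,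
        mul_comm k1 p]
    rw [map_one, mul_one, hG, hF1, mul_pow]
    linear_combination (C z) * hg
  have e2 : G - C (z * φ a2) = (X - C m) ^ p * F2 := by
    have hg : (X ^ (p * k1) - C (φ a2) : L[X]) = (X - C m) ^ p *
        (∑ i ∈ Finset.range k1, X ^ i * C m ^ (k1 - 1 - i)) ^ p := by
      rw [← mul_pow, mul_comm (X - C m : L[X]), geom_sum₂_mul, sub_pow_char, ← pow_mul,
        ← pow_mul, mul_comm k1 p, h.a2eq, map_pow, C_pow]
    rw [C_mul, hG, hF2, mul_pow]
    linear_combination (C z) * hg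
  have eY : ∀ y, G - C (z * φ y) = FY y := by
    intro y
    rw [hG, hFY, C_mul]; ring
  -- the special values
  have ha20 : a2 ≠ 0 := by rw [h.a2eq]; exact pow_ne_zero _ h.l0
  have ha21 : a2 ≠ 1 := by
    intro e
    apply h.lk
    have h3 : (l ^ k1 - 1) ^ p = 0 := by
      rw [sub_pow_char, ← pow_mul, mul_comm k1 p, ← h.a2eq, e, one_pow, sub_self]
    exact sub_eq_zero.1 ((pow_eq_zero_iff hp.ne_zero).1 h3)
  set Y1 : Finset K := insert 0 (insert 1 (insert a2 Y)) with hY1
  have hn2 : a2 ∉ Y := h.Y2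
  have hn1 : (1 : K) ∉ insert a2 Y := by
    rw [Finset.mem_insert, not_or]; exact ⟨Ne.symm ha21, h.Y1⟩
  have hn0 : (0 : K) ∉ insert 1 (insert a2 Y) := by
    rw [Finset.mem_insert, Finset.mem_insert, not_or, not_or]
    exact ⟨zero_ne_one, Ne.symm ha20, h.Y0⟩
  set P : L[X] := X * F0 * F1 * F2 * ∏ y ∈ Y, FY y with hP
  have hid : ∏ y ∈ Y1, (G - C (z * φ y)) =
      X ^ (a - 1) * ((X - 1) * (X - C m)) ^ p * P := by
    rw [hY1, Finset.prod_insert hn0, Finset.prod_insert hn1, Finset.prod_insert hn2, e0, e1, e2,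
      Finset.prod_congr rfl (fun y _ => eY y), hP]
    have hxa : (X ^ a : L[X]) = X ^ (a - 1) * X := by
      rw [← pow_succ]; congr 1; omega
    rw [hxa, mul_pow]
    ring
  have hdG : derivative G = C (a : L) * X ^ (a - 1) * ((X - 1) * (X - C m)) ^ p := by
    rw [hG, derivative_add, derivative_mul, derivative_X_pow, derivative_pow, derivative_C_mul,
      derivative_X_pow]
    simp
  have hQ : ∀ x : L, eval x (((X - 1) * (X - C m)) ^ p : L[X]) = ((x - 1) * (x - m)) ^ p := by
    intro x; simp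
  -- derivative at the nonzero roots
  have hroot : ∀ x : L, P.eval x = 0 → x ≠ 0 → x ≠ 1 → x ≠ m → ∃ k : K, k ≠ 0 ∧
      (derivative P).eval x = z ^ (Y.card + 2) * φ k := by
    intro x hx hx0 hx1 hxm
    have hq0 : ((x - 1) * (x - m)) ^ p ≠ 0 :=
      pow_ne_zero _ (mul_ne_zero (sub_ne_zero.2 hx1) (sub_ne_zero.2 hxm))
    have hprod : ∏ y ∈ Y1, (G.eval x - z * φ y) = 0 := by
      have := congrArg (eval x) hid
      rw [eval_prod, eval_mul, hx, mul_zero] at this
      simpa using this
    obtain ⟨y, hy, hGy⟩ := Finset.prod_eq_zero_iff.1 hprod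
    have hGy' : G.eval x = z * φ y := sub_eq_zero.1 hGy
    refine ⟨a * ∏ y' ∈ Y1.erase y, (y - y'), ?_, ?_⟩
    · refine mul_ne_zero ?_ (Finset.prod_ne_zero_iff.2 fun y' hy' =>
        sub_ne_zero.2 (Finset.mem_erase.1 hy').1.symm)
      intro e
      rw [CharP.cast_eq_zero_iff K p] at e
      exact h.dvd e
    · have hd := congrArg (fun F => eval x (derivative F)) hid
      rw [← Finset.mul_prod_erase _ _ hy, derivative_mul, derivative_mul] at hd
      simp only [eval_add, eval_mul, hx, mul_zero, zero_add, derivative_sub, derivative_C,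
        sub_zero, hdG, eval_sub, eval_C, eval_pow, eval_X, hGy', sub_self, zero_mul, add_zero,
        eval_one, eval_prod] at hd
      have hxa : x ^ (a - 1) ≠ 0 := pow_ne_zero _ hx0
      have hcard : (Y1.erase y).card = Y.card + 2 := by
        rw [Finset.card_erase_of_mem hy, hY1, Finset.card_insert_of_notMem hn0,
          Finset.card_insert_of_notMem hn1, Finset.card_insert_of_notMem hn2]
        omega
      have hpr : ∏ y' ∈ Y1.erase y, (z * φ y - z * φ y') =
          z ^ (Y.card + 2) * φ (∏ y' ∈ Y1.erase y, (y - y')) := by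
        rw [map_prod, ← hcard, ← Finset.prod_const, ← Finset.prod_mul_distrib]
        refine Finset.prod_congr rfl fun y' _ => ?_
        rw [map_sub]; ring
      rw [hpr] at hd
      apply mul_left_cancel₀ (mul_ne_zero hxa hq0)
      rw [map_mul φ, map_natCast φ]
      linear_combination -hd
  -- values at `0`, `1`, `m`
  have S0 : ∀ x, F0.eval x = ((x - 1) * (x - m)) ^ p + z * x ^ r := by
    intro x; rw [hF0]; simp
  have S1 : ∀ x, F1.eval x = x ^ a * (x - m) ^ p + z * (∑ i ∈ Finset.range k1, x ^ i) ^ p := by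
    intro x; rw [hF1]; simp [eval_finsetSum]
  have S2 : ∀ x, F2.eval x = x ^ a * (x - 1) ^ p +
      z * (∑ i ∈ Finset.range k1, x ^ i * m ^ (k1 - 1 - i)) ^ p := by
    intro x; rw [hF2]; simp [eval_finsetSum]
  have SY : ∀ y x, (FY y).eval x = x ^ a * ((x - 1) * (x - m)) ^ p +
      z * (x ^ (p * k1) - φ y) := by
    intro y x; rw [hFY]; simp
  have hmk : m ^ k1 ≠ 1 := by
    intro e
    exact h.lk (hφi (by rw [map_pow, map_one]; exact e))
  have hmpk : m ^ (p * k1) = φ a2 := by rw [h.a2eq, map_pow]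
  have ha0 : a ≠ 0 := by omega
  have hp0 : p ≠ 0 := hp.ne_zero
  have v00 : F0.eval 0 = m ^ p := by
    rw [S0, zero_pow hr0.ne']; ring
  have v10 : F1.eval 0 = z := by
    rw [S1, zero_pow ha0, zero_geom_sum, if_neg hk1.ne']; ring
  have v20 : F2.eval 0 = z * (m ^ (k1 - 1)) ^ p := by
    rw [S2, zero_pow ha0, Finset.sum_eq_single_of_mem 0 (Finset.mem_range.2 hk1)]
    · simp
    · intro i _ hi
      rw [zero_pow hi, zero_mul]
  have vY0 : ∀ y, (FY y).eval 0 = z * φ (-y) := by
    intro y
    rw [SY, zero_pow ha0, zero_pow (by positivity), map_neg]; ring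
  have n1 : ∀ x, P.eval x = x * F0.eval x * F1.eval x * F2.eval x * ∏ y ∈ Y, (FY y).eval x := by
    intro x
    rw [hP, eval_mul, eval_mul, eval_mul, eval_mul, eval_X, eval_prod]
  have hP1 : P.eval 1 ≠ 0 := by
    rw [n1]
    refine mul_ne_zero (mul_ne_zero (mul_ne_zero (mul_ne_zero one_ne_zero ?_) ?_) ?_) ?_
    · rw [S0]; simpa [hp0] using hz
    · rw [S1]; simpa using h1
    · rw [S2, sub_self, zero_pow hp0, mul_zero, zero_add]
      refine mul_ne_zero hz (pow_ne_zero _ fun e => ?_)
      have := geom_sum₂_mul (1 : L) m k1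
      rw [e, zero_mul, one_pow] at this
      exact hmk (by linear_combination this)
    · refine Finset.prod_ne_zero_iff.2 fun y hy => ?_
      rw [SY, sub_self, zero_mul, zero_pow hp0, mul_zero, zero_add, one_pow]
      refine mul_ne_zero hz (sub_ne_zero.2 fun e => h.Y1 ?_)
      have : y = 1 := hφi (by rw [map_one]; exact e.symm)
      rwa [this] at hy
  have hPm : P.eval m ≠ 0 := by
    rw [n1]
    refine mul_ne_zero (mul_ne_zero (mul_ne_zero (mul_ne_zero hm0 ?_) ?_) ?_) ?_
    · rw [S0, sub_self, mul_zero, zero_pow hp0, zero_add]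
      exact mul_ne_zero hz (pow_ne_zero _ hm0)
    · rw [S1, sub_self, zero_pow hp0, mul_zero, zero_add]
      refine mul_ne_zero hz (pow_ne_zero _ fun e => ?_)
      have := geom_sum_mul m k1
      rw [e, zero_mul] at this
      exact hmk (by linear_combination -this)
    · rw [S2]
      have : ∑ i ∈ Finset.range k1, m ^ i * m ^ (k1 - 1 - i) = k1 * m ^ (k1 - 1) := by
        rw [Finset.sum_congr rfl (g := fun _ => m ^ (k1 - 1)), Finset.sum_const,
          Finset.card_range, nsmul_eq_mul]
        intro i hi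
        rw [← pow_add]
        congr 1
        have := Finset.mem_range.1 hi
        omega
      rw [this]
      exact h2
    · refine Finset.prod_ne_zero_iff.2 fun y hy => ?_
      rw [SY, sub_self, mul_zero, zero_pow hp0, mul_zero, zero_add, hmpk]
      refine mul_ne_zero hz (sub_ne_zero.2 fun e => h.Y2 ?_)
      rwa [hφi e]
  -- the derivative at `0`
  have hP0 : (derivative P).eval 0 = z ^ (Y.card + 2) * φ (a2 * ∏ y ∈ Y, (-y)) := by
    have hP' : P = X * (F0 * F1 * F2 * ∏ y ∈ Y, FY y) := by rw [hP]; ring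
    have hX : ∀ R : L[X], eval 0 (derivative (X * R)) = eval 0 R := by
      intro R
      rw [derivative_mul, derivative_X, one_mul, eval_add, eval_mul (p := X), eval_X, zero_mul,
        add_zero]
    rw [hP', hX, eval_mul, eval_mul, eval_mul, eval_prod, v00, v10, v20,
      Finset.prod_congr rfl (fun y _ => vY0 y), Finset.prod_mul_distrib, Finset.prod_const,
      map_mul φ, map_prod φ, h.a2eq, map_pow φ]
    have : (m ^ (p * k1) : L) = m ^ p * (m ^ (k1 - 1)) ^ p := by
      rw [← pow_mul, ← pow_add]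
      congr 1
      obtain ⟨j, rfl⟩ : ∃ j, k1 = j + 1 := ⟨k1 - 1, by omega⟩
      simp; ring
    rw [← hm, this]
    ring
  -- degrees
  have q1 : ((X - 1) * (X - C m) : L[X]).Monic := by
    rw [← C_1]; exact (monic_X_sub_C 1).mul (monic_X_sub_C m)
  have q1' : ((X - 1) * (X - C m) : L[X]).natDegree = 2 := by
    rw [← C_1, (monic_X_sub_C 1).natDegree_mul (monic_X_sub_C m), natDegree_X_sub_C,
      natDegree_X_sub_C]
  have key : ∀ (A B : L[X]) (d : ℕ), A.Monic → A.natDegree = d → B.natDegree < d →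
      (A + B).Monic ∧ (A + B).natDegree = d := by
    intro A B d hA hd hB
    have hlt : B.degree < A.degree := degree_lt_degree (by rw [hd]; exact hB)
    exact ⟨hA.add_of_left hlt, by rw [natDegree_add_eq_left_of_degree_lt hlt, hd]⟩
  have d0 : F0.Monic ∧ F0.natDegree = 2 * p := by
    refine key _ _ _ (q1.pow p) (by rw [q1.natDegree_pow, q1', mul_comm]) ?_
    exact lt_of_le_of_lt (natDegree_C_mul_X_pow_le _ _) hr2
  have dA : ∀ c : L, (X ^ a * (X - C c) ^ p : L[X]).Monic ∧
      (X ^ a * (X - C c) ^ p : L[X]).natDegree = a + p := by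
    intro c
    refine ⟨(monic_X_pow a).mul ((monic_X_sub_C c).pow p), ?_⟩
    rw [(monic_X_pow a).natDegree_mul ((monic_X_sub_C c).pow p), natDegree_X_pow,
      (monic_X_sub_C c).natDegree_pow, natDegree_X_sub_C, mul_one]
  have hlt1 : p * (k1 - 1) < a + p := by
    obtain ⟨j, rfl⟩ : ∃ j, k1 = j + 1 := ⟨k1 - 1, by omega⟩
    rw [Nat.mul_add] at hr
    simp only [Nat.add_sub_cancel]
    omega
  have d1 : F1.Monic ∧ F1.natDegree = a + p := by
    refine key _ _ _ (dA m).1 (dA m).2 (lt_of_le_of_lt ?_ hlt1)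
    refine (natDegree_C_mul_le _ _).trans (natDegree_pow_le.trans (Nat.mul_le_mul_left _ ?_))
    refine natDegree_sum_le_of_forall_le _ _ fun i hi => ?_
    rw [natDegree_X_pow]
    have := Finset.mem_range.1 hi
    omega
  have d2 : F2.Monic ∧ F2.natDegree = a + p := by
    have := dA 1
    rw [C_1] at this
    refine key _ _ _ this.1 this.2 (lt_of_le_of_lt ?_ hlt1)
    refine (natDegree_C_mul_le _ _).trans (natDegree_pow_le.trans (Nat.mul_le_mul_left _ ?_))
    refine natDegree_sum_le_of_forall_le _ _ fun i hi => ?_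
    rw [← C_pow]
    refine (natDegree_mul_C_le _ _).trans ?_
    rw [natDegree_X_pow]
    have := Finset.mem_range.1 hi
    omega
  have dY : ∀ y, (FY y).Monic ∧ (FY y).natDegree = a + 2 * p := by
    intro y
    refine key _ _ _ ((monic_X_pow a).mul (q1.pow p)) ?_ ?_
    · rw [(monic_X_pow a).natDegree_mul (q1.pow p), natDegree_X_pow, q1.natDegree_pow, q1',
        mul_comm p 2]
    · refine lt_of_le_of_lt (natDegree_C_mul_le _ _) ?_
      rw [natDegree_X_pow_sub_C]
      omega
  have mY : (∏ y ∈ Y, FY y).Monic := monic_prod_of_monic _ _ fun y _ => (dY y).1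
  have m1 : (X * F0 : L[X]).Monic := monic_X.mul d0.1
  have m2 : (X * F0 * F1 : L[X]).Monic := m1.mul d1.1
  have m3 : (X * F0 * F1 * F2 : L[X]).Monic := m2.mul d2.1
  have mP : P.Monic := m3.mul mY
  have dP : P.natDegree = (Y.card + 2) * (a + 2 * p) + 1 := by
    rw [hP, m3.natDegree_mul mY, m2.natDegree_mul d2.1, m1.natDegree_mul d1.1,
      monic_X.natDegree_mul d0.1, natDegree_X, d0.2, d1.2, d2.2,
      natDegree_prod_of_monic _ _ (fun y _ => (dY y).1), Finset.sum_congr rfl
        (fun y _ => (dY y).2), Finset.sum_const, smul_eq_mul]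
    ring
  have sP : P.Splits := by
    refine (((Splits.X.mul hs0).mul hs1).mul hs2).mul (Splits.prod fun y hy => ?_)
    exact hY y hy
  obtain ⟨S, hS, hB⟩ := balanced_of_poly (K := K) mP sP (pow_ne_zero (Y.card + 2) hz) (by
    intro x hx
    by_cases hx0 : x = 0
    · rw [hx0]
      refine ⟨_, ?_, hP0⟩
      refine mul_ne_zero ha20 (Finset.prod_ne_zero_iff.2 fun y hy => neg_ne_zero.2 ?_)
      rintro rfl
      exact h.Y0 hy
    · exact hroot x hx hx0 (fun e => hP1 (by rw [← e]; exact hx))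
        (fun e => hPm (by rw [← e]; exact hx)))
  exact ⟨S, by rw [hS, dP], hB⟩

end BCX6
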