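import Pool.Agent.BCX6.FamOne
import Pool.Agent.BCX6.FamThree
import Pool.Agent.BCX6.Param
import Pool.Agent.BCX6.Word
import Pool.Agent.BCX.Final
import Pool.Agent.BCX.BalP

/-!
# The theorem for `δ = p ^ v * n`
-/

namespace BCX6

open Polynomial Pool.Agent.BCX Pool.Agent.Helper36.BCH

namespace Main

/-- In a field with `p ^ s` elements, `s` even, the elements of the prime field are squares. -/
theorem isSquare_of_even {p : ℕ} [Fact p.Prime] (hp3 : 3 ≤ p) {K : Type} [Field K] [Finite K]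
    [CharP K p] {s : ℕ} (hK : Nat.card K = p ^ s) (hs : Even s) (m : ℤ) :
    IsSquare (m : K) := by
  have hp : p.Prime := Fact.out
  have hfin : Fintype K := Fintype.ofFinite K
  by_cases hm : (m : K) = 0
  · rw [hm]
    exact ⟨0, by simp⟩
  have hchar : ringChar K ≠ 2 := by
    rw [ringChar.eq K p]
    omega
  rw [FiniteField.isSquare_iff hchar hm, ← Nat.card_eq_fintype_card, hK]
  have h1 : (m : K) ^ p = m := by
    have := map_intCast (frobenius K p) m
    rwa [frobenius_def] at this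
  have h2 : (m : K) ^ (p - 1) = 1 := by
    have h3 : (m : K) ^ (p - 1) * m = 1 * m := by
      rw [← pow_succ, one_mul]
      have : p - 1 + 1 = p := by omega
      rw [this, h1]
    exact mul_right_cancel₀ hm h3
  have h4 : 2 * (p - 1) ∣ p ^ s - 1 := by
    obtain ⟨j, rfl⟩ := hs
    have h5 : p ^ (j + j) = (p ^ 2) ^ j := by rw [← pow_mul]; ring_nf
    have h6 : 2 * (p - 1) ∣ p ^ 2 - 1 := by
      obtain ⟨i, hi⟩ := hp.odd_of_ne_two (by omega : p ≠ 2)
      have h7 : p ^ 2 - 1 = (p + 1) * (p - 1) := by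
        have := Nat.sq_sub_sq p 1
        simpa using this
      rw [h7]
      exact Nat.mul_dvd_mul_right ⟨i + 1, by omega⟩ _
    rw [h5]
    have h8 := Nat.sub_dvd_pow_sub_pow (p ^ 2) 1 j
    rw [one_pow] at h8
    exact h6.trans h8
  have h9 : p - 1 ∣ p ^ s / 2 := by
    obtain ⟨c, hc⟩ := h4
    refine ⟨c, ?_⟩
    have h10 : 0 < p ^ s := pow_pos hp.pos _
    have h11 : p ^ s = 2 * ((p - 1) * c) + 1 := by
      rw [← mul_assoc]
      omega
    rw [h11]
    omega
  obtain ⟨c, hc⟩ := h9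
  rw [hc, pow_mul, h2, one_pow]

/-- balanced sets of the right cardinality give the theorem -/
theorem of_balanced {K : Type} [Field K] {δ : ℕ} (hδ : 2 ≤ δ)
    (h : ∃ Q0 : ℕ, ∀ (L : Type) [Field L] [Finite L] [Algebra K L] [DecidableEq L],
      Q0 ≤ Nat.card L → ∃ S : Finset L, S.card = δ + 1 ∧ Balanced K S) :
    ∃ Q0 : ℕ, ∀ (L : Type) [Field L] [Finite L] [Algebra K L] (α : L), IsPrimitiveElement α →
      Q0 ≤ Nat.card L → IsMinDist K α δ δ := by
  classical
  obtain ⟨Q0, hQ0⟩ := h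
  refine ⟨Q0, fun L _ _ _ α hα hL => ?_⟩
  obtain ⟨S, hS, hb⟩ := hQ0 L hL
  exact hb.isMinDist hα (by omega) hS

end Main

open Main in
/-- ROW Z: the theorem for `δ = p ^ v n` -/
theorem main6 {p : ℕ} [Fact p.Prime] (hp3 : 3 ≤ p) {K : Type} [Field K] [Finite K] [CharP K p]
    {s v n δ : ℕ} (hK : Nat.card K = p ^ s) (hpn : ¬ p ∣ n) (hδ : δ = p ^ v * n) (hδ2 : 2 ≤ δ)
    (hv : v < s) (h : v + 2 ≤ s ∨ 2 * p + 3 ≤ n) :
    ∃ Q0 : ℕ, ∀ (L : Type) [Field L] [Finite L] [Algebra K L] (α : L), IsPrimitiveElement α →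
      Q0 ≤ Nat.card L → IsMinDist K α δ δ := by
  classical
  have hp : p.Prime := Fact.out
  have hfin : Fintype K := Fintype.ofFinite K
  rcases lt_or_ge δ (p ^ s) with hlt | hge
  · -- points of `K`
    refine of_balanced hδ2 ⟨0, fun L _ _ _ _ _ => ?_⟩
    have h1 : δ + 1 ≤ (Finset.univ : Finset K).card := by
      rw [Finset.card_univ, ← Nat.card_eq_fintype_card, hK]
      omega
    obtain ⟨A, -, hA⟩ := Finset.exists_subset_card_eq h1
    refine ⟨A.image (algebraMap K L), ?_, balanced_image_algebraMap A⟩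
    rw [Finset.card_image_of_injective _ (algebraMap K L).injective, hA]
  rcases Nat.eq_zero_or_pos v with rfl | hv1
  · -- `p` does not divide `δ`
    rw [pow_zero, one_mul] at hδ
    obtain ⟨Q0, hQ0⟩ := Pool.Agent.BCX.main p hδ2 (by rwa [hδ])
    exact ⟨Q0, fun L _ _ _ α hα hL => hQ0 K L α hα hL⟩
  -- `n ≥ 2 p + 3`
  have hn : 2 * p + 3 ≤ n := by
    rcases h with h | h
    · have h1 : p ^ s = p ^ v * p ^ (s - v) := by
        rw [← pow_add]
        congr 1
        omega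
      have h2 : p ^ (s - v) ≤ n := by
        rw [hδ, h1] at hge
        exact Nat.le_of_mul_le_mul_left hge (pow_pos hp.pos v)
      have h3 : p ^ 2 ≤ p ^ (s - v) := Nat.pow_le_pow_right hp.pos (by omega)
      have h4 : n ≠ p ^ (s - v) := by
        rintro rfl
        exact hpn (dvd_pow_self p (by omega))
      have h5 : p ^ 2 < n := lt_of_le_of_ne (h3.trans h2) (by
        intro h6
        exact h4 (le_antisymm (h6 ▸ h3) h2))
      nlinarith
    · exact h
  have hnK : (n : K) ≠ 0 := by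
    rw [Ne, CharP.cast_eq_zero_iff K p]
    exact hpn
  -- the family F1
  have hF1 : (Even n ∨ (Odd n ∧ IsSquare ((-1) ^ ((n - 1) / 2) * (n : K)))) →
      ∃ Q0 : ℕ, ∀ (L : Type) [Field L] [Finite L] [Algebra K L] (α : L), IsPrimitiveElement α →
      Q0 ≤ Nat.card L → IsMinDist K α δ δ := by
    intro h1
    obtain ⟨S, hS, hS2⟩ := exists_squares hp3 hK hv
    obtain ⟨Q0, hQ0⟩ := splitQ_F1 hp3 (K := K) (n := n) (by omega) hpn S
      (fun c hc => (hS2 c hc).1) (h1.imp (fun h2 => ⟨h2, fun c hc => (hS2 c hc).2⟩) id)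
    refine of_balanced hδ2 ⟨Q0, fun L _ _ _ _ hL => ?_⟩
    obtain ⟨T, hT, hb⟩ := (hQ0 L hL).balanced (fun c hc => (hS2 c hc).1) hnK
    refine ⟨T, ?_, hb⟩
    rw [hT, hS, hδ, mul_comm]
  rcases Nat.even_or_odd n with hev | hodd
  · exact hF1 (Or.inl hev)
  by_cases hsq : IsSquare ((-1) ^ ((n - 1) / 2) * (n : K))
  · exact hF1 (Or.inr ⟨hodd, hsq⟩)
  -- `s` is odd
  have hsodd : Odd s := by
    rw [← Nat.not_even_iff_odd]
    intro hse
    apply hsq
    have := isSquare_of_even hp3 hK hse ((-1) ^ ((n - 1) / 2) * (n : ℤ))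
    push_cast at this
    exact this
  have hs3 : 3 ≤ s := by
    obtain ⟨i, hi⟩ := hsodd
    omega
  obtain ⟨k1, r, l, a2, Y, hY, hpar⟩ := exists_par hp3 hK hs3 hsodd hn hodd hpn hv1 hv
  obtain ⟨Q0, hQ0⟩ := exists_F3 hp3 hpar
  refine of_balanced hδ2 ⟨Q0, fun L _ _ _ _ hL => ?_⟩
  obtain ⟨z, hz, h1, h2, hsY, hs0, hs1, hs2⟩ := hQ0 L hL
  obtain ⟨S, hS, hb⟩ := balanced_F3 hp3 hpar hz h1 h2 hsY hs0 hs1 hs2
  refine ⟨S, ?_, hb⟩
  rw [hS, hY, hδ]
  congr 2
  omega

end BCX6
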