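import Pool.Agent.BCX.Final
import Pool.Agent.BCX.FinalG
import Pool.Agent.BCX.ConvG
import Pool.Agent.BCX6.Main
import Pool.Agent.BCX4.FinalD

/-!
# Row FIN: the final theorem for all fields of constants and all designed distances
-/

set_option autoImplicit false

namespace BCX6

open Pool.Agent.BCX Pool.Agent.Helper36.BCH

/-- For all large extensions `L` of `K` the minimum distance is the designed distance `δ`. -/
def Attained (K : Type) [Field K] [Finite K] (δ : ℕ) : Prop :=
  ∃ Q0 : ℕ, ∀ (L : Type) [Field L] [Finite L] [Algebra K L] (α : L), IsPrimitiveElement α →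
    Q0 ≤ Nat.card L → IsMinDist K α δ δ

/-- small designed distances -/
theorem attained_small {K : Type} [Field K] [Finite K] {δ : ℕ} (hδ : 2 ≤ δ)
    (h : δ < Nat.card K) : Attained K δ := by
  classical
  refine ⟨0, fun L _ _ _ α hα _ => ?_⟩
  have : Fintype K := Fintype.ofFinite K
  obtain ⟨A, hA⟩ := Finset.exists_subset_card_eq (s := (Finset.univ : Finset K)) (n := δ + 1)
    (by rw [Finset.card_univ, ← Nat.card_eq_fintype_card]; omega)
  refine (balanced_image_algebraMap (K := K) (L := L) A).isMinDist hα (by omega) ?_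
  rw [Finset.card_image_of_injective _ (algebraMap K L).injective, hA.2]

/-- The theorem for one field and one designed distance; the case `δ = p ^ (s - 1) n` with
`p < n < 2 p + 3` is a hypothesis. -/
theorem attained_of {K : Type} [Field K] [Finite K] {δ : ℕ} (hδ : 2 ≤ δ) (hq : ¬ Nat.card K ∣ δ)
    (h4 : ∀ p s n : ℕ, p.Prime → 3 ≤ p → CharP K p → Nat.card K = p ^ (s + 1) →
      δ = p ^ s * n → ¬ p ∣ n → p < n → n < 2 * p + 3 → Attained K δ) : Attained K δ := by
  obtain ⟨p, hpK⟩ := CharP.exists K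
  have hp : p.Prime := CharP.char_is_prime K p
  have hpf : Fact p.Prime := ⟨hp⟩
  have hfin : Fintype K := Fintype.ofFinite K
  obtain ⟨s, hs0, hs⟩ := FiniteField.card K p
  have hK : Nat.card K = p ^ (s : ℕ) := by rw [Nat.card_eq_fintype_card, hs]
  rcases hp.eq_two_or_odd with h2 | hodd
  · subst h2
    exact mainG K hδ hq
  have hp3 : 3 ≤ p := by
    have := hp.two_le
    omega
  obtain ⟨v, n, hpn, hδn⟩ := Nat.exists_eq_pow_mul_and_not_dvd (n := δ) (by omega) p hp.ne_one
  have hv : v < (s : ℕ) := by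
    by_contra hv
    exact hq (by rw [hK, hδn]; exact (pow_dvd_pow p (not_lt.1 hv)).mul_right n)
  by_cases h : v + 2 ≤ (s : ℕ) ∨ 2 * p + 3 ≤ n
  · exact main6 hp3 hK hpn hδn hδ hv h
  push Not at h
  have hvs : v + 1 = (s : ℕ) := by omega
  rcases lt_trichotomy n p with hnp | hnp | hnp
  · refine attained_small hδ ?_
    rw [hK, hδn, ← hvs, pow_succ]
    exact Nat.mul_lt_mul_of_pos_left hnp (pow_pos hp.pos v)
  · exact absurd (hnp ▸ dvd_refl n) hpn
  · exact h4 p v n hp hp3 hpK (by rw [hK, hvs]) hδn hpn hnp h.2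

/-- the equivalence -/
theorem iff_of_attained {K : Type} [Field K] [Finite K] {δ : ℕ} (hδ : 2 ≤ δ)
    (h : ¬ Nat.card K ∣ δ → Attained K δ) :
    ∃ Q0 : ℕ, ∀ (L : Type) [Field L] [Finite L] [Algebra K L] (α : L), IsPrimitiveElement α →
      Q0 ≤ Nat.card L → (IsMinDist K α δ δ ↔ ¬ Nat.card K ∣ δ) := by
  by_cases hq : Nat.card K ∣ δ
  · exact ⟨0, fun L _ _ _ α hα _ => ⟨fun hd => absurd hd (not_isMinDist_of_dvd hα hδ hq),
      fun h => absurd hq h⟩⟩
  · obtain ⟨Q0, hQ⟩ := h hq
    exact ⟨Q0, fun L _ _ _ α hα hL => ⟨fun _ => hq, fun _ => hQ L α hα hL⟩⟩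

/-- The minimum distance is the designed distance for all large extensions, if the order of the
field of constants does not divide it. -/
theorem attained {K : Type} [Field K] [Finite K] {δ : ℕ} (hδ : 2 ≤ δ)
    (hq : ¬ Nat.card K ∣ δ) : Attained K δ := by
  refine attained_of hδ hq fun p s n hp hp3 hch hK hδn hpn _ _ => ?_
  have : Fact p.Prime := ⟨hp⟩
  rcases Nat.eq_zero_or_pos s with hs | hs
  · subst hs
    rw [pow_zero, one_mul] at hδn
    obtain ⟨Q0, hQ⟩ := Pool.Agent.BCX.main p hδ (hδn ▸ hpn)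
    exact ⟨Q0, fun L _ _ _ α hα hL => hQ K L α hα hL⟩
  · have h := Pool.Agent.BCX4.mainD hK hp3 (by omega) hpn
    rw [Nat.add_sub_cancel, ← hδn] at h
    exact h

/-- The final theorem. -/
theorem main_all {K : Type} [Field K] [Finite K] {δ : ℕ} (hδ : 2 ≤ δ) :
    ∃ Q0 : ℕ, ∀ (L : Type) [Field L] [Finite L] [Algebra K L] (α : L), IsPrimitiveElement α →
      Q0 ≤ Nat.card L → (IsMinDist K α δ δ ↔ ¬ Nat.card K ∣ δ) :=
  iff_of_attained hδ fun hq => attained hδ hq

end BCX6
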