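import Pool.Agent.BCX6.AbsIrr
import Pool.Agent.BCX.SpecialF
import Mathlib.FieldTheory.Minpoly.IsConjRoot

/-!
# Specialisations for which finitely many polynomials over `k[z]` split

`k` is a finite field, `kb` its algebraic closure, `K = k(z)`, `Kb = kb(z)` and `E` an algebraically
closed algebraic extension of `Kb`.  If every automorphism of `E` over `K` agrees on the roots of
given polynomials with an automorphism over `Kb`, then for all large finite extensions `L` of `k`
there is a value of `z` in `L` for which all the polynomials split.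
-/

set_option autoImplicit false

namespace Pool.Agent.BCX6

open Polynomial Pool.Agent.BCX

/-- the minimal polynomial does not change if the orbits do not -/
theorem minpoly_map_eq {K Kb E : Type} [Field K] [Field Kb] [Field E] [Algebra K Kb] [Algebra K E]
    [Algebra Kb E] [IsScalarTower K Kb E] [Normal K E] (θ : E) (hθ : IsSeparable K θ)
    (H : ∀ σ : E ≃ₐ[K] E, ∃ τ : E ≃ₐ[Kb] E, τ θ = σ θ) :
    (minpoly K θ).map (algebraMap K Kb) = minpoly Kb θ := by
  have hint : IsIntegral K θ := hθ.isIntegral
  have hintb : IsIntegral Kb θ := hint.tower_top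
  have h1 : minpoly Kb θ ∣ (minpoly K θ).map (algebraMap K Kb) :=
    minpoly.dvd_map_of_isScalarTower K Kb θ
  have hsp : ((minpoly K θ).map (algebraMap K E)).Splits := Normal.splits inferInstance θ
  have hmon : ((minpoly K θ).map (algebraMap K E)).Monic := (minpoly.monic hint).map _
  have hnd : ((minpoly K θ).map (algebraMap K E)).roots.Nodup :=
    nodup_roots (Polynomial.Separable.map hθ)
  have hprod : ((minpoly K θ).map (algebraMap K E)) =
      (((minpoly K θ).map (algebraMap K E)).roots.map (fun x => X - C x)).prod :=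
    hsp.eq_prod_roots_of_monic hmon
  have hne : (minpoly Kb θ).map (algebraMap Kb E) ≠ 0 := ((minpoly.monic hintb).map _).ne_zero
  have h2 : (minpoly K θ).map (algebraMap K E) ∣ (minpoly Kb θ).map (algebraMap Kb E) := by
    rw [hprod, Multiset.prod_X_sub_C_dvd_iff_le_roots hne, Multiset.le_iff_subset hnd]
    intro y hy
    rw [mem_roots hmon.ne_zero, IsRoot.def, eval_map_algebraMap] at hy
    rw [mem_roots hne, IsRoot.def, eval_map_algebraMap]
    have hc : IsConjRoot K θ y := isConjRoot_of_aeval_eq_zero hint hy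
    obtain ⟨σ, hσ⟩ := isConjRoot_iff_exists_algEquiv.1 hc.symm
    obtain ⟨τ, hτ⟩ := H σ
    rw [← hσ, ← hτ, aeval_algHom_apply τ, minpoly.aeval, map_zero]
  have h3 : (minpoly K θ).map (algebraMap K Kb) ∣ minpoly Kb θ := by
    rw [← map_dvd_map' (algebraMap Kb E), Polynomial.map_map, ← IsScalarTower.algebraMap_eq]
    exact h2
  exact eq_of_monic_of_associated ((minpoly.monic hint).map _) (minpoly.monic hintb)
    (associated_of_dvd_dvd h3 h1)

/-- the primitive element, integral over the ring, in the field generated by the elements -/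
theorem exists_primitive {R K0 E : Type} [CommRing R] [IsDomain R] [Field K0] [Field E]
    [Algebra R K0] [IsFractionRing R K0] [Algebra K0 E] [Algebra R E] [IsScalarTower R K0 E]
    (S : Finset E) (hS : ∀ s ∈ S, IsSeparable K0 s) :
    ∃ θ : E, IsIntegral R θ ∧ IsSeparable K0 θ ∧ θ ∈ IntermediateField.adjoin K0 (S : Set E) ∧
      ∀ s ∈ S, ∃ g : K0[X], aeval θ g = s := by
  let K := IntermediateField.adjoin K0 (S : Set E)
  have hfin : FiniteDimensional K0 K :=
    IntermediateField.finiteDimensional_adjoin (fun s hs => (hS s hs).isIntegral)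
  have hsep : Algebra.IsSeparable K0 K :=
    (IntermediateField.isSeparable_adjoin_iff_isSeparable K0 E).2 hS
  obtain ⟨α, hα⟩ := Field.exists_primitive_element K0 K
  have halg : IsAlgebraic R α :=
    (IsFractionRing.isAlgebraic_iff R K0 K).2 (Algebra.IsAlgebraic.isAlgebraic α)
  obtain ⟨c, hc0, hc⟩ := halg.exists_integral_multiple
  obtain ⟨β, hβ, hβ'⟩ : ∃ β : K, IsIntegral R β ∧ algebraMap R K0 c • α = β :=
    ⟨c • α, hc, algebraMap_smul K0 c α⟩
  refine ⟨K.val β, ?_, ?_, β.2, ?_⟩
  · exact hβ.map (K.val.restrictScalars R)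
  · exact (isSeparable_map_iff K.val K.val.injective).2 (Algebra.IsSeparable.isSeparable K0 β)
  · intro s hs
    have hsK : s ∈ K := IntermediateField.subset_adjoin _ _ hs
    have h2 : (⟨s, hsK⟩ : K) ∈ IntermediateField.adjoin K0 {α} := by
      rw [hα]; trivial
    rw [← IntermediateField.mem_toSubalgebra,
      IntermediateField.adjoin_simple_toSubalgebra_of_isAlgebraic
        (Algebra.IsAlgebraic.isAlgebraic α), Algebra.adjoin_singleton_eq_range_aeval] at h2
    obtain ⟨g, hg⟩ := h2
    have h3 : algebraMap R K0 c ≠ 0 := by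
      simpa using hc0
    have h4 : α = (algebraMap R K0 c)⁻¹ • β := by
      rw [← hβ', smul_smul, inv_mul_cancel₀ h3, one_smul]
    refine ⟨g.comp (C (algebraMap R K0 c)⁻¹ * X), ?_⟩
    have h5 : aeval β (g.comp (C (algebraMap R K0 c)⁻¹ * X)) = (⟨s, hsK⟩ : K) := by
      rw [aeval_comp, map_mul, aeval_C, aeval_X, ← Algebra.smul_def, ← h4]
      exact hg
    rw [aeval_algHom_apply, h5]
    rfl

section Frame

variable {k kb K Kb E : Type} [Field k] [Field kb] [Algebra k kb] [Field K] [Field Kb] [Field E]
  [Algebra k[X] K] [IsFractionRing k[X] K] [Algebra kb[X] Kb] [IsFractionRing kb[X] Kb]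
  [Algebra K Kb] [Algebra K E] [Algebra Kb E] [IsScalarTower K Kb E]

/-- The polynomials split over all large extensions, for a suitable value of the variable. -/
theorem exists_split_abs (p : ℕ) [Fact p.Prime] [Finite k] [CharP k p] [IsAlgClosed kb]
    [Algebra.IsAlgebraic k kb] [IsAlgClosed E] [Normal K E]
    [Algebra k[X] E] [IsScalarTower k[X] K E] [Algebra k E] [IsScalarTower k k[X] E]
    (hcomp : (algebraMap kb[X] Kb).comp (mapRingHom (algebraMap k kb)) =
      (algebraMap K Kb).comp (algebraMap k[X] K))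
    (F : k[X][X]) (hF : F.Monic) (hsep : (F.map (algebraMap k[X] K)).Separable)
    (hreg : ∀ σ : E ≃ₐ[K] E, ∃ τ : E ≃ₐ[Kb] E, ∀ x : E, aeval x F = 0 → τ x = σ x)
    (r : k[X]) (hr : r ≠ 0) :
    ∃ Q0 : ℕ, ∀ (L : Type) [Field L] [Finite L] [Algebra k L], Q0 ≤ Nat.card L →
      ∃ z0 : L, aeval z0 r ≠ 0 ∧ (F.map (aeval z0 : k[X] →ₐ[k] L).toRingHom).Splits := by
  classical
  set z : E := algebraMap k[X] E X with hz
  have hinjE : Function.Injective (algebraMap k[X] E) := by
    rw [IsScalarTower.algebraMap_eq k[X] K E]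
    exact (algebraMap K E).injective.comp (IsFractionRing.injective k[X] K)
  have hrE : algebraMap k[X] E r ≠ 0 := by
    rwa [Ne, map_eq_zero_iff _ hinjE]
  have htf : Module.IsTorsionFree k[X] E := Module.isTorsionFree_iff_algebraMap_injective.2 hinjE
  set FE : E[X] := F.map (algebraMap k[X] E) with hFE
  have hFEm : FE.Monic := hF.map _
  have hFEK : FE = (F.map (algebraMap k[X] K)).map (algebraMap K E) := by
    rw [hFE, Polynomial.map_map, ← IsScalarTower.algebraMap_eq]
  have hroot : ∀ x ∈ FE.roots, aeval x F = 0 := by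
    intro x hx
    rw [mem_roots hFEm.ne_zero, IsRoot.def, hFE, eval_map_algebraMap] at hx
    exact hx
  -- the finite set
  set S : Finset E := FE.roots.toFinset ∪ {z, (algebraMap k[X] E r)⁻¹} with hS
  have hfix : ∀ (g : k[X]), ∃ y : K, algebraMap K E y = algebraMap k[X] E g := fun g =>
    ⟨algebraMap k[X] K g, (IsScalarTower.algebraMap_apply k[X] K E g).symm⟩
  have hSsep : ∀ s ∈ S, IsSeparable K s := by
    intro s hs
    rw [hS, Finset.mem_union, Finset.mem_insert, Finset.mem_singleton, Multiset.mem_toFinset] at hs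
    rcases hs with hs | hs | hs
    · have h1 : aeval s (F.map (algebraMap k[X] K)) = 0 := by
        rw [aeval_map_algebraMap]
        exact hroot s hs
      exact hsep.of_dvd (minpoly.dvd K s h1)
    · obtain ⟨y, hy⟩ := hfix X
      rw [hs, hz, ← hy]
      exact isSeparable_algebraMap y
    · obtain ⟨y, hy⟩ := hfix r
      rw [hs, ← hy, ← map_inv₀]
      exact isSeparable_algebraMap _
  obtain ⟨θ, hint, hθsep, hθS, hgen⟩ := exists_primitive (R := k[X]) S hSsep
  obtain ⟨dd, hdd, hden⟩ := Spec.exists_den (R := k[X]) θ S hgen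
  -- the orbits of `θ`
  have hθK : ∀ σ : E ≃ₐ[K] E, ∃ τ : E ≃ₐ[Kb] E, τ θ = σ θ := by
    intro σ
    obtain ⟨τ, hτ⟩ := hreg σ
    refine ⟨τ, ?_⟩
    have hS' : ∀ s ∈ S, τ s = σ s := by
      intro s hs
      rw [hS, Finset.mem_union, Finset.mem_insert, Finset.mem_singleton,
        Multiset.mem_toFinset] at hs
      have hc : ∀ y : K, τ (algebraMap K E y) = σ (algebraMap K E y) := by
        intro y
        rw [AlgEquiv.commutes, IsScalarTower.algebraMap_apply K Kb E, AlgEquiv.commutes]
      rcases hs with hs | hs | hs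
      · exact hτ s (hroot s hs)
      · obtain ⟨y, hy⟩ := hfix X
        rw [hs, hz, ← hy]
        exact hc y
      · obtain ⟨y, hy⟩ := hfix r
        rw [hs, ← hy, ← map_inv₀]
        exact hc _
    refine IntermediateField.adjoin_induction K (p := fun x _ => τ x = σ x) (fun x hx => hS' x hx)
      (fun y => ?_) (fun x y _ _ hx hy => ?_) (fun x _ hx => ?_) (fun x y _ _ hx hy => ?_) hθS
    · rw [AlgEquiv.commutes, IsScalarTower.algebraMap_apply K Kb E, AlgEquiv.commutes]
    · rw [map_add, map_add, hx, hy]
    · rw [map_inv₀, map_inv₀, hx]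
    · rw [map_mul, map_mul, hx, hy]
  have hmin := minpoly_map_eq θ hθsep hθK
  set f : k[X][X] := minpoly k[X] θ with hf
  have hfmap : minpoly K θ = f.map (algebraMap k[X] K) :=
    minpoly.isIntegrallyClosed_eq_field_fractions' K hint
  have hmonic : f.Monic := minpoly.monic hint
  have hirr : Irreducible (f.map (mapRingHom (algebraMap k kb))) := by
    refine (hmonic.map _).irreducible_of_irreducible_map (algebraMap kb[X] Kb) _ ?_
    rw [Polynomial.map_map, hcomp, ← Polynomial.map_map, ← hfmap, hmin]
    exact minpoly.irreducible (hθsep.isIntegral.tower_top)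
  obtain ⟨r0, a0, b0, hr0, hab⟩ := Spec.exists_sep (K0 := K) f (by
    rw [← hfmap]; exact hθsep)
  obtain ⟨Q0, hQ⟩ := exists_point_abs p kb f hmonic hirr (r0 * dd) (mul_ne_zero hr0 hdd)
    (C dd * a0) (C dd * b0) (by rw [C_mul, ← hab]; ring)
  refine ⟨Q0, fun L _ _ _ hL => ?_⟩
  obtain ⟨x0, y0, hf0, hr1⟩ := hQ L hL
  rw [map_mul] at hr1
  obtain ⟨φ⟩ : Nonempty (Algebra.adjoin k (S : Set E) →ₐ[k] L) := by
    refine OverF.exists_hom_of_ker (OverF.ev2a (F := k) z θ)
      (OverF.ev2a (F := k) x0 y0) (fun a ha => ?_) (C dd) ?_ _ (fun s hs => ?_)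
    · rw [OverF.ev2a_apply, hz, Spec.ev2_eq_aeval] at ha
      obtain ⟨q, hq⟩ := minpoly.isIntegrallyClosed_dvd hint ha
      rw [hq, map_mul, ← hf, OverF.ev2a_apply x0 y0 f, hf0, zero_mul]
    · rw [OverF.ev2a_apply, Spec.ev2_C]
      exact right_ne_zero_of_mul hr1
    · obtain ⟨G, hG⟩ := hden s hs
      exact ⟨G, by rw [OverF.ev2a_apply, OverF.ev2a_apply, hz, Spec.ev2_eq_aeval,
        Spec.ev2_eq_aeval, aeval_C, hG]⟩
  -- the value of the variable
  have hzS : z ∈ Algebra.adjoin k (S : Set E) := Algebra.subset_adjoin (by simp [hS])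
  have hrS : (algebraMap k[X] E r)⁻¹ ∈ Algebra.adjoin k (S : Set E) :=
    Algebra.subset_adjoin (by simp [hS])
  have hxS : ∀ x ∈ FE.roots, x ∈ Algebra.adjoin k (S : Set E) := fun x hx =>
    Algebra.subset_adjoin (by
      rw [hS, Finset.mem_coe, Finset.mem_union, Multiset.mem_toFinset]
      exact Or.inl hx)
  set zA : Algebra.adjoin k (S : Set E) := ⟨z, hzS⟩ with hzA
  set ψ : k[X] →+* Algebra.adjoin k (S : Set E) := (aeval zA : k[X] →ₐ[k] _).toRingHom with hψ
  have hval : ((Algebra.adjoin k (S : Set E)).val : Algebra.adjoin k (S : Set E) →+* E).comp ψ =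
      algebraMap k[X] E := by
    apply Polynomial.ringHom_ext
    · intro a
      simp [hψ, IsScalarTower.algebraMap_apply k k[X] E]
    · simp [hψ, hzA, hz]
  have hφψ : (φ : Algebra.adjoin k (S : Set E) →+* L).comp ψ =
      (aeval (φ zA) : k[X] →ₐ[k] L).toRingHom := by
    apply Polynomial.ringHom_ext
    · intro a
      simp [hψ]
    · simp [hψ]
  refine ⟨φ zA, ?_, ?_⟩
  · intro h0
    have h1 : φ (ψ r) = 0 := by
      have := RingHom.congr_fun hφψ r
      rw [RingHom.comp_apply] at this
      exact this.trans h0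
    have h2 : ψ r * ⟨_, hrS⟩ = 1 := by
      apply Subtype.ext
      have := RingHom.congr_fun hval r
      rw [RingHom.comp_apply] at this
      change ((ψ r : Algebra.adjoin k (S : Set E)) : E) * (algebraMap k[X] E r)⁻¹ = 1
      change ((ψ r : Algebra.adjoin k (S : Set E)) : E) = _ at this
      rw [this, mul_inv_cancel₀ hrE]
    have h3 := congrArg φ h2
    rw [map_mul, h1, zero_mul, map_one] at h3
    exact zero_ne_one h3
  · let lift : E → Algebra.adjoin k (S : Set E) := fun x =>
      if h : x ∈ Algebra.adjoin k (S : Set E) then ⟨x, h⟩ else 0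
    have hlift : ∀ x ∈ FE.roots, ((lift x : Algebra.adjoin k (S : Set E)) : E) = x := by
      intro x hx
      simp only [lift]
      rw [dif_pos (hxS x hx)]
    have hsplit : FE = (FE.roots.map (fun x => X - C x)).prod :=
      (IsAlgClosed.splits FE).eq_prod_roots_of_monic hFEm
    have hPA : F.map ψ = (FE.roots.map (fun x => X - C (lift x))).prod := by
      apply Polynomial.map_injective ((Algebra.adjoin k (S : Set E)).val : _ →+* E)
        Subtype.val_injective
      rw [Polynomial.map_map, hval, Polynomial.map_multiset_prod, Multiset.map_map]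
      change FE = _
      conv_lhs => rw [hsplit]
      congr 1
      refine Multiset.map_congr rfl fun x hx => ?_
      simp only [Function.comp_apply, Polynomial.map_sub, map_X, map_C]
      congr 2
      exact (hlift x hx).symm
    rw [← hφψ, ← Polynomial.map_map, hPA, Polynomial.map_multiset_prod, Multiset.map_map]
    refine Polynomial.Splits.multisetProd fun g hg => ?_
    rw [Multiset.mem_map] at hg
    obtain ⟨x, -, rfl⟩ := hg
    simp only [Function.comp_apply, Polynomial.map_sub, map_X, map_C]
    exact Polynomial.Splits.X_sub_C _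

end Frame

end Pool.Agent.BCX6
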