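import Pool.Agent.BCX6.Divis

/-!
# One-parameter families of polynomials: the norm
-/

namespace BCX6

open Polynomial Equiv

section

variable {k E : Type} [Field k] [Field E] [Algebra (RatFunc k) E]
variable {N : E → ℝ} {D : Subgroup (E ≃+* E)}

lemma IsLocal.zero (h : IsLocal k N D) : N 0 = 0 := (h.eq_zero 0).2 rfl

lemma IsLocal.one (h : IsLocal k N D) : N 1 = 1 := by
  have := h.const 1 one_ne_zero
  rwa [map_one] at this

lemma IsLocal.neg (h : IsLocal k N D) (x : E) : N (-x) = N x := by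
  have h1 := h.const (-1) (neg_ne_zero.2 one_ne_zero)
  rw [map_neg, map_one] at h1
  rw [← neg_one_mul, h.mul, h1, one_mul]

lemma IsLocal.pow (h : IsLocal k N D) (x : E) (n : ℕ) : N (x ^ n) = N x ^ n := by
  induction n with
  | zero => rw [pow_zero, pow_zero, h.one]
  | succ n ih => rw [pow_succ, pow_succ, h.mul, ih]

lemma IsLocal.sub (h : IsLocal k N D) (x y : E) : N (x - y) ≤ max (N x) (N y) := by
  rw [sub_eq_add_neg, ← h.neg y]
  exact h.add x (-y)

lemma IsLocal.add_le (h : IsLocal k N D) {x y : E} {r : ℝ} (hx : N x ≤ r) (hy : N y ≤ r) :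
    N (x + y) ≤ r := (h.add x y).trans (max_le hx hy)

lemma IsLocal.sub_le (h : IsLocal k N D) {x y : E} {r : ℝ} (hx : N x ≤ r) (hy : N y ≤ r) :
    N (x - y) ≤ r := (h.sub x y).trans (max_le hx hy)

lemma IsLocal.add_lt (h : IsLocal k N D) {x y : E} {r : ℝ} (hx : N x < r) (hy : N y < r) :
    N (x + y) < r := (h.add x y).trans_lt (max_lt hx hy)

lemma IsLocal.sub_lt (h : IsLocal k N D) {x y : E} {r : ℝ} (hx : N x < r) (hy : N y < r) :
    N (x - y) < r := (h.sub x y).trans_lt (max_lt hx hy)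

lemma IsLocal.add_eq (h : IsLocal k N D) {x y : E} (hxy : N x < N y) : N (x + y) = N y := by
  apply le_antisymm (h.add_le hxy.le le_rfl)
  by_contra hc
  have h1 := h.sub_lt (not_le.1 hc) hxy
  rw [add_sub_cancel_left] at h1
  exact lt_irrefl _ h1

lemma IsLocal.add_eq' (h : IsLocal k N D) {x y : E} (hxy : N y < N x) : N (x + y) = N x := by
  rw [add_comm]
  exact h.add_eq hxy

lemma IsLocal.sub_eq (h : IsLocal k N D) {x y : E} (hxy : N x < N y) : N (x - y) = N y := by
  rw [← h.neg y] at hxy ⊢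
  rw [sub_eq_add_neg]
  exact h.add_eq hxy

lemma IsLocal.sub_eq' (h : IsLocal k N D) {x y : E} (hxy : N y < N x) : N (x - y) = N x := by
  rw [← h.neg, neg_sub]
  exact h.sub_eq hxy

lemma IsLocal.const_le (h : IsLocal k N D) (c : k) : N (cst k E c) ≤ 1 := by
  by_cases hc : c = 0
  · rw [hc, map_zero, h.zero]
    exact zero_le_one
  · exact (h.const c hc).le

lemma IsLocal.zpos (h : IsLocal k N D) : 0 < N (zz k E) := h.pos (zz_ne_zero k E)

lemma IsLocal.prod (h : IsLocal k N D) {ι : Type*} (s : Finset ι) (f : ι → E) :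
    N (∏ i ∈ s, f i) = ∏ i ∈ s, N (f i) := by
  classical
  induction s using Finset.induction_on with
  | empty => rw [Finset.prod_empty, Finset.prod_empty, h.one]
  | insert i s hi ih => rw [Finset.prod_insert hi, Finset.prod_insert hi, h.mul, ih]

lemma IsLocal.sum_le (h : IsLocal k N D) {ι : Type*} (s : Finset ι) (f : ι → E) {r : ℝ}
    (hr : 0 ≤ r) (hf : ∀ i ∈ s, N (f i) ≤ r) : N (∑ i ∈ s, f i) ≤ r := by
  classical
  induction s using Finset.induction_on with
  | empty => rw [Finset.sum_empty, h.zero]; exact hr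
  | insert i s hi ih =>
    rw [Finset.sum_insert hi]
    exact h.add_le (hf i (Finset.mem_insert_self i s))
      (ih fun j hj => hf j (Finset.mem_insert_of_mem hj))

/-- the elements of norm at most `1` -/
def IsLocal.ring (h : IsLocal k N D) : Subring E where
  carrier := {x | N x ≤ 1}
  mul_mem' := by
    intro a b ha hb
    change N (a * b) ≤ 1
    rw [h.mul]
    exact mul_le_one₀ ha (h.nonneg b) hb
  one_mem' := h.one.le
  add_mem' := fun ha hb => h.add_le ha hb
  zero_mem' := h.zero.le.trans zero_le_one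
  neg_mem' := by
    intro a ha
    change N (-a) ≤ 1
    rw [h.neg]
    exact ha

lemma IsLocal.mem_ring (h : IsLocal k N D) {x : E} : x ∈ h.ring ↔ N x ≤ 1 := Iff.rfl

/-- the constants as elements of norm at most `1` -/
noncomputable def IsLocal.cstR (h : IsLocal k N D) : k →+* h.ring :=
  (cst k E).codRestrict h.ring fun c => h.const_le c

lemma IsLocal.coe_eval (h : IsLocal k N D) (P : k[X]) (x : h.ring) :
    ((P.eval₂ h.cstR x : h.ring) : E) = (P.map (cst k E)).eval (x : E) := by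
  have h1 : (cst k E) = h.ring.subtype.comp h.cstR := by
    ext c
    rfl
  rw [eval_map, h1]
  exact hom_eval₂ P h.cstR h.ring.subtype x

lemma IsLocal.eval_le (h : IsLocal k N D) (P : k[X]) {x : E} (hx : N x ≤ 1) :
    N ((P.map (cst k E)).eval x) ≤ 1 := by
  have := (P.eval₂ h.cstR ⟨x, hx⟩).2
  rw [h.mem_ring, h.coe_eval P ⟨x, hx⟩] at this
  exact this

/-- the expansion of a polynomial to order zero -/
lemma IsLocal.exists_expand0 (h : IsLocal k N D) (P : k[X]) (w : k) {u : E} (hu : N u ≤ 1) :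
    ∃ e : E, N e ≤ 1 ∧ (P.map (cst k E)).eval (cst k E w + u) = cst k E (P.eval w) + u * e := by
  have h1 : (X - C (h.cstR w)) ∣ (P.map h.cstR) - C ((P.map h.cstR).eval (h.cstR w)) := by
    rw [dvd_iff_isRoot, IsRoot.def, eval_sub, eval_C, sub_self]
  obtain ⟨Q, hQ⟩ := h1
  have h2 := congrArg (eval (h.cstR w + ⟨u, hu⟩)) hQ
  rw [eval_sub, eval_C, eval_mul, eval_sub, eval_X, eval_C, add_sub_cancel_left] at h2
  have h0 : N ((Q.eval (h.cstR w + ⟨u, hu⟩) : h.ring) : E) ≤ 1 :=
    h.mem_ring.1 (Subtype.property _)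
  refine ⟨(Q.eval (h.cstR w + ⟨u, hu⟩) : h.ring), h0, ?_⟩
  have h3 := congrArg (Subtype.val : h.ring → E) h2
  rw [eval_map, eval_map] at h3
  have h4 : ((h.cstR w + ⟨u, hu⟩ : h.ring) : E) = cst k E w + u := rfl
  have h5 : ((P.eval₂ h.cstR (h.cstR w) : h.ring) : E) = cst k E (P.eval w) := by
    rw [h.coe_eval, eval_map]
    change P.eval₂ (cst k E) (cst k E w) = _
    rw [eval₂_at_apply]
  rw [← h4, ← h.coe_eval, ← h5]
  have h6 : ((P.eval₂ h.cstR (h.cstR w + ⟨u, hu⟩) : h.ring) : E) -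
      ((P.eval₂ h.cstR (h.cstR w) : h.ring) : E) =
      u * (Q.eval (h.cstR w + ⟨u, hu⟩) : h.ring) := h3
  rw [← h6]
  ring

/-- the expansion of a polynomial to order one -/
lemma IsLocal.exists_expand (h : IsLocal k N D) (P : k[X]) (w : k) {u : E} (hu : N u ≤ 1) :
    ∃ e : E, N e ≤ 1 ∧ (P.map (cst k E)).eval (cst k E w + u) =
      cst k E (P.eval w) + cst k E ((derivative P).eval w) * u + u ^ 2 * e := by
  obtain ⟨q, hq⟩ := (P.map h.cstR).binomExpansion (h.cstR w) ⟨u, hu⟩
  refine ⟨q, q.2, ?_⟩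
  have h3 := congrArg (Subtype.val : h.ring → E) hq
  rw [derivative_map, eval_map, eval_map, eval_map] at h3
  have h4 : ((h.cstR w + ⟨u, hu⟩ : h.ring) : E) = cst k E w + u := rfl
  have h5 : ∀ P : k[X], ((P.eval₂ h.cstR (h.cstR w) : h.ring) : E) = cst k E (P.eval w) := by
    intro P
    rw [h.coe_eval, eval_map]
    change P.eval₂ (cst k E) (cst k E w) = _
    rw [eval₂_at_apply]
  rw [← h4, ← h.coe_eval, ← h5, ← h5]
  have h6 : ((P.eval₂ h.cstR (h.cstR w + ⟨u, hu⟩) : h.ring) : E) =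
      ((P.eval₂ h.cstR (h.cstR w) : h.ring) : E) +
      (((derivative P).eval₂ h.cstR (h.cstR w) : h.ring) : E) * u + q * u ^ 2 := h3
  rw [h6]
  ring

end

end BCX6
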