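import Pool.Agent.BCX.PointF

/-!
# Points over all large finite fields, for absolutely irreducible curves

As `Pool.Agent.BCX.PointF`, but the branch of the curve is defined over a finite extension `F'` of
the field of coefficients `F`, at an arbitrary point of the line.
-/

set_option autoImplicit false

namespace Pool.Agent.BCX6

open Polynomial Pool.Agent.BCX

theorem map_ev2_geo {F F' : Type} [Field F] [Field F'] [Algebra F F'] (f : F[X][X])
    (ξ θ : PowerSeries F') (hθ : ev2 ξ θ (f.map (mapRingHom (algebraMap F F'))) = 0)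
    (Ω : Type) [Field Ω] [Algebra F Ω] [Algebra F' Ω] [IsScalarTower F F' Ω] :
    (f.map (mapRingHom (algebraMap F Ω))).eval₂
      ((aeval (PowerSeries.map (algebraMap F' Ω) ξ) : Polynomial Ω →ₐ[Ω] PowerSeries Ω) :
        Polynomial Ω →+* PowerSeries Ω)
      (PowerSeries.map (algebraMap F' Ω) θ) = 0 := by
  have h1 : ((aeval (PowerSeries.map (algebraMap F' Ω) ξ) : Polynomial Ω →ₐ[Ω] PowerSeries Ω) :
        Polynomial Ω →+* PowerSeries Ω).comp
      (mapRingHom (algebraMap F Ω)) = ((PowerSeries.map (algebraMap F' Ω)).comp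
      ((aeval ξ : F'[X] →ₐ[F'] PowerSeries F') :
        F'[X] →+* PowerSeries F')).comp (mapRingHom (algebraMap F F')) := by
    apply Polynomial.ringHom_ext
    · intro a
      simp [PowerSeries.algebraMap_apply, ← IsScalarTower.algebraMap_apply F F' Ω]
    · simp
  have h2 := congrArg (PowerSeries.map (algebraMap F' Ω)) hθ
  rw [ev2, coe_eval₂RingHom, map_zero, hom_eval₂, eval₂_map] at h2
  rw [eval₂_map, h1]
  exact h2

/-- the curve of a monic polynomial with a root in the power series ring over an extension, for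
which the monomials are linearly independent -/
theorem exists_curve_geo {F F' : Type} [Field F] [Field F'] [Algebra F F'] (f : F[X][X])
    (hf : f.Monic) (hD : 1 ≤ f.natDegree) (ξ θ : PowerSeries F')
    (hθ : ev2 ξ θ (f.map (mapRingHom (algebraMap F F'))) = 0)
    (hind : LinearIndependent F' (fun ij : ℕ × Fin f.natDegree => ξ ^ ij.1 * θ ^ (ij.2 : ℕ)))
    (Ω : Type) [Field Ω] [Algebra F Ω] [Algebra F' Ω] [IsScalarTower F F' Ω] :
    ∃ (c : Curve F Ω (CR f Ω)) (ψ : CR f Ω →+* PowerSeries Ω), IsDomain (CR f Ω) ∧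
      c.D = f.natDegree ∧ c.B = (Finset.range f.natDegree).sup (fun t => (f.coeff t).natDegree) ∧
      c.a = (fun t => - f.coeff t) ∧
      Function.Injective ψ ∧ (∀ w : Ω, ψ (algebraMap Ω (CR f Ω) w) = PowerSeries.C w) ∧
      ψ c.x = PowerSeries.map (algebraMap F' Ω) ξ ∧ ψ c.y = PowerSeries.map (algebraMap F' Ω) θ ∧
      ∀ x0 y0 : Ω, ev2 x0 y0 f = 0 → ∃ φ : CR f Ω →ₐ[Ω] Ω, φ c.x = x0 ∧ φ c.y = y0 := by
  set ψ : CR f Ω →+* PowerSeries Ω := AdjoinRoot.lift _ _ (map_ev2_geo f ξ θ hθ Ω) with hψ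
  have hψx : ψ (CR.x f Ω) = PowerSeries.map (algebraMap F' Ω) ξ := by
    rw [hψ, CR.x, AdjoinRoot.lift_of]
    simp
  have hψy : ψ (CR.y f Ω) = PowerSeries.map (algebraMap F' Ω) θ := by
    rw [hψ, CR.y, AdjoinRoot.lift_root]
  have hψC : ∀ w : Ω, ψ (algebraMap Ω (CR f Ω) w) = PowerSeries.C w := by
    intro w
    have h1 : algebraMap Ω (CR f Ω) w = AdjoinRoot.of _ (C w) := by
      rw [IsScalarTower.algebraMap_apply Ω (Polynomial Ω) (CR f Ω)]; rfl
    rw [h1, hψ, AdjoinRoot.lift_of]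
    simp
  let L : CR f Ω →ₗ[Ω] PowerSeries Ω :=
    { toFun := ψ
      map_add' := map_add ψ
      map_smul' := fun w z => by
        rw [Algebra.smul_def, map_mul, hψC, RingHom.id_apply, Algebra.smul_def,
          PowerSeries.algebraMap_apply, Algebra.algebraMap_self, RingHom.id_apply] }
  have hLψ : ∀ z, L z = ψ z := fun z => rfl
  have hLv : ∀ ij : ℕ × Fin f.natDegree, L (CR.x f Ω ^ ij.1 * CR.y f Ω ^ (ij.2 : ℕ)) =
      PowerSeries.map (algebraMap F' Ω) (ξ ^ ij.1 * θ ^ (ij.2 : ℕ)) := by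
    intro ij
    rw [hLψ, map_mul, map_pow, map_pow, hψx, hψy, map_mul, map_pow, map_pow]
  have hLi : LinearIndependent Ω (L ∘ fun ij : ℕ × Fin f.natDegree =>
      CR.x f Ω ^ ij.1 * CR.y f Ω ^ (ij.2 : ℕ)) := by
    have h := li_map (Ω := Ω) _ hind
    have h2 : (L ∘ fun ij : ℕ × Fin f.natDegree => CR.x f Ω ^ ij.1 * CR.y f Ω ^ (ij.2 : ℕ)) =
        fun ij : ℕ × Fin f.natDegree =>
          PowerSeries.map (algebraMap F' Ω) (ξ ^ ij.1 * θ ^ (ij.2 : ℕ)) :=
      funext hLv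
    rw [h2]
    exact h
  have hli : LinearIndependent Ω (fun ij : ℕ × Fin f.natDegree =>
      CR.x f Ω ^ ij.1 * CR.y f Ω ^ (ij.2 : ℕ)) := LinearIndependent.of_comp L hLi
  have hsp := CR.span Ω hf
  have hinj : Function.Injective ψ := by
    rw [injective_iff_map_eq_zero]
    intro z hz
    let b := Module.Basis.mk hli hsp
    have h1 : L z = Finsupp.linearCombination Ω (L ∘ fun ij : ℕ × Fin f.natDegree =>
        CR.x f Ω ^ ij.1 * CR.y f Ω ^ (ij.2 : ℕ)) (b.repr z) := by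
      conv_lhs => rw [← b.linearCombination_repr z]
      rw [Finsupp.apply_linearCombination, show (⇑b) = _ from Module.Basis.coe_mk hli hsp]
    have h2 : b.repr z = 0 := by
      apply hLi
      rw [← h1, map_zero, hLψ]
      exact hz
    exact b.repr.map_eq_zero_iff.1 h2
  have hdom : IsDomain (CR f Ω) := hinj.isDomain ψ
  refine ⟨
    { D := f.natDegree
      B := (Finset.range f.natDegree).sup (fun t => (f.coeff t).natDegree)
      x := CR.x f Ω
      y := CR.y f Ω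
      a := fun t => - f.coeff t
      hD := hD
      rel := CR.rel Ω hf
      deg := fun t ht => by
        rw [natDegree_neg]
        exact Finset.le_sup (f := fun t => (f.coeff t).natDegree) (Finset.mem_range.2 ht)
      li := hli
      span := hsp }, ψ, hdom, rfl, rfl, rfl, hinj, hψC, hψx, hψy, ?_⟩
  intro x0 y0 h0
  have h1 : (f.map (mapRingHom (algebraMap F Ω))).eval₂
      ((aeval x0 : Polynomial Ω →ₐ[Ω] Ω) : Polynomial Ω →+* Ω) y0 = 0 := by
    rw [eval₂_map, ← h0, ev2, coe_eval₂RingHom]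
    congr 1
    apply Polynomial.ringHom_ext
    · intro a; simp
    · simp
  refine ⟨AdjoinRoot.liftAlgHom _ (aeval x0 : Polynomial Ω →ₐ[Ω] Ω) y0 h1, ?_, ?_⟩
  · change AdjoinRoot.liftAlgHom _ (aeval x0 : Polynomial Ω →ₐ[Ω] Ω) y0 h1 (AdjoinRoot.of _ X) = x0
    rw [AdjoinRoot.liftAlgHom_of]
    simp
  · change AdjoinRoot.liftAlgHom _ (aeval x0 : Polynomial Ω →ₐ[Ω] Ω) y0 h1 (AdjoinRoot.root _) = y0
    rw [AdjoinRoot.liftAlgHom_root]


theorem nonzero_geo {p : ℕ} [Fact p.Prime] {F F' L Ω R : Type} [Field F] [Field F'] [Field L]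
    [Field Ω] [CommRing R] [CharP Ω p] [Algebra F L] [Algebra F Ω] [Algebra F' Ω] [Algebra L Ω]
    [Algebra Ω R] [Algebra F R]
    [Algebra L R] [IsScalarTower F Ω R] [IsScalarTower L Ω R] [IsAlgClosed Ω]
    (c : Curve F Ω R) (ξ θ : PowerSeries F') (ψ : R →+* PowerSeries Ω)
    (hψ : Function.Injective ψ) (hψx : ψ c.x = PowerSeries.map (algebraMap F' Ω) ξ)
    (hψy : ψ c.y = PowerSeries.map (algebraMap F' Ω) θ)
    (l n j : ℕ) (C : ℕ × ℕ → ℕ × ℕ → L)
    (hM0 : ∀ a : {k // k ∈ M c.D c.B l} → PowerSeries Ω,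
      ∑ k : {k // k ∈ M c.D c.B l}, PowerSeries.map (algebraMap F' Ω)
        (ξ ^ k.1.1 * θ ^ k.1.2) * a k ^ p ^ j = 0 → ∀ k, a k = 0)
    {ij0 k0 : ℕ × ℕ} (hij0 : ij0 ∈ M c.D c.B n) (hk0 : k0 ∈ M c.D c.B l) (hC0 : C ij0 k0 ≠ 0) :
    ∑ ij ∈ M c.D c.B n, c.nu l C ij * c.mon ij ^ p ^ j ≠ 0 := by
  classical
  intro h0
  have hchP : CharP (PowerSeries Ω) p :=
    charP_of_injective_algebraMap (algebraMap Ω (PowerSeries Ω)).injective p
  have hexP : ExpChar (PowerSeries Ω) p := ExpChar.prime Fact.out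
  have hpj : 0 < p ^ j := pow_pos (Fact.out : p.Prime).pos _
  have hroot : ∀ ij k : ℕ × ℕ, ∃ w : Ω, w ^ p ^ j = algebraMap L Ω (C ij k) := fun ij k =>
    IsAlgClosed.exists_pow_nat_eq _ hpj
  choose c' hc' using hroot
  have hmon : ∀ k : ℕ × ℕ, PowerSeries.map (algebraMap F' Ω)
      (ξ ^ k.1 * θ ^ k.2) = ψ (c.mon k) := by
    intro k
    have h1 : ψ (c.mon k) = ψ c.x ^ k.1 * ψ c.y ^ k.2 := by
      unfold Curve.mon
      rw [map_mul ψ, map_pow ψ, map_pow ψ]
    rw [h1, hψx, hψy, map_mul, map_pow, map_pow]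
  have hk : ∀ k : {k // k ∈ M c.D c.B l}, PowerSeries.map (algebraMap F' Ω)
        (ξ ^ k.1.1 * θ ^ k.1.2) *
        (ψ (∑ ij ∈ M c.D c.B n, algebraMap Ω R (c' ij k.1) * c.mon ij)) ^ p ^ j =
        ∑ ij ∈ M c.D c.B n, ψ (algebraMap L R (C ij k.1) * c.mon k.1 * c.mon ij ^ p ^ j) := by
    intro k
    rw [hmon, map_sum, sum_pow_char_pow, Finset.mul_sum]
    refine Finset.sum_congr rfl fun ij _ => ?_
    have h4 : algebraMap L R (C ij k.1) = algebraMap Ω R (c' ij k.1) ^ p ^ j := by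
      rw [← map_pow, hc', ← IsScalarTower.algebraMap_apply]
    rw [h4, ← map_pow, ← map_mul]
    congr 1
    ring
  have h1 : ∑ k : {k // k ∈ M c.D c.B l}, PowerSeries.map (algebraMap F' Ω)
        (ξ ^ k.1.1 * θ ^ k.1.2) *
        (ψ (∑ ij ∈ M c.D c.B n, algebraMap Ω R (c' ij k.1) * c.mon ij)) ^ p ^ j = 0 := by
    rw [Finset.sum_congr rfl fun k _ => hk k, Finset.sum_comm]
    have h2 : ∀ ij ∈ M c.D c.B n, ∑ k : {k // k ∈ M c.D c.B l},
        ψ (algebraMap L R (C ij k.1) * c.mon k.1 * c.mon ij ^ p ^ j) =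
        ψ (c.nu l C ij * c.mon ij ^ p ^ j) := by
      intro ij _
      rw [← map_sum]
      congr 1
      unfold Curve.nu
      rw [Finset.sum_mul]
      exact Finset.sum_coe_sort (M c.D c.B l) (fun k => algebraMap L R (C ij k) * c.mon k *
            c.mon ij ^ p ^ j)
    rw [Finset.sum_congr rfl h2, ← map_sum, h0, map_zero]
  have h6 := hM0 _ h1 ⟨k0, hk0⟩
  have h7 : ∑ ij ∈ M c.D c.B n, algebraMap Ω R (c' ij k0) * c.mon ij = 0 := by
    apply hψ
    rw [map_zero]
    exact h6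
  have h8 := c.coeff_eq_zero n (fun ij => c' ij k0) h7 ij0 hij0
  have h9 := hc' ij0 k0
  have h8' : c' ij0 k0 = 0 := h8
  rw [h8', zero_pow hpj.ne'] at h9
  exact hC0 ((algebraMap L Ω).injective (by rw [← h9, map_zero]))


/-- points over all large finite fields -/
theorem exists_point_geo (p : ℕ) [Fact p.Prime] {F F' : Type} [Field F] [Finite F] [CharP F p]
    [Field F'] [Finite F'] [Algebra F F'] (f : F[X][X]) (hf : f.Monic)
    (hD : 1 ≤ f.natDegree) (ξ θ : PowerSeries F')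
    (hθ : ev2 ξ θ (f.map (mapRingHom (algebraMap F F'))) = 0)
    (hind : LinearIndependent F' (fun ij : ℕ × Fin f.natDegree => ξ ^ ij.1 * θ ^ (ij.2 : ℕ)))
    (r : F[X]) (hr : r ≠ 0) (a b : F[X][X])
    (hsep : a * f + b * derivative f = C r) :
    ∃ Q0 : ℕ, ∀ (L : Type) [Field L] [Finite L] [Algebra F L], Q0 ≤ Nat.card L →
      ∃ x0 y0 : L, ev2 x0 y0 f = 0 ∧ aeval x0 r ≠ 0 := by
  have hint : Algebra.IsIntegral F F' := inferInstance
  classical
  set D := f.natDegree with hDdef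
  set B := (Finset.range f.natDegree).sup (fun t => (f.coeff t).natDegree) with hBdef
  set l' := (D - 1) * (B * D + 1) + 1 with hl'
  set l := B * D + l' with hl
  set g0 := r.natDegree with hg0
  set aa := l + g0 + 1 with haa
  let v : {k // k ∈ M D B l} → PowerSeries F' := fun k => ξ ^ k.1.1 * θ ^ k.1.2
  have hMlt : ∀ {N : ℕ} {k : ℕ × ℕ}, k ∈ M D B N → k.2 < D := by
    intro N k hk
    unfold M at hk
    rw [Finset.mem_filter, Finset.mem_product] at hk
    exact Finset.mem_range.1 hk.1.2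
  have hv : LinearIndependent F' v := by
    have := hind.comp (fun k : {k // k ∈ M D B l} => (k.1.1, (⟨k.1.2, hMlt k.2⟩ : Fin D))) (by
      rintro ⟨⟨i, j⟩, hk⟩ ⟨⟨i', j'⟩, hk'⟩ h
      simp only [Prod.mk.injEq, Fin.mk.injEq] at h
      simp only [Subtype.mk.injEq, Prod.mk.injEq]
      exact h)
    exact this
  obtain ⟨M0, hM0⟩ := indep_pow v hv
  have hp1 : 1 < p := (Fact.out : p.Prime).one_lt
  obtain ⟨j, hj⟩ : ∃ j, M0 ≤ p ^ j := ⟨M0, (Nat.lt_pow_self hp1).le⟩
  refine ⟨p ^ j * (D * l' * (aa + B * D) + 1) + g0, ?_⟩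
  intro L _ _ _ hQ
  by_contra hcon
  push Not at hcon
  have hchL : CharP L p := charP_of_injective_algebraMap (algebraMap F L).injective p
  obtain ⟨e0, he0⟩ := OverF.exists_card p L
  have hpj : 0 < p ^ j := pow_pos (Fact.out : p.Prime).pos _
  obtain ⟨e, he⟩ : ∃ e, e0 = j + e := by
    have : p ^ j ≤ p ^ e0 := by
      rw [← he0]
      refine le_trans ?_ hQ
      refine le_trans ?_ (Nat.le_add_right _ _)
      exact Nat.le_mul_of_pos_right _ (Nat.succ_pos _)
    exact ⟨e0 - j, by have := (Nat.pow_le_pow_iff_right hp1).1 this; omega⟩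
  subst he
  set P := p ^ e with hP
  have hQP : Nat.card L = p ^ j * P := by rw [he0, pow_add]
  have hPbig : D * l' * (aa + B * D) < P := by
    by_contra h
    push Not at h
    have h1 : p ^ j * P ≤ p ^ j * (D * l' * (aa + B * D)) := Nat.mul_le_mul_left _ h
    rw [hQP] at hQ
    rw [mul_add, mul_one] at hQ
    omega
  set n := P - aa with hn
  have hF : ∀ a : F, a ^ p ^ (j + e) = a := by
    intro a
    apply (algebraMap F L).injective
    have := Fintype.ofFinite L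
    rw [map_pow, ← he0, Nat.card_eq_fintype_card, FiniteField.pow_card]
  -- the curve
  let Ω := AlgebraicClosure L
  let emb : F' →ₐ[F] Ω := IsAlgClosed.lift
  let _ : Algebra F' Ω := (emb : F' →+* Ω).toAlgebra
  have : IsScalarTower F F' Ω := IsScalarTower.of_algebraMap_eq fun x => (emb.commutes x).symm
  have hchΩ : CharP Ω p := charP_of_injective_algebraMap (algebraMap F Ω).injective p
  have hexΩ : ExpChar Ω p := ExpChar.prime Fact.out
  obtain ⟨c, ψ, hdom, hcD, hcB, hca, hψ, hψC, hψx, hψy, hpt⟩ :=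
    exists_curve_geo f hf hD ξ θ hθ hind Ω
  have hchR : CharP (CR f Ω) p :=
    charP_of_injective_algebraMap (algebraMap Ω (CR f Ω)).injective p
  have hexR : ExpChar (CR f Ω) p := ExpChar.prime Fact.out
  have hcB' : c.B = B := hcB
  have hcD' : c.D = D := hcD
  have hfD : f.coeff c.D = 1 := by rw [hcD', hDdef, hf.coeff_natDegree]
  have hfB : ∀ t < c.D, (f.coeff t).natDegree ≤ c.B := by
    intro t ht
    rw [hcB', hBdef]
    exact Finset.le_sup (f := fun t => (f.coeff t).natDegree)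
      (Finset.mem_range.2 (by rw [hcD'] at ht; exact ht))
  have haPn : P - aa - B * D ≤ n - B * D := le_of_eq rfl
  have hcard : (c.D - 1) * (M c.D c.B (l * p ^ e + n)).card <
      (M c.D c.B n).card * (M c.D c.B l).card := by
    rw [hcD', hcB', ← hP]
    have h1 := numeric (B := B) hD (by omega : 1 ≤ aa) hl' hPbig
    have h2 := card_M_le D B (l * P + n)
    have h3 := le_card_M D B n
    have h4 := le_card_M D B l
    have h5 : l - B * D = l' := by omega
    rw [h5] at h4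
    calc (D - 1) * (M D B (l * P + n)).card
        ≤ (D - 1) * (D * (l * P + n + 1)) := Nat.mul_le_mul_left _ h2
      _ < D * (P - aa - B * D) * (D * l') := h1
      _ ≤ (M D B n).card * (M D B l).card := Nat.mul_le_mul h3 h4
  obtain ⟨C, ⟨ij0, hij0, k0, hk0, hC0⟩, hC⟩ := c.exists_kernel (L := L) p e l n (c.dd f)
    (fun r hr => c.dd_mem f hfD hfB hr) hcard
  set h : CR f Ω := ∑ ij ∈ M c.D c.B n, c.nu l C ij * c.mon ij ^ p ^ j with hh
  -- weight
  have hmem : h ∈ Submodule.span Ω (c.mons (l + p ^ j * n)) := by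
    refine Submodule.sum_mem _ fun ij hij => ?_
    refine c.mul_mem ?_ ?_
    · unfold Curve.nu
      refine Submodule.sum_mem _ fun k hk => ?_
      rw [IsScalarTower.algebraMap_apply L Ω (CR f Ω)]
      exact c.smul_mons _ hk
    · exact c.pow_mem' (Submodule.subset_span ⟨ij, hij, rfl⟩) _
  -- nonvanishing
  have hne : h ≠ 0 := by
    have hM1 : ∀ a : {k // k ∈ M c.D c.B l} → PowerSeries Ω,
        ∑ k : {k // k ∈ M c.D c.B l}, PowerSeries.map (algebraMap F' Ω)
          (ξ ^ k.1.1 * θ ^ k.1.2) * a k ^ p ^ j = 0 → ∀ k, a k = 0 := by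
      rw [hcD', hcB']
      exact hM0 Ω p j hj
    exact nonzero_geo c ξ θ ψ hψ hψx hψy l n j C hM1 hij0 hk0 hC0
  -- the points
  have hfib : ∀ x0 : L, aeval x0 r ≠ 0 → ∃ S : Finset Ω, S.card = D ∧
      ∀ y0 ∈ S, ev2 (algebraMap L Ω x0) y0 f = 0 := by
    intro x0 hx0
    refine exists_fibre f hf r a b hsep (algebraMap L Ω x0) ?_
    rw [aeval_algebraMap_apply]
    exact fun h => hx0 ((map_eq_zero _).1 h)
  choose! S hScard hS using hfib
  set G : Finset L := (Set.toFinite {x0 : L | aeval x0 r ≠ 0}).toFinset with hG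
  have hGmem : ∀ x0, x0 ∈ G ↔ aeval x0 r ≠ 0 := by
    intro x0
    rw [hG, Set.Finite.mem_toFinset, Set.mem_ofPred_eq]
  have hGcard : Nat.card L ≤ G.card + g0 := card_good r hr
  obtain ⟨φ0⟩ : Nonempty (CR f Ω →ₐ[Ω] Ω) := by
    have h1 : 0 < G.card := by
      have h3 : 0 < p ^ j * (D * l' * (aa + B * D) + 1) := Nat.mul_pos hpj (Nat.succ_pos _)
      omega
    obtain ⟨x1, hx1⟩ := Finset.card_pos.1 h1
    have h2 : 0 < (S x1).card := by rw [hScard x1 ((hGmem x1).1 hx1)]; exact hD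
    obtain ⟨y1, hy1⟩ := Finset.card_pos.1 h2
    obtain ⟨φ, -⟩ := hpt _ _ (hS x1 ((hGmem x1).1 hx1) y1 hy1)
    exact ⟨φ⟩
  have hpt' : ∀ (x0 : L) (y0 : Ω), ∃ φ : CR f Ω →ₐ[Ω] Ω, aeval x0 r ≠ 0 → y0 ∈ S x0 →
      φ c.x = algebraMap L Ω x0 ∧ φ c.y = y0 := by
    intro x0 y0
    by_cases h : aeval x0 r ≠ 0 ∧ y0 ∈ S x0
    · obtain ⟨φ, hφ⟩ := hpt _ _ (hS x0 h.1 y0 h.2)
      exact ⟨φ, fun _ _ => hφ⟩
    · exact ⟨φ0, fun h1 h2 => absurd ⟨h1, h2⟩ h⟩
  choose φ hφ using hpt'
  set Z : Finset (CR f Ω →ₐ[Ω] Ω) := (G.sigma S).image (fun q => φ q.1 q.2) with hZ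
  have hZcard : Z.card = G.card * D := by
    rw [hZ, Finset.card_image_of_injOn, Finset.card_sigma, Finset.sum_const_nat (m := D)]
    · intro x0 hx0
      exact hScard x0 ((hGmem x0).1 hx0)
    · rintro ⟨x0, y0⟩ hq ⟨x1, y1⟩ hq1 heq
      rw [Finset.mem_coe, Finset.mem_sigma] at hq hq1
      have h1 := hφ x0 y0 ((hGmem x0).1 hq.1) hq.2
      have h2 := hφ x1 y1 ((hGmem x1).1 hq1.1) hq1.2
      simp only at heq
      rw [heq] at h1
      have h3 : x0 = x1 := (algebraMap L Ω).injective (h1.1.symm.trans h2.1)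
      have h4 : y0 = y1 := h1.2.symm.trans h2.2
      subst h3 h4
      rfl
  have hzero : ∀ χ ∈ Z, χ h = 0 := by
    intro χ hχ
    rw [hZ, Finset.mem_image] at hχ
    obtain ⟨⟨x0, y0⟩, hq, rfl⟩ := hχ
    rw [Finset.mem_sigma] at hq
    have h1 := (hGmem x0).1 hq.1
    obtain ⟨hx1, hy1⟩ := hφ x0 y0 h1 hq.2
    have h2 := hS x0 h1 y0 hq.2
    refine OverF.kill c f hcD.symm hf l n e j hF C hC _ ?_ ?_ ?_
    · rw [hx1, hy1]; exact h2
    · rw [hx1, ← map_pow, ← he0]
      congr 1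
      have := Fintype.ofFinite L
      rw [Nat.card_eq_fintype_card]
      exact FiniteField.pow_card x0
    · rw [hy1]
      intro h3
      rw [← he0] at h3
      obtain ⟨y1, hy⟩ := mem_range_of_pow h3
      apply h1
      refine hcon x0 y1 ?_
      apply (algebraMap L Ω).injective
      have := ev2_map (F := F) (IsScalarTower.toAlgHom F L Ω) x0 y1 f
      rw [map_zero, ← h2, ← hy]
      exact this
  have hfin := c.card_zeros hmem hne Z hzero
  rw [hZcard, hcD', mul_comm] at hfin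
  have h1 : G.card ≤ l + p ^ j * n := Nat.le_of_mul_le_mul_left hfin hD
  have h2 : p ^ j * n + p ^ j * aa = p ^ j * P := by
    rw [← mul_add]
    congr 1
    have : aa ≤ D * l' * (aa + B * D) := by
      refine le_trans (Nat.le_add_right aa (B * D)) ?_
      apply Nat.le_mul_of_pos_left
      rw [hl']
      positivity
    omega
  have h3 : aa ≤ p ^ j * aa := Nat.le_mul_of_pos_left _ hpj
  omega


end Pool.Agent.BCX6
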