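import Pool.Agent.BCX.ConvG

/-!
# Minimum distances: change of the field of constants and of the designed distance
-/

namespace BCX6

open Polynomial Pool.Agent.Helper36.BCH

section transport

variable {K K₀ L : Type} [Field K] [Field K₀] [Field L] [Algebra K L] [Algebra K₀ L]

theorem aeval_map_equiv (e : K₀ ≃+* K) (he : ∀ x, algebraMap K L (e x) = algebraMap K₀ L x)
    (x : L) (f : K₀[X]) : aeval x (f.map (e : K₀ →+* K)) = aeval x f := by
  rw [aeval_def, eval₂_map, aeval_def]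
  congr 1
  exact RingHom.ext he

theorem weights_map_subset (e : K₀ ≃+* K) (n : ℕ) (g : K₀[X]) :
    weights n g ⊆ weights n (g.map (e : K₀ →+* K)) := by
  rintro w ⟨c, hc0, hc, hg, hw⟩
  refine ⟨c.map (e : K₀ →+* K), (Polynomial.map_ne_zero_iff e.injective).2 hc0, ?_,
    Polynomial.map_dvd _ hg, ?_⟩
  · rwa [natDegree_map]
  · rwa [support_map_of_injective _ e.injective]

theorem map_symm_map (e : K₀ ≃+* K) (g : K₀[X]) :
    (g.map (e : K₀ →+* K)).map (e.symm : K →+* K₀) = g := by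
  rw [Polynomial.map_map]
  have : (e.symm : K →+* K₀).comp (e : K₀ →+* K) = RingHom.id K₀ :=
    RingHom.ext fun x => e.symm_apply_apply x
  rw [this, Polynomial.map_id]

theorem weights_map (e : K₀ ≃+* K) (n : ℕ) (g : K₀[X]) :
    weights n (g.map (e : K₀ →+* K)) = weights n g := by
  refine Set.Subset.antisymm ?_ (weights_map_subset e n g)
  have h := weights_map_subset e.symm n (g.map (e : K₀ →+* K))
  rwa [map_symm_map] at h

/-- the minimum distance depends on the field of constants only up to isomorphism -/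
theorem isMinDist_of_equiv (e : K₀ ≃+* K) (he : ∀ x, algebraMap K L (e x) = algebraMap K₀ L x)
    {α : L} {δ d : ℕ} (h : IsMinDist K₀ α δ d) : IsMinDist K α δ d := by
  obtain ⟨g, ⟨hg1, hg2, hg3⟩, hl⟩ := h
  have he' : ∀ x, algebraMap K₀ L (e.symm x) = algebraMap K L x := fun x => by
    rw [← he, e.apply_symm_apply]
  refine ⟨g.map (e : K₀ →+* K), ⟨hg1.map _, fun j h1 h2 => ?_, fun f hf hf0 => ?_⟩, ?_⟩
  · rw [aeval_map_equiv e he]
    exact hg2 j h1 h2
  · rw [natDegree_map]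
    have h1 := hg3 (f.map (e.symm : K →+* K₀)) (hf.map _) fun j h1 h2 => by
      rw [aeval_map_equiv e.symm he']
      exact hf0 j h1 h2
    rwa [natDegree_map] at h1
  · rwa [weights_map]

end transport

/-- if the order of the field divides `δ`, the codes of designed distances `δ` and `δ + 1` agree -/
theorem isMinDist_succ {K L : Type} [Field K] [Finite K] [Field L] [Algebra K L] {α : L}
    {δ d : ℕ} (hδ : 2 ≤ δ) (hq : Nat.card K ∣ δ) (h : IsMinDist K α (δ + 1) d) :
    IsMinDist K α δ d := by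
  obtain ⟨g, ⟨hg1, hg2, hg3⟩, hl⟩ := h
  refine ⟨g, ⟨hg1, fun j h1 h2 => hg2 j h1 (by omega), fun f hf hf0 => hg3 f hf fun j h1 h2 => ?_⟩,
    hl⟩
  rcases Nat.lt_succ_iff_lt_or_eq.1 h2 with h | h
  · exact hf0 j h1 h
  · obtain ⟨e, he⟩ := hq
    have hq1 : 1 < Nat.card K := Finite.one_lt_card
    have he0 : e ≠ 0 := by
      rintro rfl
      omega
    have heδ : e < δ := by
      rw [he]
      exact lt_mul_left (Nat.pos_of_ne_zero he0) hq1
    rw [h, he, mul_comm, pow_mul, Pool.Agent.BCX.aeval_pow_card,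
      hf0 e (Nat.pos_of_ne_zero he0) heδ, zero_pow (by omega)]

/-- the final form of the theorem, from the existence for one field and one designed distance -/
theorem final_of (H : ∀ (K : Type) [Field K] [Finite K] (δ : ℕ), 2 ≤ δ → ¬ Nat.card K ∣ δ →
      ∃ Q0 : ℕ, ∀ (L : Type) [Field L] [Finite L] [Algebra K L] (α : L), IsPrimitiveElement α →
        Q0 ≤ Nat.card L → IsMinDist K α δ δ)
    (q δ : ℕ) (hδ : 2 ≤ δ) :
    ∃ m0 : ℕ, ∀ (K L : Type) [Field K] [Finite K] [Field L] [Finite L] [Algebra K L] (α : L),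
      Nat.card K = q → m0 ≤ Module.finrank K L → IsPrimitiveElement α →
      (IsMinDist K α δ δ ↔ ¬ q ∣ δ) ∧ (q ∣ δ → IsMinDist K α δ (δ + 1)) := by
  by_cases hex : ∃ (K₀ : Type) (_ : Field K₀) (_ : Finite K₀), Nat.card K₀ = q
  swap
  · exact ⟨0, fun K L _ _ _ _ _ α hK => absurd ⟨K, inferInstance, inferInstance, hK⟩ hex⟩
  obtain ⟨K₀, _, _, hK₀⟩ := hex
  have hq1 : 1 < Nat.card K₀ := Finite.one_lt_card
  obtain ⟨Q1, hQ1⟩ : ∃ Q0 : ℕ, ∀ (L : Type) [Field L] [Finite L] [Algebra K₀ L] (α : L),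
      IsPrimitiveElement α → Q0 ≤ Nat.card L → ¬ q ∣ δ → IsMinDist K₀ α δ δ := by
    by_cases h : q ∣ δ
    · exact ⟨0, fun L _ _ _ α _ _ h' => absurd h h'⟩
    · obtain ⟨Q0, hQ0⟩ := H K₀ δ hδ (by rwa [hK₀])
      exact ⟨Q0, fun L _ _ _ α hα hL _ => hQ0 L α hα hL⟩
  obtain ⟨Q2, hQ2⟩ : ∃ Q0 : ℕ, ∀ (L : Type) [Field L] [Finite L] [Algebra K₀ L] (α : L),
      IsPrimitiveElement α → Q0 ≤ Nat.card L → q ∣ δ → IsMinDist K₀ α δ (δ + 1) := by
    by_cases h : q ∣ δ
    · have h1 : ¬ Nat.card K₀ ∣ δ + 1 := by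
        rw [hK₀]
        intro h2
        have h3 := (Nat.dvd_add_right h).1 h2
        rw [Nat.dvd_one] at h3
        omega
      obtain ⟨Q0, hQ0⟩ := H K₀ (δ + 1) (by omega) h1
      exact ⟨Q0, fun L _ _ _ α hα hL _ => isMinDist_succ hδ (by rwa [hK₀]) (hQ0 L α hα hL)⟩
    · exact ⟨0, fun L _ _ _ α _ _ h' => absurd h' h⟩
  refine ⟨max Q1 Q2, fun K L _ _ _ _ _ α hK hm hα => ?_⟩
  have hL : max Q1 Q2 ≤ Nat.card L := by
    have : Fintype K := Fintype.ofFinite K
    have : Fintype L := Fintype.ofFinite L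
    rw [Module.natCard_eq_pow_finrank (K := K) (V := L)]
    calc max Q1 Q2 ≤ Module.finrank K L := hm
      _ ≤ 2 ^ Module.finrank K L := Nat.lt_two_pow_self.le
      _ ≤ Nat.card K ^ Module.finrank K L := Nat.pow_le_pow_left (Finite.one_lt_card) _
  have : Fintype K₀ := Fintype.ofFinite K₀
  have : Fintype K := Fintype.ofFinite K
  let e : K₀ ≃+* K := FiniteField.ringEquivOfCardEq (by
    rw [← Nat.card_eq_fintype_card, ← Nat.card_eq_fintype_card, hK₀, hK])
  let _ : Algebra K₀ L := ((algebraMap K L).comp (e : K₀ →+* K)).toAlgebra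
  have he : ∀ x, algebraMap K L (e x) = algebraMap K₀ L x := fun x => rfl
  refine ⟨⟨fun h h' => Pool.Agent.BCX.not_isMinDist_of_dvd hα hδ (by rwa [hK]) h, fun h => ?_⟩,
    fun h => ?_⟩
  · exact isMinDist_of_equiv e he (hQ1 L α hα ((le_max_left _ _).trans hL) h)
  · exact isMinDist_of_equiv e he (hQ2 L α hα ((le_max_right _ _).trans hL) h)

end BCX6
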